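import Mathlib

set_option autoImplicit false

namespace Pool.Agent.H76.Brit

open HNNExtension HNNExtension.NormalWord

variable {G : Type*} [Group G] {A B : Subgroup G} (φ : A ≃* B)

/-- elements represented by a reduced word with all entries in `H` -/
def RW (H : Subgroup G) (x : HNNExtension G A B φ) : Prop :=
  ∃ w : ReducedWord G A B, w.prod φ = x ∧ w.head ∈ H ∧ ∀ p ∈ w.toList, p.2 ∈ H

variable {φ}

theorem prod_head (g : G) (w : ReducedWord G A B) :
    (⟨g * w.head, w.toList, w.chain⟩ : ReducedWord G A B).prod φ = of g * w.prod φ := by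
  simp [ReducedWord.prod, mul_assoc]

theorem RW.of_mul {H : Subgroup G} {x : HNNExtension G A B φ} (hx : RW φ H x) {g : G}
    (hg : g ∈ H) : RW φ H (of g * x) := by
  obtain ⟨w, rfl, hw1, hw2⟩ := hx
  exact ⟨⟨g * w.head, w.toList, w.chain⟩, prod_head g w, H.mul_mem hg hw1, hw2⟩

theorem t_of {u : ℤˣ} (a : toSubgroup A B u) :
    (t ^ (u : ℤ) * of (a : G) : HNNExtension G A B φ) =
      of (toSubgroupEquiv φ u a : G) * t ^ (u : ℤ) := by
  rcases Int.units_eq_one_or u with rfl | rfl
  · rw [Units.val_one, zpow_one]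
    exact t_mul_of (φ := φ) a
  · rw [Units.val_neg, Units.val_one, zpow_neg, zpow_one]
    exact inv_t_mul_of (φ := φ) a

theorem RW.t_mul {H : Subgroup G}
    (hH : ∀ (u : ℤˣ) (a : toSubgroup A B u), (a : G) ∈ H → (toSubgroupEquiv φ u a : G) ∈ H)
    {x : HNNExtension G A B φ} (hx : RW φ H x) (u : ℤˣ) : RW φ H (t ^ (u : ℤ) * x) := by
  obtain ⟨w, rfl, hw1, hw2⟩ := hx
  rcases w with ⟨g, l, hch⟩
  cases l with
  | nil =>
    refine ⟨⟨1, [(u, g)], List.isChain_singleton _⟩, ?_, H.one_mem, ?_⟩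
    · simp [ReducedWord.prod]
    · intro p hp
      rw [List.mem_singleton] at hp
      subst hp
      exact hw1
  | cons p l =>
    by_cases hcan : g ∈ toSubgroup A B u ∧ p.1 = -u
    · obtain ⟨hg, hp⟩ := hcan
      refine ⟨⟨(toSubgroupEquiv φ u ⟨g, hg⟩ : G) * p.2, l, (List.isChain_cons.1 hch).2⟩, ?_, ?_, ?_⟩
      · have h1 := t_of (φ := φ) (u := u) ⟨g, hg⟩
        simp only [ReducedWord.prod, List.map_cons, List.prod_cons, map_mul]
        rw [← mul_assoc (t ^ (u : ℤ)), h1, hp]
        simp [mul_assoc]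
      · exact H.mul_mem (hH u ⟨g, hg⟩ hw1) (hw2 p (by simp))
      · intro q hq
        exact hw2 q (List.mem_cons_of_mem _ hq)
    · refine ⟨⟨1, (u, g) :: p :: l, ?_⟩, ?_, H.one_mem, ?_⟩
      · rw [List.isChain_cons]
        refine ⟨?_, hch⟩
        intro y hy hg
        simp only [List.head?_cons, Option.mem_def, Option.some.injEq] at hy
        subst hy
        by_contra hne
        apply hcan
        refine ⟨hg, ?_⟩
        rcases Int.units_eq_one_or u with h1 | h1 <;> rcases Int.units_eq_one_or p.1 with h2 | h2 <;>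
          simp_all
      · simp [ReducedWord.prod, mul_assoc]
      · intro q hq
        rcases List.mem_cons.mp hq with rfl | hq
        · exact hw1
        · exact hw2 q hq

theorem RW.one {H : Subgroup G} : RW φ H (1 : HNNExtension G A B φ) :=
  ⟨ReducedWord.empty G A B, by simp [ReducedWord.prod], H.one_mem, by simp⟩

/-- **Subgroup lemma for HNN extensions.** -/
theorem hnn_sub {H : Subgroup G} (hH : ∀ a : A, (a : G) ∈ H ↔ (φ a : G) ∈ H) {g : G}
    (hg : (of g : HNNExtension G A B φ) ∈ Subgroup.closure (of '' (H : Set G) ∪ {t})) : g ∈ H := by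
  have hH' : ∀ (u : ℤˣ) (a : toSubgroup A B u), (a : G) ∈ H → (toSubgroupEquiv φ u a : G) ∈ H := by
    intro u a ha
    rcases Int.units_eq_one_or u with rfl | rfl
    · exact (hH a).mp ha
    · let b : B := ⟨a.1, a.2⟩
      change ((φ.symm b : A) : G) ∈ H
      rw [hH (φ.symm b), MulEquiv.apply_symm_apply]
      exact ha
  have key : ∀ x ∈ Subgroup.closure (of '' (H : Set G) ∪ {t} : Set (HNNExtension G A B φ)),
      ∀ y, RW φ H y → RW φ H (x * y) ∧ RW φ H (x⁻¹ * y) := by
    intro x hx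
    induction hx using Subgroup.closure_induction with
    | mem x hx =>
      intro y hy
      rcases hx with ⟨h, hh, rfl⟩ | hx
      · refine ⟨hy.of_mul hh, ?_⟩
        rw [← map_inv]
        exact hy.of_mul (H.inv_mem hh)
      · rw [Set.mem_singleton_iff] at hx
        subst hx
        have h1 := hy.t_mul hH' 1
        have h2 := hy.t_mul hH' (-1)
        simp only [Units.val_one, zpow_one, Units.val_neg, zpow_neg] at h1 h2
        exact ⟨h1, h2⟩
    | one => intro y hy; simpa using hy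
    | mul a b _ _ ha hb =>
      intro y hy
      refine ⟨?_, ?_⟩
      · rw [mul_assoc]; exact (ha _ (hb y hy).1).1
      · rw [mul_inv_rev, mul_assoc]; exact (hb _ (ha y hy).2).2
    | inv a _ ha =>
      intro y hy
      rw [inv_inv]
      exact ⟨(ha y hy).2, (ha y hy).1⟩
  have h1 := (key _ hg 1 RW.one).1
  rw [mul_one] at h1
  obtain ⟨w, hw, hw1, _⟩ := h1
  have h2 : w.toList = [] := ReducedWord.toList_eq_nil_of_mem_of_range φ w ⟨g, hw.symm⟩
  have h3 : w.prod φ = of w.head := by simp [ReducedWord.prod, h2]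
  rw [h3] at hw
  rw [← of_injective φ hw]
  exact hw1

section amalgam

variable {L : Subgroup G}

/-- alternating reduced words for the amalgam lemma: lists `(1,q₁),(-1,p₁),(1,q₂),(-1,p₂),…` -/
inductive Alt (L P Q : Subgroup G) : List (ℤˣ × G) → Prop
  | nil : Alt L P Q []
  | cons (q p : G) (l : List (ℤˣ × G)) (hq : q ∈ Q) (hqL : q ∉ L) (hp : p ∈ P)
      (hpL : p ∈ L → l = []) (hl : Alt L P Q l) : Alt L P Q ((1, q) :: (-1, p) :: l)

theorem Alt.chain {L P Q : Subgroup G} {l : List (ℤˣ × G)} (h : Alt L P Q l) :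
    l.IsChain (fun a b => a.2 ∈ toSubgroup L L a.1 → a.1 = b.1) := by
  induction h with
  | nil => exact List.isChain_nil
  | cons q p l hq hqL hp hpL hl ih =>
    rw [List.isChain_cons]
    refine ⟨?_, ?_⟩
    · intro y hy h
      exact absurd h hqL
    · rw [List.isChain_cons]
      refine ⟨?_, ih⟩
      intro y hy h
      have : l = [] := hpL h
      subst this
      simp at hy

/-- elements represented by alternating words -/
def AW (P Q : Subgroup G) (x : HNNExtension G L L (MulEquiv.refl L)) : Prop :=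
  ∃ (g : G) (l : List (ℤˣ × G)), g ∈ P ∧ Alt L P Q l ∧
    x = of g * (l.map (fun x => t ^ (x.1 : ℤ) * of x.2)).prod

theorem tt_of {a : G} (ha : a ∈ L) :
    (t * of a : HNNExtension G L L (MulEquiv.refl L)) = of a * t :=
  t_mul_of (φ := MulEquiv.refl L) (⟨a, ha⟩ : L)

theorem tt_of' {a : G} (ha : a ∈ L) :
    (t⁻¹ * of a : HNNExtension G L L (MulEquiv.refl L)) = of a * t⁻¹ :=
  inv_t_mul_of (φ := MulEquiv.refl L) (⟨a, ha⟩ : L)

theorem AW.step {P Q : Subgroup G} (hPQ : ∀ a ∈ L, a ∈ P ↔ a ∈ Q)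
    {x : HNNExtension G L L (MulEquiv.refl L)} (hx : AW P Q x) {q : G} (hq : q ∈ Q) :
    AW P Q (t * of q * t⁻¹ * x) := by
  obtain ⟨g, l, hg, hl, rfl⟩ := hx
  by_cases hqL : q ∈ L
  · refine ⟨q * g, l, P.mul_mem ((hPQ q hqL).mpr hq) hg, hl, ?_⟩
    rw [tt_of hqL, map_mul]
    group
  · by_cases hgL : g ∈ L
    · cases hl with
      | nil =>
        refine ⟨1, [(1, q), (-1, g)], P.one_mem, Alt.cons q g [] hq hqL hg (fun _ => rfl) Alt.nil, ?_⟩
        simp [mul_assoc]
      | cons q₁ p₁ l hq₁ hq₁L hp₁ hp₁L hl =>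
        have h1 : (t * of q * t⁻¹ * (of g * (List.map (fun x : ℤˣ × G => t ^ (x.1 : ℤ) * of x.2)
            (((1 : ℤˣ), q₁) :: ((-1 : ℤˣ), p₁) :: l)).prod) : HNNExtension G L L (MulEquiv.refl L)) =
            t * of (q * g * q₁) * t⁻¹ *
              (of p₁ * (List.map (fun x : ℤˣ × G => t ^ (x.1 : ℤ) * of x.2) l).prod) := by
          simp only [List.map_cons, List.prod_cons, Units.val_one, zpow_one, Units.val_neg,
            zpow_neg, map_mul]
          generalize (List.map (fun x : ℤˣ × G => (t ^ (x.1 : ℤ) * of x.2 :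
            HNNExtension G L L (MulEquiv.refl L))) l).prod = Z
          have h2 := tt_of' hgL
          calc t * of q * t⁻¹ * (of g * (t * of q₁ * (t⁻¹ * of p₁ * Z)))
              = t * of q * (t⁻¹ * of g) * (t * (of q₁ * (t⁻¹ * (of p₁ * Z)))) := by
                simp only [mul_assoc]
            _ = t * (of q * of g * of q₁) * t⁻¹ * (of p₁ * Z) := by
                rw [h2]; simp only [mul_assoc, inv_mul_cancel_left]
        rw [h1]
        have hq' : q * g * q₁ ∈ Q := Q.mul_mem (Q.mul_mem hq ((hPQ g hgL).mp hg)) hq₁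
        by_cases hq'L : q * g * q₁ ∈ L
        · refine ⟨q * g * q₁ * p₁, l, P.mul_mem ((hPQ _ hq'L).mpr hq') hp₁, hl, ?_⟩
          rw [tt_of hq'L, map_mul _ _ p₁]
          group
        · refine ⟨1, (1, q * g * q₁) :: (-1, p₁) :: l, P.one_mem,
            Alt.cons _ _ _ hq' hq'L hp₁ hp₁L hl, ?_⟩
          simp [mul_assoc]
    · refine ⟨1, (1, q) :: (-1, g) :: l, P.one_mem,
        Alt.cons q g l hq hqL hg (fun h => absurd h hgL) hl, ?_⟩
      simp [mul_assoc]

/-- **Amalgam lemma** in the HNN extension with stable letter centralising `L`. -/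
theorem amal {P Q : Subgroup G} (hPQ : ∀ a ∈ L, a ∈ P ↔ a ∈ Q) {g : G}
    (hg : (of g : HNNExtension G L L (MulEquiv.refl L)) ∈
      Subgroup.closure (of '' (P : Set G) ∪ (fun q => t * of q * t⁻¹) '' (Q : Set G))) : g ∈ P := by
  have key : ∀ x ∈ Subgroup.closure (of '' (P : Set G) ∪ (fun q => t * of q * t⁻¹) '' (Q : Set G) :
      Set (HNNExtension G L L (MulEquiv.refl L))),
      ∀ y, AW P Q y → AW P Q (x * y) ∧ AW P Q (x⁻¹ * y) := by
    intro x hx
    induction hx using Subgroup.closure_induction with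
    | mem x hx =>
      intro y hy
      rcases hx with ⟨h, hh, rfl⟩ | ⟨q, hq, rfl⟩
      · obtain ⟨g, l, hg, hl, rfl⟩ := hy
        refine ⟨⟨h * g, l, P.mul_mem hh hg, hl, by rw [map_mul, mul_assoc]⟩,
          ⟨h⁻¹ * g, l, P.mul_mem (P.inv_mem hh) hg, hl, by rw [map_mul, mul_assoc, map_inv]⟩⟩
      · refine ⟨hy.step hPQ hq, ?_⟩
        have := hy.step hPQ (Q.inv_mem hq)
        have h2 : (t * of q * t⁻¹ : HNNExtension G L L (MulEquiv.refl L))⁻¹ = t * of q⁻¹ * t⁻¹ := by
          rw [map_inv]; group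
        change AW P Q ((t * of q * t⁻¹)⁻¹ * y)
        rw [h2]
        exact this
    | one => intro y hy; simpa using hy
    | mul a b _ _ ha hb =>
      intro y hy
      refine ⟨?_, ?_⟩
      · rw [mul_assoc]; exact (ha _ (hb y hy).1).1
      · rw [mul_inv_rev, mul_assoc]; exact (hb _ (ha y hy).2).2
    | inv a _ ha =>
      intro y hy
      rw [inv_inv]
      exact ⟨(ha y hy).2, (ha y hy).1⟩
  have h0 : AW P Q (1 : HNNExtension G L L (MulEquiv.refl L)) :=
    ⟨1, [], P.one_mem, Alt.nil, by simp⟩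
  have h1 := (key _ hg 1 h0).1
  rw [mul_one] at h1
  obtain ⟨g', l, hg', hl, heq⟩ := h1
  let w : ReducedWord G L L := ⟨g', l, hl.chain⟩
  have hw : w.prod (MulEquiv.refl L) = of g := heq.symm
  have h2 : w.toList = [] := ReducedWord.toList_eq_nil_of_mem_of_range _ w ⟨g, hw.symm⟩
  have h3 : w.prod (MulEquiv.refl L) = of w.head := by simp [ReducedWord.prod, h2]
  rw [h3] at hw
  rw [← of_injective _ hw]
  exact hg'

end amalgam

end Pool.Agent.H76.Brit
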