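import Mathlib

set_option autoImplicit false
set_option linter.style.haveILetI false

namespace Pool.Agent.H76.FP

open Monoid Group

/-- Criterion for finite presentability. -/
theorem fp_of {W Γ : Type*} [Group W] [Group Γ] [IsFinitelyPresented W] (Θ : W →* Γ)
    (hs : Function.Surjective Θ) (R : Set W) (hR : R.Finite) (hR0 : ∀ r ∈ R, Θ r = 1)
    (σ : Γ →* W ⧸ Subgroup.normalClosure R) (hσ : ∀ w, σ (Θ w) = QuotientGroup.mk' _ w) :
    IsFinitelyPresented Γ := by
  refine IsFinitelyPresented.of_surjective Θ hs ⟨R, hR, le_antisymm ?_ ?_⟩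
  · exact Subgroup.normalClosure_le_normal (fun r hr => hR0 r hr)
  · intro w hw
    rw [MonoidHom.mem_ker] at hw
    have h1 := hσ w
    rw [hw, map_one] at h1
    exact (QuotientGroup.eq_one_iff w).mp h1.symm

theorem fg_of_fp (G : Type*) [Group G] [h : IsFinitelyPresented G] : Group.FG G := by
  obtain ⟨n, φ, hφ, _⟩ := h.out
  exact Group.fg_of_surjective hφ

theorem exists_gens (G : Type*) [Group G] [h : Group.FG G] :
    ∃ S : Set G, S.Finite ∧ Subgroup.closure S = ⊤ := by
  obtain ⟨S, hS, hS'⟩ := Group.fg_iff.mp h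
  exact ⟨S, hS', hS⟩

/-- commuting from generators -/
theorem comm_of_gens {G H K : Type*} [Group G] [Group H] [Group K] {f : G →* K} {f' : H →* K}
    {S : Set G} {T : Set H} (hS : Subgroup.closure S = ⊤) (hT : Subgroup.closure T = ⊤)
    (h : ∀ x ∈ S, ∀ y ∈ T, Commute (f x) (f' y)) : ∀ x y, Commute (f x) (f' y) := by
  have h1 : ∀ y ∈ T, ∀ x, Commute (f x) (f' y) := by
    intro y hy x
    have hx : x ∈ Subgroup.closure S := by rw [hS]; trivial
    induction hx using Subgroup.closure_induction with
    | mem x hx => exact h x hx y hy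
    | one => rw [map_one]; exact Commute.one_left _
    | mul a b _ _ ha hb => rw [map_mul]; exact ha.mul_left hb
    | inv a _ ha => rw [map_inv]; exact ha.inv_left
  intro x y
  have hy : y ∈ Subgroup.closure T := by rw [hT]; trivial
  induction hy using Subgroup.closure_induction with
  | mem y hy => exact h1 y hy x
  | one => rw [map_one]; exact Commute.one_right _
  | mul a b _ _ ha hb => rw [map_mul]; exact ha.mul_right hb
  | inv a _ ha => rw [map_inv]; exact ha.inv_right

/-- Direct products of finitely presented groups are finitely presented. -/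
theorem prod (G H : Type*) [Group G] [Group H] [IsFinitelyPresented G] [IsFinitelyPresented H] :
    IsFinitelyPresented (G × H) := by
  haveI := fg_of_fp G
  haveI := fg_of_fp H
  obtain ⟨S, hS, hS'⟩ := exists_gens G
  obtain ⟨T, hT, hT'⟩ := exists_gens H
  let R : Set (Coprod G H) := Set.image2 (fun x y => (Coprod.inl x : Coprod G H) * Coprod.inr y * (Coprod.inl x)⁻¹ *
    (Coprod.inr y)⁻¹) S T
  have hR : R.Finite := hS.image2 _ hT
  let q : Coprod G H →* Coprod G H ⧸ Subgroup.normalClosure R := QuotientGroup.mk' _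
  have hcomm : ∀ (x : G) (y : H), Commute ((q.comp Coprod.inl) x) ((q.comp Coprod.inr) y) := by
    apply comm_of_gens hS' hT'
    intro x hx y hy
    have h1 : (Coprod.inl x : Coprod G H) * Coprod.inr y * (Coprod.inl x)⁻¹ *
        (Coprod.inr y)⁻¹ ∈ Subgroup.normalClosure R :=
      Subgroup.subset_normalClosure ⟨x, hx, y, hy, rfl⟩
    have h2 : q ((Coprod.inl x : Coprod G H) * Coprod.inr y * (Coprod.inl x)⁻¹ *
        (Coprod.inr y)⁻¹) = 1 := (QuotientGroup.eq_one_iff _).mpr h1
    rw [map_mul, map_mul, map_mul, map_inv, map_inv, mul_inv_eq_one, mul_inv_eq_iff_eq_mul] at h2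
    exact h2
  refine fp_of (Coprod.toProd : Coprod G H →* G × H) Coprod.toProd_surjective R hR ?_
    (MonoidHom.noncommCoprod _ _ hcomm) ?_
  · rintro _ ⟨x, hx, y, hy, rfl⟩
    rw [map_mul, map_mul, map_mul, map_inv, map_inv, Coprod.toProd_apply_inl,
      Coprod.toProd_apply_inr]
    exact Prod.ext (by simp) (by simp)
  · intro w
    have : (MonoidHom.noncommCoprod _ _ hcomm).comp (Coprod.toProd : Coprod G H →* G × H) = q := by
      apply Coprod.hom_ext
      · ext x; simp [q]
      · ext y; simp [q]
    exact DFunLike.congr_fun this w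

/-- HNN extensions of finitely presented groups over finitely generated subgroups are finitely
presented. -/
theorem hnn {G : Type*} [Group G] [IsFinitelyPresented G] {A B : Subgroup G} (hA : A.FG)
    (φ : A ≃* B) : IsFinitelyPresented (HNNExtension G A B φ) := by
  haveI : Group.FG A := (Group.fg_iff_subgroup_fg A).mpr hA
  obtain ⟨S, hS, hS'⟩ := exists_gens A
  let τ : Coprod G (Multiplicative ℤ) := Coprod.inr (Multiplicative.ofAdd 1)
  let R : Set (Coprod G (Multiplicative ℤ)) :=
    (fun a : A => τ * Coprod.inl (a : G) * τ⁻¹ * (Coprod.inl (φ a : G))⁻¹) '' S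
  have hR : R.Finite := hS.image _
  let q : Coprod G (Multiplicative ℤ) →* Coprod G (Multiplicative ℤ) ⧸ Subgroup.normalClosure R :=
    QuotientGroup.mk' _
  have hconj : ∀ a : A, q τ * (q.comp Coprod.inl) (a : G) = (q.comp Coprod.inl) (φ a : G) * q τ := by
    intro a
    have ha : a ∈ Subgroup.closure S := by rw [hS']; trivial
    induction ha using Subgroup.closure_induction with
    | mem a ha =>
      have h1 : τ * Coprod.inl (a : G) * τ⁻¹ * (Coprod.inl (φ a : G))⁻¹ ∈ Subgroup.normalClosure R :=
        Subgroup.subset_normalClosure ⟨a, ha, rfl⟩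
      have h2 : q (τ * Coprod.inl (a : G) * τ⁻¹ * (Coprod.inl (φ a : G))⁻¹) = 1 :=
        (QuotientGroup.eq_one_iff _).mpr h1
      rw [map_mul, map_mul, map_mul, map_inv, map_inv, mul_inv_eq_one, mul_inv_eq_iff_eq_mul] at h2
      exact h2
    | one => simp
    | mul a b _ _ ha hb =>
      rw [Subgroup.coe_mul, map_mul, ← mul_assoc, ha, mul_assoc, hb, map_mul φ, Subgroup.coe_mul,
        map_mul, mul_assoc]
    | inv a _ ha =>
      rw [Subgroup.coe_inv, map_inv, map_inv φ, Subgroup.coe_inv, map_inv, mul_inv_eq_iff_eq_mul,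
        mul_assoc, ha]
      group
  refine fp_of (Coprod.lift HNNExtension.of (zpowersHom _ HNNExtension.t) :
    Coprod G (Multiplicative ℤ) →* HNNExtension G A B φ) ?_ R hR ?_
    (HNNExtension.lift (q.comp Coprod.inl) (q τ) hconj) ?_
  · intro x
    induction x using HNNExtension.induction_on with
    | of g => exact ⟨Coprod.inl g, by simp⟩
    | t => exact ⟨τ, by simp [τ]⟩
    | mul x y hx hy =>
      obtain ⟨a, rfl⟩ := hx
      obtain ⟨b, rfl⟩ := hy
      exact ⟨a * b, map_mul _ _ _⟩
    | inv x hx =>
      obtain ⟨a, rfl⟩ := hx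
      exact ⟨a⁻¹, map_inv _ _⟩
  · rintro _ ⟨a, ha, rfl⟩
    simp only [map_mul, map_inv, Coprod.lift_apply_inl, τ, Coprod.lift_apply_inr, zpowersHom_apply,
      toAdd_ofAdd, zpow_one]
    rw [HNNExtension.t_mul_of]
    group
  · intro w
    have : (HNNExtension.lift (q.comp Coprod.inl) (q τ) hconj).comp
        (Coprod.lift HNNExtension.of (zpowersHom _ HNNExtension.t)) = q := by
      apply Coprod.hom_ext
      · ext x; simp
      · ext; simp [τ]
    exact DFunLike.congr_fun this w

/-- Free abelian groups of finite rank. -/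
theorem pi_int (n : ℕ) : IsFinitelyPresented (Multiplicative (Fin n → ℤ)) := by
  induction n with
  | zero =>
    haveI : Subsingleton (Multiplicative (Fin 0 → ℤ)) := inferInstanceAs (Subsingleton (Fin 0 → ℤ))
    infer_instance
  | succ n ih =>
    haveI := ih
    haveI := prod (Multiplicative ℤ) (Multiplicative (Fin n → ℤ))
    let e : (Multiplicative ℤ) × (Multiplicative (Fin n → ℤ)) ≃* Multiplicative (Fin (n + 1) → ℤ) :=
      { toFun := fun p => Multiplicative.ofAdd (Fin.cons (Multiplicative.toAdd p.1) (Multiplicative.toAdd p.2))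
        invFun := fun v => (Multiplicative.ofAdd (Multiplicative.toAdd v 0),
          Multiplicative.ofAdd (Fin.tail (Multiplicative.toAdd v)))
        left_inv := by
          rintro ⟨a, b⟩
          rfl
        right_inv := by
          intro v
          change Multiplicative.ofAdd (Fin.cons (Multiplicative.toAdd v 0) (Fin.tail (Multiplicative.toAdd v))) = v
          rw [Fin.cons_self_tail]
          rfl
        map_mul' := by
          rintro ⟨a, b⟩ ⟨a', b'⟩
          apply Multiplicative.toAdd.injective
          funext i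
          refine Fin.cases ?_ (fun j => ?_) i
          · rfl
          · rfl }
    exact IsFinitelyPresented.equiv e

end Pool.Agent.H76.FP
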