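import Mathlib

set_option autoImplicit false

namespace Pool.Agent.H76.Exp

open Finset

/-- `IsExp G D ε`: degrees at most `D`, edge expansion at least `ε`. -/
structure IsExp {V : Type} [Fintype V] (G : SimpleGraph V) (D : ℕ) (ε : ℝ) : Prop where
  deg : ∀ v : V, Nat.card {u : V // G.Adj v u} ≤ D
  exp : ∀ A : Set V, 2 * Nat.card A ≤ Nat.card V →
    ε * (Nat.card A : ℝ) ≤ (Nat.card {p : V × V // p.1 ∈ A ∧ p.2 ∉ A ∧ G.Adj p.1 p.2} : ℝ)

section graph

variable {V : Type} [Fintype V] {G : SimpleGraph V} {D : ℕ} {ε : ℝ}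

open Classical in
/-- ordered edges leaving `A` -/
noncomputable def eb (G : SimpleGraph V) (A : Finset V) : Finset (V × V) :=
  univ.filter (fun p => p.1 ∈ A ∧ p.2 ∉ A ∧ G.Adj p.1 p.2)

open Classical in
/-- outer vertex boundary -/
noncomputable def bd (G : SimpleGraph V) (A : Finset V) : Finset V :=
  univ.filter (fun v => v ∉ A ∧ ∃ a ∈ A, G.Adj a v)

theorem IsExp.deg' (h : IsExp G D ε) (v : V) [DecidablePred (G.Adj v)] :
    (univ.filter (G.Adj v)).card ≤ D := by
  have := h.deg v
  rw [Nat.card_eq_fintype_card, Fintype.card_subtype] at this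
  exact this

theorem IsExp.exp' (h : IsExp G D ε) (A : Finset V) (hA : 2 * A.card ≤ Fintype.card V) :
    ε * (A.card : ℝ) ≤ ((eb G A).card : ℝ) := by
  classical
  have h1 := h.exp (A : Set V) (by simpa using hA)
  have h2 : Nat.card {p : V × V // p.1 ∈ (A : Set V) ∧ p.2 ∉ (A : Set V) ∧ G.Adj p.1 p.2}
      = (eb G A).card := by
    rw [Nat.card_eq_fintype_card, Fintype.card_subtype]
    congr 1
  rw [h2] at h1
  simpa using h1

theorem eb_le (h : IsExp G D ε) (A : Finset V) : (eb G A).card ≤ D * (bd G A).card := by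
  classical
  have h1 : (eb G A).card ≤ D * ((eb G A).image Prod.snd).card := by
    apply Finset.card_le_mul_card_image
    intro b _
    calc ((eb G A).filter (fun p => p.2 = b)).card
        ≤ (univ.filter (G.Adj b)).card := by
          apply Finset.card_le_card_of_injOn Prod.fst
          · intro p hp
            simp only [eb, mem_coe, mem_filter, mem_univ, true_and] at hp ⊢
            rw [← hp.2]
            exact hp.1.2.2.symm
          · intro p hp q hq hpq
            simp only [mem_coe, mem_filter] at hp hq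
            exact Prod.ext hpq (hp.2.trans hq.2.symm)
      _ ≤ D := h.deg' b
  refine h1.trans (Nat.mul_le_mul_left _ (card_le_card ?_))
  intro v hv
  simp only [eb, mem_image, mem_filter, mem_univ, true_and] at hv
  obtain ⟨p, hp, rfl⟩ := hv
  simp only [bd, mem_filter, mem_univ, true_and]
  exact ⟨hp.2.1, p.1, hp.1, hp.2.2⟩

theorem eb_compl_le (h : IsExp G D ε) (A : Finset V) [DecidableEq V] :
    (eb G Aᶜ).card ≤ D * (bd G A).card := by
  classical
  have h1 : (eb G Aᶜ).card ≤ D * ((eb G Aᶜ).image Prod.fst).card := by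
    apply Finset.card_le_mul_card_image
    intro b _
    calc ((eb G Aᶜ).filter (fun p => p.1 = b)).card
        ≤ (univ.filter (G.Adj b)).card := by
          apply Finset.card_le_card_of_injOn Prod.snd
          · intro p hp
            simp only [eb, mem_coe, mem_filter, mem_univ, true_and] at hp ⊢
            rw [← hp.2]
            exact hp.1.2.2
          · intro p hp q hq hpq
            simp only [mem_coe, mem_filter] at hp hq
            exact Prod.ext (hp.2.trans hq.2.symm) hpq
      _ ≤ D := h.deg' b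
  refine h1.trans (Nat.mul_le_mul_left _ (card_le_card ?_))
  intro v hv
  simp only [eb, mem_image, mem_filter, mem_univ, true_and, mem_compl, not_not] at hv
  obtain ⟨p, hp, rfl⟩ := hv
  simp only [bd, mem_filter, mem_univ, true_and]
  exact ⟨hp.1, p.2, hp.2.1, hp.2.2.symm⟩

/-- vertex expansion of arbitrary sets -/
theorem bd_ge (h : IsExp G D ε) (hε : 0 < ε) (A : Finset V) [DecidableEq V] {m : ℝ}
    (h1 : m ≤ A.card) (h2 : m ≤ (Aᶜ).card) : ε * m ≤ D * ((bd G A).card : ℝ) := by
  by_cases hA : 2 * A.card ≤ Fintype.card V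
  · have h3 := h.exp' A hA
    have h4 : ((eb G A).card : ℝ) ≤ D * ((bd G A).card : ℝ) := by exact_mod_cast eb_le h A
    nlinarith
  · have hc : 2 * (Aᶜ).card ≤ Fintype.card V := by
      have := Finset.card_add_card_compl A
      omega
    have h3 := h.exp' Aᶜ hc
    have h4 : ((eb G Aᶜ).card : ℝ) ≤ D * ((bd G A).card : ℝ) := by exact_mod_cast eb_compl_le h A
    nlinarith

open Classical in
/-- the `R`-neighbourhood -/
noncomputable def nb (G : SimpleGraph V) (R : ℕ) (A : Finset V) : Finset V :=
  univ.filter (fun v => ∃ a ∈ A, ∃ p : G.Walk a v, p.length ≤ R)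

theorem subset_nb (R : ℕ) (A : Finset V) : A ⊆ nb G R A := by
  intro a ha
  simp only [nb, mem_filter, mem_univ, true_and]
  exact ⟨a, ha, SimpleGraph.Walk.nil, by simp⟩

theorem nb_mono {R : ℕ} {A : Finset V} : nb G R A ⊆ nb G (R + 1) A := by
  intro v hv
  simp only [nb, mem_filter, mem_univ, true_and] at hv ⊢
  obtain ⟨a, ha, p, hp⟩ := hv
  exact ⟨a, ha, p, by omega⟩

theorem mem_nb {R : ℕ} {A : Finset V} {v : V} :
    v ∈ nb G R A ↔ ∃ a ∈ A, ∃ p : G.Walk a v, p.length ≤ R := by
  simp only [nb, mem_filter, mem_univ, true_and]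

theorem mem_bd {A : Finset V} {v : V} :
    v ∈ bd G A ↔ v ∉ A ∧ ∃ a ∈ A, G.Adj a v := by
  simp only [bd, mem_filter, mem_univ, true_and]

theorem bd_nb_subset {R : ℕ} {A : Finset V} : bd G (nb G R A) ⊆ nb G (R + 1) A := by
  intro v hv
  obtain ⟨-, w, hw', hw⟩ := mem_bd.mp hv
  obtain ⟨a, ha, p, hp⟩ := mem_nb.mp hw'
  exact mem_nb.mpr ⟨a, ha, p.concat hw, by rw [SimpleGraph.Walk.length_concat]; omega⟩

theorem card_nb_succ {R : ℕ} {A : Finset V} :
    (nb G R A).card + (bd G (nb G R A)).card ≤ (nb G (R + 1) A).card := by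
  classical
  rw [← Finset.card_union_of_disjoint]
  · exact card_le_card (union_subset nb_mono bd_nb_subset)
  · rw [Finset.disjoint_left]
    intro v hv hv'
    simp only [bd, mem_filter, mem_univ, true_and] at hv'
    exact hv'.1 hv

theorem growth (h : IsExp G D ε) (hε : 0 < ε) [Nonempty V] [DecidableEq V] {c : ℝ}
    {R : ℕ} (hR : 8 * (D : ℝ) < R * ε * c) (A : Finset V)
    (hA : (c / 2) * Fintype.card V ≤ A.card) :
    (((nb G R A)ᶜ).card : ℝ) ≤ (c / 8) * Fintype.card V := by
  have hn : (0 : ℝ) < Fintype.card V := by exact_mod_cast Fintype.card_pos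
  have key : ∀ k : ℕ, (((nb G k A)ᶜ).card : ℝ) ≤ (c / 8) * Fintype.card V ∨
      k * (ε * ((c / 8) * Fintype.card V)) ≤ D * ((nb G k A).card : ℝ) := by
    intro k
    induction k with
    | zero => right; simp; positivity
    | succ k ih =>
      rcases ih with ih | ih
      · left
        refine le_trans ?_ ih
        have : (nb G (k + 1) A)ᶜ ⊆ (nb G k A)ᶜ := by
          intro v hv
          rw [mem_compl] at hv ⊢
          exact fun h' => hv (nb_mono h')
        exact_mod_cast card_le_card this
      · by_cases hk : (((nb G k A)ᶜ).card : ℝ) ≤ (c / 8) * Fintype.card V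
        · left
          refine le_trans ?_ hk
          have : (nb G (k + 1) A)ᶜ ⊆ (nb G k A)ᶜ := by
            intro v hv
            rw [mem_compl] at hv ⊢
            exact fun h' => hv (nb_mono h')
          exact_mod_cast card_le_card this
        · right
          push Not at hk
          have h1 : (c / 8) * Fintype.card V ≤ ((nb G k A).card : ℝ) := by
            have : (A.card : ℝ) ≤ (nb G k A).card := by exact_mod_cast card_le_card (subset_nb k A)
            nlinarith
          have h2 := bd_ge h hε (nb G k A) h1 hk.le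
          have h3 : ((nb G k A).card : ℝ) + (bd G (nb G k A)).card ≤ (nb G (k + 1) A).card := by
            exact_mod_cast card_nb_succ
          have h4 : (D : ℝ) * ((nb G k A).card + (bd G (nb G k A)).card) ≤
              D * (nb G (k + 1) A).card := by
            apply mul_le_mul_of_nonneg_left h3 (by positivity)
          push_cast
          linarith
  rcases key R with hk | hk
  · exact hk
  · exfalso
    have h1 : ((nb G R A).card : ℝ) ≤ Fintype.card V := by exact_mod_cast card_le_univ _
    have h2 : (D : ℝ) * ((nb G R A).card : ℝ) ≤ D * Fintype.card V :=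
      mul_le_mul_of_nonneg_left h1 (by positivity)
    nlinarith

open Classical in
/-- A subset of positive proportion of an expander contains a large subset which is an expander
for the graph of pairs at bounded distance. -/
theorem sub_exp (h : IsExp G D ε) (hε : 0 < ε) [Nonempty V] {c : ℝ} (hc : 0 < c)
    {R : ℕ} (hR : 8 * (D : ℝ) < R * ε * c) (B : Finset V)
    (hB : c * Fintype.card V ≤ B.card) :
    ∃ B' ⊆ B, B.card ≤ 2 * B'.card ∧ ∀ A ⊆ B', 2 * A.card ≤ B'.card →
      A.card ≤ 8 * (B'.filter (fun v => v ∉ A ∧ v ∈ nb G R A)).card := by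
  have hn : (0 : ℝ) < Fintype.card V := by exact_mod_cast Fintype.card_pos
  have hBpos : (0 : ℝ) < B.card := lt_of_lt_of_le (by positivity) hB
  let 𝒵 : Finset (Finset V) := B.powerset.filter (fun Z => 2 * Z.card ≤ B.card ∧
    8 * (B.filter (fun v => v ∈ nb G R Z)).card ≤ 9 * Z.card)
  have hne : 𝒵.Nonempty := ⟨∅, by
    simp only [𝒵, mem_filter, mem_powerset, empty_subset, card_empty, mul_zero, zero_le, true_and,
      nonpos_iff_eq_zero, mul_eq_zero, OfNat.ofNat_ne_zero, false_or, card_eq_zero]
    rw [filter_eq_empty_iff]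
    intro v _ hv
    simp [nb] at hv⟩
  obtain ⟨Z, hZ, hmax⟩ := Finset.exists_max_image 𝒵 Finset.card hne
  simp only [𝒵, mem_filter, mem_powerset] at hZ
  obtain ⟨hZB, hZ1, hZ2⟩ := hZ
  have hcardB' : (B \ Z).card = B.card - Z.card := card_sdiff_of_subset hZB
  have hZle : Z.card ≤ B.card := card_le_card hZB
  refine ⟨B \ Z, sdiff_subset, by omega, ?_⟩
  intro A hA hA2
  by_contra hcon
  push Not at hcon
  have hdisj : Disjoint Z A := by
    rw [Finset.disjoint_left]
    intro v hv hv'
    exact (mem_sdiff.mp (hA hv')).2 hv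
  have hcardU : (Z ∪ A).card = Z.card + A.card := card_union_of_disjoint hdisj
  have hAB : A ⊆ B := hA.trans sdiff_subset
  have hUB : Z ∪ A ⊆ B := union_subset hZB hAB
  have hsub : B.filter (fun v => v ∈ nb G R (Z ∪ A)) ⊆
      B.filter (fun v => v ∈ nb G R Z) ∪ (A ∪ (B \ Z).filter (fun v => v ∉ A ∧ v ∈ nb G R A)) := by
    intro v hv
    simp only [mem_filter, nb, mem_univ, true_and, mem_union, mem_sdiff] at hv ⊢
    obtain ⟨hvB, a, ha, p, hp⟩ := hv
    rcases ha with ha | ha
    · exact Or.inl ⟨hvB, a, ha, p, hp⟩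
    · by_cases hvZ : v ∈ Z
      · exact Or.inl ⟨hvB, v, hvZ, SimpleGraph.Walk.nil, by simp⟩
      · by_cases hvA : v ∈ A
        · exact Or.inr (Or.inl hvA)
        · exact Or.inr (Or.inr ⟨⟨hvB, hvZ⟩, hvA, a, ha, p, hp⟩)
  have hc1 := card_le_card hsub
  have hc2 := card_union_le (B.filter (fun v => v ∈ nb G R Z))
    (A ∪ (B \ Z).filter (fun v => v ∉ A ∧ v ∈ nb G R A))
  have hc3 := card_union_le A ((B \ Z).filter (fun v => v ∉ A ∧ v ∈ nb G R A))
  have hbad : 8 * (B.filter (fun v => v ∈ nb G R (Z ∪ A))).card ≤ 9 * (Z ∪ A).card := by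
    rw [hcardU]; omega
  by_cases hU : 2 * (Z ∪ A).card ≤ B.card
  · have := hmax (Z ∪ A) (by
      simp only [𝒵, mem_filter, mem_powerset]
      exact ⟨hUB, hU, hbad⟩)
    rw [hcardU] at this
    omega
  · push Not at hU
    have hlarge : (c / 2) * Fintype.card V ≤ ((Z ∪ A).card : ℝ) := by
      have : (B.card : ℝ) < 2 * ((Z ∪ A).card : ℝ) := by exact_mod_cast hU
      nlinarith
    have hgr := growth h hε hR (Z ∪ A) hlarge
    have hsplit : B.card ≤ (B.filter (fun v => v ∈ nb G R (Z ∪ A))).card +
        ((nb G R (Z ∪ A))ᶜ).card := by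
      rw [← Finset.card_filter_add_card_filter_not (s := B) (fun v => v ∈ nb G R (Z ∪ A))]
      apply Nat.add_le_add_left
      apply card_le_card
      intro v hv
      simp only [mem_filter, mem_compl] at hv ⊢
      exact hv.2
    have h1 : (B.card : ℝ) ≤ ((B.filter (fun v => v ∈ nb G R (Z ∪ A))).card : ℝ) +
        (((nb G R (Z ∪ A))ᶜ).card : ℝ) := by exact_mod_cast hsplit
    have h2 : 8 * ((B.filter (fun v => v ∈ nb G R (Z ∪ A))).card : ℝ) ≤ 9 * ((Z ∪ A).card : ℝ) := by
      exact_mod_cast hbad
    have h3 : 4 * (Z ∪ A).card ≤ 3 * B.card := by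
      rw [hcardU]; omega
    have h4 : 4 * ((Z ∪ A).card : ℝ) ≤ 3 * (B.card : ℝ) := by exact_mod_cast h3
    nlinarith

/-- number of vertices reachable by walks of length at most `k` -/
theorem card_ball_le (h : IsExp G D ε) (k : ℕ) (u : V) [DecidableEq V] 
    [DecidablePred fun v => ∃ p : G.Walk u v, p.length ≤ k] :
    (univ.filter (fun v => ∃ p : G.Walk u v, p.length ≤ k)).card ≤ (D + 1) ^ k := by
  classical
  induction k generalizing u with
  | zero =>
    simp only [nonpos_iff_eq_zero, pow_zero]
    apply Finset.card_le_one.mpr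
    intro a ha b hb
    simp only [mem_filter, mem_univ, true_and] at ha hb
    obtain ⟨p, hp⟩ := ha
    obtain ⟨q, hq⟩ := hb
    rw [← SimpleGraph.Walk.eq_of_length_eq_zero hp, ← SimpleGraph.Walk.eq_of_length_eq_zero hq]
  | succ k ih =>
    have hsub : univ.filter (fun v => ∃ p : G.Walk u v, p.length ≤ k + 1) ⊆
        {u} ∪ (univ.filter (G.Adj u)).biUnion
          (fun w => univ.filter (fun v => ∃ p : G.Walk w v, p.length ≤ k)) := by
      intro v hv
      simp only [mem_filter, mem_univ, true_and, mem_union, mem_singleton, mem_biUnion] at hv ⊢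
      obtain ⟨p, hp⟩ := hv
      cases p with
      | nil => left; rfl
      | cons hadj q =>
        right
        refine ⟨_, hadj, q, ?_⟩
        rw [SimpleGraph.Walk.length_cons] at hp
        omega
    refine (card_le_card hsub).trans ((card_union_le _ _).trans ?_)
    rw [card_singleton]
    have h1 : ((univ.filter (G.Adj u)).biUnion
          (fun w => univ.filter (fun v => ∃ p : G.Walk w v, p.length ≤ k))).card ≤
          (univ.filter (G.Adj u)).card * (D + 1) ^ k :=
      card_biUnion_le_card_mul _ _ _ (fun w _ => ih w)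
    have h2 := Nat.mul_le_mul_right ((D + 1) ^ k) (h.deg' u)
    have h3 : 1 ≤ (D + 1) ^ k := Nat.one_le_pow _ _ (by omega)
    calc 1 + _ ≤ (D + 1) ^ k + D * (D + 1) ^ k := by omega
      _ = (D + 1) ^ (k + 1) := by ring

end graph

end Pool.Agent.H76.Exp
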