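import Mathlib
import Pool.Agent.H76.Exp

set_option autoImplicit false

namespace Pool.Agent.H76.Wee

open Finset Pool.Agent.H76.Exp
open scoped Pointwise

/-- An instance of an `ε`-expander of degree `≤ D` mapped to `Γ` with steps in `S` and fibres of
proportion at most `δ`. -/
def Inst (Γ : Type*) [Group Γ] (D : ℕ) (ε : ℝ) (S : Set Γ) (δ : ℝ) : Prop :=
  ∃ (V : Type) (_ : Fintype V) (_ : Nonempty V) (Gr : SimpleGraph V) (φ : V → Γ),
    IsExp Gr D ε ∧ (∀ u v, Gr.Adj u v → (φ u)⁻¹ * φ v ∈ S) ∧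
    ∀ g, (Nat.card {v : V // φ v = g} : ℝ) ≤ δ * Fintype.card V

/-- `Γ` contains a weakly embedded expander (formulation with finite step sets). -/
def WEE (Γ : Type*) [Group Γ] : Prop :=
  ∃ (D : ℕ) (ε : ℝ) (S : Set Γ), 0 < ε ∧ S.Finite ∧ ∀ δ : ℝ, 0 < δ → Inst Γ D ε S δ

variable {Γ : Type*} [Group Γ]

theorem step_walk {V : Type} {Gr : SimpleGraph V} {φ : V → Γ} {S : Set Γ}
    (hS : ∀ u v, Gr.Adj u v → (φ u)⁻¹ * φ v ∈ S) :
    ∀ (k : ℕ) (u v : V) (p : Gr.Walk u v), p.length ≤ k → (φ u)⁻¹ * φ v ∈ (insert 1 S) ^ k := by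
  intro k
  induction k with
  | zero =>
    intro u v p hp
    have := SimpleGraph.Walk.eq_of_length_eq_zero (Nat.le_zero.mp hp)
    subst this
    simp
  | succ k ih =>
    intro u v p hp
    rw [pow_succ']
    cases p with
    | nil =>
      rw [inv_mul_cancel]
      have h1 := ih u u SimpleGraph.Walk.nil (by simp)
      rw [inv_mul_cancel] at h1
      exact Set.mem_mul.mpr ⟨1, Set.mem_insert _ _, 1, h1, by simp⟩
    | cons hadj q =>
      rename_i w
      rw [SimpleGraph.Walk.length_cons] at hp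
      exact Set.mem_mul.mpr ⟨(φ u)⁻¹ * φ w, Set.mem_insert_of_mem _ (hS _ _ hadj),
        (φ w)⁻¹ * φ v, ih w v q (by omega), by group⟩

/-- **Concentration lemma.** If expanders mapped to `Γ` always have a positive proportion in a
translate `γ ι(H) f` with `f` in a fixed finite set, then `H` contains a weakly embedded
expander. -/
theorem conc {H : Type*} [Group H] (ι : H →* Γ) (hι : Function.Injective ι)
    {D : ℕ} {ε : ℝ} {S : Set Γ} (hε : 0 < ε) (hS : S.Finite) {c : ℝ} (hc : 0 < c)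
    {F : Set Γ} (hF : F.Finite)
    (hyp : ∀ δ : ℝ, 0 < δ → ∃ (V : Type) (_ : Fintype V) (_ : Nonempty V) (Gr : SimpleGraph V)
      (φ : V → Γ), IsExp Gr D ε ∧ (∀ u v, Gr.Adj u v → (φ u)⁻¹ * φ v ∈ S) ∧
      (∀ g, (Nat.card {v : V // φ v = g} : ℝ) ≤ δ * Fintype.card V) ∧
      ∃ γ : Γ, ∃ f ∈ F, c * Fintype.card V ≤ (Nat.card {v : V // ∃ h : H, φ v = γ * ι h * f} : ℝ)) :
    WEE H := by
  classical
  obtain ⟨R, hR⟩ := exists_nat_gt (8 * (D : ℝ) / (ε * c))
  have hR' : 8 * (D : ℝ) < R * ε * c := by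
    rw [div_lt_iff₀ (by positivity)] at hR
    linarith
  let T : Set Γ := (insert 1 S) ^ R
  have hT : T.Finite := by
    have : ∀ k : ℕ, ((insert 1 S) ^ k : Set Γ).Finite := by
      intro k
      induction k with
      | zero => rw [pow_zero]; exact Set.finite_one
      | succ k ih => rw [pow_succ]; exact ih.mul (hS.insert 1)
    exact this R
  let S' : Set H := {h | ∃ f ∈ F, ∃ s ∈ T, ι h = f * s * f⁻¹}
  have hS' : S'.Finite := by
    have h1 : S' ⊆ ι ⁻¹' ((fun p : Γ × Γ => p.1 * p.2 * p.1⁻¹) '' (F ×ˢ T)) := by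
      rintro h ⟨f, hf, s, hs, hh⟩
      exact ⟨(f, s), ⟨hf, hs⟩, hh.symm⟩
    exact (((hF.prod hT).image _).preimage hι.injOn).subset h1
  refine ⟨(D + 1) ^ R, 1 / 8, S', by norm_num, hS', ?_⟩
  intro δ hδ
  obtain ⟨V, _, _, Gr, φ, hexp, hstep, hfib, γ, f, hf, hB⟩ := hyp (δ * c / 2) (by positivity)
  let B : Finset V := univ.filter (fun v => ∃ h : H, φ v = γ * ι h * f)
  have hBcard : (Nat.card {v : V // ∃ h : H, φ v = γ * ι h * f}) = B.card := by
    rw [Nat.card_eq_fintype_card, Fintype.card_subtype]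
  rw [hBcard] at hB
  have hn : (0 : ℝ) < Fintype.card V := by exact_mod_cast Fintype.card_pos
  obtain ⟨B', hB'B, hB'card, hB'exp⟩ := sub_exp hexp hε hc hR' B hB
  have hBpos : (0 : ℝ) < B.card := lt_of_lt_of_le (by positivity) hB
  have hBpos' : 0 < B.card := by exact_mod_cast hBpos
  have hB'pos : 0 < B'.card := by omega
  have hmem : ∀ v : {x // x ∈ B'}, ∃ h : H, φ v.1 = γ * ι h * f := by
    intro v
    have := hB'B v.2
    simpa [B] using this
  choose ψ hψ using hmem
  let Gr' : SimpleGraph {x // x ∈ B'} :=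
    { Adj := fun u v => u ≠ v ∧ ∃ p : Gr.Walk u.1 v.1, p.length ≤ R
      symm := ⟨by
        rintro u v ⟨huv, p, hp⟩
        exact ⟨huv.symm, p.reverse, by rwa [SimpleGraph.Walk.length_reverse]⟩⟩
      loopless := ⟨fun u h => h.1 rfl⟩ }
  refine ⟨{x // x ∈ B'}, inferInstance, ?_, Gr', ψ, ⟨?_, ?_⟩, ?_, ?_⟩
  · obtain ⟨x, hx⟩ := Finset.card_pos.mp hB'pos
    exact ⟨⟨x, hx⟩⟩
  · -- degrees
    intro v
    rw [Nat.card_eq_fintype_card, Fintype.card_subtype]
    refine le_trans ?_ (card_ball_le hexp R v.1)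
    apply Finset.card_le_card_of_injOn (fun u => u.1)
    · intro u hu
      simp only [Gr', mem_coe, mem_filter, mem_univ, true_and] at hu ⊢
      exact hu.2
    · intro a _ b _ hab
      exact Subtype.ext hab
  · -- expansion
    intro A hA
    have hcV : Nat.card {x // x ∈ B'} = B'.card := by
      rw [Nat.card_eq_fintype_card, Fintype.card_coe]
    rw [hcV] at hA
    let A' : Finset V := B'.filter (fun v => ∃ h : v ∈ B', (⟨v, h⟩ : {x // x ∈ B'}) ∈ A)
    have hA'card : Nat.card A = A'.card := by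
      rw [Nat.card_eq_fintype_card, ← Finset.card_univ]
      apply Finset.card_bij (fun (a : A) _ => a.1.1)
      · intro a _
        simp only [A', mem_filter]
        exact ⟨a.1.2, a.1.2, a.2⟩
      · intro a _ b _ hab
        exact Subtype.ext (Subtype.ext hab)
      · intro b hb
        simp only [A', mem_filter] at hb
        obtain ⟨hb1, hb2, hb3⟩ := hb
        exact ⟨⟨⟨b, hb2⟩, hb3⟩, mem_univ _, rfl⟩
    have hA'sub : A' ⊆ B' := filter_subset _ _
    have h1 := hB'exp A' hA'sub (by rw [← hA'card]; exact hA)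
    rw [hA'card]
    have h2 : (B'.filter (fun v => v ∉ A' ∧ v ∈ nb Gr R A')).card ≤
        Nat.card {p : {x // x ∈ B'} × {x // x ∈ B'} // p.1 ∈ A ∧ p.2 ∉ A ∧ Gr'.Adj p.1 p.2} := by
      rw [Nat.card_eq_fintype_card, Fintype.card_subtype]
      rw [← Finset.card_attach (s := (B'.filter (fun v => v ∉ A' ∧ v ∈ nb Gr R A')))]
      have hx : ∀ v : {v // v ∈ (B'.filter (fun v => v ∉ A' ∧ v ∈ nb Gr R A'))},
          ∃ p : {x // x ∈ B'} × {x // x ∈ B'}, (p.1 ∈ A ∧ p.2 ∉ A ∧ Gr'.Adj p.1 p.2) ∧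
            p.2.1 = v.1 := by
        rintro ⟨v, hv⟩
        rw [mem_filter] at hv
        obtain ⟨hv1, hv2, hv3⟩ := hv
        obtain ⟨a, ha, p, hp⟩ := mem_nb.mp hv3
        simp only [A', mem_filter] at ha
        obtain ⟨ha1, ha2, ha3⟩ := ha
        have hvA : (⟨v, hv1⟩ : {x // x ∈ B'}) ∉ A := by
          intro hvA
          apply hv2
          simp only [A', mem_filter]
          exact ⟨hv1, hv1, hvA⟩
        refine ⟨(⟨a, ha1⟩, ⟨v, hv1⟩), ⟨ha3, hvA, ?_, p, hp⟩, rfl⟩
        intro heq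
        dsimp only at heq
        rw [← heq] at hvA
        exact hvA ha3
      choose g hg1 hg2 using hx
      apply Finset.card_le_card_of_injOn g
      · intro v _
        simp only [mem_coe, mem_filter, mem_univ, true_and]
        exact hg1 v
      · intro v _ w _ hvw
        apply Subtype.ext
        rw [← hg2 v, ← hg2 w, hvw]
    have h3 : (A'.card : ℝ) ≤ 8 * (Nat.card {p : {x // x ∈ B'} × {x // x ∈ B'} //
        p.1 ∈ A ∧ p.2 ∉ A ∧ Gr'.Adj p.1 p.2} : ℝ) := by
      exact_mod_cast h1.trans (Nat.mul_le_mul_left _ h2)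
    linarith
  · -- steps
    rintro u v ⟨_, p, hp⟩
    refine ⟨f, hf, (φ u.1)⁻¹ * φ v.1, step_walk hstep R u.1 v.1 p hp, ?_⟩
    rw [hψ u, hψ v, map_mul, map_inv]
    group
  · -- fibres
    intro h
    have h1 : Nat.card {v : {x // x ∈ B'} // ψ v = h} ≤
        Nat.card {v : V // φ v = γ * ι h * f} := by
      apply Nat.card_le_card_of_injective
        (fun v : {v : {x // x ∈ B'} // ψ v = h} => (⟨v.1.1, by rw [hψ v.1, v.2]⟩ :
          {v : V // φ v = γ * ι h * f}))
      intro a b hab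
      apply Subtype.ext
      apply Subtype.ext
      have := congrArg Subtype.val hab
      exact this
    have h2 : (Nat.card {v : {x // x ∈ B'} // ψ v = h} : ℝ) ≤
        (Nat.card {v : V // φ v = γ * ι h * f} : ℝ) := by exact_mod_cast h1
    have h3 := hfib (γ * ι h * f)
    rw [Fintype.card_coe]
    have h4 : (B.card : ℝ) ≤ 2 * B'.card := by exact_mod_cast hB'card
    calc (Nat.card {v : {x // x ∈ B'} // ψ v = h} : ℝ) ≤ δ * c / 2 * Fintype.card V := h2.trans h3
      _ = δ / 2 * (c * Fintype.card V) := by ring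
      _ ≤ δ / 2 * B.card := by apply mul_le_mul_of_nonneg_left hB (by positivity)
      _ ≤ δ / 2 * (2 * B'.card) := by apply mul_le_mul_of_nonneg_left h4 (by positivity)
      _ = δ * B'.card := by ring

/-- Extensions: if `Γ` contains a weakly embedded expander then the quotient or the kernel does. -/
theorem ext_cases {Q : Type*} [Group Q] (π : Γ →* Q) (h : WEE Γ) : WEE Q ∨ WEE π.ker := by
  classical
  obtain ⟨D, ε, S, hε, hS, hinst⟩ := h
  by_cases hQ : WEE Q
  · exact Or.inl hQ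
  · right
    have hno : ∃ δ : ℝ, 0 < δ ∧ ¬ Inst Q D ε (π '' S) δ := by
      by_contra hcon
      push Not at hcon
      exact hQ ⟨D, ε, π '' S, hε, hS.image π, hcon⟩
    obtain ⟨δ₀, hδ₀, hno⟩ := hno
    refine conc (D := D) (c := δ₀) (F := {1}) π.ker.subtype π.ker.subtype_injective hε hS hδ₀
      (Set.finite_singleton 1) ?_
    intro δ hδ
    obtain ⟨V, hV1, hV2, Gr, φ, hexp, hstep, hfib⟩ := hinst δ hδ
    have hbig : ∃ q : Q, δ₀ * Fintype.card V < (Nat.card {v : V // π (φ v) = q} : ℝ) := by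
      by_contra hcon
      push Not at hcon
      apply hno
      refine ⟨V, hV1, hV2, Gr, fun v => π (φ v), hexp, ?_, hcon⟩
      intro u v huv
      exact ⟨_, hstep u v huv, by simp⟩
    obtain ⟨q, hq⟩ := hbig
    have hpos : 0 < Nat.card {v : V // π (φ v) = q} := by
      have : (0 : ℝ) < (Nat.card {v : V // π (φ v) = q} : ℝ) :=
        lt_of_le_of_lt (by positivity) hq
      exact_mod_cast this
    have hne : Nonempty {v : V // π (φ v) = q} := (Nat.card_pos_iff.mp hpos).1
    obtain ⟨v₀, hv₀⟩ := hne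
    refine ⟨V, hV1, hV2, Gr, φ, hexp, hstep, hfib, φ v₀, 1, rfl, ?_⟩
    refine hq.le.trans ?_
    have : Nat.card {v : V // π (φ v) = q} ≤
        Nat.card {v : V // ∃ h : π.ker, φ v = φ v₀ * π.ker.subtype h * 1} := by
      apply Nat.card_le_card_of_injective (fun v : {v : V // π (φ v) = q} =>
        (⟨v.1, ⟨⟨(φ v₀)⁻¹ * φ v.1, by
          rw [MonoidHom.mem_ker, map_mul, map_inv, hv₀, v.2, inv_mul_cancel]⟩, by simp⟩⟩ :
          {v : V // ∃ h : π.ker, φ v = φ v₀ * π.ker.subtype h * 1}))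
      intro a b hab
      have := congrArg Subtype.val hab
      exact Subtype.ext this
    exact_mod_cast this

/-- Overgroups. -/
theorem of_injective {H : Type*} [Group H] (ι : H →* Γ) (hι : Function.Injective ι) (h : WEE H) :
    WEE Γ := by
  obtain ⟨D, ε, S, hε, hS, hinst⟩ := h
  refine ⟨D, ε, ι '' S, hε, hS.image ι, ?_⟩
  intro δ hδ
  obtain ⟨V, hV1, hV2, Gr, φ, hexp, hstep, hfib⟩ := hinst δ hδ
  refine ⟨V, hV1, hV2, Gr, fun v => ι (φ v), hexp, ?_, ?_⟩
  · intro u v huv
    exact ⟨_, hstep u v huv, by simp⟩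
  · intro g
    by_cases hg : ∃ h, ι h = g
    · obtain ⟨h, rfl⟩ := hg
      refine le_trans ?_ (hfib h)
      have : Nat.card {v : V // ι (φ v) = ι h} ≤ Nat.card {v : V // φ v = h} := by
        apply Nat.card_le_card_of_injective (fun v : {v : V // ι (φ v) = ι h} =>
          (⟨v.1, hι v.2⟩ : {v : V // φ v = h}))
        intro a b hab
        have := congrArg Subtype.val hab
        exact Subtype.ext this
      exact_mod_cast this
    · have : IsEmpty {v : V // ι (φ v) = g} := ⟨fun v => hg ⟨_, v.2⟩⟩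
      rw [Nat.card_of_isEmpty, Nat.cast_zero]
      positivity

/-- Subsingleton groups. -/
theorem not_of_subsingleton [Subsingleton Γ] : ¬ WEE Γ := by
  rintro ⟨D, ε, S, hε, hS, hinst⟩
  obtain ⟨V, hV1, hV2, Gr, φ, hexp, hstep, hfib⟩ := hinst (1 / 2) (by norm_num)
  have h1 := hfib 1
  have h2 : Nat.card {v : V // φ v = 1} = Fintype.card V := by
    rw [← Nat.card_eq_fintype_card]
    apply Nat.card_congr
    exact Equiv.subtypeUnivEquiv (fun v => Subsingleton.elim _ _)
  rw [h2] at h1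
  have hn : (0 : ℝ) < Fintype.card V := by exact_mod_cast Fintype.card_pos
  linarith

end Pool.Agent.H76.Wee
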