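import Mathlib
import Pool.Agent.H76.Wee

set_option autoImplicit false

namespace Pool.Agent.H76.TreeL

open Finset Pool.Agent.H76.Exp Pool.Agent.H76.Wee

variable {α : Type*}

/-- Two vertices of the rooted tree `List α` (the parent of `a :: l` being `l`) which are equal or
adjacent. -/
def LA (l l' : List α) : Prop := l = l' ∨ (∃ a, l = a :: l') ∨ ∃ a, l' = a :: l

open Classical in
/-- label of the component of the tree minus `v` -/
noncomputable def lab (v l : List α) : List α :=
  if v <:+ l then l.drop (l.length - v.length - 1) else []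

theorem lab_cons {v l : List α} {a : α} (h1 : a :: l ≠ v) (h2 : l ≠ v) :
    lab v (a :: l) = lab v l := by
  unfold lab
  have h3 : v <:+ a :: l ↔ v <:+ l := by
    rw [List.suffix_cons_iff]
    constructor
    · rintro (h | h)
      · exact absurd h.symm h1
      · exact h
    · exact Or.inr
  by_cases hv : v <:+ l
  · rw [if_pos (h3.mpr hv), if_pos hv]
    have hlen : v.length < l.length := by
      rcases lt_or_eq_of_le hv.length_le with h | h
      · exact h
      · exact absurd (hv.eq_of_length h).symm h2
    have : (a :: l).length - v.length - 1 = (l.length - v.length - 1) + 1 := by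
      rw [List.length_cons]; omega
    rw [this, List.drop_succ_cons]
  · rw [if_neg (fun h => hv (h3.mp h)), if_neg hv]

theorem lab_eq {v l l' : List α} (h : LA l l') (h1 : l ≠ v) (h2 : l' ≠ v) :
    lab v l = lab v l' := by
  rcases h with rfl | ⟨a, rfl⟩ | ⟨a, rfl⟩
  · rfl
  · exact lab_cons h1 h2
  · exact (lab_cons h2 h1).symm

theorem lab_self (v : List α) : lab v v = v := by
  unfold lab
  rw [if_pos (List.suffix_refl v)]
  simp

theorem lab_of_suffix {v l : List α} (h : v <:+ l) (hne : l ≠ v) :
    lab v l <:+ l ∧ (lab v l).length = v.length + 1 := by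
  have hlen : v.length < l.length := by
    rcases lt_or_eq_of_le h.length_le with h' | h'
    · exact h'
    · exact absurd (h.eq_of_length h').symm hne
  unfold lab
  rw [if_pos h]
  refine ⟨List.drop_suffix _ _, ?_⟩
  rw [List.length_drop]
  omega

theorem lab_of_not_suffix {v l : List α} (h : ¬ v <:+ l) : lab v l = [] := by
  unfold lab
  rw [if_neg h]

theorem centroid {V : Type} [Fintype V] [Nonempty V] {Gr : SimpleGraph V} {D : ℕ} {ε : ℝ}
    (hexp : IsExp Gr D ε) (hε : 0 < ε) (l : V → List α) (Bd : List α → V → Prop)
    (h0 : ∀ v x, l x = v → Bd v x)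
    (h1 : ∀ v x y, Gr.Adj x y → l x ≠ v → lab v (l x) ≠ lab v (l y) → Bd v x) :
    ∃ v, (ε / (D + ε)) * Fintype.card V ≤ (Nat.card {x : V // Bd v x} : ℝ) := by
  classical
  let sub : List α → ℕ := fun v => (univ.filter (fun x => v <:+ l x)).card
  let 𝒱 : Finset (List α) := (univ.biUnion (fun x : V => (l x).tails.toFinset)).filter
    (fun v => Fintype.card V < 2 * sub v)
  have hcard : 0 < Fintype.card V := Fintype.card_pos
  have hne : 𝒱.Nonempty := by
    refine ⟨[], ?_⟩
    simp only [𝒱, mem_filter, mem_biUnion, mem_univ, true_and, List.mem_toFinset, List.mem_tails,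
      sub, List.nil_suffix, filter_true, card_univ]
    exact ⟨⟨Classical.arbitrary V, trivial⟩, by omega⟩
  obtain ⟨v, hv, hmax⟩ := Finset.exists_max_image 𝒱 List.length hne
  have hv2 : Fintype.card V < 2 * sub v := (mem_filter.mp hv).2
  have hmax' : ∀ w : List α, v.length < w.length → 2 * sub w ≤ Fintype.card V := by
    intro w hw
    by_contra hcon
    push Not at hcon
    have hsub : 0 < sub w := by omega
    obtain ⟨x, hx⟩ := Finset.card_pos.mp hsub
    rw [mem_filter] at hx
    have : w ∈ 𝒱 := by
      simp only [𝒱, mem_filter, mem_biUnion, mem_univ, true_and, List.mem_toFinset, List.mem_tails]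
      exact ⟨⟨x, hx.2⟩, hcon⟩
    have := hmax w this
    omega
  refine ⟨v, ?_⟩
  let X' : Finset V := univ.filter (fun x => l x ≠ v)
  let B : Finset V := univ.filter (fun x => Bd v x)
  let f : V → List α := fun x => lab v (l x)
  have hfx : ∀ x, l x ≠ v → f x ≠ v := by
    intro x hx
    by_cases hs : v <:+ l x
    · intro h
      have := (lab_of_suffix hs hx).2
      change (f x).length = _ at this
      rw [h] at this
      omega
    · intro h
      have h' : f x = [] := lab_of_not_suffix hs
      rw [h'] at h
      rw [← h] at hs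
      exact hs List.nil_suffix
  -- each piece is small
  have hsmall : ∀ x, l x ≠ v → 2 * (univ.filter (fun y => f y = f x)).card ≤ Fintype.card V := by
    intro x hx
    by_cases hs : v <:+ l x
    · have h2 := lab_of_suffix hs hx
      have h3 := hmax' (f x) (by change v.length < (lab v (l x)).length; omega)
      refine le_trans (Nat.mul_le_mul_left 2 (card_le_card ?_)) h3
      intro y hy
      simp only [mem_filter, mem_univ, true_and] at hy ⊢
      rw [← hy]
      by_cases hs' : v <:+ l y
      · by_cases hy' : l y = v
        · change lab v (l y) <:+ l y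
          rw [hy', lab_self]
        · exact (lab_of_suffix hs' hy').1
      · exfalso
        have h4 : f y = [] := lab_of_not_suffix hs'
        rw [h4] at hy
        have : (f x).length = v.length + 1 := h2.2
        rw [← hy] at this
        simp at this
    · have h2 : f x = [] := lab_of_not_suffix hs
      have h3 : (univ.filter (fun y => f y = f x)).card + sub v ≤ Fintype.card V := by
        rw [← Finset.card_univ]
        rw [← Finset.card_union_of_disjoint]
        · exact card_le_card (subset_univ _)
        · rw [Finset.disjoint_left]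
          intro y hy hy'
          simp only [mem_filter, mem_univ, true_and] at hy hy'
          rw [h2] at hy
          by_cases hy2 : l y = v
          · have : f y = v := by
              change lab v (l y) = v
              rw [hy2, lab_self]
            rw [this] at hy
            rw [hy] at hs
            exact hs List.nil_suffix
          · have := (lab_of_suffix hy' hy2).2
            change (f y).length = _ at this
            rw [hy] at this
            simp at this
      omega
  -- the boundary of each piece
  have hpiece : ∀ c ∈ X'.image f, ε * ((X'.filter (fun x => f x = c)).card : ℝ) ≤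
      D * (((X' ∩ B).filter (fun x => f x = c)).card : ℝ) := by
    intro c hc
    obtain ⟨x, hx, rfl⟩ := mem_image.mp hc
    have hx' : l x ≠ v := by simpa [X'] using hx
    have hP := hexp.exp' (univ.filter (fun y => f y = f x)) (hsmall x hx')
    have hle : (X'.filter (fun y => f y = f x)).card ≤ (univ.filter (fun y => f y = f x)).card :=
      card_le_card (filter_subset_filter _ (subset_univ _))
    have hle' : ((X'.filter (fun y => f y = f x)).card : ℝ) ≤
        ((univ.filter (fun y => f y = f x)).card : ℝ) := by exact_mod_cast hle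
    have hnv : ∀ y, f y = f x → l y ≠ v := by
      intro y hy hyv
      apply hfx x hx'
      rw [← hy]
      change lab v (l y) = v
      rw [hyv, lab_self]
    have heb : (eb Gr (univ.filter (fun y => f y = f x))).card ≤
        D * ((X' ∩ B).filter (fun y => f y = f x)).card := by
      have h2 : (eb Gr (univ.filter (fun y => f y = f x))).card ≤
          D * ((eb Gr (univ.filter (fun y => f y = f x))).image Prod.fst).card := by
        apply Finset.card_le_mul_card_image
        intro b _
        calc ((eb Gr (univ.filter (fun y => f y = f x))).filter (fun p => p.1 = b)).card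
            ≤ (univ.filter (Gr.Adj b)).card := by
              apply Finset.card_le_card_of_injOn Prod.snd
              · intro p hp
                simp only [eb, mem_coe, mem_filter, mem_univ, true_and] at hp ⊢
                rw [← hp.2]
                exact hp.1.2.2
              · intro p hp q hq hpq
                simp only [mem_coe, mem_filter] at hp hq
                exact Prod.ext (hp.2.trans hq.2.symm) hpq
          _ ≤ D := hexp.deg' b
      refine h2.trans (Nat.mul_le_mul_left _ (card_le_card ?_))
      intro z hz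
      simp only [eb, mem_image, mem_filter, mem_univ, true_and] at hz
      obtain ⟨p, ⟨hp1, hp2, hp3⟩, rfl⟩ := hz
      simp only [X', B, mem_filter, mem_inter, mem_univ, true_and]
      refine ⟨⟨hnv _ hp1, h1 v _ _ hp3 (hnv _ hp1) ?_⟩, hp1⟩
      intro heq
      apply hp2
      rw [← hp1]
      exact heq.symm
    have heb' : ((eb Gr (univ.filter (fun y => f y = f x))).card : ℝ) ≤
        D * (((X' ∩ B).filter (fun y => f y = f x)).card : ℝ) := by exact_mod_cast heb
    have := mul_le_mul_of_nonneg_left hle' hε.le
    linarith
  have hsum : ε * (X'.card : ℝ) ≤ D * ((X' ∩ B).card : ℝ) := by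
    have e1 : X'.card = ∑ c ∈ X'.image f, (X'.filter (fun x => f x = c)).card :=
      card_eq_sum_card_fiberwise (fun x hx => mem_image_of_mem f hx)
    have e2 : (X' ∩ B).card = ∑ c ∈ X'.image f, ((X' ∩ B).filter (fun x => f x = c)).card :=
      card_eq_sum_card_fiberwise (fun x hx => mem_image_of_mem f (mem_inter.mp hx).1)
    rw [e1, e2]
    push_cast
    rw [mul_sum, mul_sum]
    exact sum_le_sum hpiece
  have hBcard : Nat.card {x : V // Bd v x} = B.card := by
    rw [Nat.card_eq_fintype_card, Fintype.card_subtype]
  rw [hBcard]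
  have hV : Fintype.card V = (univ.filter (fun x => l x = v)).card + X'.card := by
    rw [← Finset.card_univ]
    exact (Finset.card_filter_add_card_filter_not (s := univ) (fun x => l x = v)).symm
  have hB : (univ.filter (fun x => l x = v)).card + (X' ∩ B).card ≤ B.card := by
    rw [← Finset.card_union_of_disjoint]
    · apply card_le_card
      apply union_subset
      · intro x hx
        simp only [mem_filter, mem_univ, true_and, B] at hx ⊢
        exact h0 v x hx
      · exact inter_subset_right
    · rw [Finset.disjoint_left]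
      intro x hx hx'
      simp only [X', mem_inter, mem_filter, mem_univ, true_and] at hx hx'
      exact hx'.1 hx
  have hDε : (0 : ℝ) < D + ε := by positivity
  rw [div_mul_eq_mul_div, div_le_iff₀ hDε]
  have hV' : (Fintype.card V : ℝ) = ((univ.filter (fun x => l x = v)).card : ℝ) + X'.card := by
    exact_mod_cast hV
  have hB' : ((univ.filter (fun x => l x = v)).card : ℝ) + ((X' ∩ B).card : ℝ) ≤ B.card := by
    exact_mod_cast hB
  have hn1 : (0 : ℝ) ≤ ((univ.filter (fun x => l x = v)).card : ℝ) := by positivity
  have hn2 : (0 : ℝ) ≤ ((X' ∩ B).card : ℝ) := by positivity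
  have hD : (0 : ℝ) ≤ D := by positivity
  rw [hV']
  nlinarith [mul_le_mul_of_nonneg_left hB' hDε.le, mul_nonneg hD hn1, mul_nonneg hε.le hn2]

theorem path_pass {Γ : Type*} [Group Γ] (N : Γ → List α) (E : Set Γ)
    (hN : ∀ g, ∀ e ∈ E, LA (N g) (N (g * e))) (v : List α) :
    ∀ (L : List Γ), (∀ e ∈ L, e ∈ E) → ∀ g : Γ, N g ≠ v →
      lab v (N g) ≠ lab v (N (g * L.prod)) → ∃ k, k ≤ L.length ∧ N (g * (L.take k).prod) = v := by
  intro L
  induction L with
  | nil =>
    intro _ g _ h
    simp at h
  | cons e L ih =>
    intro hL g hg h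
    by_cases hge : N (g * e) = v
    · exact ⟨1, by simp, by simpa using hge⟩
    · have h1 := lab_eq (hN g e (hL e (by simp))) hg hge
      obtain ⟨k, hk, hk2⟩ := ih (fun e' he' => hL e' (List.mem_cons_of_mem _ he')) (g * e) hge (by
        rw [← h1]
        rw [List.prod_cons, ← mul_assoc] at h
        exact h)
      refine ⟨k + 1, by simpa using hk, ?_⟩
      rw [List.take_succ_cons, List.prod_cons, ← mul_assoc]
      exact hk2

/-- **Tree lemma.** -/
theorem tree {Γ H : Type*} [Group Γ] [Group H] (ι : H →* Γ) (hι : Function.Injective ι)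
    (N : Γ → List α) (E : Set Γ) (hE : Submonoid.closure E = ⊤)
    (hN : ∀ g, ∀ e ∈ E, LA (N g) (N (g * e)))
    (hH : ∀ g g', N g = N g' → ∃ h, g' = g * ι h) (hW : WEE Γ) : WEE H := by
  classical
  obtain ⟨D, ε, S, hε, hS, hinst⟩ := hW
  have hL : ∀ s : Γ, ∃ L : List Γ, (∀ e ∈ L, e ∈ E) ∧ L.prod = s := by
    intro s
    have : s ∈ Submonoid.closure E := by rw [hE]; trivial
    exact Submonoid.exists_list_of_mem_closure this
  choose L hLE hLprod using hL
  let P : Set Γ := insert 1 (⋃ s ∈ S, (fun k => ((L s).take k).prod) '' (Set.Iic (L s).length))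
  have hP : P.Finite := by
    apply Set.Finite.insert
    apply hS.biUnion
    intro s _
    exact (Set.finite_Iic _).image _
  have hPpos : (0 : ℝ) < hP.toFinset.card := by
    have : 0 < hP.toFinset.card := Finset.card_pos.mpr ⟨1, by simp [P]⟩
    exact_mod_cast this
  have hDε : (0 : ℝ) < D + ε := by positivity
  refine conc (D := D) (c := ε / (D + ε) / hP.toFinset.card) (F := (fun p => p⁻¹) '' P) ι hι hε hS
    (by positivity) (hP.image _) ?_
  intro δ hδ
  obtain ⟨V, hV1, hV2, Gr, φ, hexp, hstep, hfib⟩ := hinst δ hδ
  obtain ⟨v, hv⟩ := centroid hexp hε (fun x => N (φ x)) (fun v x => ∃ p ∈ P, N (φ x * p) = v)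
    (by
      intro v x hx
      exact ⟨1, Set.mem_insert _ _, by rw [mul_one]; exact hx⟩)
    (by
      intro v x y hxy hx hlab
      have hs := hstep x y hxy
      have hprod : φ y = φ x * (L ((φ x)⁻¹ * φ y)).prod := by rw [hLprod]; group
      rw [hprod] at hlab
      obtain ⟨k, hk, hk2⟩ := path_pass N E hN v (L ((φ x)⁻¹ * φ y)) (hLE _) (φ x) hx hlab
      refine ⟨_, ?_, hk2⟩
      apply Set.mem_insert_of_mem
      exact Set.mem_biUnion hs ⟨k, hk, rfl⟩)
  refine ⟨V, hV1, hV2, Gr, φ, hexp, hstep, hfib, ?_⟩
  -- pigeonhole over `P`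
  have hcardV : (0 : ℝ) < Fintype.card V := by exact_mod_cast Fintype.card_pos
  obtain ⟨p, hpP, hp⟩ : ∃ p ∈ P, ε / (D + ε) / hP.toFinset.card * Fintype.card V ≤
      (Nat.card {x : V // N (φ x * p) = v} : ℝ) := by
    by_contra hcon
    push Not at hcon
    have h1 : (Nat.card {x : V // ∃ p ∈ P, N (φ x * p) = v}) ≤
        ∑ p ∈ hP.toFinset, Nat.card {x : V // N (φ x * p) = v} := by
      rw [Nat.card_eq_fintype_card, Fintype.card_subtype]
      have h2 : univ.filter (fun x => ∃ p ∈ P, N (φ x * p) = v) ⊆
          hP.toFinset.biUnion (fun p => univ.filter (fun x => N (φ x * p) = v)) := by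
        intro x hx
        simp only [mem_filter, mem_univ, true_and, mem_biUnion, Set.Finite.mem_toFinset] at hx ⊢
        exact hx
      refine (card_le_card h2).trans (card_biUnion_le.trans ?_)
      apply sum_le_sum
      intro p _
      rw [Nat.card_eq_fintype_card, Fintype.card_subtype]
    have h3 : (Nat.card {x : V // ∃ p ∈ P, N (φ x * p) = v} : ℝ) ≤
        ∑ p ∈ hP.toFinset, (Nat.card {x : V // N (φ x * p) = v} : ℝ) := by exact_mod_cast h1
    have h4 : ∑ p ∈ hP.toFinset, (Nat.card {x : V // N (φ x * p) = v} : ℝ) <
        ∑ p ∈ hP.toFinset, (ε / (D + ε) / hP.toFinset.card * Fintype.card V : ℝ) := by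
      apply sum_lt_sum_of_nonempty
      · exact ⟨1, by simp [P]⟩
      · intro p hp
        exact hcon p (hP.mem_toFinset.mp hp)
    rw [sum_const, nsmul_eq_mul] at h4
    have h5 : (hP.toFinset.card : ℝ) * (ε / (D + ε) / hP.toFinset.card * Fintype.card V) =
        ε / (D + ε) * Fintype.card V := by
      field_simp
    rw [h5] at h4
    linarith
  have hpos : 0 < Nat.card {x : V // N (φ x * p) = v} := by
    have : (0 : ℝ) < (Nat.card {x : V // N (φ x * p) = v} : ℝ) :=
      lt_of_lt_of_le (by positivity) hp
    exact_mod_cast this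
  obtain ⟨x₀, hx₀⟩ := (Nat.card_pos_iff.mp hpos).1
  refine ⟨φ x₀ * p, p⁻¹, ⟨p, hpP, rfl⟩, hp.trans ?_⟩
  have : Nat.card {x : V // N (φ x * p) = v} ≤
      Nat.card {x : V // ∃ h : H, φ x = φ x₀ * p * ι h * p⁻¹} := by
    apply Nat.card_le_card_of_injective (fun x : {x : V // N (φ x * p) = v} =>
      (⟨x.1, by
        obtain ⟨h, hh⟩ := hH (φ x₀ * p) (φ x.1 * p) (hx₀.trans x.2.symm)
        exact ⟨h, by rw [← hh]; group⟩⟩ : {x : V // ∃ h : H, φ x = φ x₀ * p * ι h * p⁻¹}))
    intro a b hab
    have := congrArg Subtype.val hab
    exact Subtype.ext this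
  exact_mod_cast this

end Pool.Agent.H76.TreeL
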