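import Mathlib
import Pool.Agent.H76.TreeL

set_option autoImplicit false

namespace Pool.Agent.H76.Perm

open Pool.Agent.H76.Exp Pool.Agent.H76.Wee Pool.Agent.H76.TreeL

section HNN

variable {G : Type*} [Group G] {A B : Subgroup G} (φ : A ≃* B)

open HNNExtension HNNExtension.NormalWord

/-- generators of the HNN extension -/
def gens : Set (HNNExtension G A B φ) := Set.range of ∪ {t, t⁻¹}

theorem closure_gens : Submonoid.closure (gens φ) = ⊤ := by
  rw [eq_top_iff]
  intro x _
  have hinv : ∀ y ∈ gens φ, y⁻¹ ∈ gens φ := by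
    rintro y (⟨g, rfl⟩ | hy)
    · exact Or.inl ⟨g⁻¹, map_inv _ _⟩
    · rcases hy with rfl | hy
      · exact Or.inr (Or.inr rfl)
      · rw [Set.mem_singleton_iff] at hy
        subst hy
        exact Or.inr (Or.inl (inv_inv _))
  have hinv' : ∀ y ∈ Submonoid.closure (gens φ), y⁻¹ ∈ Submonoid.closure (gens φ) := by
    intro y hy
    induction hy using Submonoid.closure_induction with
    | mem y hy => exact Submonoid.subset_closure (hinv y hy)
    | one => rw [inv_one]; exact Submonoid.one_mem _
    | mul a b _ _ ha hb => rw [mul_inv_rev]; exact Submonoid.mul_mem _ hb ha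
  induction x using HNNExtension.induction_on with
  | of g => exact Submonoid.subset_closure (Or.inl ⟨g, rfl⟩)
  | t => exact Submonoid.subset_closure (Or.inr (Or.inl rfl))
  | mul x y hx hy => exact Submonoid.mul_mem _ (hx trivial) (hy trivial)
  | inv x hx => exact hinv' x (hx trivial)

theorem toList_unitsSMul {d : TransversalPair G A B} (u : ℤˣ) (w : NormalWord d) :
    (∃ a, w.toList = a :: (unitsSMul φ u w).toList) ∨
      ∃ a, (unitsSMul φ u w).toList = a :: w.toList := by
  by_cases hcan : Cancels u w
  · left
    rw [unitsSMul, dif_pos hcan]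
    induction w using consRecOn with
    | ofGroup g => simp [Cancels] at hcan
    | cons g u' w h1 h2 _ =>
      refine ⟨(u', w.head), ?_⟩
      simp [unitsSMulWithCancel]
  · right
    rw [unitsSMul, dif_neg hcan]
    exact ⟨_, rfl⟩

/-- HNN extensions of groups without weakly embedded expanders have none. -/
theorem hnn (h : WEE (HNNExtension G A B φ)) : WEE G := by
  obtain ⟨d⟩ := TransversalPair.nonempty G A B
  let N : HNNExtension G A B φ → List (ℤˣ × G) := fun g => (g⁻¹ • (NormalWord.empty : NormalWord d)).toList
  refine tree (of : G →* HNNExtension G A B φ) (of_injective φ) N (gens φ) (closure_gens φ) ?_ ?_ h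
  · rintro g e (⟨a, rfl⟩ | he)
    · left
      change (g⁻¹ • (NormalWord.empty : NormalWord d)).toList =
        ((g * of a)⁻¹ • (NormalWord.empty : NormalWord d)).toList
      rw [mul_inv_rev, mul_smul, ← map_inv, of_smul_eq_smul, group_smul_toList]
    · have key : ∀ u : ℤˣ, LA (N g) (N (g * (t ^ (u : ℤ))⁻¹)) := by
        intro u
        have : N (g * (t ^ (u : ℤ))⁻¹) =
            (unitsSMul φ u (g⁻¹ • (NormalWord.empty : NormalWord d))).toList := by
          change ((g * (t ^ (u : ℤ))⁻¹)⁻¹ • (NormalWord.empty : NormalWord d)).toList = _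
          rw [mul_inv_rev, inv_inv, mul_smul, t_pow_smul_eq_unitsSMul]
        rw [this]
        exact Or.inr (toList_unitsSMul φ u _)
      rcases he with rfl | he
      · have := key (-1)
        simpa using this
      · rw [Set.mem_singleton_iff] at he
        subst he
        have := key 1
        simpa using this
  · intro g g' hgg
    change (g⁻¹ • (NormalWord.empty : NormalWord d)).toList =
      (g'⁻¹ • (NormalWord.empty : NormalWord d)).toList at hgg
    set w := g⁻¹ • (NormalWord.empty : NormalWord d) with hw
    set w' := g'⁻¹ • (NormalWord.empty : NormalWord d) with hw'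
    have h1 : w' = (w'.head * w.head⁻¹) • w := by
      apply NormalWord.ext
      · rw [group_smul_head]; group
      · rw [group_smul_toList]; exact hgg.symm
    have h2 : w.prod φ = g⁻¹ := by rw [hw, prod_smul, prod_empty, mul_one]
    have h3 : w'.prod φ = g'⁻¹ := by rw [hw', prod_smul, prod_empty, mul_one]
    have h4 : g'⁻¹ = of (w'.head * w.head⁻¹) * g⁻¹ := by
      rw [← h3, ← h2, ← prod_group_smul, ← h1]
    refine ⟨(w'.head * w.head⁻¹)⁻¹, ?_⟩
    rw [map_inv, ← inv_inj, h4]
    group

end HNN

/-- Free groups contain no weakly embedded expander. -/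
theorem freeGroup (X : Type*) : ¬ WEE (FreeGroup X) := by
  classical
  intro h
  let N : FreeGroup X → List (X × Bool) := fun g => (g⁻¹).toWord
  refine not_of_subsingleton (Γ := (⊥ : Subgroup (FreeGroup X)))
    (tree (⊥ : Subgroup (FreeGroup X)).subtype (Subgroup.subtype_injective _) N
      (Set.range (fun p : X × Bool => FreeGroup.mk [p])) ?_ ?_ ?_ h)
  · rw [eq_top_iff]
    intro x _
    induction x using Quot.inductionOn with
    | h L =>
      change FreeGroup.mk L ∈ _
      induction L with
      | nil => exact Submonoid.one_mem _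
      | cons p L ih =>
        have : FreeGroup.mk (p :: L) = FreeGroup.mk [p] * FreeGroup.mk L := by
          rw [FreeGroup.mul_mk]; rfl
        rw [this]
        exact Submonoid.mul_mem _ (Submonoid.subset_closure ⟨p, rfl⟩) (ih trivial)
  · rintro g _ ⟨p, rfl⟩
    change LA (g⁻¹).toWord ((g * FreeGroup.mk [p])⁻¹).toWord
    rw [mul_inv_rev, FreeGroup.inv_mk]
    have h1 : FreeGroup.invRev [p] = [(p.1, !p.2)] := rfl
    rw [h1]
    have h2 : (FreeGroup.mk [(p.1, !p.2)] * g⁻¹).toWord =
        FreeGroup.reduce ((p.1, !p.2) :: (g⁻¹).toWord) := by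
      conv_lhs => rw [← FreeGroup.mk_toWord (x := g⁻¹), FreeGroup.mul_mk, FreeGroup.toWord_mk]
      rfl
    rw [h2, FreeGroup.reduce.cons]
    have h3 : FreeGroup.reduce (g⁻¹).toWord = (g⁻¹).toWord := FreeGroup.reduce_toWord _
    rw [h3]
    cases hc : (g⁻¹).toWord with
    | nil => right; right; exact ⟨_, rfl⟩
    | cons hd tl =>
      dsimp only
      split_ifs with hif
      · right; left; exact ⟨hd, rfl⟩
      · right; right; exact ⟨_, rfl⟩
  · intro g g' hgg
    change (g⁻¹).toWord = (g'⁻¹).toWord at hgg
    have := inv_injective (FreeGroup.toWord_injective hgg)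
    exact ⟨1, by rw [this]; simp⟩

/-- Direct products. -/
theorem prod {G H : Type*} [Group G] [Group H] (hG : ¬ WEE G) (hH : ¬ WEE H) : ¬ WEE (G × H) := by
  intro h
  rcases ext_cases (MonoidHom.fst G H) h with h1 | h1
  · exact hG h1
  · apply hH
    refine of_injective ((MonoidHom.snd G H).comp (MonoidHom.fst G H).ker.subtype) ?_ h1
    intro a b hab
    apply Subtype.ext
    have ha : a.1.1 = 1 := a.2
    have hb : b.1.1 = 1 := b.2
    exact Prod.ext (ha.trans hb.symm) hab

end Pool.Agent.H76.Perm
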