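import Mathlib
import Pool.Agent.H76.FP
import Pool.Agent.H76.Brit
import Pool.Agent.H76.Perm

set_option autoImplicit false
set_option linter.style.haveILetI false

namespace Pool.Agent.H76.Host

open Pool.Agent.H76.Wee Pool.Agent.H76.Brit Pool.Agent.H76.Perm

/-- Finitely presented groups without weakly embedded expanders. -/
structure Good (G : Type) [Group G] : Prop where
  fp : Group.IsFinitelyPresented G
  nw : ¬ WEE G

theorem Good.prod {G H : Type} [Group G] [Group H] (hG : Good G) (hH : Good H) : Good (G × H) := by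
  haveI := hG.fp
  haveI := hH.fp
  exact ⟨FP.prod G H, Perm.prod hG.nw hH.nw⟩

theorem Good.hnn {G : Type} [Group G] (hG : Good G) {A B : Subgroup G} (hA : A.FG) (φ : A ≃* B) :
    Good (HNNExtension G A B φ) := by
  haveI := hG.fp
  exact ⟨FP.hnn hA φ, fun h => hG.nw (Perm.hnn φ h)⟩

theorem Good.freeGroup (X : Type) [Finite X] : Good (FreeGroup X) :=
  ⟨inferInstance, Perm.freeGroup X⟩

theorem Good.equiv {G H : Type} [Group G] [Group H] (hG : Good G) (e : G ≃* H) : Good H := by
  haveI := hG.fp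
  exact ⟨Group.IsFinitelyPresented.equiv e,
    fun h => hG.nw (Wee.of_injective e.symm.toMonoidHom e.symm.injective h)⟩

/-- A pair of injective homomorphisms from a finitely generated group. -/
structure Span (G : Type) [Group G] where
  X : Type
  [grp : Group X]
  fg : Group.FG X
  f : X →* G
  g : X →* G
  hf : Function.Injective f
  hg : Function.Injective g

attribute [instance] Span.grp

/-- Iterated HNN extensions along spans compatible with a subgroup `H`. -/
theorem multi (G : Type) [Group G] (hG : Good G) (H : Subgroup G) (l : List (Span G))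
    (hl : ∀ s ∈ l, ∀ x : s.X, s.f x ∈ H ↔ s.g x ∈ H) :
    ∃ (Δ : Type) (_ : Group Δ) (ι : G →* Δ) (T : Set Δ), Good Δ ∧ Function.Injective ι ∧ T.Finite ∧
      (∀ s ∈ l, ∃ σ ∈ T, ∀ x : s.X, σ * ι (s.f x) * σ⁻¹ = ι (s.g x)) ∧
      ∀ g, ι g ∈ Subgroup.closure (ι '' (H : Set G) ∪ T) → g ∈ H := by
  induction l with
  | nil =>
    refine ⟨G, inferInstance, MonoidHom.id G, ∅, hG, fun _ _ h => h, Set.finite_empty, ?_, ?_⟩
    · intro s hs
      simp at hs
    · intro g hg
      simpa using hg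
  | cons s l ih =>
    obtain ⟨Δ, _, ι, T, hΔ, hι, hT, hT1, hT2⟩ := ih (fun s' hs' => hl s' (List.mem_cons_of_mem _ hs'))
    have hf : Function.Injective (ι.comp s.f) := hι.comp s.hf
    have hg : Function.Injective (ι.comp s.g) := hι.comp s.hg
    let A : Subgroup Δ := (ι.comp s.f).range
    let B : Subgroup Δ := (ι.comp s.g).range
    let φ : A ≃* B := (MonoidHom.ofInjective hf).symm.trans (MonoidHom.ofInjective hg)
    have hφ : ∀ x : s.X, φ ⟨ι (s.f x), ⟨x, rfl⟩⟩ = ⟨ι (s.g x), ⟨x, rfl⟩⟩ := by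
      intro x
      have h1 : (⟨ι (s.f x), ⟨x, rfl⟩⟩ : A) = MonoidHom.ofInjective hf x := rfl
      rw [h1]
      change (MonoidHom.ofInjective hg) ((MonoidHom.ofInjective hf).symm (MonoidHom.ofInjective hf x)) = _
      rw [MulEquiv.symm_apply_apply]
      rfl
    have hA : A.FG := by
      haveI := s.fg
      exact (Group.fg_iff_subgroup_fg _).mp (Group.fg_range _)
    let H' : Subgroup Δ := Subgroup.closure (ι '' (H : Set G) ∪ T)
    have hH' : ∀ g, ι g ∈ H' ↔ g ∈ H := fun g =>
      ⟨hT2 g, fun hg => Subgroup.subset_closure (Or.inl ⟨g, hg, rfl⟩)⟩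
    have hcompat : ∀ a : A, (a : Δ) ∈ H' ↔ (φ a : Δ) ∈ H' := by
      rintro ⟨_, x, rfl⟩
      have h1 := hφ x
      change ι (s.f x) ∈ H' ↔ ((φ ⟨ι (s.f x), ⟨x, rfl⟩⟩ : B) : Δ) ∈ H'
      rw [h1]
      change ι (s.f x) ∈ H' ↔ ι (s.g x) ∈ H'
      rw [hH', hH']
      exact hl s (by simp) x
    refine ⟨HNNExtension Δ A B φ, inferInstance, HNNExtension.of.comp ι,
      HNNExtension.of '' T ∪ {HNNExtension.t}, hΔ.hnn hA φ,
      (HNNExtension.of_injective φ).comp hι, (hT.image _).union (Set.finite_singleton _), ?_, ?_⟩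
    · intro s' hs'
      rcases List.mem_cons.mp hs' with rfl | hs'
      · refine ⟨HNNExtension.t, Or.inr rfl, ?_⟩
        intro x
        have h1 := HNNExtension.equiv_eq_conj (φ := φ) ⟨ι (s'.f x), ⟨x, rfl⟩⟩
        rw [hφ x] at h1
        exact h1.symm
      · obtain ⟨σ, hσ, hσ2⟩ := hT1 s' hs'
        refine ⟨HNNExtension.of σ, Or.inl ⟨σ, hσ, rfl⟩, ?_⟩
        intro x
        rw [MonoidHom.comp_apply, MonoidHom.comp_apply, ← hσ2 x, map_mul, map_mul, map_inv]
    · intro g hg
      apply hT2 g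
      apply hnn_sub hcompat
      refine Subgroup.closure_mono ?_ hg
      rintro y (⟨h, hh, rfl⟩ | (⟨σ, hσ, rfl⟩ | hy))
      · exact Or.inl ⟨ι h, Subgroup.subset_closure (Or.inl ⟨h, hh, rfl⟩), rfl⟩
      · exact Or.inl ⟨σ, Subgroup.subset_closure (Or.inr hσ), rfl⟩
      · exact Or.inr hy

end Pool.Agent.H76.Host
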