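import Mathlib
import Pool.Agent.H76.Host

set_option autoImplicit false
set_option linter.style.haveILetI false

namespace Pool.Agent.H76.KGrp

open Pool.Agent.H76.Wee Pool.Agent.H76.Perm Pool.Agent.H76.Host
open Monoid

/-- `Multiplicative ℤ` -/
theorem good_int : Good (Multiplicative ℤ) :=
  (Good.freeGroup Unit).equiv FreeGroup.mulEquivIntOfUnique

theorem good_pi (n : ℕ) : Good (Multiplicative (Fin n → ℤ)) := by
  induction n with
  | zero =>
    haveI : Subsingleton (Multiplicative (Fin 0 → ℤ)) := inferInstanceAs (Subsingleton (Fin 0 → ℤ))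
    exact ⟨inferInstance, Wee.not_of_subsingleton⟩
  | succ n ih =>
    let e : (Multiplicative ℤ) × (Multiplicative (Fin n → ℤ)) ≃* Multiplicative (Fin (n + 1) → ℤ) :=
      { toFun := fun p => Multiplicative.ofAdd (Fin.cons (Multiplicative.toAdd p.1) (Multiplicative.toAdd p.2))
        invFun := fun v => (Multiplicative.ofAdd (Multiplicative.toAdd v 0),
          Multiplicative.ofAdd (Fin.tail (Multiplicative.toAdd v)))
        left_inv := by
          rintro ⟨a, b⟩
          rfl
        right_inv := by
          intro v
          change Multiplicative.ofAdd (Fin.cons (Multiplicative.toAdd v 0) (Fin.tail (Multiplicative.toAdd v))) = v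
          rw [Fin.cons_self_tail]
          rfl
        map_mul' := by
          rintro ⟨a, b⟩ ⟨a', b'⟩
          apply Multiplicative.toAdd.injective
          funext i
          refine Fin.cases ?_ (fun j => ?_) i
          · rfl
          · rfl }
    exact (good_int.prod ih).equiv e

/-- any finite index type -/
theorem good_fun (κ : Type) [Finite κ] : Good (Multiplicative (κ → ℤ)) := by
  obtain ⟨n, ⟨e⟩⟩ := Finite.exists_equiv_fin κ
  let e' : Multiplicative (Fin n → ℤ) ≃* Multiplicative (κ → ℤ) :=
    { toFun := fun v => Multiplicative.ofAdd (fun k => Multiplicative.toAdd v (e k))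
      invFun := fun v => Multiplicative.ofAdd (fun k => Multiplicative.toAdd v (e.symm k))
      left_inv := by
        intro v
        apply Multiplicative.toAdd.injective
        funext k
        change Multiplicative.toAdd v (e (e.symm k)) = _
        rw [Equiv.apply_symm_apply]
      right_inv := by
        intro v
        apply Multiplicative.toAdd.injective
        funext k
        change Multiplicative.toAdd v (e.symm (e k)) = _
        rw [Equiv.symm_apply_apply]
      map_mul' := by
        intro v w
        rfl }
  exact (good_pi n).equiv e'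

section K

variable (I V : Type) [AddCommGroup V]

/-- the shift action of `V` on the free group on `I × V` -/
def act : Multiplicative V →* MulAut (FreeGroup (I × V)) where
  toFun v := FreeGroup.freeGroupCongr ((Equiv.refl I).prodCongr (Equiv.addRight (Multiplicative.toAdd v)))
  map_one' := by
    apply MulEquiv.toMonoidHom_injective
    refine FreeGroup.ext_hom _ _ fun p => ?_
    change FreeGroup.freeGroupCongr _ (FreeGroup.of p) = FreeGroup.of p
    rw [FreeGroup.freeGroupCongr_apply, FreeGroup.map.of]
    congr 1
    exact Prod.ext rfl (add_zero _)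
  map_mul' v w := by
    apply MulEquiv.toMonoidHom_injective
    refine FreeGroup.ext_hom _ _ fun p => ?_
    change FreeGroup.freeGroupCongr _ (FreeGroup.of p) =
      FreeGroup.freeGroupCongr _ (FreeGroup.freeGroupCongr _ (FreeGroup.of p))
    rw [FreeGroup.freeGroupCongr_apply, FreeGroup.freeGroupCongr_apply,
      FreeGroup.freeGroupCongr_apply, FreeGroup.map.of, FreeGroup.map.of, FreeGroup.map.of]
    congr 1
    refine Prod.ext rfl ?_
    change p.2 + Multiplicative.toAdd (v * w) = p.2 + Multiplicative.toAdd w + Multiplicative.toAdd v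
    rw [toAdd_mul]
    abel

/-- The group `FreeGroup (I × V) ⋊ V`, i.e. the free product of `V` and the free group on `I`. -/
abbrev K : Type := FreeGroup (I × V) ⋊[act I V] Multiplicative V

variable {I V}

theorem act_of (v : Multiplicative V) (i : I) (u : V) :
    act I V v (FreeGroup.of (i, u)) = FreeGroup.of (i, u + Multiplicative.toAdd v) := by
  change FreeGroup.freeGroupCongr _ (FreeGroup.of (i, u)) = _
  rw [FreeGroup.freeGroupCongr_apply, FreeGroup.map.of]
  rfl

variable (I V)

/-- conjugation form -/
def fn : FreeGroup (I × V) →* Coprod (FreeGroup I) (Multiplicative V) :=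
  FreeGroup.lift (fun p => Coprod.inr (Multiplicative.ofAdd p.2) * Coprod.inl (FreeGroup.of p.1) *
    (Coprod.inr (Multiplicative.ofAdd p.2))⁻¹)

/-- `K` as a free product -/
def equivK : Coprod (FreeGroup I) (Multiplicative V) ≃* K I V := by
  let Θ : Coprod (FreeGroup I) (Multiplicative V) →* K I V :=
    Coprod.lift (FreeGroup.lift (fun i => SemidirectProduct.inl (FreeGroup.of (i, (0 : V)))))
      SemidirectProduct.inr
  let σ : K I V →* Coprod (FreeGroup I) (Multiplicative V) :=
    SemidirectProduct.lift (fn I V) Coprod.inr (by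
      intro g
      refine FreeGroup.ext_hom _ _ fun p => ?_
      obtain ⟨i, u⟩ := p
      change fn I V (act I V g (FreeGroup.of (i, u))) =
        Coprod.inr g * fn I V (FreeGroup.of (i, u)) * (Coprod.inr g)⁻¹
      rw [act_of, fn, FreeGroup.lift_apply_of, FreeGroup.lift_apply_of]
      dsimp only
      have h1 : Multiplicative.ofAdd (u + Multiplicative.toAdd g) = g * Multiplicative.ofAdd u := by
        rw [mul_comm]; rfl
      rw [h1, map_mul]
      group)
  refine MonoidHom.toMulEquiv Θ σ ?_ ?_
  · apply Coprod.hom_ext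
    · refine FreeGroup.ext_hom _ _ fun i => ?_
      simp only [MonoidHom.comp_apply, Θ, Coprod.lift_apply_inl, FreeGroup.lift_apply_of, σ,
        SemidirectProduct.lift_inl, fn, ofAdd_zero, map_one, one_mul, inv_one, mul_one,
        MonoidHom.id_apply]
    · refine MonoidHom.ext fun v => ?_
      simp only [MonoidHom.comp_apply, Θ, Coprod.lift_apply_inr, σ, SemidirectProduct.lift_inr,
        MonoidHom.id_apply]
  · apply SemidirectProduct.hom_ext
    · refine FreeGroup.ext_hom _ _ fun p => ?_
      obtain ⟨i, u⟩ := p
      simp only [MonoidHom.comp_apply, σ, SemidirectProduct.lift_inl, fn, FreeGroup.lift_apply_of,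
        MonoidHom.id_apply, map_mul, map_inv, Θ, Coprod.lift_apply_inl, Coprod.lift_apply_inr]
      rw [← map_inv, ← SemidirectProduct.inl_aut, act_of]
      congr 3
      simp
    · refine MonoidHom.ext fun v => ?_
      simp only [MonoidHom.comp_apply, Θ, Coprod.lift_apply_inr, σ, SemidirectProduct.lift_inr,
        MonoidHom.id_apply]

variable {I V}

theorem good_K [Finite I] (hV : Good (Multiplicative V)) : Good (K I V) := by
  haveI := hV.fp
  refine ⟨Group.IsFinitelyPresented.equiv (equivK I V), ?_⟩
  intro h
  rcases ext_cases (SemidirectProduct.rightHom : K I V →* Multiplicative V) h with h1 | h1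
  · exact hV.nw h1
  · apply Perm.freeGroup (I × V)
    have hinj : Function.Injective (SemidirectProduct.inl : FreeGroup (I × V) →* K I V) :=
      SemidirectProduct.inl_injective
    let e : (SemidirectProduct.rightHom : K I V →* Multiplicative V).ker ≃* FreeGroup (I × V) :=
      (MulEquiv.subgroupCongr SemidirectProduct.range_inl_eq_ker_rightHom.symm).trans
        (MonoidHom.ofInjective hinj).symm
    exact Wee.of_injective e.toMonoidHom e.injective h1

/-- subgroup of the base spanned by a set of generators -/
def TT (Z : Set (I × V)) : Subgroup (K I V) :=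
  (Subgroup.closure (FreeGroup.of '' Z)).map SemidirectProduct.inl

theorem mem_TT {Z : Set (I × V)} {k : K I V} :
    k ∈ TT Z ↔ k.right = 1 ∧ k.left ∈ Subgroup.closure (FreeGroup.of '' Z) := by
  constructor
  · rintro ⟨w, hw, rfl⟩
    exact ⟨rfl, hw⟩
  · rintro ⟨h1, h2⟩
    refine ⟨k.left, h2, ?_⟩
    apply SemidirectProduct.ext
    · rfl
    · exact h1.symm

/-- an injective affine map -/
structure Aff (V : Type) [AddCommGroup V] where
  A : V →+ V
  inj : Function.Injective A
  d : V

/-- evaluation -/
def Aff.ev (α : Aff V) (v : V) : V := α.A v + α.d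

theorem Aff.ev_injective (α : Aff V) : Function.Injective α.ev := fun _ _ h =>
  α.inj (add_right_cancel h)

theorem map_injective {X Y : Type} (f : X → Y) (hf : Function.Injective f) :
    Function.Injective (FreeGroup.map f) := FreeGroup.map_injective hf

/-- membership in spans under injective maps -/
theorem map_mem_iff {X Y : Type} (f : X → Y) (hf : Function.Injective f) (Z : Set Y)
    (w : FreeGroup X) : FreeGroup.map f w ∈ Subgroup.closure (FreeGroup.of '' Z) ↔
      w ∈ Subgroup.closure (FreeGroup.of '' (f ⁻¹' Z)) := by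
  classical
  constructor
  · intro h
    let ρ : FreeGroup Y →* FreeGroup X := FreeGroup.lift (fun y =>
      if h : ∃ x, f x = y then FreeGroup.of h.choose else 1)
    have h1 : ∀ w, ρ (FreeGroup.map f w) = w := by
      intro w
      have : ρ.comp (FreeGroup.map f) = MonoidHom.id _ := by
        refine FreeGroup.ext_hom _ _ fun x => ?_
        rw [MonoidHom.comp_apply, FreeGroup.map.of, MonoidHom.id_apply]
        have hx : ∃ x', f x' = f x := ⟨x, rfl⟩
        simp only [ρ, FreeGroup.lift_apply_of, dif_pos hx]
        rw [hf hx.choose_spec]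
      exact DFunLike.congr_fun this w
    have h2 : (Subgroup.closure (FreeGroup.of '' Z)).map ρ ≤
        Subgroup.closure (FreeGroup.of '' (f ⁻¹' Z)) := by
      rw [MonoidHom.map_closure, Subgroup.closure_le]
      rintro _ ⟨_, ⟨y, hy, rfl⟩, rfl⟩
      by_cases hx : ∃ x, f x = y
      · simp only [ρ, FreeGroup.lift_apply_of, dif_pos hx]
        apply Subgroup.subset_closure
        refine ⟨_, ?_, rfl⟩
        change f _ ∈ Z
        rw [hx.choose_spec]
        exact hy
      · simp only [ρ, FreeGroup.lift_apply_of, dif_neg hx]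
        exact Subgroup.one_mem _
    rw [← h1 w]
    exact h2 ⟨_, h, rfl⟩
  · intro h
    have h2 : (Subgroup.closure (FreeGroup.of '' (f ⁻¹' Z))).map (FreeGroup.map f) ≤
        Subgroup.closure (FreeGroup.of '' Z) := by
      rw [MonoidHom.map_closure, Subgroup.closure_le]
      rintro _ ⟨_, ⟨y, hy, rfl⟩, rfl⟩
      rw [FreeGroup.map.of]
      exact Subgroup.subset_closure ⟨_, hy, rfl⟩
    exact h2 ⟨_, h, rfl⟩

/-- injection of `K Unit V` -/
def theta (i : I) (α : Aff V) : K Unit V →* K I V :=
  SemidirectProduct.map (FreeGroup.map (fun p : Unit × V => (i, α.ev p.2)))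
    (AddMonoidHom.toMultiplicative α.A) (by
      intro g
      refine FreeGroup.ext_hom _ _ fun p => ?_
      obtain ⟨⟨⟩, u⟩ := p
      change FreeGroup.map (fun p : Unit × V => (i, α.ev p.2)) (act Unit V g (FreeGroup.of ((), u))) =
        act I V (AddMonoidHom.toMultiplicative α.A g)
          (FreeGroup.map (fun p : Unit × V => (i, α.ev p.2)) (FreeGroup.of ((), u)))
      rw [act_of, FreeGroup.map.of, FreeGroup.map.of, act_of]
      congr 1
      refine Prod.ext rfl ?_
      change α.A (u + Multiplicative.toAdd g) + α.d = α.A u + α.d + α.A (Multiplicative.toAdd g)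
      rw [map_add]
      abel)

theorem theta_left (i : I) (α : Aff V) (k : K Unit V) :
    (theta i α k).left = FreeGroup.map (fun p : Unit × V => (i, α.ev p.2)) k.left := rfl

theorem theta_right (i : I) (α : Aff V) (k : K Unit V) :
    (theta i α k).right = AddMonoidHom.toMultiplicative α.A k.right := rfl

theorem theta_inj_aux (i : I) (α : Aff V) :
    Function.Injective (fun p : Unit × V => (i, α.ev p.2)) := by
  rintro ⟨_, u⟩ ⟨_, v⟩ h
  have := α.ev_injective (congrArg Prod.snd h)
  exact Prod.ext rfl this

theorem theta_right_eq_one (i : I) (α : Aff V) (k : K Unit V) :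
    (theta i α k).right = 1 ↔ k.right = 1 := by
  rw [theta_right]
  constructor
  · intro h
    have h1 : α.A (Multiplicative.toAdd k.right) = 0 := h
    have h2 : Multiplicative.toAdd k.right = 0 := α.inj (by rw [h1, map_zero])
    exact h2
  · intro h
    rw [h, map_one]

theorem theta_injective (i : I) (α : Aff V) : Function.Injective (theta i α) := by
  rw [injective_iff_map_eq_one]
  intro k hk
  apply SemidirectProduct.ext
  · have h1 : FreeGroup.map (fun p : Unit × V => (i, α.ev p.2)) k.left = 1 :=
      congrArg SemidirectProduct.left hk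
    exact FreeGroup.map_injective (theta_inj_aux i α) (by rw [h1]; exact (map_one _).symm)
  · exact (theta_right_eq_one i α k).mp (congrArg SemidirectProduct.right hk)

theorem theta_mem_TT (i : I) (α : Aff V) (Z : Set (I × V)) (k : K Unit V) :
    theta i α k ∈ TT Z ↔ k ∈ TT ((fun p : Unit × V => (i, α.ev p.2)) ⁻¹' Z) := by
  rw [mem_TT, mem_TT, theta_right_eq_one, theta_left, map_mem_iff _ (theta_inj_aux i α)]

theorem fg_K [Finite I] (hV : Good (Multiplicative V)) : Group.FG (K I V) := by
  haveI := (good_K (I := I) hV).fp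
  exact FP.fg_of_fp _

/-- A rule `(i, α v) → (j, β v)`. -/
structure Rule (I V : Type) [AddCommGroup V] where
  i : I
  α : Aff V
  j : I
  β : Aff V

/-- one step of the affine machine -/
def Red (l : List (Rule I V)) (c c' : I × V) : Prop :=
  ∃ ρ ∈ l, ∃ v, c = (ρ.i, ρ.α.ev v) ∧ c' = (ρ.j, ρ.β.ev v)

/-- The set of configurations leading to the final one is hosted by a good group. -/
theorem host [Finite I] (hV : Good (Multiplicative V)) (l : List (Rule I V)) (Z : Set (I × V))
    (hZ : ∀ ρ ∈ l, ∀ v, (ρ.i, ρ.α.ev v) ∈ Z ↔ (ρ.j, ρ.β.ev v) ∈ Z) (c₀ : I × V) (hc₀ : c₀ ∈ Z)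
    (hred : ∀ c ∈ Z, Relation.ReflTransGen (Red l) c c₀) :
    ∃ (Δ : Type) (_ : Group Δ) (ι : K I V →* Δ) (L : Subgroup Δ), Good Δ ∧ Function.Injective ι ∧
      L.FG ∧ ∀ g, ι g ∈ L ↔ g ∈ TT Z := by
  haveI : Group.FG (K Unit V) := fg_K hV
  let sp : Rule I V → Span (K I V) := fun ρ =>
    { X := K Unit V
      fg := inferInstance
      f := theta ρ.i ρ.α
      g := theta ρ.j ρ.β
      hf := theta_injective _ _
      hg := theta_injective _ _ }
  obtain ⟨Δ, _, ι, T, hΔ, hι, hT, hT1, hT2⟩ := multi (K I V) (good_K hV) (TT Z) (l.map sp) (by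
    intro s hs x
    obtain ⟨ρ, hρ, rfl⟩ := List.mem_map.mp hs
    change theta ρ.i ρ.α x ∈ TT Z ↔ theta ρ.j ρ.β x ∈ TT Z
    rw [theta_mem_TT, theta_mem_TT]
    have : (fun p : Unit × V => (ρ.i, ρ.α.ev p.2)) ⁻¹' Z = (fun p : Unit × V => (ρ.j, ρ.β.ev p.2)) ⁻¹' Z := by
      ext ⟨_, v⟩
      exact hZ ρ hρ v
    rw [this])
  let tt : I × V → K I V := fun c => SemidirectProduct.inl (FreeGroup.of c)
  let L : Subgroup Δ := Subgroup.closure ({ι (tt c₀)} ∪ T)
  refine ⟨Δ, inferInstance, ι, L, hΔ, hι, ?_, ?_⟩
  · exact (Subgroup.fg_iff _).mpr ⟨_, rfl, (Set.finite_singleton _).union hT⟩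
  · intro g
    constructor
    · intro hg
      apply hT2
      refine Subgroup.closure_mono ?_ hg
      rintro x (hx | hx)
      · rw [Set.mem_singleton_iff] at hx
        subst hx
        exact Or.inl ⟨_, ⟨_, Subgroup.subset_closure ⟨c₀, hc₀, rfl⟩, rfl⟩, rfl⟩
      · exact Or.inr hx
    · have hstep : ∀ c, Relation.ReflTransGen (Red l) c c₀ → ι (tt c) ∈ L := by
        intro c hc
        induction hc using Relation.ReflTransGen.head_induction_on with
        | refl => exact Subgroup.subset_closure (Or.inl rfl)
        | head h _ ih =>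
          obtain ⟨ρ, hρ, v, rfl, rfl⟩ := h
          obtain ⟨σ, hσ, hσ2⟩ := hT1 (sp ρ) (List.mem_map.mpr ⟨ρ, hρ, rfl⟩)
          have h1 := hσ2 (SemidirectProduct.inl (FreeGroup.of ((), v)) : K Unit V)
          have h2 : (sp ρ).f (SemidirectProduct.inl (FreeGroup.of ((), v)) : K Unit V) =
              tt (ρ.i, ρ.α.ev v) := by
            change theta ρ.i ρ.α (SemidirectProduct.inl (FreeGroup.of ((), v))) = _
            rw [theta, SemidirectProduct.map_inl, FreeGroup.map.of]
          have h3 : (sp ρ).g (SemidirectProduct.inl (FreeGroup.of ((), v)) : K Unit V) =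
              tt (ρ.j, ρ.β.ev v) := by
            change theta ρ.j ρ.β (SemidirectProduct.inl (FreeGroup.of ((), v))) = _
            rw [theta, SemidirectProduct.map_inl, FreeGroup.map.of]
          rw [h2, h3] at h1
          have hσL : σ ∈ L := Subgroup.subset_closure (Or.inr hσ)
          have h4 : ι (tt (ρ.i, ρ.α.ev v)) = σ⁻¹ * ι (tt (ρ.j, ρ.β.ev v)) * σ := by
            rw [← h1]; group
          rw [h4]
          exact L.mul_mem (L.mul_mem (L.inv_mem hσL) ih) hσL
      rintro ⟨w, hw, rfl⟩
      have hle : (Subgroup.closure (FreeGroup.of '' Z)) ≤ L.comap (ι.comp SemidirectProduct.inl) := by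
        rw [Subgroup.closure_le]
        rintro _ ⟨c, hc, rfl⟩
        exact hstep c (hred c hc)
      exact hle hw

end K

end Pool.Agent.H76.KGrp
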