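import Mathlib
import Pool.Agent.H76.KGrp

set_option autoImplicit false
set_option linter.style.haveILetI false

namespace Pool.Agent.H76.Mach

open Turing Turing.PartrecToTM2 Turing.ToPartrec Relation StateTransition
open Pool.Agent.H76.KGrp
open Function (update)

section sub

variable {K : Type} {Γ : K → Type} {Λ σ : Type}

theorem sub_push (k : K) (f : σ → Γ k) (q : TM2.Stmt Γ Λ σ) :
    q ∈ TM2.stmts₁ (TM2.Stmt.push k f q) := by
  simp [TM2.stmts₁, TM2.stmts₁_self]

theorem sub_peek (k : K) (f : σ → Option (Γ k) → σ) (q : TM2.Stmt Γ Λ σ) :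
    q ∈ TM2.stmts₁ (TM2.Stmt.peek k f q) := by
  simp [TM2.stmts₁, TM2.stmts₁_self]

theorem sub_pop (k : K) (f : σ → Option (Γ k) → σ) (q : TM2.Stmt Γ Λ σ) :
    q ∈ TM2.stmts₁ (TM2.Stmt.pop k f q) := by
  simp [TM2.stmts₁, TM2.stmts₁_self]

theorem sub_load (f : σ → σ) (q : TM2.Stmt Γ Λ σ) :
    q ∈ TM2.stmts₁ (TM2.Stmt.load f q) := by
  simp [TM2.stmts₁, TM2.stmts₁_self]

theorem sub_branch₁ (p : σ → Bool) (q₁ q₂ : TM2.Stmt Γ Λ σ) :
    q₁ ∈ TM2.stmts₁ (TM2.Stmt.branch p q₁ q₂) := by
  simp [TM2.stmts₁, TM2.stmts₁_self]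

theorem sub_branch₂ (p : σ → Bool) (q₁ q₂ : TM2.Stmt Γ Λ σ) :
    q₂ ∈ TM2.stmts₁ (TM2.Stmt.branch p q₁ q₂) := by
  simp [TM2.stmts₁, TM2.stmts₁_self]

end sub

/-- configuration vectors -/
abbrev VV : Type := K' → ℤ

/-- digits -/
def dig : Γ' → ℤ
  | .consₗ => 1
  | .cons => 2
  | .bit0 => 3
  | .bit1 => 4

theorem dig_range (a : Γ') : 1 ≤ dig a ∧ dig a ≤ 4 := by cases a <;> simp [dig]

theorem dig_inj {a b : Γ'} (h : dig a = dig b) : a = b := by
  cases a <;> cases b <;> simp [dig] at h <;> rfl

/-- code of a stack -/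
def enc : List Γ' → ℤ
  | [] => 0
  | a :: l => 5 * enc l + dig a

theorem enc_dec {x : ℤ} {a : Γ'} {l : List Γ'} (h : 5 * x + dig a = enc l) :
    ∃ l', l = a :: l' ∧ x = enc l' := by
  have ha := dig_range a
  cases l with
  | nil => simp only [enc] at h; omega
  | cons b l' =>
    have hb := dig_range b
    simp only [enc] at h
    have h1 : dig a = dig b := by omega
    have h2 := dig_inj h1
    subst h2
    exact ⟨l', rfl, by omega⟩

theorem enc_zero {x : ℤ} {l : List Γ'} (h : 5 * x = enc l) : l = [] ∧ x = 0 := by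
  cases l with
  | nil => simp only [enc] at h; exact ⟨rfl, by omega⟩
  | cons b l' =>
    have hb := dig_range b
    simp only [enc] at h
    omega

theorem enc_injective : Function.Injective enc := by
  intro l
  induction l with
  | nil =>
    intro l' h
    have h0 : 5 * (0 : ℤ) = enc l' := by rw [← h]; rfl
    exact (enc_zero h0).1.symm
  | cons a l ih =>
    intro l' h
    obtain ⟨l'', rfl, h2⟩ := enc_dec (x := enc l) (a := a) (l := l') h
    rw [ih h2]

/-- vector of codes of stacks -/
def ES (S : K' → List Γ') : VV := fun k => enc (S k)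

theorem ES_injective : Function.Injective ES := fun _ _ h => funext fun k => enc_injective (congrFun h k)

/-- identity -/
def idA : Aff VV := ⟨AddMonoidHom.id _, fun _ _ h => h, 0⟩

theorem idA_ev (u : VV) : idA.ev u = u := add_zero u

/-- push a digit -/
def PA (k : K') (c : ℤ) : Aff VV :=
  { A := { toFun := fun v j => if j = k then 5 * v j else v j
           map_zero' := by funext j; simp
           map_add' := by
            intro v w
            funext j
            simp only [Pi.add_apply]
            split_ifs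
            · ring
            · rfl }
    inj := by
      intro v w h
      funext j
      have := congrFun h j
      simp only [AddMonoidHom.coe_mk, ZeroHom.coe_mk] at this
      split_ifs at this
      · omega
      · exact this
    d := fun j => if j = k then c else 0 }

theorem PA_ev (k : K') (c : ℤ) (u : VV) : (PA k c).ev u = fun j => if j = k then 5 * u j + c else u j := by
  funext j
  change (if j = k then 5 * u j else u j) + (if j = k then c else 0) = _
  split_ifs <;> simp

theorem PA_ES (k : K') (a : Γ') (S : K' → List Γ') :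
    (PA k (dig a)).ev (ES S) = ES (update S k (a :: S k)) := by
  rw [PA_ev]
  funext j
  by_cases h : j = k
  · subst h
    simp [ES, enc]
  · simp [ES, h]

theorem PA_dec {k : K'} {a : Γ'} {u : VV} {S : K' → List Γ'} (h : (PA k (dig a)).ev u = ES S) :
    ∃ S', S = update S' k (a :: S' k) ∧ u = ES S' := by
  rw [PA_ev] at h
  have hk := congrFun h k
  simp only [if_true] at hk
  obtain ⟨t, ht, hu⟩ := enc_dec hk
  refine ⟨update S k t, ?_, ?_⟩
  · funext j
    by_cases hj : j = k
    · subst hj; simp [ht]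
    · simp [hj]
  · funext j
    by_cases hj : j = k
    · subst hj; simp [ES, hu]
    · have := congrFun h j
      simp only [if_neg hj] at this
      simp [ES, hj, this]

theorem PA_zero {k : K'} {u : VV} {S : K' → List Γ'} (h : (PA k 0).ev u = ES S) :
    S k = [] ∧ (PA k 0).ev u = u := by
  rw [PA_ev] at h ⊢
  have hk := congrFun h k
  simp only [if_true, add_zero] at hk
  obtain ⟨h1, h2⟩ := enc_zero hk
  refine ⟨h1, ?_⟩
  funext j
  by_cases hj : j = k
  · subst hj; simp [h2]
  · simp [hj]

theorem PA_zero_ES {k : K'} {S : K' → List Γ'} (h : S k = []) : (PA k 0).ev (ES S) = ES S := by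
  rw [PA_ev]
  funext j
  by_cases hj : j = k
  · subst hj; simp [ES, h, enc]
  · simp [hj]

section machine

variable (c : Code)

/-- supporting labels -/
noncomputable abbrev SS : Finset Λ' := codeSupp c Cont'.halt

/-- the statements used -/
def St : Set Stmt' := {q | ∃ l ∈ SS c, q ∈ TM2.stmts₁ (tr l)}

theorem St_finite : (St c).Finite := by
  have h1 : (⋃ l ∈ ((SS c : Finset Λ') : Set Λ'), {q : Stmt' | q ∈ TM2.stmts₁ (tr l)}).Finite := by
    refine (Finset.finite_toSet (SS c)).biUnion (fun l _ => ?_)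
    exact Finset.finite_toSet (TM2.stmts₁ (tr l))
  refine h1.subset ?_
  rintro q ⟨l, hl, hq⟩
  exact Set.mem_biUnion (x := l) hl hq

/-- labels of the affine machine -/
abbrev II : Type := Option (St c × Option Γ')

instance : Finite (II c) := by
  haveI : Finite (St c) := (St_finite c).to_subtype
  infer_instance

theorem finiteK : Finite K' := by
  apply Finite.of_injective (fun k : K' => (match k with
    | .main => 0
    | .rev => 1
    | .aux => 2
    | .stack => 3 : Fin 4))
  intro a b h
  cases a <;> cases b <;> simp at h <;> rfl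

/-- halting -/
def HD (q : Stmt') (v : Option Γ') (S : K' → List Γ') : Prop :=
  ∃ b, Reaches (TM2.step tr) (TM2.stepAux q v S) b ∧ TM2.step tr b = none

theorem HD_goto (l : Option Γ' → Λ') (v : Option Γ') (S : K' → List Γ') :
    HD (TM2.Stmt.goto l) v S ↔ HD (tr (l v)) v S := by
  constructor
  · rintro ⟨b, h1, h2⟩
    refine ⟨b, ?_, h2⟩
    rcases ReflTransGen.cases_head h1 with h | ⟨x, hx, hx2⟩
    · rw [← h] at h2
      simp [TM2.stepAux, TM2.step] at h2
    · simp only [TM2.stepAux, TM2.step, Option.mem_def, Option.some.injEq] at hx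
      rw [← hx] at hx2
      exact hx2
  · rintro ⟨b, h1, h2⟩
    exact ⟨b, ReflTransGen.head (by simp [TM2.stepAux, TM2.step]) h1, h2⟩

theorem HD_halt (v : Option Γ') (S : K' → List Γ') : HD TM2.Stmt.halt v S :=
  ⟨_, ReflTransGen.refl, rfl⟩

variable {c}

/-- configurations from which the machine halts -/
def W : II c → (K' → List Γ') → Prop
  | none, _ => True
  | some (q, v), S => HD q.1 v S

variable (c)

/-- the set of halting configurations -/
def Z : Set (II c × VV) := {p | ∃ S, p.2 = ES S ∧ W p.1 S}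

/-- the affine maps used -/
def AF : Set (Aff VV) := {idA} ∪ (fun p : K' × ℤ => PA p.1 p.2) '' (Set.univ ×ˢ (Set.Icc 0 4))

theorem AF_finite : AF.Finite := by
  haveI := finiteK
  apply (Set.finite_singleton _).union
  exact (Set.finite_univ.prod (Set.finite_Icc _ _)).image _

theorem id_AF : idA ∈ AF := Or.inl rfl

theorem PA_AF (k : K') (a : Γ') : PA k (dig a) ∈ AF :=
  Or.inr ⟨(k, dig a), ⟨trivial, by have := dig_range a; constructor <;> dsimp only <;> omega⟩, rfl⟩

theorem PA0_AF (k : K') : PA k 0 ∈ AF := Or.inr ⟨(k, 0), ⟨trivial, by constructor <;> simp⟩, rfl⟩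

/-- all admissible rules -/
def RS : Set (Rule (II c) VV) := {ρ | ρ.α ∈ AF ∧ ρ.β ∈ AF ∧
  ∀ u, (ρ.i, ρ.α.ev u) ∈ Z c ↔ (ρ.j, ρ.β.ev u) ∈ Z c}

theorem RS_finite : (RS c).Finite := by
  have h1 : ((Set.univ : Set (II c)) ×ˢ (AF ×ˢ ((Set.univ : Set (II c)) ×ˢ AF))).Finite :=
    Set.finite_univ.prod (AF_finite.prod (Set.finite_univ.prod AF_finite))
  refine (h1.image (fun p => (⟨p.1, p.2.1, p.2.2.1, p.2.2.2⟩ : Rule (II c) VV))).subset ?_
  rintro ρ ⟨ha, hb, _⟩
  exact ⟨(ρ.i, ρ.α, ρ.j, ρ.β), ⟨trivial, ha, trivial, hb⟩, rfl⟩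

/-- the list of rules -/
noncomputable def rl : List (Rule (II c) VV) := (RS_finite c).toFinset.toList

variable {c}

theorem mem_rl {ρ : Rule (II c) VV} : ρ ∈ rl c ↔ ρ ∈ RS c := by
  rw [rl, Finset.mem_toList, Set.Finite.mem_toFinset]

theorem mem_Z {i : II c} {S : K' → List Γ'} : (i, ES S) ∈ Z c ↔ W i S := by
  constructor
  · rintro ⟨S', h1, h2⟩
    have := ES_injective h1
    rw [this]
    exact h2
  · intro h
    exact ⟨S, rfl, h⟩

theorem V1 {i j : II c} (h : ∀ S, W i S ↔ W j S) : (⟨i, idA, j, idA⟩ : Rule (II c) VV) ∈ RS c := by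
  refine ⟨id_AF, id_AF, ?_⟩
  intro u
  change (∃ S, idA.ev u = ES S ∧ W i S) ↔ ∃ S, idA.ev u = ES S ∧ W j S
  simp only [h]

theorem V2 {i j : II c} {k : K'} {a : Γ'} (h : ∀ S, W i S ↔ W j (update S k (a :: S k))) :
    (⟨i, idA, j, PA k (dig a)⟩ : Rule (II c) VV) ∈ RS c := by
  refine ⟨id_AF, PA_AF k a, ?_⟩
  intro u
  change (∃ S, idA.ev u = ES S ∧ W i S) ↔ ∃ S, (PA k (dig a)).ev u = ES S ∧ W j S
  rw [idA_ev]
  constructor
  · rintro ⟨S, rfl, hS⟩
    exact ⟨_, PA_ES k a S, (h S).mp hS⟩
  · rintro ⟨S, h1, hS⟩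
    obtain ⟨S', rfl, rfl⟩ := PA_dec h1
    exact ⟨S', rfl, (h S').mpr hS⟩

theorem V3 {i j : II c} {k : K'} {a : Γ'} (h : ∀ S, W i (update S k (a :: S k)) ↔ W j S) :
    (⟨i, PA k (dig a), j, idA⟩ : Rule (II c) VV) ∈ RS c := by
  have := V2 (i := j) (j := i) (k := k) (a := a) (fun S => (h S).symm)
  exact ⟨this.2.1, this.1, fun u => (this.2.2 u).symm⟩

theorem V4 {i j : II c} {k : K'} {a : Γ'}
    (h : ∀ S, W i (update S k (a :: S k)) ↔ W j (update S k (a :: S k))) :
    (⟨i, PA k (dig a), j, PA k (dig a)⟩ : Rule (II c) VV) ∈ RS c := by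
  refine ⟨PA_AF k a, PA_AF k a, ?_⟩
  intro u
  change (∃ S, (PA k (dig a)).ev u = ES S ∧ W i S) ↔ ∃ S, (PA k (dig a)).ev u = ES S ∧ W j S
  constructor
  · rintro ⟨S, h1, hS⟩
    obtain ⟨S', rfl, rfl⟩ := PA_dec h1
    exact ⟨_, h1, (h S').mp hS⟩
  · rintro ⟨S, h1, hS⟩
    obtain ⟨S', rfl, rfl⟩ := PA_dec h1
    exact ⟨_, h1, (h S').mpr hS⟩

theorem V5 {i j : II c} {k : K'} (h : ∀ S : K' → List Γ', S k = [] → (W i S ↔ W j S)) :
    (⟨i, PA k 0, j, PA k 0⟩ : Rule (II c) VV) ∈ RS c := by
  refine ⟨PA0_AF k, PA0_AF k, ?_⟩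
  intro u
  change (∃ S, (PA k 0).ev u = ES S ∧ W i S) ↔ ∃ S, (PA k 0).ev u = ES S ∧ W j S
  constructor
  · rintro ⟨S, h1, hS⟩
    exact ⟨S, h1, (h S (PA_zero h1).1).mp hS⟩
  · rintro ⟨S, h1, hS⟩
    exact ⟨S, h1, (h S (PA_zero h1).1).mpr hS⟩

theorem red_of {ρ : Rule (II c) VV} (h : ρ ∈ RS c) (u : VV) :
    Red (rl c) (ρ.i, ρ.α.ev u) (ρ.j, ρ.β.ev u) := ⟨ρ, mem_rl.mpr h, u, rfl, rfl⟩

theorem clear1 (k : K') : ∀ (t : List Γ') (S : K' → List Γ'), S k = t →
    ReflTransGen (Red (rl c)) (none, ES S) (none, ES (update S k [])) := by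
  intro t
  induction t with
  | nil =>
    intro S h
    rw [← h, Function.update_eq_self]
  | cons a t ih =>
    intro S h
    have h1 : S = update (update S k t) k (a :: (update S k t) k) := by
      funext j
      by_cases hj : j = k
      · subst hj; simp [h]
      · simp [hj]
    have h2 := red_of (V3 (i := (none : II c)) (j := (none : II c)) (k := k) (a := a)
      (fun S => Iff.rfl)) (ES (update S k t))
    dsimp only at h2
    rw [PA_ES, idA_ev, ← h1] at h2
    have h3 := ih (update S k t) (by simp)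
    rw [Function.update_idem] at h3
    exact ReflTransGen.head h2 h3

theorem clear (S : K' → List Γ') : ReflTransGen (Red (rl c)) (none, ES S) (none, 0) := by
  have h1 := clear1 (c := c) K'.main _ S rfl
  have h2 := clear1 (c := c) K'.rev _ (update S K'.main []) rfl
  have h3 := clear1 (c := c) K'.aux _ (update (update S K'.main []) K'.rev []) rfl
  have h4 := clear1 (c := c) K'.stack _ (update (update (update S K'.main []) K'.rev []) K'.aux []) rfl
  have h5 : ES (update (update (update (update S K'.main []) K'.rev []) K'.aux []) K'.stack []) = 0 := by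
    funext k
    cases k <;> simp [ES, enc]
  rw [h5] at h4
  exact h1.trans (h2.trans (h3.trans h4))

theorem inner : ∀ (q : Stmt') (hq : q ∈ St c) (v : Option Γ') (S : K' → List Γ'),
    (∀ (l : Λ') (v' : Option Γ') (S' : K' → List Γ'), TM2.stepAux q v S = ⟨some l, v', S'⟩ →
      ∀ hl : tr l ∈ St c, ReflTransGen (Red (rl c)) (some (⟨tr l, hl⟩, v'), ES S') (none, 0)) →
    ReflTransGen (Red (rl c)) (some (⟨q, hq⟩, v), ES S) (none, 0) := by
  intro q
  have hsub : ∀ (q q' : Stmt'), q' ∈ TM2.stmts₁ q → q ∈ St c → q' ∈ St c := by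
    rintro q q' h ⟨l, hl, hq⟩
    exact ⟨l, hl, TM2.stmts₁_trans hq h⟩
  induction q with
  | push k f q ih =>
    intro hq v S hx
    have hq' : q ∈ St c := hsub _ q (sub_push _ _ _) hq
    have h1 := red_of (V2 (i := (some (⟨TM2.Stmt.push k f q, hq⟩, v) : II c))
      (j := some (⟨q, hq'⟩, v)) (k := k) (a := f v) (fun S => Iff.rfl)) (ES S)
    dsimp only at h1
    rw [idA_ev, PA_ES] at h1
    exact ReflTransGen.head h1 (ih hq' v _ hx)
  | peek k f q ih =>
    intro hq v S hx
    have hq' : q ∈ St c := hsub _ q (sub_peek _ _ _) hq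
    rcases hSk : S k with _ | ⟨a, t⟩
    · have h1 := red_of (V5 (i := (some (⟨TM2.Stmt.peek k f q, hq⟩, v) : II c))
        (j := some (⟨q, hq'⟩, f v none)) (k := k) (fun S hS => by
          change HD q (f v (S k).head?) S ↔ HD q (f v none) S
          rw [hS]; rfl)) (ES S)
      dsimp only at h1
      rw [PA_zero_ES hSk] at h1
      refine ReflTransGen.head h1 (ih hq' _ _ ?_)
      intro l v' S' h
      apply hx l v' S'
      change TM2.stepAux q (f v (S k).head?) S = _
      rw [hSk]
      exact h
    · have hS : S = update (update S k t) k (a :: (update S k t) k) := by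
        funext j
        by_cases hj : j = k
        · subst hj; simp [hSk]
        · simp [hj]
      have h1 := red_of (V4 (i := (some (⟨TM2.Stmt.peek k f q, hq⟩, v) : II c))
        (j := some (⟨q, hq'⟩, f v (some a))) (k := k) (a := a) (fun S => by
          change HD q (f v ((update S k (a :: S k)) k).head?) (update S k (a :: S k)) ↔
            HD q (f v (some a)) (update S k (a :: S k))
          rw [Function.update_self]; rfl)) (ES (update S k t))
      dsimp only at h1
      rw [PA_ES, ← hS] at h1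
      refine ReflTransGen.head h1 (ih hq' _ _ ?_)
      intro l v' S' h
      apply hx l v' S'
      change TM2.stepAux q (f v (S k).head?) S = _
      rw [hSk]
      exact h
  | pop k f q ih =>
    intro hq v S hx
    have hq' : q ∈ St c := hsub _ q (sub_pop _ _ _) hq
    rcases hSk : S k with _ | ⟨a, t⟩
    · have hup : ∀ S : K' → List Γ', S k = [] → update S k (S k).tail = S := by
        intro S hS
        rw [hS]
        change update S k [] = S
        rw [← hS, Function.update_eq_self]
      have h1 := red_of (V5 (i := (some (⟨TM2.Stmt.pop k f q, hq⟩, v) : II c))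
        (j := some (⟨q, hq'⟩, f v none)) (k := k) (fun S hS => by
          change HD q (f v (S k).head?) (update S k (S k).tail) ↔ HD q (f v none) S
          rw [hup S hS, hS]; rfl)) (ES S)
      dsimp only at h1
      rw [PA_zero_ES hSk] at h1
      refine ReflTransGen.head h1 (ih hq' _ _ ?_)
      intro l v' S' h
      apply hx l v' S'
      change TM2.stepAux q (f v (S k).head?) (update S k (S k).tail) = _
      rw [hup S hSk, hSk]
      exact h
    · have hS : S = update (update S k t) k (a :: (update S k t) k) := by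
        funext j
        by_cases hj : j = k
        · subst hj; simp [hSk]
        · simp [hj]
      have h1 := red_of (V3 (i := (some (⟨TM2.Stmt.pop k f q, hq⟩, v) : II c))
        (j := some (⟨q, hq'⟩, f v (some a))) (k := k) (a := a) (fun S => by
          change HD q (f v ((update S k (a :: S k)) k).head?)
            (update (update S k (a :: S k)) k ((update S k (a :: S k)) k).tail) ↔
            HD q (f v (some a)) S
          rw [Function.update_self, Function.update_idem]
          change HD q (f v (some a)) (update S k (S k)) ↔ _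
          rw [Function.update_eq_self])) (ES (update S k t))
      dsimp only at h1
      rw [PA_ES, ← hS, idA_ev] at h1
      refine ReflTransGen.head h1 (ih hq' _ _ ?_)
      intro l v' S' h
      apply hx l v' S'
      change TM2.stepAux q (f v (S k).head?) (update S k (S k).tail) = _
      rw [hSk]
      exact h
  | load a q ih =>
    intro hq v S hx
    have hq' : q ∈ St c := hsub _ q (sub_load _ _) hq
    have h1 := red_of (V1 (i := (some (⟨TM2.Stmt.load a q, hq⟩, v) : II c))
      (j := some (⟨q, hq'⟩, a v)) (fun S => Iff.rfl)) (ES S)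
    dsimp only at h1
    rw [idA_ev] at h1
    exact ReflTransGen.head h1 (ih hq' _ _ hx)
  | branch p q₁ q₂ ih₁ ih₂ =>
    intro hq v S hx
    have hq₁ : q₁ ∈ St c := hsub _ q₁ (sub_branch₁ _ _ _) hq
    have hq₂ : q₂ ∈ St c := hsub _ q₂ (sub_branch₂ _ _ _) hq
    cases hp : p v with
    | true =>
      have h1 := red_of (V1 (i := (some (⟨TM2.Stmt.branch p q₁ q₂, hq⟩, v) : II c))
        (j := some (⟨q₁, hq₁⟩, v)) (fun S => by
          change HD (TM2.Stmt.branch p q₁ q₂) v S ↔ HD q₁ v S
          simp only [HD, TM2.stepAux, hp, cond_true])) (ES S)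
      dsimp only at h1
      rw [idA_ev] at h1
      refine ReflTransGen.head h1 (ih₁ hq₁ _ _ ?_)
      intro l v' S' h
      apply hx l v' S'
      simp only [TM2.stepAux, hp, cond_true]
      exact h
    | false =>
      have h1 := red_of (V1 (i := (some (⟨TM2.Stmt.branch p q₁ q₂, hq⟩, v) : II c))
        (j := some (⟨q₂, hq₂⟩, v)) (fun S => by
          change HD (TM2.Stmt.branch p q₁ q₂) v S ↔ HD q₂ v S
          simp only [HD, TM2.stepAux, hp, cond_false])) (ES S)
      dsimp only at h1
      rw [idA_ev] at h1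
      refine ReflTransGen.head h1 (ih₂ hq₂ _ _ ?_)
      intro l v' S' h
      apply hx l v' S'
      simp only [TM2.stepAux, hp, cond_false]
      exact h
  | goto l =>
    intro hq v S hx
    have hl : l v ∈ SS c := by
      obtain ⟨l', hl', hq'⟩ := hq
      have h1 := (@TM2.Supports _ _ _ _ ⟨trNormal c Cont'.halt⟩ tr (codeSupp c Cont'.halt))
      have h2 := (tr_supports c Cont'.halt).2 l' hl'
      exact TM2.stmts₁_supportsStmt_mono hq' h2 v
    have hl' : tr (l v) ∈ St c := ⟨l v, hl, TM2.stmts₁_self⟩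
    have h1 := red_of (V1 (i := (some (⟨TM2.Stmt.goto l, hq⟩, v) : II c))
      (j := some (⟨tr (l v), hl'⟩, v)) (fun S => HD_goto l v S)) (ES S)
    dsimp only at h1
    rw [idA_ev] at h1
    exact ReflTransGen.head h1 (hx (l v) v S rfl hl')
  | halt =>
    intro hq v S hx
    have h1 := red_of (V1 (i := (some (⟨TM2.Stmt.halt, hq⟩, v) : II c)) (j := none)
      (fun S => ⟨fun _ => trivial, fun _ => HD_halt v S⟩)) (ES S)
    dsimp only at h1
    rw [idA_ev] at h1
    exact ReflTransGen.head h1 (clear S)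

theorem outer {b : Cfg'} (hb : TM2.step tr b = none) (x : Cfg') (hx : Reaches (TM2.step tr) x b) :
    ∀ (l : Λ') (v : Option Γ') (S : K' → List Γ'), x = ⟨some l, v, S⟩ → ∀ hl : tr l ∈ St c,
      ReflTransGen (Red (rl c)) (some (⟨tr l, hl⟩, v), ES S) (none, 0) := by
  induction hx using ReflTransGen.head_induction_on with
  | refl =>
    intro l v S h
    rw [h] at hb
    simp [TM2.step] at hb
  | @head x y h _ ih =>
    intro l v S hx hl
    subst hx
    have h2 : some (TM2.stepAux (tr l) v S) = some y := h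
    have h3 := Option.some.inj h2
    apply inner
    intro l' v' S' h' hl'
    rw [h'] at h3
    exact ih l' v' S' h3.symm hl'

theorem reach {p : II c × VV} (hp : p ∈ Z c) : ReflTransGen (Red (rl c)) p (none, 0) := by
  obtain ⟨i, u⟩ := p
  obtain ⟨S, hu, hW⟩ := hp
  dsimp only at hu hW
  subst hu
  cases i with
  | none => exact clear S
  | some qv =>
    obtain ⟨⟨q, hq⟩, v⟩ := qv
    obtain ⟨b, hb1, hb2⟩ := hW
    apply inner
    intro l v' S' h' hl'
    dsimp only at hb1
    rw [h'] at hb1
    exact outer hb2 _ hb1 l v' S' rfl hl'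

end machine

end Pool.Agent.H76.Mach
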