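import Mathlib
import Pool.Agent.H76.Mach

set_option autoImplicit false
set_option linter.style.haveILetI false

namespace Pool.Agent.H76.Cod

open Turing Turing.PartrecToTM2 Turing.ToPartrec Relation StateTransition
open Pool.Agent.H76.KGrp Pool.Agent.H76.Mach
open Function (update)

/-- binary digits, least significant first -/
def bits : ℕ → ℕ → List Γ'
  | 0, _ => []
  | k + 1, x => (if x % 2 = 1 then Γ'.bit1 else Γ'.bit0) :: bits k (x / 2)

theorem bits_length (k x : ℕ) : (bits k x).length = k := by
  induction k generalizing x with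
  | zero => rfl
  | succ k ih => rw [bits, List.length_cons, ih]

theorem bits_inj (k : ℕ) : ∀ x y, x < 2 ^ k → y < 2 ^ k → bits k x = bits k y → x = y := by
  induction k with
  | zero => intro x y hx hy _; simp at hx hy; omega
  | succ k ih =>
    intro x y hx hy h
    rw [bits, bits, List.cons.injEq] at h
    have h1 := ih (x / 2) (y / 2) (by omega) (by omega) h.2
    have h2 : x % 2 = 1 ↔ y % 2 = 1 := by
      have := h.1
      constructor
      · intro hx1
        by_contra hy1
        rw [if_pos hx1, if_neg hy1] at this
        exact absurd this (by decide)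
      · intro hy1
        by_contra hx1
        rw [if_neg hx1, if_pos hy1] at this
        exact absurd this (by decide)
    omega

theorem trNat_pos {y : ℕ} (hy : 1 ≤ y) : ∃ p : PosNum, (p : ℕ) = y ∧ trNat y = trPosNum p := by
  have h1 : ((y : Num) : ℕ) = y := Num.to_of_nat y
  rcases h : (y : Num) with _ | p
  · rw [h] at h1
    exfalso
    have : ((Num.zero : Num) : ℕ) = 0 := rfl
    omega
  · refine ⟨p, ?_, ?_⟩
    · rw [h] at h1
      exact h1
    · rw [trNat, h, trNum]

theorem trNat_posNum (p : PosNum) : trNat (p : ℕ) = trPosNum p := by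
  have h1 : (((p : ℕ) : ℕ) : Num) = Num.pos p := by
    have := Num.of_to_nat (Num.pos p)
    exact this
  rw [trNat, h1, trNum]

theorem trNat_bit0 {y : ℕ} (hy : 1 ≤ y) : trNat (2 * y) = Γ'.bit0 :: trNat y := by
  obtain ⟨p, hp, h⟩ := trNat_pos hy
  have h1 : ((PosNum.bit0 p : PosNum) : ℕ) = 2 * y := by
    rw [PosNum.cast_bit0, hp]; ring
  rw [← h1, trNat_posNum, trPosNum, h]

theorem trNat_bit1 {y : ℕ} (hy : 1 ≤ y) : trNat (2 * y + 1) = Γ'.bit1 :: trNat y := by
  obtain ⟨p, hp, h⟩ := trNat_pos hy
  have h1 : ((PosNum.bit1 p : PosNum) : ℕ) = 2 * y + 1 := by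
    rw [PosNum.cast_bit1, hp]; ring
  rw [← h1, trNat_posNum, trPosNum, h]

theorem trNat_bits (k : ℕ) : ∀ (x y : ℕ), x < 2 ^ k → 1 ≤ y →
    trNat (2 ^ k * y + x) = bits k x ++ trNat y := by
  induction k with
  | zero => intro x y hx _; simp at hx; subst hx; simp [bits]
  | succ k ih =>
    intro x y hx hy
    have hx2 : x / 2 < 2 ^ k := by omega
    have h1 := ih (x / 2) y hx2 hy
    have hpos : 1 ≤ 2 ^ k * y + x / 2 := by
      have : 1 ≤ 2 ^ k * y := Nat.mul_pos (by positivity) hy
      omega
    rw [bits, List.cons_append, ← h1]
    rcases Nat.mod_two_eq_zero_or_one x with h | h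
    · rw [if_neg (by omega), ← trNat_bit0 hpos]
      congr 1
      rw [pow_succ]
      have : x = 2 * (x / 2) := by omega
      calc 2 ^ k * 2 * y + x = 2 * (2 ^ k * y) + x := by ring
        _ = 2 * (2 ^ k * y) + 2 * (x / 2) := by omega
        _ = _ := by ring
    · rw [if_pos h, ← trNat_bit1 hpos]
      congr 1
      rw [pow_succ]
      calc 2 ^ k * 2 * y + x = 2 * (2 ^ k * y) + x := by ring
        _ = 2 * (2 ^ k * y) + (2 * (x / 2) + 1) := by omega
        _ = _ := by ring

theorem enc_append (B L : List Γ') : enc (B ++ L) = 5 ^ B.length * enc L + enc B := by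
  induction B with
  | nil => simp [enc]
  | cons b B ih =>
    rw [List.cons_append, enc, ih, enc, List.length_cons, pow_succ]
    ring

theorem enc_app_dec : ∀ (B L : List Γ') (x : ℤ), 5 ^ B.length * x + enc B = enc L →
    ∃ L', L = B ++ L' ∧ x = enc L' := by
  intro B
  induction B with
  | nil =>
    intro L x h
    refine ⟨L, rfl, ?_⟩
    simpa [enc] using h
  | cons b B ih =>
    intro L x h
    have h1 : 5 * (5 ^ B.length * x + enc B) + dig b = enc L := by
      rw [← h, enc, List.length_cons, pow_succ]
      ring
    obtain ⟨L₁, rfl, h2⟩ := enc_dec h1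
    obtain ⟨L', rfl, h3⟩ := ih L₁ x h2
    exact ⟨L', rfl, h3⟩

section words

variable (r : ℕ)

/-- number of binary digits per letter -/
def kk : ℕ := 2 + ∑ a : Fin r × Bool, Encodable.encode a

theorem encode_lt (a : Fin r × Bool) : Encodable.encode a < 2 ^ kk r := by
  have h1 : Encodable.encode a ≤ ∑ a : Fin r × Bool, Encodable.encode a :=
    Finset.single_le_sum (f := fun a : Fin r × Bool => Encodable.encode a) (fun _ _ => Nat.zero_le _)
      (Finset.mem_univ a)
  have h2 : kk r < 2 ^ kk r := Nat.lt_two_pow_self
  unfold kk at h2 ⊢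
  omega

variable {r}

/-- numerical code of a word -/
def code : List (Fin r × Bool) → ℕ
  | [] => 1
  | a :: w => 2 ^ kk r * code w + Encodable.encode a

theorem code_pos (w : List (Fin r × Bool)) : 1 ≤ code w := by
  induction w with
  | nil => exact le_refl _
  | cons a w ih =>
    rw [code]
    have : 1 ≤ 2 ^ kk r * code w := Nat.mul_pos (by positivity) ih
    omega

/-- the input tape -/
def tL (w : List (Fin r × Bool)) : List Γ' := trList [code w]

theorem tL_nil : tL ([] : List (Fin r × Bool)) = [Γ'.bit1, Γ'.cons] := by
  have h1 : trNat 1 = [Γ'.bit1] := by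
    have := trNat_posNum PosNum.one
    simpa [trPosNum] using this
  rw [tL, code, trList, trList, h1]
  rfl

theorem tL_cons (a : Fin r × Bool) (w : List (Fin r × Bool)) :
    tL (a :: w) = bits (kk r) (Encodable.encode a) ++ tL w := by
  rw [tL, tL, trList, trList, code, trNat_bits _ _ _ (encode_lt r a) (code_pos w),
    List.append_assoc]
  rfl

theorem tL_ne (x : ℕ) (L : List Γ') : bits (kk r) x ++ L ≠ [Γ'.bit1, Γ'.cons] := by
  intro h
  have h2 : kk r = (∑ a : Fin r × Bool, Encodable.encode a) + 1 + 1 := by unfold kk; ring
  rw [h2, bits, bits, List.cons_append, List.cons_append, List.cons.injEq, List.cons.injEq] at h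
  have := h.2.1
  split_ifs at this

theorem tL_injective : Function.Injective (tL (r := r)) := by
  intro w
  induction w with
  | nil =>
    intro w' h
    cases w' with
    | nil => rfl
    | cons a w' =>
      rw [tL_nil, tL_cons] at h
      exact absurd h.symm (tL_ne _ _)
  | cons a w ih =>
    intro w' h
    cases w' with
    | nil =>
      rw [tL_nil, tL_cons] at h
      exact absurd h (tL_ne _ _)
    | cons a' w' =>
      rw [tL_cons, tL_cons] at h
      obtain ⟨h1, h2⟩ := List.append_inj h (by rw [bits_length, bits_length])
      have h3 := bits_inj _ _ _ (encode_lt r a) (encode_lt r a') h1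
      rw [Encodable.encode_injective h3, ih h2]

/-- stacks coding a word -/
def stk (w : List (Fin r × Bool)) : K' → List Γ' := K'.elim (tL w) [] [] []

/-- vector coding a word -/
def vv (w : List (Fin r × Bool)) : VV := ES (stk w)

theorem vv_injective : Function.Injective (vv (r := r)) := by
  intro w w' h
  have h1 := ES_injective h
  have h2 : stk w K'.main = stk w' K'.main := congrFun h1 K'.main
  exact tL_injective h2

/-- affine map adding a letter -/
def gam (a : Fin r × Bool) : Aff VV :=
  { A := { toFun := fun v j => if j = K'.main then 5 ^ kk r * v j else v j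
           map_zero' := by funext j; simp
           map_add' := by
            intro v w
            funext j
            simp only [Pi.add_apply]
            split_ifs
            · ring
            · rfl }
    inj := by
      intro v w h
      funext j
      have := congrFun h j
      simp only [AddMonoidHom.coe_mk, ZeroHom.coe_mk] at this
      split_ifs at this
      · exact mul_left_cancel₀ (by positivity) this
      · exact this
    d := fun j => if j = K'.main then enc (bits (kk r) (Encodable.encode a)) else 0 }

theorem gam_ev (a : Fin r × Bool) (u : VV) : (gam a).ev u = fun j => if j = K'.main then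
    5 ^ kk r * u j + enc (bits (kk r) (Encodable.encode a)) else u j := by
  funext j
  change (if j = K'.main then 5 ^ kk r * u j else u j) +
    (if j = K'.main then enc (bits (kk r) (Encodable.encode a)) else 0) = _
  split_ifs <;> simp

theorem gam_vv (a : Fin r × Bool) (w : List (Fin r × Bool)) : (gam a).ev (vv w) = vv (a :: w) := by
  rw [gam_ev]
  funext j
  cases j with
  | main =>
    rw [if_pos rfl]
    change 5 ^ kk r * enc (tL w) + _ = enc (tL (a :: w))
    rw [tL_cons, enc_append, bits_length]
  | rev => rfl
  | aux => rfl
  | stack => rfl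

theorem gam_dec (a : Fin r × Bool) (u : VV) (w' : List (Fin r × Bool))
    (h : (gam a).ev u = vv w') : ∃ w : List (Fin r × Bool), u = vv w := by
  rw [gam_ev] at h
  have h1 := congrFun h K'.main
  simp only [if_true] at h1
  have h1' : 5 ^ (bits (kk r) (Encodable.encode a)).length * u K'.main +
      enc (bits (kk r) (Encodable.encode a)) = enc (tL w') := by
    rw [bits_length]; exact h1
  obtain ⟨L', h2, h3⟩ := enc_app_dec _ _ _ h1'
  cases w' with
  | nil =>
    rw [tL_nil] at h2
    exact absurd h2.symm (tL_ne _ _)
  | cons a' w =>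
    rw [tL_cons] at h2
    obtain ⟨_, h4⟩ := List.append_inj h2 (by rw [bits_length, bits_length])
    refine ⟨w, ?_⟩
    funext j
    cases j with
    | main => rw [h3, ← h4]; rfl
    | rev => exact congrFun h K'.rev
    | aux => exact congrFun h K'.aux
    | stack => exact congrFun h K'.stack

/-- one step of decoding -/
def dstep (p : ℕ × List (Fin r × Bool)) : ℕ × List (Fin r × Bool) :=
  if p.1 < 2 then p else
    (p.1 / 2 ^ kk r, Option.casesOn (Encodable.decode (p.1 % 2 ^ kk r) : Option (Fin r × Bool))
      p.2 (fun a => a :: p.2))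

/-- decoding -/
def dec (n : ℕ) : List (Fin r × Bool) := (dstep^[n] (n, [])).2.reverse

theorem dstep_code (a : Fin r × Bool) (w acc : List (Fin r × Bool)) :
    dstep (code (a :: w), acc) = (code w, a :: acc) := by
  have h1 : 2 ≤ code (a :: w) := by
    rw [code]
    have h2 := code_pos w
    have h3 : 2 ≤ 2 ^ kk r := by
      have : 2 ^ 1 ≤ 2 ^ kk r := Nat.pow_le_pow_right (by norm_num) (by unfold kk; omega)
      simpa using this
    nlinarith
  have h2 : code (a :: w) / 2 ^ kk r = code w := by
    rw [code, Nat.mul_add_div (by positivity), Nat.div_eq_of_lt (encode_lt r a), add_zero]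
  have h3 : code (a :: w) % 2 ^ kk r = Encodable.encode a := by
    rw [code, Nat.mul_add_mod, Nat.mod_eq_of_lt (encode_lt r a)]
  unfold dstep
  rw [if_neg (by dsimp only; omega)]
  dsimp only
  rw [h2, h3, Encodable.encodek]

theorem dstep_one (acc : List (Fin r × Bool)) : dstep (1, acc) = (1, acc) := by
  unfold dstep
  rw [if_pos (by norm_num)]

theorem iter_dstep : ∀ (w acc : List (Fin r × Bool)) (t : ℕ), w.length ≤ t →
    dstep^[t] (code w, acc) = (1, w.reverse ++ acc) := by
  intro w
  induction w with
  | nil =>
    intro acc t _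
    rw [code]
    induction t with
    | zero => rfl
    | succ t ih => rw [Function.iterate_succ_apply, dstep_one, ih (Nat.zero_le _)]
  | cons a w ih =>
    intro acc t ht
    cases t with
    | zero => simp at ht
    | succ t =>
      rw [Function.iterate_succ_apply, dstep_code, ih _ _ (by simpa using ht)]
      simp

theorem length_le_code (w : List (Fin r × Bool)) : w.length ≤ code w := by
  induction w with
  | nil => simp
  | cons a w ih =>
    rw [code, List.length_cons]
    have h2 := code_pos w
    have h3 : 2 ≤ 2 ^ kk r := by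
      have : 2 ^ 1 ≤ 2 ^ kk r := Nat.pow_le_pow_right (by norm_num) (by unfold kk; omega)
      simpa using this
    nlinarith

theorem dec_code (w : List (Fin r × Bool)) : dec (code w) = w := by
  rw [dec, iter_dstep w [] _ (length_le_code w)]
  simp

theorem dec_primrec : Primrec (dec (r := r)) := by
  have h1 : Primrec (dstep (r := r)) := by
    unfold dstep
    refine Primrec.ite ?_ Primrec.id ?_
    · exact Primrec.nat_lt.comp Primrec.fst (Primrec.const 2)
    · refine Primrec.pair ?_ ?_
      · exact Primrec.nat_div.comp Primrec.fst (Primrec.const _)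
      · refine Primrec.option_casesOn ?_ Primrec.snd ?_
        · exact Primrec.decode.comp (Primrec.nat_mod.comp Primrec.fst (Primrec.const _))
        · exact Primrec.list_cons.comp Primrec.snd (Primrec.snd.comp Primrec.fst)
  have h2 : Primrec (fun n : ℕ => dstep (r := r)^[n] (n, [])) := by
    refine Primrec.nat_iterate (f := fun n => n) (g := fun n => (n, [])) (h := fun _ p => dstep p)
      Primrec.id (Primrec.pair Primrec.id (Primrec.const [])) ?_
    exact h1.comp Primrec.snd
  exact Primrec.list_reverse.comp (Primrec.snd.comp h2)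

/-- Partial recursive codes for recursively enumerable sets of words. -/
theorem exists_code (p : List (Fin r × Bool) → Prop) (hp : REPred p) :
    ∃ c : Code, ∀ w, (c.eval [code w]).Dom ↔ p w := by
  have h1 : Partrec (fun n : ℕ => (Part.assert (p (dec n)) fun _ => Part.some () : Part Unit)) :=
    hp.comp dec_primrec.to_comp
  have h2 : Partrec (fun n : ℕ => (Part.assert (p (dec n)) fun _ => Part.some () : Part Unit).map
      (fun _ => (0 : ℕ))) := h1.map (Computable.const 0).to₂
  have h3 := Nat.Partrec'.part_iff₁.mpr h2
  obtain ⟨c, hc⟩ := Code.exists_code h3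
  refine ⟨c, fun w => ?_⟩
  have h4 := hc (code w ::ᵥ List.Vector.nil)
  have h5 : (code w ::ᵥ List.Vector.nil : List.Vector ℕ 1).1 = [code w] := rfl
  rw [h5] at h4
  rw [h4]
  have h6 : (code w ::ᵥ List.Vector.nil : List.Vector ℕ 1).head = code w := rfl
  rw [h6, dec_code]
  simp [Part.map_Dom, Part.assert]

end words

end Pool.Agent.H76.Cod
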