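import Mathlib

set_option autoImplicit false

namespace Pool.Agent.H76.Hyp

variable {G X : Type*} [Group G] [MetricSpace X] [MulAction G X]

/-- Gromov product of `x` and `y` based at `w`. -/
noncomputable def gp (x y w : X) : ℝ := (dist x w + dist y w - dist x y) / 2

/-- four point hyperbolicity -/
def FourPt (X : Type*) [MetricSpace X] (δ : ℝ) : Prop :=
  ∀ x y z w : X,
    dist x y + dist z w ≤ max (dist x z + dist y w) (dist x w + dist y z) + 2 * δ

/-- acting by isometries -/
def IsoAct (G X : Type*) [Group G] [MetricSpace X] [MulAction G X] : Prop :=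
  ∀ (h : G) (x y : X), dist (h • x) (h • y) = dist x y

/-- acylindrical -/
def Acyl (G X : Type*) [Group G] [MetricSpace X] [MulAction G X] : Prop :=
  ∀ ε : ℝ, 0 < ε → ∃ (R : ℝ) (N : ℕ), ∀ x y : X, R ≤ dist x y →
        {h : G | dist x (h • x) ≤ ε ∧ dist y (h • y) ≤ ε}.Finite ∧
        {h : G | dist x (h • x) ≤ ε ∧ dist y (h • y) ≤ ε}.ncard ≤ N

theorem FourPt.mono {δ δ' : ℝ} (h : FourPt X δ) (hd : δ ≤ δ') : FourPt X δ' := by
  intro x y z w
  have := h x y z w
  linarith

theorem gp_comm (x y w : X) : gp x y w = gp y x w := by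
  unfold gp
  rw [dist_comm x y]; ring

theorem gp_ineq {δ : ℝ} (h : FourPt X δ) (x y z w : X) :
    min (gp x y w) (gp y z w) - δ ≤ gp x z w := by
  have h1 := h x z y w
  unfold gp
  rw [dist_comm z y] at h1
  rcases le_total (dist x y + dist z w) (dist x w + dist y z) with h2 | h2
  · rw [max_eq_right h2] at h1
    have : min ((dist x w + dist y w - dist x y) / 2) ((dist y w + dist z w - dist y z) / 2)
       ≤ ((dist y w + dist z w - dist y z) / 2) := min_le_right _ _
    linarith
  · rw [max_eq_left h2] at h1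
    have : min ((dist x w + dist y w - dist x y) / 2) ((dist y w + dist z w - dist y z) / 2)
       ≤ ((dist x w + dist y w - dist x y) / 2) := min_le_left _ _
    linarith

theorem gp_nonneg (x y w : X) : 0 ≤ gp x y w := by
  unfold gp
  have := dist_triangle_right x y w
  linarith

theorem gp_le_left (x y w : X) : gp x y w ≤ dist x w := by
  unfold gp
  have := dist_triangle y x w
  rw [dist_comm y x] at this
  linarith

theorem gp_le_right (x y w : X) : gp x y w ≤ dist y w := by
  rw [gp_comm]; exact gp_le_left y x w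

/-- `(x|y)_w + (w|y)_x = d(x,w)` -/
theorem gp_add (x y w : X) : gp x y w + gp w y x = dist x w := by
  unfold gp
  rw [dist_comm w x, dist_comm w y, dist_comm x y]
  ring

theorem gp_lip_left (x x' y w : X) : gp x y w ≤ gp x' y w + dist x x' := by
  unfold gp
  have h1 := dist_triangle x x' w
  have h2 := dist_triangle x' x y
  rw [dist_comm x' x] at h2
  linarith

theorem gp_lip_right (x y y' w : X) : gp x y w ≤ gp x y' w + dist y y' := by
  rw [gp_comm x y, gp_comm x y']; exact gp_lip_left y y' x w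

theorem gp_lip_base (x y w w' : X) : gp x y w ≤ gp x y w' + dist w w' := by
  unfold gp
  have h1 := dist_triangle x w' w
  have h2 := dist_triangle y w' w
  rw [dist_comm w' w] at h1 h2
  linarith

theorem gp_smul (hi : IsoAct G X) (g : G) (x y w : X) :
    gp (g • x) (g • y) (g • w) = gp x y w := by
  unfold gp
  rw [hi, hi, hi]

theorem dist_eq_gp (x y w : X) : dist x y = dist x w + dist y w - 2 * gp x y w := by
  unfold gp; ring

/-- one-sided local to global for a chain -/
theorem chain {δ : ℝ} (h : FourPt X δ) (hδ : 0 ≤ δ) (x : ℕ → X) (C0 K : ℝ) (hK : 2 * δ < K)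
    (h1 : ∀ i, gp (x i) (x (i+2)) (x (i+1)) ≤ C0)
    (h2 : ∀ i, 2 * C0 + K ≤ dist (x i) (x (i+1))) (k : ℕ) :
    gp (x 0) (x (k+2)) (x (k+1)) ≤ C0 + δ := by
  induction k with
  | zero => have := h1 0; simp only [zero_add] at *; linarith
  | succ k ih =>
    have e1 := h1 (k+1)
    have e2 := gp_ineq h (x (k+1)) (x 0) (x (k+1+2)) (x (k+1+1))
    have e3 : gp (x (k+1)) (x 0) (x (k+1+1)) = dist (x (k+1)) (x (k+2)) - gp (x 0) (x (k+2)) (x (k+1)) := by
      have := gp_add (x (k+1)) (x 0) (x (k+2))
      have e4 : gp (x (k+2)) (x 0) (x (k+1)) = gp (x 0) (x (k+2)) (x (k+1)) := gp_comm _ _ _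
      have e5 : gp (x (k+1)) (x 0) (x (k+1+1)) = gp (x (k+1)) (x 0) (x (k+2)) := rfl
      rw [e5]
      linarith
    have e4 := h2 (k+1)
    have e5 : C0 + K - δ ≤ gp (x (k+1)) (x 0) (x (k+1+1)) := by
      rw [e3]
      have : dist (x (k+1)) (x (k+1+1)) = dist (x (k+1)) (x (k+2)) := rfl
      linarith
    by_contra hcon
    push Not at hcon
    have e6 : C0 + δ < min (gp (x (k+1)) (x 0) (x (k+1+1))) (gp (x 0) (x (k+1+2)) (x (k+1+1))) := by
      apply lt_min
      · linarith
      · exact hcon
    linarith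

/-- linear growth along a chain -/
theorem chain_dist {δ : ℝ} (h : FourPt X δ) (hδ : 0 ≤ δ) (x : ℕ → X) (C0 K : ℝ) (hK : 2 * δ < K)
    (hC : 0 ≤ C0)
    (h1 : ∀ i, gp (x i) (x (i+2)) (x (i+1)) ≤ C0)
    (h2 : ∀ i, 2 * C0 + K ≤ dist (x i) (x (i+1))) (k : ℕ) :
    (K - 2 * δ) * (k : ℝ) ≤ dist (x 0) (x k) := by
  induction k with
  | zero => simp
  | succ k ih =>
    rcases Nat.eq_zero_or_pos k with hk | hk
    · subst hk
      have := h2 0
      simp only [zero_add, Nat.cast_one, mul_one] at *
      linarith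
    · obtain ⟨j, rfl⟩ : ∃ j, k = j + 1 := ⟨k - 1, by omega⟩
      have e1 := chain h hδ x C0 K hK h1 h2 j
      have e2 := dist_eq_gp (x 0) (x (j+2)) (x (j+1))
      have e3 := h2 (j+1)
      have e4 : dist (x (j+2)) (x (j+1)) = dist (x (j+1)) (x (j+1+1)) := dist_comm _ _
      have e5 : dist (x 0) (x (j+1+1)) = dist (x 0) (x (j+2)) := rfl
      rw [e5, e2, e4]
      push_cast at *
      nlinarith

/-- two-sided local to global for a chain -/
theorem chain_two {δ : ℝ} (h : FourPt X δ) (hδ : 0 ≤ δ) (x : ℕ → X) (C0 K : ℝ) (hK : 3 * δ < K)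
    (hC : 0 ≤ C0)
    (h1 : ∀ i, gp (x i) (x (i+2)) (x (i+1)) ≤ C0)
    (h2 : ∀ i, 2 * C0 + K ≤ dist (x i) (x (i+1))) (k n : ℕ) (hkn : k ≤ n) :
    gp (x 0) (x n) (x k) ≤ C0 + 2 * δ := by
  rcases Nat.eq_zero_or_pos k with hk | hk
  · subst hk
    have := gp_le_left (x 0) (x n) (x 0)
    rw [dist_self] at this
    linarith
  rcases Nat.eq_or_lt_of_le hkn with hkn' | hkn'
  · subst hkn'
    have := gp_le_right (x 0) (x k) (x k)
    rw [dist_self] at this
    linarith
  -- now 0 < k < n
  obtain ⟨j, rfl⟩ : ∃ j, k = j + 1 := ⟨k - 1, by omega⟩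
  have e1 := chain h hδ x C0 K (by linarith) h1 h2 j
  -- reversed chain from n
  have e2 : gp (x n) (x (j+1)) (x (j+2)) ≤ C0 + δ := by
    rcases Nat.eq_or_lt_of_le (Nat.succ_le_of_lt hkn') with h3 | h3
    · have : n = j + 2 := by omega
      subst this
      have := gp_le_left (x (j+2)) (x (j+1)) (x (j+2))
      rw [dist_self] at this
      linarith
    · -- use reversed sequence y i = x (n - i), extended
      -- prove by downward induction directly
      have key : ∀ m : ℕ, ∀ a : ℕ, a + 1 + m + 1 = n → gp (x n) (x a) (x (a+1)) ≤ C0 + δ := by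
        intro m
        induction m with
        | zero =>
          intro a ha
          have : n = a + 2 := by omega
          subst this
          have := h1 a
          rw [gp_comm]; linarith
        | succ m ih =>
          intro a ha
          have i1 := ih (a+1) (by omega)
          have i2 := h1 a
          have i3 := gp_ineq h (x a) (x n) (x (a+2)) (x (a+1))
          have i4 : gp (x n) (x (a+2)) (x (a+1)) = dist (x (a+1)) (x (a+2)) - gp (x n) (x (a+1)) (x (a+2)) := by
            have := gp_add (x (a+2)) (x n) (x (a+1))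
            rw [gp_comm (x n) (x (a+2)), gp_comm (x n) (x (a+1))]
            rw [dist_comm (x (a+1)) (x (a+2))]
            linarith
          have i5 := h2 (a+1)
          have i5' : dist (x (a+1)) (x (a+1+1)) = dist (x (a+1)) (x (a+2)) := rfl
          have i1' : gp (x n) (x (a+1)) (x (a+1+1)) = gp (x n) (x (a+1)) (x (a+2)) := rfl
          rw [gp_comm (x n) (x a)]
          by_contra hcon
          push Not at hcon
          have i6 : C0 + δ < min (gp (x a) (x n) (x (a+1))) (gp (x n) (x (a+2)) (x (a+1))) := by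
            apply lt_min hcon
            rw [i4]
            linarith
          linarith
      exact key (n - (j+1) - 2) (j+1) (by omega)
  have e3 : gp (x n) (x (j+2)) (x (j+1)) = dist (x (j+1)) (x (j+2)) - gp (x n) (x (j+1)) (x (j+2)) := by
    have := gp_add (x (j+2)) (x n) (x (j+1))
    rw [gp_comm (x n) (x (j+2)), gp_comm (x n) (x (j+1))]
    rw [dist_comm (x (j+1)) (x (j+2))]
    linarith
  have e4 := h2 (j+1)
  have e4' : dist (x (j+1)) (x (j+1+1)) = dist (x (j+1)) (x (j+2)) := rfl
  have e5 := gp_ineq h (x 0) (x n) (x (j+2)) (x (j+1))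
  by_contra hcon
  push Not at hcon
  have e6 : C0 + 2 * δ < min (gp (x 0) (x n) (x (j+1))) (gp (x n) (x (j+2)) (x (j+1))) := by
    apply lt_min hcon
    rw [e3]
    linarith
  linarith

end Pool.Agent.H76.Hyp
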