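import Mathlib
import Pool.Agent.H76.Hyp

set_option autoImplicit false

namespace Pool.Agent.H76.Hyp

variable {G X : Type*} [Group G] [MetricSpace X] [MulAction G X]

/-- `g` is loxodromic (with respect to the base point `x`) -/
def Lox (g : G) (x : X) : Prop := ∃ c : ℝ, 0 < c ∧ ∀ n : ℕ, c * (n : ℝ) ≤ dist x ((g ^ n) • x)

theorem dist_zpow (hi : IsoAct G X) (g : G) (x : X) (i j : ℤ) :
    dist (g ^ i • x) (g ^ j • x) = dist x (g ^ (j - i) • x) := by
  have := hi (g ^ i) x (g ^ (j - i) • x)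
  rw [← this, smul_smul, ← zpow_add]
  congr 2
  congr 1
  ring

theorem dist_zpow_neg (hi : IsoAct G X) (g : G) (x : X) (i : ℤ) :
    dist x (g ^ (-i) • x) = dist x (g ^ i • x) := by
  have := dist_zpow hi g x i 0
  rw [zpow_zero, one_smul, dist_comm] at this
  rw [this]
  congr 2
  congr 1
  ring

theorem dist_zpow_natAbs (hi : IsoAct G X) (g : G) (x : X) (i : ℤ) :
    dist x (g ^ i • x) = dist x (g ^ i.natAbs • x) := by
  rcases Int.natAbs_eq i with h | h
  · conv_lhs => rw [h]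
    rw [zpow_natCast]
  · conv_lhs => rw [h]
    rw [dist_zpow_neg hi, zpow_natCast]

theorem dist_pow_le (hi : IsoAct G X) (g : G) (x : X) (n : ℕ) :
    dist x (g ^ n • x) ≤ (n : ℝ) * dist x (g • x) := by
  induction n with
  | zero => simp
  | succ n ih =>
    have h1 := dist_triangle x (g ^ n • x) (g ^ (n+1) • x)
    have h2 : dist (g ^ n • x) (g ^ (n+1) • x) = dist x (g • x) := by
      rw [pow_succ, mul_smul, hi]
    push_cast
    linarith

theorem dist_zpow_le (hi : IsoAct G X) (g : G) (x : X) (n : ℤ) :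
    dist x (g ^ n • x) ≤ |(n : ℝ)| * dist x (g • x) := by
  rw [dist_zpow_natAbs hi]
  have := dist_pow_le hi g x n.natAbs
  rwa [Nat.cast_natAbs, Int.cast_abs] at this

theorem Lox.dist_ge (hi : IsoAct G X) {g : G} {x : X} {c : ℝ}
    (hc : ∀ n : ℕ, c * (n : ℝ) ≤ dist x ((g ^ n) • x)) (i : ℤ) :
    c * |(i : ℝ)| ≤ dist x (g ^ i • x) := by
  rw [dist_zpow_natAbs hi]
  have := hc i.natAbs
  rwa [Nat.cast_natAbs, Int.cast_abs] at this

/-- some power moves twice much further -/
theorem Lox.exists_pow {g : G} {x : X} (hg : Lox g x) (K : ℝ) :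
    ∃ N : ℕ, 0 < N ∧ dist x (g ^ N • x) + K ≤ dist x (g ^ (2 * N) • x) := by
  by_contra hcon
  push Not at hcon
  obtain ⟨c, hc, hcn⟩ := hg
  have h1 : ∀ k : ℕ, dist x (g ^ (2 ^ k) • x) ≤ dist x (g • x) + k * K := by
    intro k
    induction k with
    | zero => simp
    | succ k ih =>
      have := hcon (2 ^ k) (by positivity)
      rw [← pow_succ'] at this
      push_cast
      linarith
  -- c * 2^k ≤ dist + k K
  have h2 : ∀ k : ℕ, c * 2 ^ k ≤ dist x (g • x) + k * K := by
    intro k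
    have e1 := hcn (2 ^ k)
    have e2 := h1 k
    push_cast at e1
    linarith
  -- contradiction by growth
  have h3 : Filter.Tendsto (fun k : ℕ => (dist x (g • x) + (k : ℝ) * K) / 2 ^ k) Filter.atTop (nhds 0) := by
    have t1 : Filter.Tendsto (fun k : ℕ => dist x (g • x) * ((1 / 2 : ℝ) ^ k)) Filter.atTop (nhds (dist x (g • x) * 0)) :=
      (tendsto_pow_atTop_nhds_zero_of_lt_one (by norm_num) (by norm_num)).const_mul _
    have t2 : Filter.Tendsto (fun k : ℕ => ((k : ℝ) * (1 / 2 : ℝ) ^ k) * K) Filter.atTop (nhds (0 * K)) :=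
      (tendsto_self_mul_const_pow_of_lt_one (by norm_num) (by norm_num)).mul_const _
    have t3 := t1.add t2
    simp only [mul_zero, zero_mul, add_zero] at t3
    refine t3.congr (fun k => ?_)
    rw [one_div, inv_pow]
    field_simp
  have h4 := h3.eventually (gt_mem_nhds hc)
  obtain ⟨k, hk⟩ := h4.exists
  have := h2 k
  rw [div_lt_iff₀ (by positivity)] at hk
  linarith

/-- Morse-type lemma: bounded Gromov products along the orbit of a loxodromic element. -/
theorem Lox.gp_bdd (hi : IsoAct G X) {δ : ℝ} (h : FourPt X δ) (hδ : 0 ≤ δ) {g : G} {x : X}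
    (hg : Lox g x) : ∃ C : ℝ, 0 ≤ C ∧ ∀ i j k : ℤ, i ≤ j → j ≤ k →
      gp (g ^ i • x) (g ^ k • x) (g ^ j • x) ≤ C := by
  obtain ⟨N, hN, hNK⟩ := hg.exists_pow (3 * δ + 1)
  set a := dist x (g ^ N • x) with ha
  set b := dist x (g ^ (2 * N) • x) with hb
  set f := g ^ N with hf
  have hf2 : g ^ (2 * N) = f ^ 2 := by rw [hf, ← pow_mul, mul_comm]
  set C0 := a - b / 2 with hC0
  -- the chain for f
  have hC0nn : 0 ≤ C0 := by
    have := dist_pow_le hi f x 2
    rw [← hf2] at this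
    push_cast at this
    simp only [hC0, ha, hb]
    linarith
  -- gp of consecutive
  have hcons : ∀ i : ℤ, gp (f ^ i • x) (f ^ (i+2) • x) (f ^ (i+1) • x) = C0 := by
    intro i
    unfold gp
    rw [dist_zpow hi, dist_zpow hi, dist_zpow hi]
    have e1 : i + 1 - i = 1 := by ring
    have e2 : i + 1 - (i + 2) = -1 := by ring
    have e3 : i + 2 - i = 2 := by ring
    rw [e1, e2, e3, dist_zpow_neg hi, zpow_one, hC0, ha, hb, hf2]
    have e4 : (f ^ (2:ℤ)) = f ^ 2 := by norm_cast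
    rw [e4]
    ring
  have hstep : ∀ i : ℤ, dist (f ^ i • x) (f ^ (i+1) • x) = a := by
    intro i
    rw [dist_zpow hi]
    have e1 : i + 1 - i = 1 := by ring
    rw [e1, zpow_one, ha]
  have key : ∀ (i : ℤ) (k n : ℕ), k ≤ n → gp (f ^ i • x) (f ^ (i + n) • x) (f ^ (i + k) • x) ≤ C0 + 2 * δ := by
    intro i k n hkn
    have := chain_two h hδ (fun m : ℕ => f ^ (i + m) • x) C0 (3 * δ + 1) (by linarith) hC0nn
      (by
        intro m
        have := hcons (i + m)
        push_cast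
        rw [← add_assoc, ← add_assoc]
        exact this.le)
      (by
        intro m
        have := hstep (i + m)
        push_cast
        rw [← add_assoc i]
        rw [this, hC0]
        linarith) k n hkn
    simpa using this
  refine ⟨C0 + 2 * δ + 3 * (N * dist x (g • x)), by positivity, ?_⟩
  intro i j k hij hjk
  -- write i = j - N q1 - r1 , k = j + N q2 + r2
  obtain ⟨q1, r1, hr1, h1⟩ : ∃ (q r : ℕ), r < N ∧ j - i = N * q + r := by
    refine ⟨(j - i).toNat / N, (j - i).toNat % N, Nat.mod_lt _ hN, ?_⟩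
    have := Nat.div_add_mod (j - i).toNat N
    have h2 : ((j - i).toNat : ℤ) = j - i := Int.toNat_of_nonneg (by linarith)
    rw [← h2]
    exact_mod_cast this.symm
  obtain ⟨q2, r2, hr2, h2⟩ : ∃ (q r : ℕ), r < N ∧ k - j = N * q + r := by
    refine ⟨(k - j).toNat / N, (k - j).toNat % N, Nat.mod_lt _ hN, ?_⟩
    have := Nat.div_add_mod (k - j).toNat N
    have h2 : ((k - j).toNat : ℤ) = k - j := Int.toNat_of_nonneg (by linarith)
    rw [← h2]
    exact_mod_cast this.symm
  -- shift by g^j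
  have e0 : gp (g ^ i • x) (g ^ k • x) (g ^ j • x) = gp (g ^ (i - j) • x) (g ^ (k - j) • x) x := by
    rw [← gp_smul hi (g ^ j) (g ^ (i - j) • x), smul_smul, smul_smul, ← zpow_add, ← zpow_add]
    congr 3
    · congr 1; ring
    · congr 1; ring
  rw [e0]
  have e1 : dist (g ^ (i - j) • x) (f ^ (-(q1:ℤ)) • x) ≤ N * dist x (g • x) := by
    rw [hf, ← zpow_natCast, ← zpow_mul, dist_zpow hi]
    have : (N : ℤ) * -(q1 : ℤ) - (i - j) = r1 := by linarith
    rw [this]
    refine (dist_zpow_le hi g x _).trans ?_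
    apply mul_le_mul_of_nonneg_right _ dist_nonneg
    rw [Int.cast_natCast, abs_of_nonneg (by positivity)]
    exact_mod_cast hr1.le
  have e2 : dist (g ^ (k - j) • x) (f ^ (q2:ℤ) • x) ≤ N * dist x (g • x) := by
    rw [hf, ← zpow_natCast, ← zpow_mul, dist_zpow hi]
    have : (N : ℤ) * (q2 : ℤ) - (k - j) = -r2 := by linarith
    rw [this]
    refine (dist_zpow_le hi g x _).trans ?_
    apply mul_le_mul_of_nonneg_right _ dist_nonneg
    rw [Int.cast_neg, abs_neg, Int.cast_natCast, abs_of_nonneg (by positivity)]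
    exact_mod_cast hr2.le
  have e3 := key (-(q1:ℤ)) q1 (q1 + q2) (by omega)
  have e4 : (-(q1:ℤ)) + (q1 : ℤ) = 0 := by ring
  have e5 : (-(q1:ℤ)) + ((q1 + q2 : ℕ) : ℤ) = q2 := by push_cast; ring
  rw [e4, e5, zpow_zero, one_smul] at e3
  have e6 := gp_lip_left (g ^ (i - j) • x) (f ^ (-(q1:ℤ)) • x) (g ^ (k - j) • x) x
  have e7 := gp_lip_right (f ^ (-(q1:ℤ)) • x) (g ^ (k - j) • x) (f ^ (q2:ℤ) • x) x
  have e8 : 0 ≤ N * dist x (g • x) := by positivity
  linarith

/-- product of a fixed element with a big power of a loxodromic element is loxodromic,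
provided Gromov products stay bounded. -/
theorem lox_mul_pow (hi : IsoAct G X) {δ : ℝ} (h : FourPt X δ) (hδ : 0 ≤ δ) {g y : G} {x : X}
    (hg : Lox g x) (L : ℝ)
    (hL : ∀ n : ℕ, gp (g ^ (-(n:ℤ)) • x) (y • g ^ n • x) x ≤ L) :
    ∃ n0 : ℕ, ∀ n : ℕ, n0 ≤ n → Lox (y * g ^ n) x := by
  obtain ⟨c, hc, hcn⟩ := hg
  set D := dist x (y • x) with hD
  set L' := max L 0 + D with hL'
  have hL'0 : 0 ≤ L' := by
    have : 0 ≤ max L 0 := le_max_right _ _
    have : 0 ≤ D := dist_nonneg
    positivity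
  obtain ⟨n0, hn0⟩ := exists_nat_ge ((2 * L' + (2 * δ + 1) + D) / c)
  refine ⟨n0, fun n hn => ?_⟩
  refine ⟨1, one_pos, fun k => ?_⟩
  set f := y * g ^ n with hf
  have hd1 : ∀ i : ℕ, dist (f ^ i • x) (f ^ (i+1) • x) = dist x (f • x) := by
    intro i
    rw [pow_succ, mul_smul, hi]
  have hd2 : 2 * L' + (2 * δ + 1) ≤ dist x (f • x) := by
    have e1 := hcn n
    have e2 : dist x (g ^ n • x) ≤ D + dist x (f • x) := by
      have : dist x (g ^ n • x) = dist (y • x) (f • x) := by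
        rw [hf, mul_smul, hi]
      rw [this]
      have := dist_triangle (y • x) x (f • x)
      rw [dist_comm (y • x) x] at this
      exact this
    have e3 : (2 * L' + (2 * δ + 1) + D) ≤ c * n := by
      rw [div_le_iff₀ hc] at hn0
      have : (n0 : ℝ) ≤ n := by exact_mod_cast hn
      nlinarith
    linarith
  have hg1 : ∀ i : ℕ, gp (f ^ i • x) (f ^ (i+2) • x) (f ^ (i+1) • x) ≤ L' := by
    intro i
    have e1 : gp (f ^ i • x) (f ^ (i+2) • x) (f ^ (i+1) • x) = gp (f⁻¹ • x) (f • x) x := by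
      have := gp_smul hi (f ^ (i+1)) (f⁻¹ • x) (f • x) x
      rw [← this, smul_smul, smul_smul, ← pow_succ, pow_succ f i, mul_assoc, mul_inv_cancel, mul_one]
    rw [e1]
    have e2 : f⁻¹ • x = g ^ (-(n:ℤ)) • y⁻¹ • x := by
      rw [hf, mul_inv_rev, mul_smul, zpow_neg, zpow_natCast]
    have e3 : dist (f⁻¹ • x) (g ^ (-(n:ℤ)) • x) = D := by
      rw [e2, hi, hD, ← hi y (y⁻¹ • x) x, smul_smul, mul_inv_cancel, one_smul]
    have e4 := gp_lip_left (f⁻¹ • x) (g ^ (-(n:ℤ)) • x) (f • x) x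
    have e5 := hL n
    have e6 : y • g ^ n • x = f • x := by rw [hf, mul_smul]
    rw [e6] at e5
    have e7 : L ≤ max L 0 := le_max_left _ _
    rw [e3] at e4
    linarith
  have := chain_dist h hδ (fun i : ℕ => f ^ i • x) L' (2 * δ + 1) (by linarith) hL'0
    (fun i => hg1 i) (fun i => by rw [hd1 i]; exact hd2) k
  simp only [pow_zero, one_smul] at this
  linarith

end Pool.Agent.H76.Hyp
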