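import Mathlib
import Pool.Agent.H76.Lox

set_option autoImplicit false

namespace Pool.Agent.H76.Hyp

variable {G X : Type*} [Group G] [MetricSpace X] [MulAction G X]

/-- constant `C` bounding all Gromov products along the orbit -/
def MorseC (g : G) (x : X) (C : ℝ) : Prop :=
  0 ≤ C ∧ ∀ i j k : ℤ, i ≤ j → j ≤ k → gp (g ^ i • x) (g ^ k • x) (g ^ j • x) ≤ C

theorem MorseC.rev {g : G} {x : X} {C : ℝ} (hC : MorseC g x C) (i j k : ℤ) (h1 : k ≤ j) (h2 : j ≤ i) :
    gp (g ^ i • x) (g ^ k • x) (g ^ j • x) ≤ C := by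
  rw [gp_comm]; exact hC.2 k j i h1 h2

/-- `(g^{ei}x|g^{en}x)_x ≥ A_i - C` -/
theorem MorseC.ge (hi : IsoAct G X) {g : G} {x : X} {C : ℝ} (hC : MorseC g x C) (e : ℤ) (he : e = 1 ∨ e = -1)
    (i n : ℕ) (hin : i ≤ n) :
    dist x (g ^ i • x) - C ≤ gp (g ^ (e * i) • x) (g ^ (e * n) • x) x := by
  have e1 := gp_add (g ^ (e * i) • x) (g ^ (e * n) • x) x
  have e2 : gp x (g ^ (e * n) • x) (g ^ (e * i) • x) ≤ C := by
    rcases he with rfl | rfl
    · have := hC.2 0 (1 * i) (1 * n) (by omega) (by omega)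
      rwa [zpow_zero, one_smul] at this
    · have := hC.rev 0 (-1 * i) (-1 * n) (by omega) (by omega)
      rwa [zpow_zero, one_smul] at this
  have e3 : dist (g ^ (e * i) • x) x = dist x (g ^ i • x) := by
    rw [dist_comm]
    rcases he with rfl | rfl
    · rw [one_mul, zpow_natCast]
    · rw [neg_one_mul, dist_zpow_neg hi, zpow_natCast]
  linarith

/-- tracking lemma -/
theorem track (hi : IsoAct G X) {δ : ℝ} (h : FourPt X δ) (hδ : 0 ≤ δ) {g : G} {x : X} {C : ℝ}
    (hC : MorseC g x C) (e : ℤ) (he : e = 1 ∨ e = -1) (y : G) (i n : ℕ) (hin : i ≤ n)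
    (hL : dist x (g ^ i • x) ≤ gp (g ^ (e * n) • x) (y • g ^ n • x) x) :
    dist (g ^ (e * i) • x) (y • g ^ i • x) ≤ 3 * dist x (y • x) + 2 * C + 4 * δ := by
  set D := dist x (y • x) with hD
  set A := dist x (g ^ i • x) with hA
  have hD0 : 0 ≤ D := dist_nonneg
  have hC0 := hC.1
  have e1 := hC.ge hi e he i n hin
  have e2 : A - C - D ≤ gp (y • g ^ n • x) (y • g ^ i • x) x := by
    have f1 := hC.ge hi 1 (Or.inl rfl) i n hin
    rw [one_mul, one_mul, zpow_natCast, zpow_natCast, gp_comm, ← gp_smul hi y] at f1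
    have f2 := gp_lip_base (y • g ^ n • x) (y • g ^ i • x) (y • x) x
    rw [dist_comm (y • x) x] at f2
    linarith
  have e3 := gp_ineq h (g ^ (e * n) • x) (y • g ^ n • x) (y • g ^ i • x) x
  have e4 : A - C - D ≤ min (gp (g ^ (e * n) • x) (y • g ^ n • x) x) (gp (y • g ^ n • x) (y • g ^ i • x) x) := by
    apply le_min
    · linarith
    · exact e2
  have e5 := gp_ineq h (g ^ (e * i) • x) (g ^ (e * n) • x) (y • g ^ i • x) x
  have e6 : A - C - D - δ ≤ min (gp (g ^ (e * i) • x) (g ^ (e * n) • x) x) (gp (g ^ (e * n) • x) (y • g ^ i • x) x) := by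
    apply le_min
    · linarith
    · linarith
  have e7 := dist_eq_gp (g ^ (e * i) • x) (y • g ^ i • x) x
  have e8 : dist (g ^ (e * i) • x) x = A := by
    rw [dist_comm]
    rcases he with rfl | rfl
    · rw [one_mul, zpow_natCast]
    · rw [neg_one_mul, dist_zpow_neg hi, zpow_natCast]
  have e9 : dist (y • g ^ i • x) x ≤ A + D := by
    have := dist_triangle (y • g ^ i • x) (y • x) x
    rw [hi, dist_comm (g ^ i • x) x, dist_comm (y • x) x] at this
    exact this
  linarith

/-- the acylindricity argument -/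
theorem acyl_conj (hi : IsoAct G X) {δ : ℝ} (h : FourPt X δ) (hδ : 0 ≤ δ) (ha : Acyl G X)
    {g : G} {x : X} (hg : Lox g x) (e : ℤ) (he : e = 1 ∨ e = -1) (y : G) :
    ∃ L : ℝ, ∀ n : ℕ, L ≤ gp (g ^ (e * n) • x) (y • g ^ n • x) x →
      ∃ k : ℕ, 0 < k ∧ y * g ^ k * y⁻¹ = g ^ (e * k) := by
  obtain ⟨C, hC⟩ := hg.gp_bdd hi h hδ
  have hC' : MorseC g x C := hC
  obtain ⟨c, hc, hcn⟩ := hg
  set D := dist x (y • x) with hD
  have hD0 : 0 ≤ D := dist_nonneg
  have hC0 := hC.1
  set C' := 3 * D + 2 * C + 4 * δ with hC'def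
  obtain ⟨R, N, hRN⟩ := ha (2 * C' + D + 1) (by positivity)
  obtain ⟨p, hp⟩ := exists_nat_ge (R / c)
  have hpR : R ≤ dist x (g ^ p • x) := by
    have := hcn p
    rw [div_le_iff₀ hc] at hp
    linarith
  set a := dist x (g • x) with ha1
  have ha0 : 0 ≤ a := dist_nonneg
  refine ⟨(N + p + 1 : ℕ) * a + 1, fun n hn => ?_⟩
  -- n is large
  have hnbig : N + p + 1 < n := by
    by_contra hcon
    push Not at hcon
    have e1 := gp_le_left (g ^ (e * n) • x) (y • g ^ n • x) x
    have e2 : dist (g ^ (e * n) • x) x = dist x (g ^ n • x) := by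
      rw [dist_comm]
      rcases he with rfl | rfl
      · rw [one_mul, zpow_natCast]
      · rw [neg_one_mul, dist_zpow_neg hi, zpow_natCast]
    have e3 := dist_pow_le hi g x n
    have e4 : (n : ℝ) ≤ (N + p + 1 : ℕ) := by exact_mod_cast hcon
    have e5 : (n : ℝ) * a ≤ (N + p + 1 : ℕ) * a := mul_le_mul_of_nonneg_right e4 ha0
    linarith
  have htrack : ∀ i : ℕ, i ≤ N + p → dist (g ^ (e * i) • x) (y • g ^ i • x) ≤ C' := by
    intro i hi'
    apply track hi h hδ hC' e he y i n (by omega)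
    have e3 := dist_pow_le hi g x i
    have e4 : (i : ℝ) ≤ (N + p + 1 : ℕ) := by exact_mod_cast (by omega : i ≤ N + p + 1)
    have e5 : (i : ℝ) * a ≤ (N + p + 1 : ℕ) * a := mul_le_mul_of_nonneg_right e4 ha0
    linarith
  set u : ℕ → G := fun i => g ^ (-(e * i)) * y * g ^ i * y⁻¹ with hu
  obtain ⟨hfin, hcard⟩ := hRN x (g ^ (e * p) • x) (by
    rcases he with rfl | rfl
    · rw [one_mul, zpow_natCast]; exact hpR
    · rw [neg_one_mul, dist_zpow_neg hi, zpow_natCast]; exact hpR)
  set S := {h : G | dist x (h • x) ≤ 2 * C' + D + 1 ∧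
    dist (g ^ (e * p) • x) (h • g ^ (e * p) • x) ≤ 2 * C' + D + 1} with hS
  have hmem : ∀ i : ℕ, i ≤ N → u i ∈ S := by
    intro i hiN
    constructor
    · have e1 := dist_triangle x (u i • y • x) (u i • x)
      have e2 : dist (u i • y • x) (u i • x) = D := by rw [hi, dist_comm]
      have e3 : dist x (u i • y • x) = dist (g ^ (e * i) • x) (y • g ^ i • x) := by
        rw [← hi (g ^ (e * i)) x (u i • y • x)]
        congr 1
        simp only [hu, smul_smul]
        congr 1
        group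
      have e4 := htrack i (by omega)
      have : 0 ≤ C' := by positivity
      linarith
    · have e1 := dist_triangle (g ^ (e * p) • x) (u i • y • g ^ p • x) (u i • g ^ (e * p) • x)
      have e2 : dist (u i • y • g ^ p • x) (u i • g ^ (e * p) • x) ≤ C' := by
        rw [hi, dist_comm]; exact htrack p (by omega)
      have e3 : dist (g ^ (e * p) • x) (u i • y • g ^ p • x) = dist (g ^ (e * (i + p : ℕ)) • x) (y • g ^ (i + p) • x) := by
        rw [← hi (g ^ (e * i)) (g ^ (e * p) • x) (u i • y • g ^ p • x)]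
        congr 1
        · rw [smul_smul, ← zpow_add]; congr 2; push_cast; ring
        · simp only [hu, smul_smul]
          congr 1
          rw [pow_add]
          group
      have e4 := htrack (i + p) (by omega)
      linarith
  -- pigeonhole
  have hpig : ∃ i j : ℕ, i < j ∧ j ≤ N ∧ u i = u j := by
    by_contra hcon
    push Not at hcon
    have hinj : Set.InjOn u (Finset.range (N + 1) : Set ℕ) := by
      intro i hi' j hj' hij
      simp only [Finset.coe_range, Set.mem_Iio] at hi' hj'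
      rcases lt_trichotomy i j with h1 | h1 | h1
      · exact absurd hij (hcon i j h1 (by omega))
      · exact h1
      · exact absurd hij.symm (hcon j i h1 (by omega))
    have h1 : (Finset.range (N + 1)).card ≤ S.ncard := by
      rw [← Set.ncard_coe_finset]
      apply Set.ncard_le_ncard_of_injOn u _ hinj hfin
      intro i hi'
      simp only [Finset.coe_range, Set.mem_Iio] at hi'
      exact hmem i (by omega)
    rw [Finset.card_range] at h1
    omega
  obtain ⟨i, j, hij, hjN, huij⟩ := hpig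
  refine ⟨j - i, by omega, ?_⟩
  have h1 : g ^ (-(e * i)) * y * g ^ i = g ^ (-(e * j)) * y * g ^ j := by
    have : g ^ (-(e * i)) * y * g ^ i * y⁻¹ = g ^ (-(e * j)) * y * g ^ j * y⁻¹ := huij
    exact mul_right_cancel this
  have h2 : y * g ^ (j - i) = g ^ (e * j - e * i) * y := by
    have e1 : g ^ j = g ^ (j - i) * g ^ i := by rw [← pow_add]; congr 1; omega
    rw [e1, ← mul_assoc] at h1
    have h3 := mul_right_cancel h1
    -- g ^ (-(e i)) * y = g ^(-(e j)) * y * g^(j-i)
    have h4 : g ^ (e * j) * (g ^ (-(e * i)) * y) = g ^ (e * j) * (g ^ (-(e * j)) * y * g ^ (j - i)) := by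
      rw [h3]
    rw [← mul_assoc, ← zpow_add, mul_assoc (g ^ (-(e * (j:ℤ)))), ← mul_assoc (g ^ (e * (j:ℤ))), ← zpow_add] at h4
    rw [add_neg_cancel, zpow_zero, one_mul] at h4
    rw [← h4]
    congr 1
  rw [h2, mul_assoc, mul_inv_cancel, mul_one]
  congr 1
  rw [Nat.cast_sub hij.le]
  ring

/-- discrete intermediate value -/
theorem discrete_ivt (f : ℕ → ℝ) (s d : ℝ) (h0 : f 0 ≤ s) (hd : 0 ≤ d) (hf : ∀ i, f (i+1) ≤ f i + d) (N : ℕ)
    (hN : s ≤ f N) : ∃ i ≤ N, f i ≤ s ∧ s ≤ f i + d := by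
  induction N with
  | zero => exact ⟨0, le_refl _, h0, by linarith⟩
  | succ N ih =>
    by_cases h1 : s ≤ f N
    · obtain ⟨i, hi, h2⟩ := ih h1
      exact ⟨i, by omega, h2⟩
    · push Not at h1
      exact ⟨N, by omega, h1.le, by have := hf N; linarith⟩

/-- uniform closeness for elements commuting with a power of `g` -/
theorem close_line (hi : IsoAct G X) {δ : ℝ} (h : FourPt X δ) (hδ : 0 ≤ δ)
    {g : G} {x : X} (hg : Lox g x) {C : ℝ} (hC : MorseC g x C) (y : G) (k : ℕ) (hk : 0 < k)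
    (hy : y * g ^ k = g ^ k * y) :
    ∃ m : ℤ, dist x (g ^ m • y • x) ≤ dist x (g • x) + 3 * C + 4 * δ := by
  obtain ⟨c, hc, hcn⟩ := hg
  set D := dist x (y • x) with hD
  have hD0 : 0 ≤ D := dist_nonneg
  have hC0 := hC.1
  obtain ⟨j, hj⟩ := exists_nat_ge ((D + C + 2 * δ + 1) / c)
  set n := k * j with hn
  have hnj : j ≤ n := Nat.le_mul_of_pos_left j hk
  have hAn : D + C + 2 * δ + 1 ≤ dist x (g ^ n • x) := by
    have := hcn n
    rw [div_le_iff₀ hc] at hj
    have h2 : (j : ℝ) ≤ n := by exact_mod_cast hnj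
    nlinarith
  -- y commutes with g^n (integer powers)
  have hcomm : ∀ s : ℤ, y * g ^ ((k:ℤ) * s) = g ^ ((k:ℤ) * s) * y := by
    intro s
    have : Commute y (g ^ k) := hy
    have := this.zpow_right s
    rw [← zpow_natCast, ← zpow_mul] at this
    exact this
  set z := y • x with hz
  set p := g ^ (-(n:ℤ)) • x with hp
  set r := g ^ (n:ℤ) • x with hr
  have hyp' : dist p (y • p) = D := by
    have e1 : y • p = g ^ (-(n:ℤ)) • y • x := by
      rw [hp, smul_smul, smul_smul]
      have := hcomm (-j)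
      have e2 : (k:ℤ) * (-(j:ℤ)) = -(n:ℤ) := by rw [hn]; push_cast; ring
      rw [e2] at this
      rw [this]
    rw [e1, hp, hi]
  have hyr' : dist r (y • r) = D := by
    have e1 : y • r = g ^ ((n:ℤ)) • y • x := by
      rw [hr, smul_smul, smul_smul]
      have := hcomm j
      have e2 : (k:ℤ) * ((j:ℤ)) = (n:ℤ) := by rw [hn]; push_cast; ring
      rw [e2] at this
      rw [this]
    rw [e1, hr, hi]
  have hxp : dist x p = dist x (g ^ n • x) := by
    rw [hp, dist_zpow_neg hi, zpow_natCast]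
  have hxr : dist x r = dist x (g ^ n • x) := by
    rw [hr, zpow_natCast]
  have s1 : gp (y • p) (y • r) z ≤ C := by
    rw [hz, gp_smul hi]
    have := hC.2 (-(n:ℤ)) 0 (n:ℤ) (by omega) (by omega)
    rwa [zpow_zero, one_smul] at this
  have s2 : dist x (g ^ n • x) - D ≤ gp (y • p) p z := by
    unfold gp
    have e1 : dist (y • p) z = dist x (g ^ n • x) := by rw [hz, hi, dist_comm, hxp]
    have e2 := dist_triangle p z x
    rw [dist_comm z x, dist_comm p x, hxp] at e2
    rw [e1, dist_comm (y • p) p, hyp']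
    have : dist x z = D := rfl
    linarith
  have s3 : dist x (g ^ n • x) - D ≤ gp r (y • r) z := by
    unfold gp
    have e1 : dist (y • r) z = dist x (g ^ n • x) := by rw [hz, hi, dist_comm, hxr]
    have e2 := dist_triangle r z x
    rw [dist_comm z x, dist_comm r x, hxr] at e2
    rw [e1, hyr']
    have : dist x z = D := rfl
    linarith
  have s4 : gp p r z ≤ C + 2 * δ := by
    by_contra hcon
    push Not at hcon
    have f1 := gp_ineq h (y • p) p r z
    have f2 : C + 2 * δ < min (gp (y • p) p z) (gp p r z) := lt_min (by linarith) hcon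
    have f3 := gp_ineq h (y • p) r (y • r) z
    have f4 : C + δ < min (gp (y • p) r z) (gp r (y • r) z) := lt_min (by linarith) (by linarith)
    linarith
  -- choose i
  set A : ℕ → ℝ := fun i => dist x (g ^ i • x) with hA
  have hA1 : ∀ i, A (i+1) ≤ A i + dist x (g • x) := by
    intro i
    have h1 := dist_triangle x (g ^ i • x) (g ^ (i+1) • x)
    have h2 : dist (g ^ i • x) (g ^ (i+1) • x) = dist x (g • x) := by
      rw [pow_succ, mul_smul, hi]
    simp only [hA]
    linarith
  have hpr : dist p r = A (2 * n) := by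
    rw [hp, hr, dist_zpow hi]
    simp only [hA]
    rw [← zpow_natCast]
    congr 3
    push_cast; ring
  set s := gp z r p with hs
  have hs0 : 0 ≤ s := gp_nonneg _ _ _
  have hs1 : s ≤ A (2 * n) := by
    rw [← hpr, dist_comm]; exact gp_le_right _ _ _
  obtain ⟨i, hi2n, hi1, hi2⟩ := discrete_ivt A s (dist x (g • x)) (by simp only [hA, pow_zero, one_smul, dist_self]; exact hs0)
    dist_nonneg hA1 (2 * n) hs1
  set q := g ^ (-(n:ℤ) + i) • x with hq
  have t1 : gp p r q ≤ C := hC.2 _ _ _ (by omega) (by omega)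
  have t2 : dist q p = A i := by
    rw [hq, hp, dist_comm, dist_zpow hi]
    simp only [hA]
    rw [← zpow_natCast]
    congr 3
    ring
  have t3 : gp q r p + gp p r q = dist q p := gp_add q r p
  have t4 := gp_ineq h z r q p
  have t5 : A i - C ≤ min (gp z r p) (gp r q p) := by
    apply le_min
    · linarith
    · rw [gp_comm r q]; linarith
  have t6 := dist_eq_gp z q p
  have t7 : dist z p = s + gp p r z := (gp_add z r p).symm
  refine ⟨(n:ℤ) - i, ?_⟩
  have t8 : dist x (g ^ ((n:ℤ) - i) • y • x) = dist z q := by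
    have f1 : g ^ ((n:ℤ) - i) • g ^ (-(n:ℤ) + i) • x = x := by
      rw [smul_smul, ← zpow_add]
      have : (n:ℤ) - i + (-(n:ℤ) + i) = 0 := by ring
      rw [this, zpow_zero, one_smul]
    rw [dist_comm z q, hq, ← hi (g ^ ((n:ℤ) - i)) (g ^ (-(n:ℤ) + i) • x) z, f1]
  rw [t8]
  linarith

/-- finiteness: elements commuting with a power of `g`, modulo left multiplication by powers of `g` -/
theorem finite_core (hi : IsoAct G X) {δ : ℝ} (h : FourPt X δ) (hδ : 0 ≤ δ) (ha : Acyl G X)
    {g : G} {x : X} (hg : Lox g x) :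
    ∃ F : Set G, F.Finite ∧ ∀ y : G, (∃ k : ℕ, 0 < k ∧ y * g ^ k = g ^ k * y) →
      ∃ m : ℤ, g ^ m * y ∈ F := by
  obtain ⟨C, hC⟩ := hg.gp_bdd hi h hδ
  have hC' : MorseC g x C := hC
  have hC0 := hC.1
  set C1 := dist x (g • x) + 3 * C + 4 * δ with hC1
  have hC10 : 0 ≤ C1 := by positivity
  set C2 := 3 * C1 + 2 * C + 4 * δ with hC2
  obtain ⟨R, N, hRN⟩ := ha (C2 + 1) (by positivity)
  have hg' := hg
  obtain ⟨c, hc, hcn⟩ := hg
  obtain ⟨p, hp⟩ := exists_nat_ge (R / c)
  have hpR : R ≤ dist x (g ^ p • x) := by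
    have := hcn p
    rw [div_le_iff₀ hc] at hp
    linarith
  obtain ⟨hfin, -⟩ := hRN x (g ^ p • x) hpR
  refine ⟨_, hfin, fun y hy => ?_⟩
  obtain ⟨k, hk, hyk⟩ := hy
  obtain ⟨m, hm⟩ := close_line hi h hδ hg' hC' y k hk hyk
  refine ⟨m, ?_, ?_⟩
  · rw [mul_smul]
    linarith
  · set w := g ^ m * y with hw
    have hwk : w * g ^ k = g ^ k * w := by
      rw [hw, mul_assoc, hyk, ← mul_assoc, ← mul_assoc]
      congr 1
      rw [← zpow_natCast, ← zpow_add, ← zpow_add, add_comm]
    have hDw : dist x (w • x) ≤ C1 := by rw [hw, mul_smul]; exact hm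
    -- take n = k j large
    obtain ⟨j, hj⟩ := exists_nat_ge ((dist x (g ^ p • x) + C1) / c)
    set n := k * (j + p) with hn
    have hnj : j + p ≤ n := Nat.le_mul_of_pos_left _ hk
    have hAn : dist x (g ^ p • x) + C1 ≤ dist x (g ^ n • x) := by
      have := hcn n
      rw [div_le_iff₀ hc] at hj
      have h2 : (j : ℝ) ≤ n := by exact_mod_cast (by omega : j ≤ n)
      nlinarith
    have hwn : w * g ^ n = g ^ n * w := by
      have : Commute w (g ^ k) := hwk
      have := this.pow_right (j + p)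
      rw [← pow_mul] at this
      exact this
    have e1 : dist (g ^ n • x) (w • g ^ n • x) ≤ C1 := by
      rw [smul_smul, hwn, mul_smul, hi]; exact hDw
    have e2 : dist x (g ^ n • x) - C1 ≤ gp (g ^ ((1:ℤ) * n) • x) (w • g ^ n • x) x := by
      rw [one_mul, zpow_natCast]
      unfold gp
      have f1 : dist (w • g ^ n • x) x ≥ dist x (g ^ n • x) - C1 := by
        have := dist_triangle (w • g ^ n • x) x (w • x)
        rw [hi, dist_comm (g ^ n • x) x] at this
        linarith
      rw [dist_comm (g ^ n • x) x]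
      linarith
    have e3 := track hi h hδ hC' 1 (Or.inl rfl) w p n (by omega) (by linarith)
    rw [one_mul, zpow_natCast] at e3
    linarith

end Pool.Agent.H76.Hyp
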