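import Mathlib
import Pool.Agent.H76.Host

set_option autoImplicit false
set_option linter.style.haveILetI false

namespace Pool.Agent.H76.Rope

open Pool.Agent.H76.Wee Pool.Agent.H76.Brit Pool.Agent.H76.Perm Pool.Agent.H76.Host
open Monoid

section setup

variable {Δ : Type} [Group Δ] {P₀ : Type} [Group P₀] (ι : P₀ →* Δ) (L : Subgroup Δ)
  {r : ℕ} (ψ : P₀ →* FreeGroup (Fin r)) (N : Subgroup (FreeGroup (Fin r))) [N.Normal]

/-- centralising extension -/
abbrev Ds (L : Subgroup Δ) : Type := HNNExtension Δ L L (MulEquiv.refl L)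

/-- first copy of `P₀` -/
def i1 : P₀ →* Ds L := HNNExtension.of.comp ι

/-- second copy of `P₀` -/
def i2 : P₀ →* Ds L := (MulAut.conj (HNNExtension.t : Ds L)).toMonoidHom.comp (i1 ι L)

theorem i2_apply (p : P₀) :
    i2 ι L p = HNNExtension.t * HNNExtension.of (ι p) * (HNNExtension.t : Ds L)⁻¹ := rfl

theorem i2_eq_i1 {p : P₀} (hp : ι p ∈ L) : i2 ι L p = i1 ι L p := by
  rw [i2_apply, tt_of hp]
  change HNNExtension.of (ι p) * HNNExtension.t * (HNNExtension.t : Ds L)⁻¹ = HNNExtension.of (ι p)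
  group

/-- the map to the quotient -/
def psi : P₀ →* FreeGroup (Fin r) ⧸ N := (QuotientGroup.mk' N).comp ψ

/-- the first subgroup (in the first factor) -/
def PA : Subgroup (Ds L) := (i1 ι L).range ⊔ (i2 ι L).range

/-- the second associated subgroup -/
def BB : Subgroup (Ds L × (FreeGroup (Fin r) ⧸ N)) :=
  ((i1 ι L).prod (psi ψ N)).range ⊔ ((MonoidHom.inl _ _).comp (i2 ι L)).range

/-- the first associated subgroup -/
def AA : Subgroup (Ds L × (FreeGroup (Fin r) ⧸ N)) :=
  (PA ι L).map (MonoidHom.inl _ _)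

/-- the auxiliary HNN extension for the key step -/
abbrev EE : Type :=
  HNNExtension (Δ × (FreeGroup (Fin r) ⧸ N)) (L.prod ⊤) (L.prod ⊤) (MulEquiv.refl _)

/-- map of the first factor -/
def eta1 : Ds L →* EE L N :=
  HNNExtension.lift (HNNExtension.of.comp (MonoidHom.inl _ _)) HNNExtension.t (by
    intro a
    exact HNNExtension.t_mul_of (φ := MulEquiv.refl (L.prod (⊤ : Subgroup (FreeGroup (Fin r) ⧸ N))))
      ⟨((a : Δ), 1), ⟨a.2, trivial⟩⟩)

/-- map of the second factor -/
def eta2 : (FreeGroup (Fin r) ⧸ N) →* EE L N := HNNExtension.of.comp (MonoidHom.inr _ _)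

theorem eta_comm (x : Ds L) (g : FreeGroup (Fin r) ⧸ N) : Commute (eta1 L N x) (eta2 L N g) := by
  induction x using HNNExtension.induction_on with
  | of x =>
    have h1 : eta1 L N (HNNExtension.of x) = HNNExtension.of (x, 1) := HNNExtension.lift_of _ _ _ _
    rw [h1]
    change HNNExtension.of (x, 1) * HNNExtension.of (1, g) = HNNExtension.of (1, g) * HNNExtension.of (x, 1)
    rw [← map_mul, ← map_mul]
    simp
  | t =>
    have h1 : eta1 L N HNNExtension.t = HNNExtension.t := HNNExtension.lift_t _ _ _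
    rw [h1]
    exact HNNExtension.t_mul_of (φ := MulEquiv.refl (L.prod (⊤ : Subgroup (FreeGroup (Fin r) ⧸ N))))
      ⟨((1 : Δ), g), ⟨L.one_mem, trivial⟩⟩
  | mul x y hx hy => rw [map_mul]; exact hx.mul_left hy
  | inv x hx => rw [map_inv]; exact hx.inv_left

/-- the combined map -/
def eta : Ds L × (FreeGroup (Fin r) ⧸ N) →* EE L N :=
  MonoidHom.noncommCoprod (eta1 L N) (eta2 L N) (eta_comm L N)

variable {ι L ψ N}

theorem key (hι : Function.Injective ι)
    (hψ : ∀ p, ι p ∈ L → ψ p ∈ N) {g : FreeGroup (Fin r) ⧸ N}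
    (hg : ((1 : Ds L), g) ∈ BB ι L ψ N) : g = 1 := by
  let P : Subgroup (Δ × (FreeGroup (Fin r) ⧸ N)) := (ι.prod (psi ψ N)).range
  let Q : Subgroup (Δ × (FreeGroup (Fin r) ⧸ N)) := ((MonoidHom.inl _ _).comp ι).range
  have hpsi : ∀ p, ι p ∈ L → psi ψ N p = 1 := fun p hp =>
    (QuotientGroup.eq_one_iff _).mpr (hψ p hp)
  have hPQ : ∀ a ∈ L.prod (⊤ : Subgroup (FreeGroup (Fin r) ⧸ N)), a ∈ P ↔ a ∈ Q := by
    rintro a ⟨ha, _⟩
    constructor
    · rintro ⟨p, rfl⟩
      have hp : ι p ∈ L := ha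
      refine ⟨p, ?_⟩
      exact Prod.ext rfl (hpsi p hp).symm
    · rintro ⟨p, rfl⟩
      have hp : ι p ∈ L := ha
      refine ⟨p, ?_⟩
      exact Prod.ext rfl (hpsi p hp)
  have h1 : eta L N (1, g) = HNNExtension.of ((1 : Δ), g) := by
    change eta1 L N 1 * eta2 L N g = _
    rw [map_one, one_mul]
    rfl
  have h2 : (BB ι L ψ N).map (eta L N) ≤
      Subgroup.closure (HNNExtension.of '' (P : Set (Δ × (FreeGroup (Fin r) ⧸ N))) ∪
        (fun q => HNNExtension.t * HNNExtension.of q * HNNExtension.t⁻¹) '' (Q : Set (Δ × (FreeGroup (Fin r) ⧸ N)))) := by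
    rw [BB, Subgroup.map_sup]
    apply sup_le
    · rintro _ ⟨_, ⟨p, rfl⟩, rfl⟩
      apply Subgroup.subset_closure
      left
      refine ⟨(ι p, psi ψ N p), ⟨p, rfl⟩, ?_⟩
      change _ = eta1 L N (HNNExtension.of (ι p)) * eta2 L N (psi ψ N p)
      have h3 : eta1 L N (HNNExtension.of (ι p)) = HNNExtension.of (ι p, 1) :=
        HNNExtension.lift_of _ _ _ _
      rw [h3]
      change _ = HNNExtension.of (ι p, 1) * HNNExtension.of (1, psi ψ N p)
      rw [← map_mul]
      simp
    · rintro _ ⟨_, ⟨p, rfl⟩, rfl⟩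
      apply Subgroup.subset_closure
      right
      refine ⟨(ι p, 1), ⟨p, rfl⟩, ?_⟩
      change _ = eta1 L N (i2 ι L p) * eta2 L N 1
      rw [map_one, mul_one, i2_apply, map_mul, map_mul, map_inv]
      have h3 : eta1 L N (HNNExtension.of (ι p)) = HNNExtension.of (ι p, 1) :=
        HNNExtension.lift_of _ _ _ _
      have h4 : eta1 L N HNNExtension.t = HNNExtension.t := HNNExtension.lift_t _ _ _
      rw [h3, h4]
  have h3 : (HNNExtension.of ((1 : Δ), g) : EE L N) ∈
      Subgroup.closure (HNNExtension.of '' (P : Set (Δ × (FreeGroup (Fin r) ⧸ N))) ∪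
        (fun q => HNNExtension.t * HNNExtension.of q * HNNExtension.t⁻¹) '' (Q : Set (Δ × (FreeGroup (Fin r) ⧸ N)))) := by
    rw [← h1]
    exact h2 ⟨_, hg, rfl⟩
  obtain ⟨p, hp⟩ := amal hPQ h3
  have hp1 : ι p = 1 := congrArg Prod.fst hp
  have hp2 : psi ψ N p = g := congrArg Prod.snd hp
  have : p = 1 := hι (by rw [hp1, map_one])
  rw [← hp2, this, map_one]

variable (ι L ψ N) in
/-- first projection of the second associated subgroup -/
def fB : BB ι L ψ N →* Ds L := (MonoidHom.fst _ _).comp (BB ι L ψ N).subtype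

theorem fB_injective (hι : Function.Injective ι) (hψ : ∀ p, ι p ∈ L → ψ p ∈ N) :
    Function.Injective (fB ι L ψ N) := by
  rw [injective_iff_map_eq_one]
  rintro ⟨⟨x, g⟩, h⟩ hx
  have hx' : x = 1 := hx
  subst hx'
  have := key hι hψ h
  subst this
  rfl

theorem fB_range : (fB ι L ψ N).range = PA ι L := by
  have h1 : (fB ι L ψ N).range = (BB ι L ψ N).map (MonoidHom.fst _ _) := by
    rw [fB, MonoidHom.range_comp, Subgroup.range_subtype]
  rw [h1, BB, Subgroup.map_sup, PA]
  congr 1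
  · rw [MonoidHom.map_range]; rfl
  · rw [MonoidHom.map_range]; rfl

variable (L N) in
theorem inl_inj : Function.Injective (MonoidHom.inl (Ds L) (FreeGroup (Fin r) ⧸ N)) :=
  fun _ _ h => congrArg Prod.fst h

variable (N) in
/-- the isomorphism between the associated subgroups -/
noncomputable def phi (hι : Function.Injective ι) (hψ : ∀ p, ι p ∈ L → ψ p ∈ N) :
    AA ι L N ≃* BB ι L ψ N :=
  ((PA ι L).equivMapOfInjective (MonoidHom.inl (Ds L) (FreeGroup (Fin r) ⧸ N))
    (inl_inj L N)).symm.trans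
    ((MulEquiv.subgroupCongr fB_range).symm.trans
      (MonoidHom.ofInjective (fB_injective hι hψ)).symm)

theorem phi_fst (hι : Function.Injective ι) (hψ : ∀ p, ι p ∈ L → ψ p ∈ N) (a : AA ι L N) :
    ((phi N hι hψ a : BB ι L ψ N) : Ds L × (FreeGroup (Fin r) ⧸ N)).1 =
      (a : Ds L × (FreeGroup (Fin r) ⧸ N)).1 := by
  set x := ((PA ι L).equivMapOfInjective (MonoidHom.inl (Ds L) (FreeGroup (Fin r) ⧸ N))
    (inl_inj L N)).symm a with hx
  have h1 : a = ((PA ι L).equivMapOfInjective (MonoidHom.inl (Ds L) (FreeGroup (Fin r) ⧸ N))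
    (inl_inj L N)) x := (MulEquiv.apply_symm_apply _ _).symm
  set y := (MulEquiv.subgroupCongr (fB_range (ι := ι) (L := L) (ψ := ψ) (N := N))).symm x with hy
  have h2 : (y : Ds L) = x := rfl
  have h3 : MonoidHom.ofInjective (fB_injective hι hψ) (phi N hι hψ a) = y := by
    change MonoidHom.ofInjective (fB_injective hι hψ)
      ((MonoidHom.ofInjective (fB_injective hι hψ)).symm y) = y
    rw [MulEquiv.apply_symm_apply]
  have h4 : fB ι L ψ N (phi N hι hψ a) = (y : Ds L) := congrArg Subtype.val h3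
  have h5 : ((a : Ds L × (FreeGroup (Fin r) ⧸ N))).1 = x := by
    rw [h1]; rfl
  rw [h5, ← h2, ← h4]
  rfl

theorem AA_snd (a : AA ι L N) : (a : Ds L × (FreeGroup (Fin r) ⧸ N)).2 = 1 := by
  obtain ⟨_, x, _, rfl⟩ := a
  rfl

theorem phi_eq (hι : Function.Injective ι) (hψ : ∀ p, ι p ∈ L → ψ p ∈ N) (a : AA ι L N)
    {b : Ds L × (FreeGroup (Fin r) ⧸ N)} (hb : b ∈ BB ι L ψ N)
    (hab : (a : Ds L × (FreeGroup (Fin r) ⧸ N)).1 = b.1) :
    ((phi N hι hψ a : BB ι L ψ N) : Ds L × (FreeGroup (Fin r) ⧸ N)) = b := by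
  have h1 : phi N hι hψ a = ⟨b, hb⟩ := by
    apply fB_injective hι hψ
    change ((phi N hι hψ a : BB ι L ψ N) : Ds L × (FreeGroup (Fin r) ⧸ N)).1 = b.1
    rw [phi_fst, hab]
  rw [h1]

end setup

/-- **Rope trick.** -/
theorem rope {Δ : Type} [Group Δ] (hΔ : Good Δ) {P₀ : Type} [Group P₀] (hP : Group.FG P₀)
    (ι : P₀ →* Δ) (hι : Function.Injective ι) (L : Subgroup Δ) (hL : L.FG)
    {r : ℕ} (ψ : P₀ →* FreeGroup (Fin r)) (N : Subgroup (FreeGroup (Fin r))) [N.Normal]
    (hN : ∀ f, f ∈ N ↔ ∃ p, ι p ∈ L ∧ ψ p = f) (hW : ¬ WEE (FreeGroup (Fin r) ⧸ N)) :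
    ∃ (Γ : Type) (_ : Group Γ) (j : FreeGroup (Fin r) ⧸ N →* Γ), Good Γ ∧ Function.Injective j := by
  have hψ : ∀ p, ι p ∈ L → ψ p ∈ N := fun p hp => (hN _).mpr ⟨p, hp, rfl⟩
  have hDs : Good (Ds L) := hΔ.hnn hL _
  let G := FreeGroup (Fin r) ⧸ N
  let Γ := HNNExtension (Ds L × G) (AA ι L N) (BB ι L ψ N) (phi N hι hψ)
  refine ⟨Γ, inferInstance, HNNExtension.of.comp (MonoidHom.inr _ _), ⟨?_, ?_⟩, ?_⟩
  · -- finite presentability
    haveI := hDs.fp
    haveI := FP.fg_of_fp (Ds L)
    haveI := FP.fg_of_fp (FreeGroup (Fin r))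
    obtain ⟨SD, hSD, hSD'⟩ := FP.exists_gens (Ds L)
    obtain ⟨SF, hSF, hSF'⟩ := FP.exists_gens (FreeGroup (Fin r))
    obtain ⟨SP, hSP, hSP'⟩ := FP.exists_gens P₀
    let W := Coprod (Coprod (Ds L) (FreeGroup (Fin r))) (Multiplicative ℤ)
    let a : Ds L →* W := Coprod.inl.comp Coprod.inl
    let b : FreeGroup (Fin r) →* W := Coprod.inl.comp Coprod.inr
    let τ : W := Coprod.inr (Multiplicative.ofAdd 1)
    let R1 : Set W := Set.image2 (fun x y => a x * b y * (a x)⁻¹ * (b y)⁻¹) SD SF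
    let R2 : Set W := (fun p => τ * a (i1 ι L p) * τ⁻¹ * (a (i1 ι L p) * b (ψ p))⁻¹) '' SP
    let R3 : Set W := (fun p => τ * a (i2 ι L p) * τ⁻¹ * (a (i2 ι L p))⁻¹) '' SP
    let R : Set W := R1 ∪ (R2 ∪ R3)
    have hR : R.Finite := (hSD.image2 _ hSF).union ((hSP.image _).union (hSP.image _))
    let q : W →* W ⧸ Subgroup.normalClosure R := QuotientGroup.mk' _
    have hq : ∀ x ∈ R, q x = 1 := fun x hx =>
      (QuotientGroup.eq_one_iff _).mpr (Subgroup.subset_normalClosure hx)
    have c1 : ∀ x y, Commute ((q.comp a) x) ((q.comp b) y) := by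
      apply FP.comm_of_gens hSD' hSF'
      intro x hx y hy
      have h2 := hq _ (Or.inl ⟨x, hx, y, hy, rfl⟩)
      rw [map_mul, map_mul, map_mul, map_inv, map_inv, mul_inv_eq_one, mul_inv_eq_iff_eq_mul] at h2
      exact h2
    have c2 : ∀ p, q τ * q (a (i1 ι L p)) * (q τ)⁻¹ = q (a (i1 ι L p)) * q (b (ψ p)) := by
      intro p
      have hp : p ∈ Subgroup.closure SP := by rw [hSP']; trivial
      induction hp using Subgroup.closure_induction with
      | mem p hp =>
        have h2 := hq _ (Or.inr (Or.inl ⟨p, hp, rfl⟩))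
        dsimp only at h2
        rw [map_mul, map_mul, map_mul, map_inv, map_inv, mul_inv_eq_one, map_mul] at h2
        exact h2
      | one => simp
      | mul x y _ _ hx hy =>
        have h3 := c1 (i1 ι L y) (ψ x)
        have h4 : q (a (i1 ι L y)) * q (b (ψ x)) = q (b (ψ x)) * q (a (i1 ι L y)) := h3
        simp only [map_mul]
        calc q τ * (q (a (i1 ι L x)) * q (a (i1 ι L y))) * (q τ)⁻¹
            = (q τ * q (a (i1 ι L x)) * (q τ)⁻¹) * (q τ * q (a (i1 ι L y)) * (q τ)⁻¹) := by group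
          _ = q (a (i1 ι L x)) * (q (b (ψ x)) * q (a (i1 ι L y))) * q (b (ψ y)) := by
              rw [hx, hy]; group
          _ = _ := by rw [← h4]; group
      | inv x _ hx =>
        have h3 : q (a (i1 ι L x)) * q (b (ψ x)) = q (b (ψ x)) * q (a (i1 ι L x)) := c1 (i1 ι L x) (ψ x)
        simp only [map_inv]
        calc q τ * (q (a (i1 ι L x)))⁻¹ * (q τ)⁻¹ = (q τ * q (a (i1 ι L x)) * (q τ)⁻¹)⁻¹ := by group
          _ = _ := by rw [hx, h3]; group
    have c3 : ∀ p, q τ * q (a (i2 ι L p)) * (q τ)⁻¹ = q (a (i2 ι L p)) := by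
      intro p
      have hp : p ∈ Subgroup.closure SP := by rw [hSP']; trivial
      induction hp using Subgroup.closure_induction with
      | mem p hp =>
        have h2 := hq _ (Or.inr (Or.inr ⟨p, hp, rfl⟩))
        dsimp only at h2
        rw [map_mul, map_mul, map_mul, map_inv, map_inv, mul_inv_eq_one] at h2
        exact h2
      | one => simp
      | mul x y _ _ hx hy =>
        simp only [map_mul]
        calc q τ * (q (a (i2 ι L x)) * q (a (i2 ι L y))) * (q τ)⁻¹
            = (q τ * q (a (i2 ι L x)) * (q τ)⁻¹) * (q τ * q (a (i2 ι L y)) * (q τ)⁻¹) := by group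
          _ = _ := by rw [hx, hy]
      | inv x _ hx =>
        simp only [map_inv]
        calc q τ * (q (a (i2 ι L x)))⁻¹ * (q τ)⁻¹ = (q τ * q (a (i2 ι L x)) * (q τ)⁻¹)⁻¹ := by group
          _ = _ := by rw [hx]
    have c4 : N ≤ (q.comp b).ker := by
      intro n hn
      obtain ⟨p, hp, rfl⟩ := (hN n).mp hn
      rw [MonoidHom.mem_ker]
      change q (b (ψ p)) = 1
      have h2 := c2 p
      have h3 := c3 p
      rw [i2_eq_i1 ι L hp, h2] at h3
      exact mul_eq_left.mp h3
    let fG : G →* W ⧸ Subgroup.normalClosure R := QuotientGroup.lift N (q.comp b) (fun n hn => c4 hn)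
    have hcomm : ∀ x g, Commute ((q.comp a) x) (fG g) := by
      intro x g
      obtain ⟨y, rfl⟩ := QuotientGroup.mk_surjective g
      exact c1 x y
    let f : Ds L × G →* W ⧸ Subgroup.normalClosure R := MonoidHom.noncommCoprod (q.comp a) fG hcomm
    have hf1 : ∀ x, f (x, 1) = q (a x) := by
      intro x
      change (q.comp a) x * fG 1 = _
      rw [map_one, mul_one]
      rfl
    have hf : ∀ x g, f (x, g) = q (a x) * fG g := fun x g => rfl
    have hfG : ∀ y, fG (QuotientGroup.mk' N y) = q (b y) := fun y => rfl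
    have hB : ∀ z ∈ BB ι L ψ N, q τ * f (z.1, 1) * (q τ)⁻¹ = f z := by
      let f' : Ds L × G →* W ⧸ Subgroup.normalClosure R :=
        (MulAut.conj (q τ)).toMonoidHom.comp (f.comp ((MonoidHom.inl _ _).comp (MonoidHom.fst _ _)))
      have h1 : BB ι L ψ N ≤ f'.eqLocus f := by
        rw [BB]
        apply sup_le
        · rintro _ ⟨p, rfl⟩
          change q τ * f (i1 ι L p, 1) * (q τ)⁻¹ = f (i1 ι L p, psi ψ N p)
          rw [hf1, c2, hf]
          rfl
        · rintro _ ⟨p, rfl⟩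
          change q τ * f (i2 ι L p, 1) * (q τ)⁻¹ = f (i2 ι L p, 1)
          rw [hf1, c3]
      intro z hz
      exact h1 hz
    have hlift : ∀ z : AA ι L N, q τ * f z = f (phi N hι hψ z : BB ι L ψ N) * q τ := by
      intro z
      have h1 := hB _ (phi N hι hψ z).2
      rw [phi_fst, ← AA_snd z] at h1
      change q τ * f z.1 * (q τ)⁻¹ = _ at h1
      rw [← h1]
      group
    have tof : ∀ z : AA ι L N, (HNNExtension.t * HNNExtension.of (z : Ds L × G) * HNNExtension.t⁻¹ : Γ) =
        HNNExtension.of ((phi N hι hψ z : BB ι L ψ N) : Ds L × G) := by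
      intro z
      exact (HNNExtension.equiv_eq_conj (φ := phi N hι hψ) z).symm
    let Θ : W →* Γ := Coprod.lift (Coprod.lift (HNNExtension.of.comp (MonoidHom.inl _ _))
      ((HNNExtension.of.comp (MonoidHom.inr _ _)).comp (QuotientGroup.mk' N)))
      (zpowersHom _ HNNExtension.t)
    have hΘa : ∀ x, Θ (a x) = HNNExtension.of (x, 1) := by
      intro x
      change Coprod.lift _ _ (Coprod.inl (Coprod.inl x)) = _
      rw [Coprod.lift_apply_inl, Coprod.lift_apply_inl]
      rfl
    have hΘb : ∀ y, Θ (b y) = HNNExtension.of (1, QuotientGroup.mk' N y) := by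
      intro y
      change Coprod.lift _ _ (Coprod.inl (Coprod.inr y)) = _
      rw [Coprod.lift_apply_inl, Coprod.lift_apply_inr]
      rfl
    have hΘτ : Θ τ = HNNExtension.t := by
      change Coprod.lift _ _ (Coprod.inr (Multiplicative.ofAdd 1)) = _
      rw [Coprod.lift_apply_inr, zpowersHom_apply, toAdd_ofAdd, zpow_one]
    refine FP.fp_of Θ ?_ R hR ?_ (HNNExtension.lift f (q τ) hlift) ?_
    · intro x
      induction x using HNNExtension.induction_on with
      | of g =>
        obtain ⟨x, g⟩ := g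
        obtain ⟨y, rfl⟩ := QuotientGroup.mk_surjective g
        refine ⟨a x * b y, ?_⟩
        rw [map_mul, hΘa, hΘb, ← map_mul]
        simp
      | t => exact ⟨τ, hΘτ⟩
      | mul x y hx hy =>
        obtain ⟨x', rfl⟩ := hx
        obtain ⟨y', rfl⟩ := hy
        exact ⟨x' * y', map_mul _ _ _⟩
      | inv x hx =>
        obtain ⟨x', rfl⟩ := hx
        exact ⟨x'⁻¹, map_inv _ _⟩
    · rintro w (⟨x, _, y, _, rfl⟩ | ⟨p, _, rfl⟩ | ⟨p, _, rfl⟩)
      · rw [map_mul, map_mul, map_mul, map_inv, map_inv, hΘa, hΘb, ← map_mul, ← map_inv, ← map_inv,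
          ← map_mul, ← map_mul]
        have h1 : ((x, 1) : Ds L × G) * (1, QuotientGroup.mk' N y) * (x, 1)⁻¹ *
            (1, QuotientGroup.mk' N y)⁻¹ = 1 := Prod.ext (by simp) (by simp)
        rw [h1, map_one]
      · dsimp only
        rw [map_mul, map_mul, map_mul, map_inv, map_inv, map_mul, hΘa, hΘb, hΘτ, ← map_mul,
          mul_inv_eq_one]
        have hmem : ((i1 ι L p, 1) : Ds L × G) ∈ AA ι L N :=
          ⟨i1 ι L p, Subgroup.mem_sup_left ⟨p, rfl⟩, rfl⟩
        rw [tof ⟨_, hmem⟩]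
        congr 1
        apply phi_eq
        · have : ((i1 ι L p, 1) : Ds L × G) * (1, QuotientGroup.mk' N (ψ p)) =
              (i1 ι L p, psi ψ N p) := by
            rw [Prod.mk_mul_mk, mul_one, one_mul]; rfl
          rw [this]
          exact Subgroup.mem_sup_left ⟨p, rfl⟩
        · simp
      · dsimp only
        rw [map_mul, map_mul, map_mul, map_inv, map_inv, hΘa, hΘτ, mul_inv_eq_one]
        have hmem : ((i2 ι L p, 1) : Ds L × G) ∈ AA ι L N :=
          ⟨i2 ι L p, Subgroup.mem_sup_right ⟨p, rfl⟩, rfl⟩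
        rw [tof ⟨_, hmem⟩]
        congr 1
        apply phi_eq
        · exact Subgroup.mem_sup_right ⟨p, rfl⟩
        · rfl
    · intro w
      have h1 : (HNNExtension.lift f (q τ) hlift).comp Θ = q := by
        apply Coprod.hom_ext
        · apply Coprod.hom_ext
          · refine MonoidHom.ext fun x => ?_
            change HNNExtension.lift f (q τ) hlift (Θ (a x)) = q (a x)
            rw [hΘa, HNNExtension.lift_of, hf1]
          · refine FreeGroup.ext_hom _ _ fun y => ?_
            change HNNExtension.lift f (q τ) hlift (Θ (b (FreeGroup.of y))) = q (b (FreeGroup.of y))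
            rw [hΘb, HNNExtension.lift_of, hf, map_one, map_one, one_mul]
            rfl
        · ext
          change HNNExtension.lift f (q τ) hlift (Θ τ) = q τ
          rw [hΘτ, HNNExtension.lift_t]
      exact DFunLike.congr_fun h1 w
  · -- no weakly embedded expander
    intro h
    exact Perm.prod hDs.nw hW (Perm.hnn _ h)
  · -- injectivity
    exact (HNNExtension.of_injective _).comp (fun _ _ h => congrArg Prod.snd h)

end Pool.Agent.H76.Rope
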