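import Mathlib
import Pool.Agent.H76.KGrp
import Pool.Agent.H76.Rope

set_option autoImplicit false
set_option linter.style.haveILetI false

namespace Pool.Agent.H76.Emb

open Pool.Agent.H76.Wee Pool.Agent.H76.Perm Pool.Agent.H76.Host Pool.Agent.H76.KGrp

section words

variable {r : ℕ}

/-- free group with one more generator -/
abbrev Fs (r : ℕ) : Type := FreeGroup (Option (Fin r))

/-- embedding -/
def emb : FreeGroup (Fin r) →* Fs r := FreeGroup.map some

/-- retraction -/
def rho : Fs r →* FreeGroup (Fin r) :=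
  FreeGroup.lift (fun o => o.elim 1 (fun j => FreeGroup.of j))

theorem rho_emb (x : FreeGroup (Fin r)) : rho (emb x) = x := by
  have : (rho.comp emb : FreeGroup (Fin r) →* FreeGroup (Fin r)) = MonoidHom.id _ := by
    refine FreeGroup.ext_hom _ _ fun j => ?_
    rw [MonoidHom.comp_apply, emb, FreeGroup.map.of, rho, FreeGroup.lift_apply_of]
    rfl
  exact DFunLike.congr_fun this x

theorem rho_none : rho (FreeGroup.of (none : Option (Fin r))) = 1 := by
  rw [rho, FreeGroup.lift_apply_of]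
  rfl

/-- the twisting endomorphism -/
def beta (c : FreeGroup (Fin r)) : Fs r →* Fs r :=
  FreeGroup.lift (fun o => o.elim (emb c * FreeGroup.of none)
    (fun j => emb c * FreeGroup.of (some j) * (emb c)⁻¹))

theorem beta_emb (c x : FreeGroup (Fin r)) : beta c (emb x) = emb c * emb x * (emb c)⁻¹ := by
  have : (beta c).comp emb = (MulAut.conj (emb c)).toMonoidHom.comp emb := by
    refine FreeGroup.ext_hom _ _ fun j => ?_
    rw [MonoidHom.comp_apply]
    change beta c (FreeGroup.map some (FreeGroup.of j)) = emb c * (FreeGroup.map some (FreeGroup.of j)) * (emb c)⁻¹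
    rw [FreeGroup.map.of, beta, FreeGroup.lift_apply_of]
    rfl
  exact DFunLike.congr_fun this x

theorem beta_none (c : FreeGroup (Fin r)) :
    beta c (FreeGroup.of none) = emb c * FreeGroup.of none := by
  rw [beta, FreeGroup.lift_apply_of]
  rfl

theorem beta_inv (c : FreeGroup (Fin r)) (x : Fs r) : beta c⁻¹ (beta c x) = x := by
  have : (beta c⁻¹).comp (beta c) = MonoidHom.id _ := by
    refine FreeGroup.ext_hom _ _ fun o => ?_
    cases o with
    | none =>
      rw [MonoidHom.comp_apply, beta_none, map_mul, beta_emb, beta_none, MonoidHom.id_apply, map_inv]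
      group
    | some j =>
      rw [MonoidHom.comp_apply]
      have h1 : beta c (FreeGroup.of (some j)) = emb c * emb (FreeGroup.of j) * (emb c)⁻¹ := by
        rw [← beta_emb]
        rw [emb, FreeGroup.map.of]
      rw [h1, map_mul, map_mul, map_inv, beta_emb, beta_emb, MonoidHom.id_apply, map_inv]
      have h2 : emb (FreeGroup.of j) = FreeGroup.of (some j) := by rw [emb, FreeGroup.map.of]
      rw [h2]
      group
  exact DFunLike.congr_fun this x

theorem beta_injective (c : FreeGroup (Fin r)) : Function.Injective (beta c) :=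
  Function.LeftInverse.injective (beta_inv c)

end words

theorem closure_inter {X : Type} (S T : Set X) {z : FreeGroup X}
    (hS : z ∈ Subgroup.closure (FreeGroup.of '' S)) (hT : z ∈ Subgroup.closure (FreeGroup.of '' T)) :
    z ∈ Subgroup.closure (FreeGroup.of '' (S ∩ T)) := by
  have h1 : ∃ z' : FreeGroup S, FreeGroup.map Subtype.val z' = z := by
    have : Subgroup.closure (FreeGroup.of '' S) ≤ (FreeGroup.map (Subtype.val : S → X)).range := by
      rw [Subgroup.closure_le]
      rintro _ ⟨x, hx, rfl⟩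
      exact ⟨FreeGroup.of ⟨x, hx⟩, FreeGroup.map.of⟩
    exact this hS
  obtain ⟨z', rfl⟩ := h1
  rw [map_mem_iff _ Subtype.val_injective] at hT
  have h2 : (Subgroup.closure (FreeGroup.of '' ((Subtype.val : S → X) ⁻¹' T))).map
      (FreeGroup.map Subtype.val) ≤ Subgroup.closure (FreeGroup.of '' (S ∩ T)) := by
    rw [MonoidHom.map_closure, Subgroup.closure_le]
    rintro _ ⟨_, ⟨x, hx, rfl⟩, rfl⟩
    rw [FreeGroup.map.of]
    exact Subgroup.subset_closure ⟨x.1, ⟨x.2, hx⟩, rfl⟩
  exact h2 ⟨_, hT, rfl⟩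

section coding

variable {r : ℕ} {I V : Type} [AddCommGroup V] (i₀ : I) (v : List (Fin r × Bool) → V)

open Classical in
/-- the map to the free group -/
noncomputable def eta : FreeGroup (I × V) →* Fs r :=
  FreeGroup.lift (fun c => if h : ∃ w, c = (i₀, v w) then
    emb (FreeGroup.mk h.choose) * FreeGroup.of none else 1)

theorem eta_of (hv : Function.Injective v) (w : List (Fin r × Bool)) :
    eta i₀ v (FreeGroup.of (i₀, v w)) = emb (FreeGroup.mk w) * FreeGroup.of none := by
  have h : ∃ w', (i₀, v w) = (i₀, v w') := ⟨w, rfl⟩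
  rw [eta, FreeGroup.lift_apply_of, dif_pos h]
  have := hv (congrArg Prod.snd h.choose_spec)
  rw [← this]

/-- the configurations coding words -/
def Cw : Set (I × V) := {c | ∃ w, c = (i₀, v w)}

/-- the graph subgroup -/
noncomputable def QQ : Subgroup (K I V × Fs r) :=
  (Subgroup.closure (FreeGroup.of '' (Cw i₀ v))).map
    ((SemidirectProduct.inl : FreeGroup (I × V) →* K I V).prod (eta i₀ v))

theorem mem_QQ {g : K I V × Fs r} :
    g ∈ QQ i₀ v ↔ g.1 ∈ TT (Cw i₀ v) ∧ g.2 = eta i₀ v g.1.left := by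
  constructor
  · rintro ⟨w, hw, rfl⟩
    exact ⟨⟨w, hw, rfl⟩, rfl⟩
  · rintro ⟨⟨w, hw, h1⟩, h2⟩
    refine ⟨w, hw, ?_⟩
    refine Prod.ext h1 ?_
    rw [h2, ← h1]
    rfl

/-- the element of the graph subgroup coding a word -/
def xw (w : List (Fin r × Bool)) : K I V × Fs r :=
  (SemidirectProduct.inl (FreeGroup.of (i₀, v w)), emb (FreeGroup.mk w) * FreeGroup.of none)

theorem hostQ [Finite I] (hV : Good (Multiplicative V)) (hv : Function.Injective v)
    (γ : Fin r × Bool → Aff V) (hγ : ∀ a w, (γ a).ev (v w) = v (a :: w))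
    (hγ' : ∀ a u w', (γ a).ev u = v w' → ∃ w, u = v w) :
    ∃ (Δ : Type) (_ : Group Δ) (ι : K I V × Fs r →* Δ) (L : Subgroup Δ), Good Δ ∧
      Function.Injective ι ∧ L.FG ∧ ∀ g, ι g ∈ L ↔ g ∈ QQ i₀ v := by
  haveI : Group.FG (K Unit V × Fs r) := by
    haveI := ((good_K (I := Unit) hV).prod (Good.freeGroup (Option (Fin r)))).fp
    exact FP.fg_of_fp _
  let idA : Aff V := ⟨AddMonoidHom.id V, fun _ _ h => h, 0⟩
  have hidA : ∀ u, idA.ev u = u := fun u => add_zero u
  let sp : Fin r × Bool → Span (K I V × Fs r) := fun a =>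
    { X := K Unit V × Fs r
      fg := inferInstance
      f := (theta i₀ idA).prodMap (MonoidHom.id _)
      g := (theta i₀ (γ a)).prodMap (beta (FreeGroup.mk [a]))
      hf := Function.Injective.prodMap (theta_injective _ _) (fun _ _ h => h)
      hg := Function.Injective.prodMap (theta_injective _ _) (beta_injective _) }
  have hG : Good (K I V × Fs r) := (good_K hV).prod (Good.freeGroup _)
  obtain ⟨Δ, _, ι, T, hΔ, hι, hT, hT1, hT2⟩ := multi (K I V × Fs r) hG (QQ i₀ v)
    ((Finset.univ : Finset (Fin r × Bool)).toList.map sp) (by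
    intro s hs x
    obtain ⟨a, _, rfl⟩ := List.mem_map.mp hs
    obtain ⟨k, z⟩ := x
    change (theta i₀ idA k, z) ∈ QQ i₀ v ↔ (theta i₀ (γ a) k, beta (FreeGroup.mk [a]) z) ∈ QQ i₀ v
    rw [mem_QQ, mem_QQ, theta_mem_TT, theta_mem_TT]
    have h1 : (fun p : Unit × V => (i₀, idA.ev p.2)) ⁻¹' (Cw i₀ v) =
        (fun p : Unit × V => (i₀, (γ a).ev p.2)) ⁻¹' (Cw i₀ v) := by
      ext ⟨_, u⟩
      change (∃ w, (i₀, idA.ev u) = (i₀, v w)) ↔ (∃ w, (i₀, (γ a).ev u) = (i₀, v w))
      rw [hidA]
      constructor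
      · rintro ⟨w, hw⟩
        have hw' : u = v w := congrArg Prod.snd hw
        exact ⟨a :: w, by rw [hw', hγ]⟩
      · rintro ⟨w, hw⟩
        obtain ⟨w', hw'⟩ := hγ' a u w (congrArg Prod.snd hw)
        exact ⟨w', by rw [hw']⟩
    rw [← h1]
    have h2 : ∀ y ∈ Subgroup.closure (FreeGroup.of '' ((fun p : Unit × V => (i₀, idA.ev p.2)) ⁻¹' (Cw i₀ v))),
        eta i₀ v (FreeGroup.map (fun p : Unit × V => (i₀, (γ a).ev p.2)) y) =
          beta (FreeGroup.mk [a]) (eta i₀ v (FreeGroup.map (fun p : Unit × V => (i₀, idA.ev p.2)) y)) := by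
      intro y hy
      let f1 : FreeGroup (Unit × V) →* Fs r := (eta i₀ v).comp (FreeGroup.map (fun p : Unit × V => (i₀, (γ a).ev p.2)))
      let f2 : FreeGroup (Unit × V) →* Fs r := (beta (FreeGroup.mk [a])).comp
        ((eta i₀ v).comp (FreeGroup.map (fun p : Unit × V => (i₀, idA.ev p.2))))
      have h3 : Subgroup.closure (FreeGroup.of '' ((fun p : Unit × V => (i₀, idA.ev p.2)) ⁻¹' (Cw i₀ v))) ≤
          f1.eqLocus f2 := by
        rw [Subgroup.closure_le]
        rintro _ ⟨⟨_, u⟩, ⟨w, hw⟩, rfl⟩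
        have hw' : u = v w := by
          have : idA.ev u = v w := congrArg Prod.snd hw
          rw [← this, hidA]
        subst hw'
        change eta i₀ v (FreeGroup.map (fun p : Unit × V => (i₀, (γ a).ev p.2)) (FreeGroup.of (_, v w))) =
          beta (FreeGroup.mk [a]) (eta i₀ v (FreeGroup.map (fun p : Unit × V => (i₀, idA.ev p.2)) (FreeGroup.of (_, v w))))
        rw [FreeGroup.map.of, FreeGroup.map.of]
        dsimp only
        rw [hγ, hidA, eta_of i₀ v hv, eta_of i₀ v hv, map_mul, beta_emb, beta_none]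
        have h4 : (FreeGroup.mk (a :: w) : FreeGroup (Fin r)) = FreeGroup.mk [a] * FreeGroup.mk w := by
          rw [FreeGroup.mul_mk]; rfl
        rw [h4, map_mul]
        group
      exact h3 hy
    constructor
    · rintro ⟨hk, hz⟩
      refine ⟨hk, ?_⟩
      change beta (FreeGroup.mk [a]) z = eta i₀ v (theta i₀ (γ a) k).left
      rw [theta_left, h2 _ (mem_TT.mp hk).2]
      have hz' : z = eta i₀ v (theta i₀ idA k).left := hz
      rw [hz', theta_left]
    · rintro ⟨hk, hz⟩
      refine ⟨hk, ?_⟩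
      have hz' : beta (FreeGroup.mk [a]) z = eta i₀ v (theta i₀ (γ a) k).left := hz
      rw [theta_left, h2 _ (mem_TT.mp hk).2] at hz'
      exact beta_injective _ hz')
  let L : Subgroup Δ := Subgroup.closure ({ι (xw i₀ v [])} ∪ T)
  refine ⟨Δ, inferInstance, ι, L, hΔ, hι, ?_, ?_⟩
  · exact (Subgroup.fg_iff _).mpr ⟨_, rfl, (Set.finite_singleton _).union hT⟩
  · have hxw : ∀ w, xw i₀ v w ∈ QQ i₀ v := by
      intro w
      refine ⟨FreeGroup.of (i₀, v w), Subgroup.subset_closure ⟨_, ⟨w, rfl⟩, rfl⟩, ?_⟩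
      exact Prod.ext rfl (eta_of i₀ v hv w)
    intro g
    constructor
    · intro hg
      apply hT2
      refine Subgroup.closure_mono ?_ hg
      rintro x (hx | hx)
      · rw [Set.mem_singleton_iff] at hx
        subst hx
        exact Or.inl ⟨_, hxw [], rfl⟩
      · exact Or.inr hx
    · have hstep : ∀ w, ι (xw i₀ v w) ∈ L := by
        intro w
        induction w with
        | nil => exact Subgroup.subset_closure (Or.inl rfl)
        | cons a w ih =>
          obtain ⟨σ, hσ, hσ2⟩ := hT1 (sp a) (List.mem_map.mpr ⟨a, by simp, rfl⟩)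
          have h1 := hσ2 ((SemidirectProduct.inl (FreeGroup.of ((), v w)) : K Unit V),
            emb (FreeGroup.mk w) * FreeGroup.of none)
          have h2 : (sp a).f ((SemidirectProduct.inl (FreeGroup.of ((), v w)) : K Unit V),
              emb (FreeGroup.mk w) * FreeGroup.of none) = xw i₀ v w := by
            change (theta i₀ idA (SemidirectProduct.inl (FreeGroup.of ((), v w))), _) = _
            rw [theta, SemidirectProduct.map_inl, FreeGroup.map.of]
            dsimp only
            rw [hidA]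
            rfl
          have h3 : (sp a).g ((SemidirectProduct.inl (FreeGroup.of ((), v w)) : K Unit V),
              emb (FreeGroup.mk w) * FreeGroup.of none) = xw i₀ v (a :: w) := by
            change (theta i₀ (γ a) (SemidirectProduct.inl (FreeGroup.of ((), v w))),
              beta (FreeGroup.mk [a]) (emb (FreeGroup.mk w) * FreeGroup.of none)) = _
            rw [theta, SemidirectProduct.map_inl, FreeGroup.map.of]
            dsimp only
            rw [hγ, map_mul, beta_emb, beta_none]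
            have h4 : (FreeGroup.mk (a :: w) : FreeGroup (Fin r)) = FreeGroup.mk [a] * FreeGroup.mk w := by
              rw [FreeGroup.mul_mk]; rfl
            rw [xw, h4, map_mul]
            congr 1
            group
          rw [h2, h3] at h1
          have hσL : σ ∈ L := Subgroup.subset_closure (Or.inr hσ)
          rw [← h1]
          exact L.mul_mem (L.mul_mem hσL ih) (L.inv_mem hσL)
      rintro ⟨w, hw, rfl⟩
      have hle : (Subgroup.closure (FreeGroup.of '' (Cw i₀ v))) ≤
          L.comap (ι.comp ((SemidirectProduct.inl : FreeGroup (I × V) →* K I V).prod (eta i₀ v))) := by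
        rw [Subgroup.closure_le]
        rintro _ ⟨_, ⟨w, rfl⟩, rfl⟩
        change ι (SemidirectProduct.inl (FreeGroup.of (i₀, v w)), eta i₀ v (FreeGroup.of (i₀, v w))) ∈ L
        rw [eta_of i₀ v hv]
        exact hstep w
      exact hle hw

/-- **Embedding from a machine.** -/
theorem embed [Finite I] (hV : Good (Multiplicative V)) (l : List (Rule I V)) (Z : Set (I × V))
    (hZ : ∀ ρ ∈ l, ∀ u, (ρ.i, ρ.α.ev u) ∈ Z ↔ (ρ.j, ρ.β.ev u) ∈ Z) (c₀ : I × V) (hc₀ : c₀ ∈ Z)
    (hred : ∀ c ∈ Z, Relation.ReflTransGen (Red l) c c₀)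
    (hv : Function.Injective v)
    (γ : Fin r × Bool → Aff V) (hγ : ∀ a w, (γ a).ev (v w) = v (a :: w))
    (hγ' : ∀ a u w', (γ a).ev u = v w' → ∃ w, u = v w)
    (N : Subgroup (FreeGroup (Fin r))) [N.Normal]
    (hN : ∀ w, (i₀, v w) ∈ Z ↔ FreeGroup.mk w ∈ N) (hW : ¬ WEE (FreeGroup (Fin r) ⧸ N)) :
    ∃ (Γ : Type) (_ : Group Γ) (j : FreeGroup (Fin r) ⧸ N →* Γ), Good Γ ∧ Function.Injective j := by
  classical
  obtain ⟨Δ₁, _, ι₁, L₁, hΔ₁, hι₁, hL₁, h₁⟩ := host hV l Z hZ c₀ hc₀ hred
  obtain ⟨Δ₂, _, ι₂, L₂, hΔ₂, hι₂, hL₂, h₂⟩ := hostQ i₀ v hV hv γ hγ hγ'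
  have hFs : Good (Fs r) := Good.freeGroup _
  let Δ₃ := Δ₂ × (Δ₁ × Fs r)
  have hΔ₃ : Good Δ₃ := hΔ₂.prod (hΔ₁.prod hFs)
  let ι₃ : K I V × Fs r →* Δ₃ := ι₂.prod (ι₁.prodMap (MonoidHom.id _))
  have hι₃ : Function.Injective ι₃ := fun a b h => hι₂ (congrArg Prod.fst h)
  let L₃ : Subgroup Δ₃ := L₂.prod (L₁.prod ⊤)
  haveI := hFs.fp
  haveI : Group.FG (Fs r) := FP.fg_of_fp _
  haveI : Group.FG (K I V × Fs r) := by
    haveI := ((good_K (I := I) hV).prod hFs).fp
    exact FP.fg_of_fp _
  have hL₃ : L₃.FG := by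
    have e1 : (⊤ : Subgroup (Fs r)).FG := Group.fg_def.mp inferInstance
    have key : ∀ {A B : Type} [Group A] [Group B] {S : Subgroup A} {T : Subgroup B},
        S.FG → T.FG → (S.prod T).FG := by
      intro A B _ _ S T hS hT
      obtain ⟨s, hs, hs'⟩ := (Subgroup.fg_iff S).mp hS
      obtain ⟨t, ht, ht'⟩ := (Subgroup.fg_iff T).mp hT
      refine (Subgroup.fg_iff _).mpr ⟨(fun a => (a, (1 : B))) '' s ∪ (fun b => ((1 : A), b)) '' t, ?_,
        (hs'.image _).union (ht'.image _)⟩
      apply le_antisymm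
      · rw [Subgroup.closure_le]
        rintro _ (⟨a, ha, rfl⟩ | ⟨b, hb, rfl⟩)
        · exact ⟨by rw [← hs]; exact Subgroup.subset_closure ha, T.one_mem⟩
        · exact ⟨S.one_mem, by rw [← ht]; exact Subgroup.subset_closure hb⟩
      · rintro ⟨a, b⟩ ⟨ha, hb⟩
        have h1 : ((a, 1) : A × B) ∈ Subgroup.closure ((fun a => (a, (1 : B))) '' s ∪ (fun b => ((1 : A), b)) '' t) := by
          have h2 : S ≤ (Subgroup.closure ((fun a => (a, (1 : B))) '' s ∪ (fun b => ((1 : A), b)) '' t)).comap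
              (MonoidHom.inl A B) := by
            rw [← hs, Subgroup.closure_le]
            intro a ha
            exact Subgroup.subset_closure (Or.inl ⟨a, ha, rfl⟩)
          exact h2 ha
        have h1' : ((1, b) : A × B) ∈ Subgroup.closure ((fun a => (a, (1 : B))) '' s ∪ (fun b => ((1 : A), b)) '' t) := by
          have h2 : T ≤ (Subgroup.closure ((fun a => (a, (1 : B))) '' s ∪ (fun b => ((1 : A), b)) '' t)).comap
              (MonoidHom.inr A B) := by
            rw [← ht, Subgroup.closure_le]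
            intro a ha
            exact Subgroup.subset_closure (Or.inr ⟨a, ha, rfl⟩)
          exact h2 hb
        have := Subgroup.mul_mem _ h1 h1'
        simpa using this
    exact key hL₂ (key hL₁ e1)
  let ψ : K I V × Fs r →* FreeGroup (Fin r) := rho.comp (MonoidHom.snd _ _)
  refine Rope.rope hΔ₃ (P₀ := K I V × Fs r) inferInstance ι₃ hι₃ L₃ hL₃ ψ N ?_ hW
  intro f
  constructor
  · intro hf
    refine ⟨xw i₀ v f.toWord, ?_, ?_⟩
    · refine ⟨?_, ?_, trivial⟩
      · change ι₂ (xw i₀ v f.toWord) ∈ L₂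
        rw [h₂]
        refine ⟨FreeGroup.of (i₀, v f.toWord), Subgroup.subset_closure ⟨_, ⟨_, rfl⟩, rfl⟩, ?_⟩
        exact Prod.ext rfl (eta_of i₀ v hv _)
      · change ι₁ (SemidirectProduct.inl (FreeGroup.of (i₀, v f.toWord))) ∈ L₁
        rw [h₁]
        refine ⟨_, Subgroup.subset_closure ⟨(i₀, v f.toWord), ?_, rfl⟩, rfl⟩
        rw [hN, FreeGroup.mk_toWord]
        exact hf
    · change rho (emb (FreeGroup.mk f.toWord) * FreeGroup.of none) = f
      rw [map_mul, rho_emb, rho_none, mul_one, FreeGroup.mk_toWord]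
  · rintro ⟨p, ⟨hp1, hp2, _⟩, rfl⟩
    have hq : p ∈ QQ i₀ v := (h₂ p).mp hp1
    have ht : p.1 ∈ TT Z := (h₁ p.1).mp hp2
    obtain ⟨z, hz, rfl⟩ := hq
    have hz2 : z ∈ Subgroup.closure (FreeGroup.of '' Z) := (mem_TT.mp ht).2
    have hz3 := closure_inter _ _ hz hz2
    have hle : Subgroup.closure (FreeGroup.of '' (Cw i₀ v ∩ Z)) ≤ N.comap (rho.comp (eta i₀ v)) := by
      rw [Subgroup.closure_le]
      rintro _ ⟨_, ⟨⟨w, rfl⟩, hw⟩, rfl⟩
      change rho (eta i₀ v (FreeGroup.of (i₀, v w))) ∈ N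
      rw [eta_of i₀ v hv, map_mul, rho_emb, rho_none, mul_one]
      exact (hN w).mp hw
    exact hle hz3

end coding

end Pool.Agent.H76.Emb
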