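import Mathlib
import Pool.Agent.H76.Cod
import Pool.Agent.H76.Emb

set_option autoImplicit false
set_option linter.style.haveILetI false

namespace Pool.Agent.H76.Higman

open Turing Turing.PartrecToTM2 Turing.ToPartrec Relation StateTransition
open Pool.Agent.H76.Wee Pool.Agent.H76.Host
open Pool.Agent.H76.KGrp Pool.Agent.H76.Mach Pool.Agent.H76.Cod

theorem good_VV : Good (Multiplicative VV) := by
  haveI := finiteK
  exact good_fun K'

variable {r : ℕ}

theorem start_mem (c : Code) : tr (trNormal c Cont'.halt) ∈ St c :=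
  ⟨trNormal c Cont'.halt, (tr_supports c Cont'.halt).1, TM2.stmts₁_self⟩

/-- the initial label -/
noncomputable def i₀ (c : Code) : II c := some (⟨_, start_mem c⟩, none)

theorem halts_iff (c : Code) (w : List (Fin r × Bool)) :
    (i₀ c, vv w) ∈ Z c ↔ (c.eval [code w]).Dom := by
  have h1 : (i₀ c, vv w) ∈ Z c ↔ HD (tr (trNormal c Cont'.halt)) none (stk w) :=
    mem_Z (i := i₀ c) (S := stk w)
  rw [h1, ← HD_goto (fun _ => trNormal c Cont'.halt) none (stk w)]
  have h2 : (c.eval [code w]).Dom ↔ (eval (TM2.step tr) (init c [code w])).Dom := by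
    rw [PartrecToTM2.tr_eval]
    rfl
  rw [h2, Part.dom_iff_mem]
  constructor
  · rintro ⟨b, hb1, hb2⟩
    exact ⟨b, mem_eval.mpr ⟨hb1, hb2⟩⟩
  · rintro ⟨b, hb⟩
    obtain ⟨hb1, hb2⟩ := mem_eval.mp hb
    exact ⟨b, hb1, hb2⟩

/-- **Higman embedding inside the class of groups without weakly embedded expanders.** -/
theorem higman (N : Subgroup (FreeGroup (Fin r))) [N.Normal]
    (hN : REPred (fun w : List (Fin r × Bool) => FreeGroup.mk w ∈ N))
    (hW : ¬ WEE (FreeGroup (Fin r) ⧸ N)) :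
    ∃ (Γ : Type) (_ : Group Γ) (j : FreeGroup (Fin r) ⧸ N →* Γ), Good Γ ∧ Function.Injective j := by
  obtain ⟨c, hc⟩ := exists_code _ hN
  refine Emb.embed (i₀ c) vv good_VV (rl c) (Z c) ?_ (none, 0) ?_ ?_ vv_injective gam ?_ ?_ N ?_ hW
  · intro ρ hρ u
    exact (mem_rl.mp hρ).2.2 u
  · exact ⟨fun _ => [], rfl, trivial⟩
  · intro p hp
    exact reach hp
  · intro a w
    exact gam_vv a w
  · intro a u w' h
    exact gam_dec a u w' h
  · intro w
    rw [halts_iff, hc]

end Pool.Agent.H76.Higman
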