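import Mathlib
import Pool.Agent.H76.Higman

set_option autoImplicit false
set_option linter.style.haveILetI false

namespace Pool.Agent.H76.Final1

open Pool.Agent.H76.Exp Pool.Agent.H76.Wee Pool.Agent.H76.Host

/-- coarse embeddability with respect to a marking -/
def CE {r : ℕ} {G : Type} [Group G] (π : FreeGroup (Fin r) →* G) : Prop :=
  ∃ (H : Type) (_ : NormedAddCommGroup H) (_ : InnerProductSpace ℝ H) (_ : CompleteSpace H)
    (f : G → H),
    (∀ k : ℕ, ∃ C : ℝ, ∀ g h : G,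
      (∃ w : FreeGroup (Fin r), w.toWord.length ≤ k ∧ h = g * π w) → ‖f g - f h‖ ≤ C) ∧
    (∀ R : ℝ, ∃ k : ℕ, ∀ g h : G,
      ‖f g - f h‖ ≤ R → ∃ w : FreeGroup (Fin r), w.toWord.length ≤ k ∧ h = g * π w)

/-- weakly embedded expanders with respect to a marking -/
def HasWEE {r : ℕ} {G : Type} [Group G] (π : FreeGroup (Fin r) →* G) : Prop :=
  ∃ (N : ℕ → ℕ) (Gr : ∀ m : ℕ, SimpleGraph (Fin (N m))) (D L : ℕ) (ε : ℝ)
      (φ : ∀ m : ℕ, Fin (N m) → G),
    0 < ε ∧
    Filter.Tendsto N Filter.atTop Filter.atTop ∧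
    (∀ (m : ℕ) (v : Fin (N m)), Nat.card {u : Fin (N m) // (Gr m).Adj v u} ≤ D) ∧
    (∀ (m : ℕ) (A : Set (Fin (N m))), 2 * Nat.card A ≤ N m →
      ε * (Nat.card A : ℝ) ≤
        (Nat.card {p : Fin (N m) × Fin (N m) //
          p.1 ∈ A ∧ p.2 ∉ A ∧ (Gr m).Adj p.1 p.2} : ℝ)) ∧
    (∀ (m : ℕ) (u v : Fin (N m)), (Gr m).Adj u v →
      ∃ w : FreeGroup (Fin r), w.toWord.length ≤ L ∧ φ m v = φ m u * π w) ∧
    (∀ δ : ℝ, 0 < δ → ∃ M : ℕ, ∀ m : ℕ, M ≤ m → ∀ x : G,
      (Nat.card {v : Fin (N m) // φ m v = x} : ℝ) ≤ δ * (N m : ℝ))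

theorem finite_short (r L : ℕ) : {w : FreeGroup (Fin r) | w.toWord.length ≤ L}.Finite := by
  have h1 := List.finite_length_le (Fin r × Bool) L
  refine (h1.image FreeGroup.mk).subset ?_
  intro w hw
  exact ⟨w.toWord, hw, FreeGroup.mk_toWord⟩

theorem wee_of_has {r : ℕ} {G : Type} [Group G] (π : FreeGroup (Fin r) →* G) (h : HasWEE π) :
    WEE G := by
  obtain ⟨N, Gr, D, L, ε, φ, hε, hN, hdeg, hexp, hstep, hfib⟩ := h
  refine ⟨D, ε, π '' {w | w.toWord.length ≤ L}, hε, (finite_short r L).image _, ?_⟩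
  intro δ hδ
  obtain ⟨M, hM⟩ := hfib δ hδ
  obtain ⟨m, hm1, hm2⟩ := ((hN.eventually_ge_atTop 1).and (Filter.eventually_ge_atTop M)).exists
  refine ⟨Fin (N m), inferInstance, ⟨⟨0, hm1⟩⟩, Gr m, φ m, ⟨hdeg m, ?_⟩, ?_, ?_⟩
  · intro A hA
    apply hexp m A
    simpa using hA
  · intro u v huv
    obtain ⟨w, hw, hw2⟩ := hstep m u v huv
    exact ⟨w, hw, by rw [hw2]; group⟩
  · intro g
    rw [Fintype.card_fin]
    exact hM m hm2 g

theorem has_of_wee {r : ℕ} {G : Type} [Group G] (π : FreeGroup (Fin r) →* G)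
    (hπ : Function.Surjective π) (h : WEE G) : HasWEE π := by
  classical
  obtain ⟨D, ε, S, hε, hS, hinst⟩ := h
  have hsec : ∀ g : G, ∃ w : FreeGroup (Fin r), π w = g := hπ
  choose sec hsec using hsec
  obtain ⟨L, hL⟩ : ∃ L : ℕ, ∀ s ∈ S, (sec s).toWord.length ≤ L := by
    obtain ⟨L, hL⟩ := (hS.image (fun s => (sec s).toWord.length)).bddAbove
    exact ⟨L, fun s hs => hL ⟨s, hs, rfl⟩⟩
  have hinst' : ∀ m : ℕ, Inst G D ε S (1 / ((m : ℝ) + 1)) := fun m => hinst _ (by positivity)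
  choose V hV1 hV2 Gr φ hexp hstep hfib using hinst'
  let e : ∀ m, V m ≃ Fin (Fintype.card (V m)) := fun m => Fintype.equivFin (V m)
  have hcard : ∀ m : ℕ, m + 1 ≤ Fintype.card (V m) := by
    intro m
    obtain ⟨v⟩ := hV2 m
    have h1 := hfib m (φ m v)
    have h2 : 1 ≤ Nat.card {u : V m // φ m u = φ m v} := by
      haveI : Nonempty {u : V m // φ m u = φ m v} := ⟨⟨v, rfl⟩⟩
      exact Nat.card_pos
    have h3 : (1 : ℝ) ≤ (Nat.card {u : V m // φ m u = φ m v} : ℝ) := by exact_mod_cast h2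
    have h4 : (1 : ℝ) ≤ 1 / ((m : ℝ) + 1) * Fintype.card (V m) := h3.trans h1
    rw [one_div, inv_mul_eq_div, le_div_iff₀ (by positivity)] at h4
    exact_mod_cast (by linarith : (m : ℝ) + 1 ≤ (Fintype.card (V m) : ℝ))
  refine ⟨fun m => Fintype.card (V m), fun m => (Gr m).comap (e m).symm, D, L, ε,
    fun m v => φ m ((e m).symm v), hε, ?_, ?_, ?_, ?_, ?_⟩
  · apply Filter.tendsto_atTop_mono (f := fun m => m + 1) hcard
    exact Filter.tendsto_add_atTop_nat 1
  · intro m v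
    refine le_trans (le_of_eq ?_) ((hexp m).deg ((e m).symm v))
    apply Nat.card_congr
    exact (e m).symm.subtypeEquiv (fun u => Iff.rfl)
  · intro m A hA
    have h1 : Nat.card A = Nat.card ((e m) ⁻¹' A : Set (V m)) := by
      apply Nat.card_congr
      exact ((e m).subtypeEquiv (fun u => Iff.rfl)).symm
    have h2 : Nat.card {p : Fin (Fintype.card (V m)) × Fin (Fintype.card (V m)) //
        p.1 ∈ A ∧ p.2 ∉ A ∧ ((Gr m).comap (e m).symm).Adj p.1 p.2} =
        Nat.card {p : V m × V m // p.1 ∈ (e m) ⁻¹' A ∧ p.2 ∉ (e m) ⁻¹' A ∧ (Gr m).Adj p.1 p.2} := by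
      apply Nat.card_congr
      refine (((e m).prodCongr (e m)).subtypeEquiv (fun p => ?_)).symm
      simp [SimpleGraph.comap_adj]
    rw [h1] at hA ⊢
    rw [h2]
    apply (hexp m).exp
    rw [Nat.card_eq_fintype_card (α := V m)]
    exact hA
  · intro m u v huv
    have h1 := hstep m _ _ huv
    refine ⟨sec ((φ m ((e m).symm u))⁻¹ * φ m ((e m).symm v)), hL _ h1, ?_⟩
    rw [hsec]
    group
  · intro δ hδ
    obtain ⟨M, hM⟩ := exists_nat_gt (1 / δ)
    refine ⟨M, fun m hm x => ?_⟩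
    have h1 : Nat.card {v : Fin (Fintype.card (V m)) // φ m ((e m).symm v) = x} =
        Nat.card {v : V m // φ m v = x} := by
      apply Nat.card_congr
      exact (e m).symm.subtypeEquiv (fun u => Iff.rfl)
    dsimp only
    rw [h1]
    refine (hfib m x).trans ?_
    apply mul_le_mul_of_nonneg_right _ (by positivity)
    rw [div_le_iff₀ (by positivity)]
    rw [div_lt_iff₀ hδ] at hM
    have h2 : (M : ℝ) ≤ m := by exact_mod_cast hm
    nlinarith

theorem ce_of_injective {r n : ℕ} {G Γ : Type} [Group G] [Group Γ] (π : FreeGroup (Fin r) →* G)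
    (hπ : Function.Surjective π) (ρ : FreeGroup (Fin n) →* Γ) (hρ : Function.Surjective ρ)
    (j : G →* Γ) (hj : Function.Injective j) (h : CE ρ) : CE π := by
  classical
  obtain ⟨H, i1, i2, i3, f, h1, h2⟩ := h
  refine ⟨H, i1, i2, i3, fun g => f (j g), ?_, ?_⟩
  · intro k
    have hsec : ∀ g : Γ, ∃ w : FreeGroup (Fin n), ρ w = g := hρ
    choose sec hsec using hsec
    obtain ⟨L, hL⟩ := ((finite_short r k).image (fun w => (sec (j (π w))).toWord.length)).bddAbove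
    obtain ⟨C, hC⟩ := h1 L
    refine ⟨C, ?_⟩
    rintro g _ ⟨w, hw, rfl⟩
    apply hC
    exact ⟨sec (j (π w)), hL ⟨w, hw, rfl⟩, by rw [hsec, map_mul]⟩
  · intro R
    obtain ⟨k, hk⟩ := h2 R
    have hsec : ∀ g : G, ∃ w : FreeGroup (Fin r), π w = g := hπ
    choose sec hsec using hsec
    have hfin : (j ⁻¹' (ρ '' {w | w.toWord.length ≤ k})).Finite :=
      ((finite_short n k).image _).preimage hj.injOn
    obtain ⟨L, hL⟩ := (hfin.image (fun g => (sec g).toWord.length)).bddAbove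
    refine ⟨L, ?_⟩
    intro g h hgh
    obtain ⟨w, hw, hw2⟩ := hk (j g) (j h) hgh
    have h3 : j (g⁻¹ * h) = ρ w := by rw [map_mul, map_inv, hw2]; group
    refine ⟨sec (g⁻¹ * h), hL ⟨g⁻¹ * h, ⟨w, hw, h3.symm⟩, rfl⟩, ?_⟩
    rw [hsec]
    group

/-- Main embedding theorem. -/
theorem main (r : ℕ) (G : Type) [Group G] (π : FreeGroup (Fin r) →* G)
    (hπ : Function.Surjective π)
    (hre : REPred (fun w : List (Fin r × Bool) => π (FreeGroup.mk w) = 1)) (hW : ¬ HasWEE π) :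
    ∃ (n : ℕ) (rels : Finset (FreeGroup (Fin n)))
      (j : G →* PresentedGroup (rels : Set (FreeGroup (Fin n)))), Function.Injective j ∧
      ¬ HasWEE (PresentedGroup.mk (rels : Set (FreeGroup (Fin n)))) ∧
      (¬ CE π → ¬ CE (PresentedGroup.mk (rels : Set (FreeGroup (Fin n))))) := by
  have hG : ¬ WEE G := fun h => hW (has_of_wee π hπ h)
  let e : FreeGroup (Fin r) ⧸ π.ker ≃* G := QuotientGroup.quotientKerEquivOfSurjective π hπ
  have hG' : ¬ WEE (FreeGroup (Fin r) ⧸ π.ker) := fun h =>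
    hG (Wee.of_injective e.toMonoidHom e.injective h)
  obtain ⟨Γ, _, j, hΓ, hj⟩ := Higman.higman π.ker (by simpa only [MonoidHom.mem_ker] using hre) hG'
  haveI := hΓ.fp
  obtain ⟨n, s, hs, ⟨f⟩⟩ := Group.IsFinitelyPresented.exists_mulEquiv_presentedGroup (G := Γ)
  have hs' : ((hs.toFinset : Finset (FreeGroup (Fin n))) : Set (FreeGroup (Fin n))) = s :=
    hs.coe_toFinset
  refine ⟨n, hs.toFinset, ?_⟩
  rw [hs']
  refine ⟨(f.toMonoidHom.comp j).comp e.symm.toMonoidHom,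
    (f.injective.comp hj).comp e.symm.injective, ?_, ?_⟩
  · intro h
    have h1 := wee_of_has _ h
    exact hΓ.nw (Wee.of_injective f.symm.toMonoidHom f.symm.injective h1)
  · intro h1 h2
    exact h1 (ce_of_injective π hπ (PresentedGroup.mk s) (PresentedGroup.mk_surjective s)
      ((f.toMonoidHom.comp j).comp e.symm.toMonoidHom)
      ((f.injective.comp hj).comp e.symm.injective) h2)

end Pool.Agent.H76.Final1
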