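import Mathlib
import Pool.Agent.H76.Elem

set_option autoImplicit false

namespace Pool.Agent.H76.Hyp

variable {G X : Type*} [Group G] [MetricSpace X] [MulAction G X]

theorem conj_zpow' {G : Type*} [Group G] {y g : G} {a b : ℤ} (h : y * g ^ a * y⁻¹ = g ^ b) (s : ℤ) :
    y * g ^ (a * s) * y⁻¹ = g ^ (b * s) := by
  have := congrArg (fun u => u ^ s) h
  rw [conj_zpow, ← zpow_mul, ← zpow_mul] at this
  exact this

/-- the elementary closure of `g` -/
def EE (g : G) : Subgroup G where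
  carrier := {y | ∃ k : ℤ, 0 < k ∧ ∃ e : ℤ, (e = 1 ∨ e = -1) ∧ y * g ^ k * y⁻¹ = g ^ (e * k)}
  one_mem' := ⟨1, one_pos, 1, Or.inl rfl, by simp⟩
  mul_mem' := by
    rintro a b ⟨k, hk, e, he, h1⟩ ⟨l, hl, f, hf, h2⟩
    refine ⟨k * l, by positivity, e * f, ?_, ?_⟩
    · rcases he with rfl | rfl <;> rcases hf with rfl | rfl <;> simp
    · have e1 : a * b * g ^ (k * l) * (a * b)⁻¹ = a * (b * g ^ (k * l) * b⁻¹) * a⁻¹ := by group
      have e2 := conj_zpow' h2 k
      rw [mul_comm l k] at e2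
      have e3 := conj_zpow' h1 (f * l)
      rw [e1, e2]
      have e4 : f * l * k = k * (f * l) := by ring
      rw [e4, e3]
      congr 1; ring
  inv_mem' := by
    rintro a ⟨k, hk, e, he, h1⟩
    refine ⟨k, hk, e, he, ?_⟩
    have e2 := conj_zpow' h1 e
    have e3 : e * k * e = k := by rcases he with rfl | rfl <;> ring
    rw [e3] at e2
    have e4 : k * e = e * k := by ring
    rw [e4] at e2
    rw [← e2]
    group

theorem mem_EE {g y : G} : y ∈ EE g ↔
    ∃ k : ℤ, 0 < k ∧ ∃ e : ℤ, (e = 1 ∨ e = -1) ∧ y * g ^ k * y⁻¹ = g ^ (e * k) := Iff.rfl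

theorem zpow_mem_EE (g : G) (m : ℤ) : g ^ m ∈ EE g :=
  ⟨1, one_pos, 1, Or.inl rfl, by group⟩

theorem Lox.zpow_ne {g : G} {x : X} (hg : Lox g x) {n : ℤ} (hn : n ≠ 0) : g ^ n ≠ 1 := by
  intro hcon
  obtain ⟨c, hc, hcn⟩ := hg
  have h1 : g ^ n.natAbs = 1 := by
    rcases Int.natAbs_eq n with h | h
    · rw [← zpow_natCast, ← h]; exact hcon
    · rw [← zpow_natCast]
      have : (n.natAbs : ℤ) = -n := by omega
      rw [this, zpow_neg, hcon, inv_one]
  have h2 := hcn n.natAbs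
  rw [h1, one_smul, dist_self] at h2
  have h3 : 0 < n.natAbs := Int.natAbs_pos.mpr hn
  have h4 : (0:ℝ) < n.natAbs := by exact_mod_cast h3
  nlinarith

/-- conjugate powers have the same absolute exponent -/
theorem abs_eq_of_conj_aux (hi : IsoAct G X) {δ : ℝ} (h : FourPt X δ) (hδ : 0 ≤ δ) {g : G} {x : X}
    (hg : Lox g x) {z : G} {a b : ℤ} (hab : z * g ^ a * z⁻¹ = g ^ b) : ¬ (a.natAbs < b.natAbs) := by
  intro hlt
  obtain ⟨C, hC⟩ := hg.gp_bdd hi h hδ
  have hC' : MorseC g x C := hC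
  obtain ⟨c, hc, hcn⟩ := hg
  set D := dist x (z⁻¹ • x) with hD
  obtain ⟨n, hn⟩ := exists_nat_gt ((2 * C + 2 * D) / c)
  rw [div_lt_iff₀ hc] at hn
  have e1 := conj_zpow' hab n
  have e2 : dist x (g ^ (b * n) • x) ≤ dist x (g ^ (a * n) • x) + 2 * D := by
    rw [← e1, mul_smul, mul_smul, ← hi z⁻¹, smul_smul z⁻¹ z, inv_mul_cancel, one_smul]
    have f1 := dist_triangle (z⁻¹ • x) x (g ^ (a * n) • z⁻¹ • x)
    have f2 := dist_triangle x (g ^ (a * n) • x) (g ^ (a * n) • z⁻¹ • x)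
    rw [hi] at f2
    rw [dist_comm (z⁻¹ • x) x] at f1
    linarith
  rw [dist_zpow_natAbs hi g x (b * n), dist_zpow_natAbs hi g x (a * n), Int.natAbs_mul, Int.natAbs_mul,
    Int.natAbs_natCast] at e2
  have e3 := hC'.2 0 ((a.natAbs * n : ℕ) : ℤ) ((b.natAbs * n : ℕ) : ℤ) (by positivity) (by
    have : a.natAbs * n ≤ b.natAbs * n := Nat.mul_le_mul_right _ hlt.le
    exact_mod_cast this)
  unfold gp at e3
  rw [zpow_zero, one_smul, dist_comm (g ^ ((b.natAbs * n : ℕ) : ℤ) • x), dist_zpow hi] at e3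
  have e4 : ((b.natAbs * n : ℕ) : ℤ) - ((a.natAbs * n : ℕ) : ℤ) = (((b.natAbs - a.natAbs) * n : ℕ) : ℤ) := by
    rw [Nat.sub_mul, Nat.cast_sub]
    exact Nat.mul_le_mul_right _ hlt.le
  rw [e4, zpow_natCast, zpow_natCast, zpow_natCast] at e3
  have e5 := hcn ((b.natAbs - a.natAbs) * n)
  have e6 : (n : ℝ) ≤ (((b.natAbs - a.natAbs) * n : ℕ) : ℝ) := by
    have : n ≤ (b.natAbs - a.natAbs) * n := Nat.le_mul_of_pos_left _ (by omega)
    exact_mod_cast this
  nlinarith

theorem natAbs_eq_of_conj (hi : IsoAct G X) {δ : ℝ} (h : FourPt X δ) (hδ : 0 ≤ δ) {g : G} {x : X}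
    (hg : Lox g x) {z : G} {a b : ℤ} (hab : z * g ^ a * z⁻¹ = g ^ b) : a.natAbs = b.natAbs := by
  rcases lt_trichotomy a.natAbs b.natAbs with h1 | h1 | h1
  · exact absurd h1 (abs_eq_of_conj_aux hi h hδ hg hab)
  · exact h1
  · have hab' : z⁻¹ * g ^ b * z⁻¹⁻¹ = g ^ a := by rw [← hab]; group
    exact absurd h1 (abs_eq_of_conj_aux hi h hδ hg hab')

theorem mem_EE_of_conj (hi : IsoAct G X) {δ : ℝ} (h : FourPt X δ) (hδ : 0 ≤ δ) {g : G} {x : X}
    (hg : Lox g x) {z : G} {a b : ℤ} (ha : a ≠ 0) (hab : z * g ^ a * z⁻¹ = g ^ b) : z ∈ EE g := by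
  have h1 := natAbs_eq_of_conj hi h hδ hg hab
  have h2 : b = a ∨ b = -a := by omega
  -- reduce to a > 0
  rcases lt_or_gt_of_ne ha with h3 | h3
  · refine ⟨-a, by omega, (if b = a then 1 else -1), ?_, ?_⟩
    · split_ifs <;> simp
    · have := conj_zpow' hab (-1)
      rw [mul_neg_one, mul_neg_one] at this
      rw [this]
      split_ifs with h4
      · rw [h4, one_mul]
      · have : b = -a := by tauto
        rw [this]; congr 1; ring
  · refine ⟨a, h3, (if b = a then 1 else -1), ?_, ?_⟩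
    · split_ifs <;> simp
    · rw [hab]
      split_ifs with h4
      · rw [h4, one_mul]
      · have : b = -a := by tauto
        rw [this]; congr 1; ring

/-- elements of `EE g` have a positive power in `⟨g⟩` -/
theorem pow_mem_of_mem_EE (hi : IsoAct G X) {δ : ℝ} (h : FourPt X δ) (hδ : 0 ≤ δ) (ha : Acyl G X)
    {g : G} {x : X} (hg : Lox g x) {w : G} (hw : w ∈ EE g) :
    ∃ m : ℕ, 0 < m ∧ ∃ b : ℤ, w ^ m = g ^ b := by
  obtain ⟨F, hF, hFy⟩ := finite_core hi h hδ ha hg
  obtain ⟨k, hk, e, he, h1⟩ := hw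
  obtain ⟨k', rfl⟩ : ∃ k' : ℕ, k = k' := ⟨k.toNat, by omega⟩
  have h2 : Commute (w ^ 2) (g ^ k') := by
    have e1 := conj_zpow' h1 e
    have e3 : e * k' * e = k' := by rcases he with rfl | rfl <;> ring
    rw [e3] at e1
    -- w g^(k' e) w⁻¹ = g^k'
    have e4 : w * w * g ^ (k' : ℤ) = g ^ (k' : ℤ) * (w * w) := by
      have e5 : w * g ^ (k' : ℤ) = g ^ (e * k') * w := by rw [← h1]; group
      have e6 : w * g ^ (e * k') = g ^ (k' : ℤ) * w := by
        rw [mul_comm e]
        rw [← e1]; group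
      rw [mul_assoc, e5, ← mul_assoc, e6, mul_assoc]
    rw [pow_two]
    rw [zpow_natCast] at e4
    exact e4
  have h3 : ∀ i : ℕ, ∃ m : ℤ, g ^ m * (w ^ 2) ^ i ∈ F := by
    intro i
    apply hFy
    exact ⟨k', by omega, h2.pow_left i⟩
  choose m hm using h3
  obtain ⟨i, -, j, -, hij, heq⟩ := Set.infinite_univ.exists_ne_map_eq_of_mapsTo
    (f := fun i : ℕ => g ^ m i * (w ^ 2) ^ i) (t := F) (fun i _ => hm i) hF
  wlog hlt : i < j generalizing i j
  · exact this j i hij.symm heq.symm (by omega)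
  refine ⟨2 * (j - i), by omega, m i - m j, ?_⟩
  have e1 : (w ^ 2) ^ j = (w ^ 2) ^ (j - i) * (w ^ 2) ^ i := by rw [← pow_add]; congr 1; omega
  rw [e1, ← mul_assoc] at heq
  have e2 := mul_right_cancel heq
  rw [pow_mul, sub_eq_neg_add, zpow_add, e2, ← mul_assoc, ← zpow_add, neg_add_cancel, zpow_zero, one_mul]

/-- if `EE g` is everything, the group is virtually cyclic -/
theorem virtually_cyclic_of_EE (hi : IsoAct G X) {δ : ℝ} (h : FourPt X δ) (hδ : 0 ≤ δ) (ha : Acyl G X)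
    {g : G} {x : X} (hg : Lox g x) (htop : ∀ y : G, y ∈ EE g) :
    ∃ H : Subgroup G, H.FiniteIndex ∧ IsCyclic H := by
  refine ⟨Subgroup.zpowers g, ?_, inferInstance⟩
  obtain ⟨F, hF, hFy⟩ := finite_core hi h hδ ha hg
  -- orientation preserving elements
  have key : ∀ y : G, (∃ k : ℕ, 0 < k ∧ y * g ^ k = g ^ k * y) ∨
      (∃ k : ℕ, 0 < k ∧ y * g ^ k = (g ^ k)⁻¹ * y) := by
    intro y
    obtain ⟨k, hk, e, he, h1⟩ := htop y
    obtain ⟨k', rfl⟩ : ∃ k' : ℕ, k = k' := ⟨k.toNat, by omega⟩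
    rcases he with rfl | rfl
    · left
      refine ⟨k', by omega, ?_⟩
      rw [one_mul, zpow_natCast] at h1
      rw [mul_inv_eq_iff_eq_mul] at h1
      exact h1
    · right
      refine ⟨k', by omega, ?_⟩
      rw [neg_one_mul, zpow_neg, zpow_natCast] at h1
      rw [mul_inv_eq_iff_eq_mul] at h1
      exact h1
  -- find finite set F'
  obtain ⟨F', hF', hF'y⟩ : ∃ F' : Set G, F'.Finite ∧ ∀ y : G, ∃ m : ℤ, g ^ m * y ∈ F' := by
    by_cases hex : ∃ e0 : G, ∃ k : ℕ, 0 < k ∧ e0 * g ^ k = (g ^ k)⁻¹ * e0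
    · obtain ⟨e0, k0, hk0, he0⟩ := hex
      refine ⟨F ∪ (fun u => u * e0⁻¹) '' F, hF.union (hF.image _), fun y => ?_⟩
      rcases key y with hy | ⟨k, hk, hy⟩
      · obtain ⟨m, hm⟩ := hFy y hy
        exact ⟨m, Or.inl hm⟩
      · have : ∃ k' : ℕ, 0 < k' ∧ (y * e0) * g ^ k' = g ^ k' * (y * e0) := by
          refine ⟨k * k0, by positivity, ?_⟩
          have e1 : e0 * g ^ (k * k0) = (g ^ (k * k0))⁻¹ * e0 := by
            have s1 : SemiconjBy e0 (g ^ k0) (g ^ k0)⁻¹ := he0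
            have s2 := s1.pow_right k
            rw [inv_pow, ← pow_mul, mul_comm] at s2
            exact s2
          have e2 : y * (g ^ (k * k0))⁻¹ = g ^ (k * k0) * y := by
            have s1 : SemiconjBy y (g ^ k) (g ^ k)⁻¹ := hy
            have s2 := s1.pow_right k0
            rw [inv_pow, ← pow_mul] at s2
            have s3 := s2.inv_right
            rw [inv_inv] at s3
            exact s3
          rw [mul_assoc, e1, ← mul_assoc, e2, mul_assoc]
        obtain ⟨m, hm⟩ := hFy _ this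
        refine ⟨m, Or.inr ⟨_, hm, ?_⟩⟩
        group
    · refine ⟨F, hF, fun y => ?_⟩
      rcases key y with hy | hy
      · exact hFy y hy
      · exact absurd ⟨y, hy⟩ hex
  have hsurj : Function.Surjective (fun f : F' => (QuotientGroup.mk ((f : G)⁻¹) : G ⧸ Subgroup.zpowers g)) := by
    intro q
    obtain ⟨y, rfl⟩ := QuotientGroup.mk_surjective q
    obtain ⟨m, hm⟩ := hF'y y⁻¹
    refine ⟨⟨_, hm⟩, ?_⟩
    simp only
    rw [QuotientGroup.eq]
    rw [inv_inv, mul_assoc, inv_mul_cancel, mul_one]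
    exact Subgroup.zpow_mem _ (Subgroup.mem_zpowers g) m
  have : Finite F' := hF'.to_subtype
  have : Finite (G ⧸ Subgroup.zpowers g) := Finite.of_surjective _ hsurj
  exact Subgroup.finiteIndex_of_finite_quotient

/-- Core of the main theorem, assuming an element outside the elementary closure of `g`. -/
theorem main_core (hi : IsoAct G X) {δ : ℝ} (h : FourPt X δ) (ha : Acyl G X)
    {g : G} {x : X} (hg : Lox g x) (hFG : Group.FG G) (ht : ∃ t : G, t ∉ EE g) :
    ∃ S : Finset G, Subgroup.closure (S : Set G) = ⊤ ∧ (∀ s ∈ S, Lox s x) ∧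
      ∀ s ∈ S, ∀ t ∈ S, s ≠ t → s * t ≠ t * s := by
  classical
  -- WLOG δ ≥ 0
  obtain ⟨δ', hδ', h'⟩ : ∃ δ' : ℝ, 0 ≤ δ' ∧ FourPt X δ' := ⟨max δ 0, le_max_right _ _, h.mono (le_max_left _ _)⟩
  clear h
  obtain ⟨t, ht⟩ := ht
  obtain ⟨S0, hS0⟩ := hFG.out
  -- modified generators
  set Y : Finset G := insert t (S0.image (fun s => if s ∈ EE g then s * t else s)) with hY
  have hYE : ∀ y ∈ Y, y ∉ EE g := by
    intro y hy
    rw [hY, Finset.mem_insert, Finset.mem_image] at hy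
    rcases hy with rfl | ⟨s, hs, rfl⟩
    · exact ht
    · split_ifs with h1
      · intro hcon
        exact ht ((Subgroup.mul_mem_cancel_left _ h1).mp hcon)
      · exact h1
  have hYtop : Subgroup.closure (Y : Set G) = ⊤ := by
    rw [eq_top_iff, ← hS0, Subgroup.closure_le]
    intro s hs
    have htY : t ∈ Subgroup.closure (Y : Set G) := Subgroup.subset_closure (by simp [hY])
    have hsY : (if s ∈ EE g then s * t else s) ∈ Subgroup.closure (Y : Set G) := by
      apply Subgroup.subset_closure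
      rw [hY, Finset.coe_insert, Finset.coe_image]
      exact Or.inr ⟨s, hs, rfl⟩
    split_ifs at hsY with h1
    · exact (Subgroup.mul_mem_cancel_right _ htY).mp hsY
    · exact hsY
  -- loxodromic for large n
  have hlox : ∀ y ∈ Y, ∃ n0 : ℕ, ∀ n : ℕ, n0 ≤ n → Lox (y * g ^ n) x := by
    intro y hy
    obtain ⟨L, hL⟩ := acyl_conj hi h' hδ' ha hg (-1) (Or.inr rfl) y
    apply lox_mul_pow hi h' hδ' hg L
    intro n
    by_contra hcon
    push Not at hcon
    have e1 : (-1 : ℤ) * n = -n := by ring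
    have := hL n (by rw [e1]; exact hcon.le)
    obtain ⟨k, hk, hk2⟩ := this
    exact hYE y hy ⟨k, by exact_mod_cast hk, -1, Or.inr rfl, by rw [zpow_natCast]; exact hk2⟩
  -- commuting with a power of g
  have hcent : ∀ (u : G) (m : ℤ), m ≠ 0 → u * g ^ m = g ^ m * u → u ∈ EE g := by
    intro u m hm hum
    apply mem_EE_of_conj hi h' hδ' hg hm (b := m)
    rw [hum]; group
  -- z g^m z⁻¹ ∈ EE g, m ≠ 0 → z ∈ EE g
  have hmal : ∀ (z : G) (m : ℤ), m ≠ 0 → z * g ^ m * z⁻¹ ∈ EE g → z ∈ EE g := by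
    intro z m hm hz
    obtain ⟨k, hk, b, hb⟩ := pow_mem_of_mem_EE hi h' hδ' ha hg hz
    rw [conj_pow, ← zpow_natCast, ← zpow_mul] at hb
    exact mem_EE_of_conj hi h' hδ' hg (mul_ne_zero hm (by exact_mod_cast hk.ne')) hb
  -- bad exponents of the first kind
  have hbad1 : ∀ y ∈ Y, ∀ w ∈ Y, ∃ n0 : ℕ, ∀ n : ℕ, n0 ≤ n → w⁻¹ * (y * g ^ n) * w ∉ EE g := by
    intro y hy w hw
    by_contra hcon
    push Not at hcon
    obtain ⟨n, -, hn⟩ := hcon 0
    obtain ⟨n', hn', hn2⟩ := hcon (n+1)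
    have e1 : (w⁻¹ * y) * g ^ ((n':ℤ) - n) * (w⁻¹ * y)⁻¹ ∈ EE g := by
      have e2 := Subgroup.mul_mem _ hn2 (Subgroup.inv_mem _ hn)
      have e3 : w⁻¹ * (y * g ^ n') * w * (w⁻¹ * (y * g ^ n) * w)⁻¹ = (w⁻¹ * y) * g ^ ((n':ℤ) - n) * (w⁻¹ * y)⁻¹ := by
        rw [zpow_sub, zpow_natCast, zpow_natCast]; group
      rwa [e3] at e2
    have e4 := hmal (w⁻¹ * y) _ (by omega) e1
    have e5 : (w⁻¹ * y) * g ^ n ∈ EE g := Subgroup.mul_mem _ e4 (by
      have := zpow_mem_EE g (n:ℤ); rwa [zpow_natCast] at this)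
    have e6 : w⁻¹ * (y * g ^ n) * w = ((w⁻¹ * y) * g ^ n) * w := by group
    rw [e6] at hn
    exact hYE w hw ((Subgroup.mul_mem_cancel_left _ e5).mp hn)
  -- bad exponents of the second kind
  have hbad2 : ∀ (u w : G), w⁻¹ * u * w ∉ EE g → ∃ n0 : ℕ, ∀ n : ℕ, n0 ≤ n → u * (w * g ^ n) ≠ (w * g ^ n) * u := by
    intro u w huw
    by_contra hcon
    push Not at hcon
    obtain ⟨n, -, hn⟩ := hcon 0
    obtain ⟨n', hn', hn2⟩ := hcon (n+1)
    apply huw
    apply hcent _ ((n':ℤ) - n) (by omega)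
    have c1 : Commute u (w * g ^ n) := hn
    have c2 : Commute u (w * g ^ n') := hn2
    have c3 : Commute u ((w * g ^ n') * (w * g ^ n)⁻¹) := c2.mul_right c1.inv_right
    have e3 : (w * g ^ n') * (w * g ^ n)⁻¹ = w * g ^ ((n':ℤ) - n) * w⁻¹ := by
      rw [zpow_sub, zpow_natCast, zpow_natCast]; group
    rw [e3] at c3
    have e4 : u * (w * g ^ ((n':ℤ) - n) * w⁻¹) = (w * g ^ ((n':ℤ) - n) * w⁻¹) * u := c3
    have e5 : w⁻¹ * (u * (w * g ^ ((n':ℤ) - n) * w⁻¹)) * w = w⁻¹ * ((w * g ^ ((n':ℤ) - n) * w⁻¹) * u) * w := by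
      rw [e4]
    have e6 : w⁻¹ * (u * (w * g ^ ((n':ℤ) - n) * w⁻¹)) * w = w⁻¹ * u * w * g ^ ((n':ℤ) - n) := by
      simp only [mul_assoc, inv_mul_cancel, mul_one]
    have e7 : w⁻¹ * ((w * g ^ ((n':ℤ) - n) * w⁻¹) * u) * w = g ^ ((n':ℤ) - n) * (w⁻¹ * u * w) := by
      simp only [mul_assoc, inv_mul_cancel_left]
    rw [e6, e7] at e5
    exact e5
  -- choose exponents by induction
  have hchoice : ∀ Y' : Finset G, Y' ⊆ Y → ∃ n : G → ℕ,
      (∀ y ∈ Y', Lox (y * g ^ n y) x) ∧ (∀ y ∈ Y', ∀ w ∈ Y, w⁻¹ * (y * g ^ n y) * w ∉ EE g) ∧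
      (∀ y ∈ Y', ∀ w ∈ Y', y ≠ w → (y * g ^ n y) * (w * g ^ n w) ≠ (w * g ^ n w) * (y * g ^ n y)) := by
    intro Y'
    induction Y' using Finset.induction_on with
    | empty => intro _; exact ⟨fun _ => 0, by simp, by simp, by simp⟩
    | insert y Y' hyY' ih =>
      intro hsub
      obtain ⟨n, hn1, hn2, hn3⟩ := ih (fun z hz => hsub (Finset.mem_insert_of_mem hz))
      have hyY : y ∈ Y := hsub (Finset.mem_insert_self _ _)
      -- find large exponent
      obtain ⟨a0, ha0⟩ := hlox y hyY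
      have hb1 : ∃ n0 : ℕ, ∀ n : ℕ, n0 ≤ n → ∀ w ∈ Y, w⁻¹ * (y * g ^ n) * w ∉ EE g := by
        have := fun w : Y => hbad1 y hyY w.1 w.2
        choose f hf using this
        refine ⟨Finset.univ.sup f, fun n hn w hw => hf ⟨w, hw⟩ n (le_trans (Finset.le_sup (f := f) (Finset.mem_univ (⟨w, hw⟩ : Y))) hn)⟩
      have hb2 : ∃ n0 : ℕ, ∀ m : ℕ, n0 ≤ m → ∀ w ∈ Y', (w * g ^ n w) * (y * g ^ m) ≠ (y * g ^ m) * (w * g ^ n w) := by
        have := fun w : Y' => hbad2 (w.1 * g ^ n w.1) y (hn2 w.1 w.2 y hyY)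
        choose f hf using this
        refine ⟨Finset.univ.sup f, fun m hm w hw => hf ⟨w, hw⟩ m (le_trans (Finset.le_sup (f := f) (Finset.mem_univ (⟨w, hw⟩ : Y'))) hm)⟩
      obtain ⟨b1, hb1⟩ := hb1
      obtain ⟨b2, hb2⟩ := hb2
      set m := max a0 (max b1 b2) with hm
      have hma : a0 ≤ m := le_max_left _ _
      have hmb1 : b1 ≤ m := le_trans (le_max_left _ _) (le_max_right _ _)
      have hmb2 : b2 ≤ m := le_trans (le_max_right _ _) (le_max_right _ _)
      refine ⟨Function.update n y m, ?_, ?_, ?_⟩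
      · intro z hz
        rcases Finset.mem_insert.mp hz with rfl | hz'
        · rw [Function.update_self]; exact ha0 m hma
        · have hzy : z ≠ y := fun hc => hyY' (hc ▸ hz')
          rw [Function.update_of_ne hzy]; exact hn1 z hz'
      · intro z hz w hw
        rcases Finset.mem_insert.mp hz with rfl | hz'
        · rw [Function.update_self]; exact hb1 m hmb1 w hw
        · have hzy : z ≠ y := fun hc => hyY' (hc ▸ hz')
          rw [Function.update_of_ne hzy]; exact hn2 z hz' w hw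
      · intro z hz w hw hzw
        rcases Finset.mem_insert.mp hz with rfl | hz'
        · rcases Finset.mem_insert.mp hw with rfl | hw'
          · exact absurd rfl hzw
          · have hwy : w ≠ z := fun hc => hyY' (hc ▸ hw')
            rw [Function.update_self, Function.update_of_ne hwy]
            exact (hb2 m hmb2 w hw').symm
        · have hzy : z ≠ y := fun hc => hyY' (hc ▸ hz')
          rcases Finset.mem_insert.mp hw with rfl | hw'
          · rw [Function.update_self, Function.update_of_ne hzy]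
            exact (hb2 m hmb2 z hz')
          · have hwy : w ≠ y := fun hc => hyY' (hc ▸ hw')
            rw [Function.update_of_ne hzy, Function.update_of_ne hwy]
            exact hn3 z hz' w hw' hzw
  obtain ⟨n, hn1, hn2, hn3⟩ := hchoice Y (Finset.Subset.refl _)
  refine ⟨insert g (Y.image (fun y => y * g ^ n y)), ?_, ?_, ?_⟩
  · rw [eq_top_iff, ← hYtop, Subgroup.closure_le]
    intro y hy
    set K := Subgroup.closure ((insert g (Y.image (fun y => y * g ^ n y)) : Finset G) : Set G) with hK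
    have h1 : g ∈ K := Subgroup.subset_closure (by simp)
    have h2 : y * g ^ n y ∈ K := Subgroup.subset_closure (by
      rw [Finset.coe_insert, Finset.coe_image]
      exact Or.inr ⟨y, hy, rfl⟩)
    exact (Subgroup.mul_mem_cancel_right _ (Subgroup.pow_mem _ h1 _)).mp h2
  · intro s hs
    rcases Finset.mem_insert.mp hs with rfl | hs'
    · exact hg
    · obtain ⟨y, hy, rfl⟩ := Finset.mem_image.mp hs'
      exact hn1 y hy
  · -- pairwise non-commuting
    have hgy : ∀ y ∈ Y, g * (y * g ^ n y) ≠ (y * g ^ n y) * g := by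
      intro y hy hcon
      apply hYE y hy
      apply hcent y 1 one_ne_zero
      rw [zpow_one]
      have c1 : g * (y * g ^ n y) = g * y * g ^ n y := by group
      have c2 : (y * g ^ n y) * g = y * g * g ^ n y := by
        rw [mul_assoc, mul_assoc, ← pow_succ, ← pow_succ']
      rw [c1, c2] at hcon
      exact (mul_right_cancel hcon).symm
    intro s hs t ht hst
    rcases Finset.mem_insert.mp hs with rfl | hs'
    · rcases Finset.mem_insert.mp ht with rfl | ht'
      · exact absurd rfl hst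
      · obtain ⟨y, hy, rfl⟩ := Finset.mem_image.mp ht'
        exact hgy y hy
    · obtain ⟨y, hy, rfl⟩ := Finset.mem_image.mp hs'
      rcases Finset.mem_insert.mp ht with rfl | ht'
      · exact (hgy y hy).symm
      · obtain ⟨w, hw, rfl⟩ := Finset.mem_image.mp ht'
        exact hn3 y hy w hw (fun hc => hst (by rw [hc]))

/-- The main theorem: a finitely generated group acting acylindrically on a hyperbolic space with
a loxodromic element and not virtually cyclic is generated by finitely many pairwise non-commuting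
loxodromic elements. -/
theorem main (hi : IsoAct G X) {δ : ℝ} (h : FourPt X δ) (ha : Acyl G X)
    {g : G} {x : X} (hg : Lox g x) (hFG : Group.FG G)
    (hnvc : ¬ ∃ H : Subgroup G, H.FiniteIndex ∧ IsCyclic H) :
    ∃ S : Finset G, Subgroup.closure (S : Set G) = ⊤ ∧ (∀ s ∈ S, Lox s x) ∧
      ∀ s ∈ S, ∀ t ∈ S, s ≠ t → s * t ≠ t * s := by
  apply main_core hi h ha hg hFG
  by_contra hcon
  push Not at hcon
  exact hnvc (virtually_cyclic_of_EE hi (h.mono (le_max_left δ 0)) (le_max_right _ _) ha hg hcon)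

end Pool.Agent.H76.Hyp
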