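import Mathlib

set_option autoImplicit false

namespace Pool.Agent.H76.IADet

open FreeGroup (of)
open scoped commutatorElement

/-- The natural map `Aut F(n) → Aut (F(n)/F(n)')`. -/
def abMap (n : ℕ) :
    MulAut (FreeGroup (Fin n)) →* MulAut (Abelianization (FreeGroup (Fin n))) where
  toFun φ := MulEquiv.abelianizationCongr φ
  map_one' := by
    apply MulEquiv.ext
    intro x
    obtain ⟨x, rfl⟩ := QuotientGroup.mk_surjective x
    rfl
  map_mul' φ ψ := by
    apply MulEquiv.ext
    intro x
    obtain ⟨x, rfl⟩ := QuotientGroup.mk_surjective x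
    rfl

/-- `IA(F(n))`, the kernel of the natural map. -/
def IA (n : ℕ) : Subgroup (MulAut (FreeGroup (Fin n))) := (abMap n).ker

/-- `C(n)`: the subgroup of `IA(F(n))` generated by all `K_{ij}`. -/
def C (n : ℕ) : Subgroup (IA n) :=
  Subgroup.closure {φ : IA n | ∃ i j : Fin n, i ≠ j ∧
    φ.1 (of i) = of j * of i * (of j)⁻¹ ∧ ∀ m, m ≠ i → φ.1 (of m) = of m}

/-- `T(n)`: the subgroup of `IA(F(n))` generated by all `K_{ijk}`. -/
def T (n : ℕ) : Subgroup (IA n) :=
  Subgroup.closure {φ : IA n | ∃ i j k : Fin n, i ≠ j ∧ j < k ∧ k ≠ i ∧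
    φ.1 (of i) = of i * (of j * of k * (of j)⁻¹ * (of k)⁻¹) ∧ ∀ m, m ≠ i → φ.1 (of m) = of m}

variable {n : ℕ}

theorem mem_IA {φ : MulAut (FreeGroup (Fin n))}
    (h : ∀ m, Abelianization.of (φ (of m)) = Abelianization.of (of m)) : φ ∈ IA n := by
  change abMap n φ = 1
  apply MulEquiv.ext
  intro x
  obtain ⟨x, rfl⟩ := QuotientGroup.mk_surjective x
  have : (Abelianization.of.comp (φ : FreeGroup (Fin n) →* FreeGroup (Fin n))) = Abelianization.of := by
    apply FreeGroup.ext_hom
    intro m
    exact h m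
  exact DFunLike.congr_fun this x

theorem ab_of_mem_IA {φ : MulAut (FreeGroup (Fin n))} (h : φ ∈ IA n) (w : FreeGroup (Fin n)) :
    Abelianization.of (φ w) = Abelianization.of w := by
  have h1 : abMap n φ = 1 := h
  have h2 := DFunLike.congr_fun h1 (Abelianization.of w)
  exact h2

theorem conj_mem_IA {φ : MulAut (FreeGroup (Fin n))} (h : φ ∈ IA n) (ψ : MulAut (FreeGroup (Fin n))) :
    ψ * φ * ψ⁻¹ ∈ IA n := by
  have : (IA n).Normal := by unfold IA; infer_instance
  exact this.conj_mem φ h ψ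

theorem aut_ext {φ ψ : MulAut (FreeGroup (Fin n))} (h : ∀ m, φ (of m) = ψ (of m)) : φ = ψ := by
  apply MulEquiv.ext
  intro w
  have : (φ : FreeGroup (Fin n) →* FreeGroup (Fin n)) = (ψ : FreeGroup (Fin n) →* FreeGroup (Fin n)) :=
    FreeGroup.ext_hom _ _ h
  exact DFunLike.congr_fun this w

/-- the commutator subgroup -/
abbrev D (n : ℕ) : Subgroup (FreeGroup (Fin n)) := commutator (FreeGroup (Fin n))

theorem mem_D {w : FreeGroup (Fin n)} : w ∈ D n ↔ Abelianization.of w = 1 :=
  (QuotientGroup.eq_one_iff w).symm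

theorem comm_mem_D (g h : FreeGroup (Fin n)) : ⁅g, h⁆ ∈ D n :=
  Subgroup.commutator_mem_commutator (Subgroup.mem_top _) (Subgroup.mem_top _)

/-- kill the generator `x_i` -/
def kill (i : Fin n) : FreeGroup (Fin n) →* FreeGroup (Fin n) :=
  FreeGroup.lift (fun m => if m = i then 1 else of m)

theorem kill_self (i : Fin n) : kill i (of i) = 1 := by simp [kill]

theorem kill_ne {i m : Fin n} (h : m ≠ i) : kill i (of m) = of m := by simp [kill, h]

theorem kill_kill (i : Fin n) (w : FreeGroup (Fin n)) : kill i (kill i w) = kill i w := by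
  have : (kill i).comp (kill i) = kill i := by
    apply FreeGroup.ext_hom
    intro m
    rw [MonoidHom.comp_apply]
    by_cases h : m = i
    · subst h; rw [kill_self, map_one]
    · rw [kill_ne h, kill_ne h]
  exact DFunLike.congr_fun this w

theorem kill_mem_D (i : Fin n) {w : FreeGroup (Fin n)} (h : w ∈ D n) : kill i w ∈ D n := by
  have : Subgroup.map (kill i) (D n) ≤ D n := by
    rw [D, commutator_def, Subgroup.map_commutator]
    exact Subgroup.commutator_mono le_top le_top
  exact this ⟨w, h, rfl⟩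

/-- endomorphism `x_i ↦ u x_i v` -/
def Bhom (i : Fin n) (u v : FreeGroup (Fin n)) : FreeGroup (Fin n) →* FreeGroup (Fin n) :=
  FreeGroup.lift (fun m => if m = i then kill i u * of i * kill i v else of m)

theorem Bhom_self (i : Fin n) (u v : FreeGroup (Fin n)) :
    Bhom i u v (of i) = kill i u * of i * kill i v := by simp [Bhom]

theorem Bhom_ne {i m : Fin n} (h : m ≠ i) (u v : FreeGroup (Fin n)) :
    Bhom i u v (of m) = of m := by simp [Bhom, h]

theorem Bhom_kill (i : Fin n) (u v w : FreeGroup (Fin n)) : Bhom i u v (kill i w) = kill i w := by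
  have : (Bhom i u v).comp (kill i) = kill i := by
    apply FreeGroup.ext_hom
    intro m
    rw [MonoidHom.comp_apply]
    by_cases h : m = i
    · subst h; rw [kill_self, map_one]
    · rw [kill_ne h, Bhom_ne h]
  exact DFunLike.congr_fun this w

theorem Bhom_comp (i : Fin n) (u v u' v' : FreeGroup (Fin n)) :
    (Bhom i u v).comp (Bhom i u' v') = Bhom i (u' * u) (v * v') := by
  apply FreeGroup.ext_hom
  intro m
  rw [MonoidHom.comp_apply]
  by_cases h : m = i
  · subst h
    rw [Bhom_self, Bhom_self, map_mul, map_mul, Bhom_kill, Bhom_kill, Bhom_self, map_mul, map_mul]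
    group
  · rw [Bhom_ne h, Bhom_ne h, Bhom_ne h]

theorem Bhom_one (i : Fin n) : Bhom i 1 1 = MonoidHom.id _ := by
  apply FreeGroup.ext_hom
  intro m
  by_cases h : m = i
  · subst h; rw [Bhom_self, map_one]; simp
  · rw [Bhom_ne h]; rfl

/-- the automorphism `x_i ↦ u x_i v` (with `x_i` deleted from `u`, `v`) -/
def B (i : Fin n) (u v : FreeGroup (Fin n)) : MulAut (FreeGroup (Fin n)) :=
  MonoidHom.toMulEquiv (Bhom i u v) (Bhom i u⁻¹ v⁻¹)
    (by rw [Bhom_comp, mul_inv_cancel, inv_mul_cancel, Bhom_one])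
    (by rw [Bhom_comp, inv_mul_cancel, mul_inv_cancel, Bhom_one])

theorem B_apply (i : Fin n) (u v w : FreeGroup (Fin n)) : B i u v w = Bhom i u v w := rfl

theorem B_self (i : Fin n) (u v : FreeGroup (Fin n)) :
    B i u v (of i) = kill i u * of i * kill i v := by rw [B_apply, Bhom_self]

theorem B_ne {i m : Fin n} (h : m ≠ i) (u v : FreeGroup (Fin n)) : B i u v (of m) = of m := by
  rw [B_apply, Bhom_ne h]

theorem B_kill (i : Fin n) (u v w : FreeGroup (Fin n)) : B i u v (kill i w) = kill i w := by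
  rw [B_apply, Bhom_kill]

theorem B_mul (i : Fin n) (u v u' v' : FreeGroup (Fin n)) :
    B i u v * B i u' v' = B i (u' * u) (v * v') := by
  apply MulEquiv.ext
  intro w
  rw [MulAut.mul_apply, B_apply, B_apply, B_apply, ← Bhom_comp, MonoidHom.comp_apply]

theorem B_one (i : Fin n) : B i 1 1 = 1 := by
  apply MulEquiv.ext
  intro w
  rw [B_apply, Bhom_one]; rfl

theorem B_inv (i : Fin n) (u v : FreeGroup (Fin n)) : (B i u v)⁻¹ = B i u⁻¹ v⁻¹ := by
  rw [inv_eq_iff_mul_eq_one, B_mul, inv_mul_cancel, mul_inv_cancel, B_one]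

/-- the automorphism preserves `F_{≠ i}` in a way compatible with `kill i` and fixes `x_i` -/
def Fix (i : Fin n) (φ : MulAut (FreeGroup (Fin n))) : Prop :=
  φ (of i) = of i ∧ ∀ w, kill i (φ w) = φ (kill i w)

theorem B_conj {i : Fin n} {φ : MulAut (FreeGroup (Fin n))} (h : Fix i φ) (u v : FreeGroup (Fin n)) :
    φ * B i u v * φ⁻¹ = B i (φ u) (φ v) := by
  rw [mul_inv_eq_iff_eq_mul]
  apply aut_ext
  intro m
  rw [MulAut.mul_apply, MulAut.mul_apply]
  by_cases hm : m = i
  · subst hm
    rw [B_self, map_mul, map_mul, h.1, B_self, h.2, h.2]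
  · rw [B_ne hm]
    have : φ (of m) = kill i (φ (of m)) := by rw [h.2, kill_ne hm]
    rw [this, B_kill]

theorem kill_comm (i j : Fin n) (w : FreeGroup (Fin n)) : kill i (kill j w) = kill j (kill i w) := by
  have : (kill i).comp (kill j) = (kill j).comp (kill i) := by
    apply FreeGroup.ext_hom
    intro m
    rw [MonoidHom.comp_apply, MonoidHom.comp_apply]
    by_cases h : m = i
    · by_cases h' : m = j
      · subst h; subst h'; rfl
      · rw [kill_ne h']; subst h; rw [kill_self, map_one]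
    · by_cases h' : m = j
      · subst h'; rw [kill_self, map_one, kill_ne h, kill_self]
      · rw [kill_ne h', kill_ne h, kill_ne h']
  exact DFunLike.congr_fun this w

/-- `B l u v` with `u, v` not involving `x_i` fixes `x_i`, `i ≠ l` -/
theorem B_Fix {i l : Fin n} (hil : i ≠ l) {u v : FreeGroup (Fin n)} (hu : kill i u = u)
    (hv : kill i v = v) : Fix i (B l u v) := by
  refine ⟨B_ne hil u v, ?_⟩
  intro w
  have : (kill i).comp (B l u v : FreeGroup (Fin n) →* FreeGroup (Fin n)) =
      (B l u v : FreeGroup (Fin n) →* FreeGroup (Fin n)).comp (kill i) := by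
    apply FreeGroup.ext_hom
    intro m
    change kill i (B l u v (of m)) = B l u v (kill i (of m))
    by_cases hm : m = l
    · subst hm
      rw [B_self, map_mul, map_mul, kill_ne hil.symm, B_self, kill_comm i m u, kill_comm i m v, hu, hv]
    · rw [B_ne hm]
      by_cases hi : m = i
      · subst hi; rw [kill_self, map_one]
      · rw [kill_ne hi, B_ne hm]
  exact DFunLike.congr_fun this w

/-! ### membership in `IA` -/

theorem B_mem_IA (i : Fin n) {u v : FreeGroup (Fin n)} (h : u * v ∈ D n) : B i u v ∈ IA n := by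
  apply mem_IA
  intro m
  by_cases hm : m = i
  · subst hm
    have h1 := mem_D.mp (kill_mem_D m h)
    rw [map_mul, map_mul] at h1
    rw [B_self, map_mul, map_mul, mul_right_comm, h1, one_mul]
  · rw [B_ne hm]

theorem R_mem_IA (i : Fin n) {w : FreeGroup (Fin n)} (h : w ∈ D n) : B i 1 w ∈ IA n :=
  B_mem_IA i (by rw [one_mul]; exact h)

theorem L_mem_IA (i : Fin n) {w : FreeGroup (Fin n)} (h : w ∈ D n) : B i w 1 ∈ IA n :=
  B_mem_IA i (by rw [mul_one]; exact h)

theorem K_mem_IA (i : Fin n) (g : FreeGroup (Fin n)) : B i g g⁻¹ ∈ IA n :=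
  B_mem_IA i (by rw [mul_inv_cancel]; exact Subgroup.one_mem _)

/-- `φ` lies in `C(n)` -/
def InC (φ : MulAut (FreeGroup (Fin n))) : Prop := ∃ h : φ ∈ IA n, (⟨φ, h⟩ : IA n) ∈ C n

theorem InC.mul {φ ψ : MulAut (FreeGroup (Fin n))} (h1 : InC φ) (h2 : InC ψ) : InC (φ * ψ) :=
  ⟨mul_mem h1.1 h2.1, by
    have := mul_mem h1.2 h2.2
    exact this⟩

theorem InC.inv {φ : MulAut (FreeGroup (Fin n))} (h1 : InC φ) : InC φ⁻¹ :=
  ⟨inv_mem h1.1, by
    have := inv_mem h1.2
    exact this⟩

theorem InC.one : InC (1 : MulAut (FreeGroup (Fin n))) := ⟨one_mem _, one_mem _⟩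

theorem InC_K (i : Fin n) (g : FreeGroup (Fin n)) : InC (B i g g⁻¹) := by
  induction g using FreeGroup.induction_on with
  | C1 => rw [inv_one, B_one]; exact InC.one
  | of j =>
    by_cases hj : j = i
    · subst hj
      have : B j (of j) (of j)⁻¹ = 1 := by
        apply aut_ext
        intro m
        by_cases hm : m = j
        · subst hm; rw [B_self, map_inv, kill_self]; simp
        · rw [B_ne hm]; rfl
      rw [this]; exact InC.one
    · refine ⟨K_mem_IA i _, Subgroup.subset_closure ⟨i, j, Ne.symm hj, ?_, ?_⟩⟩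
      · change B i (of j) (of j)⁻¹ (of i) = _
        rw [B_self, map_inv, kill_ne hj]
      · intro m hm
        exact B_ne hm _ _
  | inv_of j hj =>
    have := hj.inv
    rw [B_inv, inv_inv] at this
    rw [inv_inv]
    exact this
  | mul g h hg hh =>
    have := hh.mul hg
    rw [B_mul] at this
    rw [mul_inv_rev]
    exact this

end Pool.Agent.H76.IADet
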