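import Mathlib
import Pool.Agent.H76.IADetBase

set_option autoImplicit false

namespace Pool.Agent.H76.IADet

open FreeGroup (of)
open scoped commutatorElement

variable {n : ℕ}

/-- the quotient `IA(n) / C̄(n)` -/
abbrev Q (n : ℕ) := IA n ⧸ Subgroup.normalClosure (C n : Set (IA n))

open Classical in
/-- the class of an automorphism -/
noncomputable def q (φ : MulAut (FreeGroup (Fin n))) : Q n :=
  if h : φ ∈ IA n then QuotientGroup.mk (⟨φ, h⟩ : IA n) else 1

theorem q_of {φ : MulAut (FreeGroup (Fin n))} (h : φ ∈ IA n) :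
    q φ = QuotientGroup.mk (⟨φ, h⟩ : IA n) := by rw [q, dif_pos h]

theorem q_mul {φ ψ : MulAut (FreeGroup (Fin n))} (h1 : φ ∈ IA n) (h2 : ψ ∈ IA n) :
    q (φ * ψ) = q φ * q ψ := by
  rw [q_of h1, q_of h2, q_of (mul_mem h1 h2)]; rfl

theorem q_one : q (1 : MulAut (FreeGroup (Fin n))) = 1 := by
  rw [q_of (one_mem _)]; rfl

theorem q_inv {φ : MulAut (FreeGroup (Fin n))} (h1 : φ ∈ IA n) : q φ⁻¹ = (q φ)⁻¹ := by
  rw [q_of h1, q_of (inv_mem h1)]; rfl

theorem q_C {φ : MulAut (FreeGroup (Fin n))} (h : InC φ) : q φ = 1 := by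
  obtain ⟨h1, h2⟩ := h
  rw [q_of h1, QuotientGroup.eq_one_iff]
  exact Subgroup.subset_normalClosure h2

theorem q_K (i : Fin n) (g : FreeGroup (Fin n)) : q (B i g g⁻¹) = 1 := q_C (InC_K i g)

/-! ### `ρ` -/

/-- class of `x_i ↦ x_i w` -/
noncomputable def rho (i : Fin n) (w : FreeGroup (Fin n)) : Q n := q (B i 1 w)

/-- class of `x_i ↦ w x_i` -/
noncomputable def lam (i : Fin n) (w : FreeGroup (Fin n)) : Q n := q (B i w 1)

theorem rho_mul (i : Fin n) {v w : FreeGroup (Fin n)} (hv : v ∈ D n) (hw : w ∈ D n) :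
    rho i (v * w) = rho i v * rho i w := by
  have := q_mul (R_mem_IA i hv) (R_mem_IA i hw)
  rw [B_mul, mul_one] at this
  exact this

theorem rho_one (i : Fin n) : rho i (1 : FreeGroup (Fin n)) = 1 := by
  rw [rho, B_one, q_one]

theorem rho_inv (i : Fin n) {v : FreeGroup (Fin n)} (hv : v ∈ D n) :
    rho i v⁻¹ = (rho i v)⁻¹ := by
  rw [rho, rho, ← q_inv (R_mem_IA i hv), B_inv, inv_one]

theorem lam_eq (i : Fin n) {v : FreeGroup (Fin n)} (hv : v ∈ D n) : lam i v = rho i v := by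
  have h1 : B i v v⁻¹ * B i 1 v = B i v 1 := by rw [B_mul, one_mul, inv_mul_cancel]
  have h2 := q_mul (K_mem_IA i v) (R_mem_IA i hv)
  rw [h1, q_K, one_mul] at h2
  exact h2

theorem rho_comm (i : Fin n) {v w : FreeGroup (Fin n)} (hv : v ∈ D n) (hw : w ∈ D n) :
    Commute (rho i v) (rho i w) := by
  have h1 : B i v 1 * B i 1 w = B i 1 w * B i v 1 := by
    rw [B_mul, B_mul, one_mul, mul_one, one_mul, mul_one]
  have h2 := q_mul (L_mem_IA i hv) (R_mem_IA i hw)
  have h3 := q_mul (R_mem_IA i hw) (L_mem_IA i hv)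
  rw [h1, h3] at h2
  have h4 := lam_eq i hv
  rw [← h4]
  exact h2.symm

theorem rho_conj (i : Fin n) (g : FreeGroup (Fin n)) {w : FreeGroup (Fin n)} (hw : w ∈ D n) :
    rho i (g * w * g⁻¹) = rho i w := by
  have h1 : B i g⁻¹ g * B i 1 w * (B i g⁻¹ g)⁻¹ = B i 1 (g * w * g⁻¹) := by
    rw [B_inv, B_mul, B_mul]; group
  have hk := K_mem_IA i g⁻¹
  rw [inv_inv] at hk
  have hq := q_K i g⁻¹
  rw [inv_inv] at hq
  rw [rho, ← h1, q_mul (mul_mem hk (R_mem_IA i hw)) (inv_mem hk), q_mul hk (R_mem_IA i hw),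
    q_inv hk, hq]
  simp [rho]

theorem conj_mem_D (g : FreeGroup (Fin n)) {w : FreeGroup (Fin n)} (hw : w ∈ D n) :
    g * w * g⁻¹ ∈ D n := by
  have : (D n).Normal := by unfold D; infer_instance
  exact this.conj_mem w hw g

/-- class of `x_i ↦ x_i [g, h]` -/
noncomputable def beta (i : Fin n) (g h : FreeGroup (Fin n)) : Q n := rho i ⁅g, h⁆

theorem beta_mul_right (i : Fin n) (g h h' : FreeGroup (Fin n)) :
    beta i g (h * h') = beta i g h * beta i g h' := by
  have e : ⁅g, h * h'⁆ = ⁅g, h⁆ * (h * ⁅g, h'⁆ * h⁻¹) := by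
    simp only [commutatorElement_def]; group
  rw [beta, e, rho_mul i (comm_mem_D _ _) (conj_mem_D _ (comm_mem_D _ _)), rho_conj i _ (comm_mem_D _ _)]
  rfl

theorem beta_swap (i : Fin n) (g h : FreeGroup (Fin n)) : beta i h g = (beta i g h)⁻¹ := by
  rw [beta, beta, ← rho_inv i (comm_mem_D _ _), commutatorElement_inv]

theorem beta_comm (i : Fin n) (g h g' h' : FreeGroup (Fin n)) :
    Commute (beta i g h) (beta i g' h') := rho_comm i (comm_mem_D _ _) (comm_mem_D _ _)

theorem beta_mul_left (i : Fin n) (g g' h : FreeGroup (Fin n)) :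
    beta i (g * g') h = beta i g h * beta i g' h := by
  rw [beta_swap i h, beta_mul_right, mul_inv_rev, ← beta_swap, ← beta_swap]
  exact (beta_comm i _ _ _ _).eq

theorem beta_inv_right (i : Fin n) (g h : FreeGroup (Fin n)) :
    beta i g h⁻¹ = (beta i g h)⁻¹ := by
  have h1 := beta_mul_right i g h h⁻¹
  rw [mul_inv_cancel] at h1
  have h2 : beta i g 1 = 1 := by
    rw [beta]; simp only [commutatorElement_one_right, rho_one]
  rw [h2] at h1
  exact eq_inv_of_mul_eq_one_right h1.symm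

theorem beta_D_left (i : Fin n) {v : FreeGroup (Fin n)} (hv : v ∈ D n) (h : FreeGroup (Fin n)) :
    beta i v h = 1 := by
  have e : ⁅v, h⁆ = v * (h * v⁻¹ * h⁻¹) := by
    simp only [commutatorElement_def]; group
  rw [beta, e, rho_mul i hv (conj_mem_D _ (inv_mem hv)), rho_conj i _ (inv_mem hv), rho_inv i hv,
    mul_inv_cancel]

theorem beta_D_right (i : Fin n) {v : FreeGroup (Fin n)} (hv : v ∈ D n) (h : FreeGroup (Fin n)) :
    beta i h v = 1 := by
  rw [beta_swap, beta_D_left i hv, inv_one]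

theorem beta_IA (i : Fin n) {α : MulAut (FreeGroup (Fin n))} (hα : α ∈ IA n)
    (g h : FreeGroup (Fin n)) : beta i (α g) (α h) = beta i g h := by
  have key : ∀ g, ∃ v ∈ D n, α g = g * v := by
    intro g
    refine ⟨g⁻¹ * α g, ?_, by group⟩
    rw [mem_D, map_mul, ab_of_mem_IA hα, map_inv, inv_mul_cancel]
  obtain ⟨v, hv, e1⟩ := key g
  obtain ⟨w, hw, e2⟩ := key h
  rw [e1, e2, beta_mul_left, beta_mul_right, beta_D_right i hw, beta_D_left i hv, mul_one, mul_one]

theorem q_conj_rho {i : Fin n} {α : MulAut (FreeGroup (Fin n))} (hα : α ∈ IA n) (hf : Fix i α)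
    {w : FreeGroup (Fin n)} (hw : w ∈ D n) : q α * rho i w * (q α)⁻¹ = rho i (α w) := by
  have h1 := B_conj hf 1 w
  rw [map_one] at h1
  rw [rho, rho, ← h1, q_mul (mul_mem hα (R_mem_IA i hw)) (inv_mem hα), q_mul hα (R_mem_IA i hw),
    q_inv hα]

theorem q_comm_beta {i : Fin n} {α : MulAut (FreeGroup (Fin n))} (hα : α ∈ IA n) (hf : Fix i α)
    (g h : FreeGroup (Fin n)) : Commute (q α) (beta i g h) := by
  have h1 := q_conj_rho hα hf (comm_mem_D g h)
  rw [map_commutatorElement] at h1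
  have h2 := beta_IA i hα g h
  change q α * beta i g h * (q α)⁻¹ = beta i (α g) (α h) at h1
  rw [h2, mul_inv_eq_iff_eq_mul] at h1
  exact h1

/-- (R2) -/
theorem rho_comm_beta {i l : Fin n} (hil : i ≠ l) {u : FreeGroup (Fin n)} (hu : u ∈ D n)
    (hk : kill i u = u) (g h : FreeGroup (Fin n)) : Commute (rho l u) (beta i g h) :=
  q_comm_beta (R_mem_IA l hu) (B_Fix hil (map_one _) hk) g h

/-! ### `τ` -/

/-- `x_b ↦ x_a x_b` -/
def th (a b : Fin n) : MulAut (FreeGroup (Fin n)) := B b (of a) 1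

/-- `x_a ↦ v(x_a x_b, …) x_a`, fixing `x_a x_b` -/
def S (a b : Fin n) (v : FreeGroup (Fin n)) : MulAut (FreeGroup (Fin n)) :=
  th a b * B a v 1 * (th a b)⁻¹

theorem S_mem_IA (a b : Fin n) {v : FreeGroup (Fin n)} (hv : v ∈ D n) : S a b v ∈ IA n :=
  conj_mem_IA (L_mem_IA a hv) _

/-- class of `S` -/
noncomputable def tau (a b : Fin n) (v : FreeGroup (Fin n)) : Q n := q (S a b v)

theorem tau_mul (a b : Fin n) {v w : FreeGroup (Fin n)} (hv : v ∈ D n) (hw : w ∈ D n) :
    tau a b (v * w) = tau a b w * tau a b v := by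
  have h : S a b (v * w) = S a b w * S a b v := by
    have h1 : B a (v * w) 1 = B a w 1 * B a v 1 := by rw [B_mul, mul_one]
    rw [S, S, S, h1]; group
  rw [tau, h, q_mul (S_mem_IA a b hw) (S_mem_IA a b hv)]
  rfl

theorem tau_inv (a b : Fin n) {v : FreeGroup (Fin n)} (hv : v ∈ D n) :
    tau a b v⁻¹ = (tau a b v)⁻¹ := by
  have h : S a b v⁻¹ = (S a b v)⁻¹ := by
    have h1 : B a v⁻¹ 1 = (B a v 1)⁻¹ := by rw [B_inv, inv_one]
    rw [S, S, h1]; group
  rw [tau, h, q_inv (S_mem_IA a b hv)]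
  rfl

theorem tau_conj (a b : Fin n) {α : MulAut (FreeGroup (Fin n))} (hα : α ∈ IA n) (hf : Fix a α)
    {v : FreeGroup (Fin n)} (hv : v ∈ D n) :
    tau a b (α v) = q (th a b * α * (th a b)⁻¹) * tau a b v * (q (th a b * α * (th a b)⁻¹))⁻¹ := by
  have h1 := B_conj hf v 1
  rw [map_one] at h1
  have h2 : S a b (α v) = (th a b * α * (th a b)⁻¹) * S a b v * (th a b * α * (th a b)⁻¹)⁻¹ := by
    rw [S, S, ← h1]; group
  have h3 := conj_mem_IA hα (th a b)
  rw [tau, h2, q_mul (mul_mem h3 (S_mem_IA a b hv)) (inv_mem h3), q_mul h3 (S_mem_IA a b hv), q_inv h3]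
  rfl

theorem th_Fix {a b c : Fin n} (hca : c ≠ a) (hcb : c ≠ b) : Fix c (th a b) :=
  B_Fix hcb (kill_ne hca.symm) (map_one _)

theorem th_self {a b : Fin n} (hab : a ≠ b) : th a b (of b) = of a * of b := by
  rw [th, B_self, kill_ne hab, map_one, mul_one]

theorem th_ne {a b m : Fin n} (hm : m ≠ b) : th a b (of m) = of m := by
  rw [th, B_ne hm]

theorem th_inv_self {a b : Fin n} (hab : a ≠ b) : (th a b)⁻¹ (of b) = (of a)⁻¹ * of b := by
  rw [th, B_inv, B_self, map_inv, kill_ne hab, inv_one, map_one, mul_one]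

theorem th_inv_ne {a b m : Fin n} (hm : m ≠ b) : (th a b)⁻¹ (of m) = of m := by
  rw [th, B_inv, B_ne hm]

theorem th_kill {a b : Fin n} {w : FreeGroup (Fin n)} (hw : kill b w = w) : th a b w = w := by
  rw [th, ← hw, B_kill]

/-- for `v ∈ H'` -/
theorem tau_H {a b : Fin n} (hab : a ≠ b) {v : FreeGroup (Fin n)} (hv : v ∈ D n)
    (ha : kill a v = v) (hb : kill b v = v) : tau a b v = rho a v * (rho b v)⁻¹ := by
  have hv' : (of a)⁻¹ * v⁻¹ * of a ∈ D n := by
    have := conj_mem_D (of a)⁻¹ (inv_mem hv)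
    rwa [inv_inv] at this
  have h1 : S a b v = B a v 1 * B b ((of a)⁻¹ * v⁻¹ * of a) 1 := by
    apply aut_ext
    intro m
    have Bv : B a v 1 v = v := by conv_lhs => rw [← ha]
                                  rw [B_kill, ha]
    rw [S, MulAut.mul_apply, MulAut.mul_apply, MulAut.mul_apply]
    by_cases hm : m = b
    · subst hm
      rw [th_inv_self hab, map_mul, map_inv, B_self, B_ne hab.symm, B_self]
      simp only [map_mul, map_inv, map_one, ha, hb, kill_ne hab, th_self hab, th_ne hab,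
        th_kill hb, B_ne hab.symm, B_self, Bv]
      group
    · by_cases hma : m = a
      · subst hma
        rw [th_inv_ne hab, B_self, B_ne hm, B_self]
        simp only [map_mul, map_one, ha, th_ne hm, th_kill hb]
      · rw [th_inv_ne hm, B_ne hma, B_ne hm, th_ne hm, B_ne hma]
  rw [tau, h1, q_mul (L_mem_IA a hv) (L_mem_IA b hv')]
  change lam a v * lam b _ = _
  rw [lam_eq a hv, lam_eq b hv']
  congr 1
  have h2 := rho_conj b (of a)⁻¹ (inv_mem hv)
  rw [inv_inv] at h2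
  rw [h2, rho_inv b hv]

/-- (F) -/
theorem tau_b {a b : Fin n} (hab : a ≠ b) {w : FreeGroup (Fin n)}
    (ha : kill a w = w) (hb : kill b w = w) :
    tau a b ⁅of b, w⁆ = (beta b (of a) w)⁻¹ * beta a (of b) w := by
  have Bw : ∀ u v, B a u v w = w := by
    intro u v
    conv_lhs => rw [← ha]
    rw [B_kill, ha]
  have Bw' : ∀ u v, B b u v w = w := by
    intro u v
    conv_lhs => rw [← hb]
    rw [B_kill, hb]
  have h1 : S a b ⁅of b, w⁆ = B b (of a) (of a)⁻¹ * (B b w w⁻¹ * ((B b 1 ⁅of a, w⁆)⁻¹ *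
      ((B b (of a) (of a)⁻¹)⁻¹ * (B a 1 ⁅of b, w⁆ * (B a w w⁻¹)⁻¹)))) := by
    apply aut_ext
    intro m
    rw [S, B_inv, B_inv, B_inv]
    simp only [MulAut.mul_apply]
    by_cases hm : m = b
    · subst hm
      rw [th_inv_self hab]
      simp only [commutatorElement_def, map_mul, map_inv, map_one, ha, hb, kill_ne hab, kill_ne hab.symm,
        th_self hab, th_ne hab, th_kill hb, B_ne hab.symm, B_ne hab, B_self, Bw, Bw', inv_one, inv_inv,
        one_mul, mul_one]
      group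
    · by_cases hma : m = a
      · subst hma
        rw [th_inv_ne hab]
        simp only [commutatorElement_def, map_mul, map_inv, map_one, ha, hb, kill_ne hab, kill_ne hab.symm,
          th_self hab, th_ne hab, th_kill hb, B_ne hab.symm, B_ne hab, B_self, Bw, Bw', inv_one, inv_inv,
          one_mul, mul_one]
        group
      · rw [th_inv_ne hm]
        simp only [B_ne hma, B_ne hm, th_ne hm]
  have i1 : B b (of a) (of a)⁻¹ ∈ IA n := K_mem_IA b _
  have i2 : B b w w⁻¹ ∈ IA n := K_mem_IA b _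
  have i3 : B b 1 ⁅of a, w⁆ ∈ IA n := R_mem_IA b (comm_mem_D _ _)
  have i4 : B a 1 ⁅of b, w⁆ ∈ IA n := R_mem_IA a (comm_mem_D _ _)
  have i5 : B a w w⁻¹ ∈ IA n := K_mem_IA a _
  have j5 := mul_mem i4 (inv_mem i5)
  have j4 := mul_mem (inv_mem i1) j5
  have j3 := mul_mem (inv_mem i3) j4
  have j2 := mul_mem i2 j3
  rw [tau, h1, q_mul i1 j2, q_mul i2 j3, q_mul (inv_mem i3) j4, q_mul (inv_mem i1) j5,
    q_mul i4 (inv_mem i5), q_inv i1, q_inv i3, q_inv i5, q_K, q_K, q_K]
  simp only [inv_one, one_mul, mul_one]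
  rfl

end Pool.Agent.H76.IADet
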