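import Mathlib
import Pool.Agent.H76.IADetQ

set_option autoImplicit false

namespace Pool.Agent.H76.IADet

open FreeGroup (of)
open scoped commutatorElement

variable {n : ℕ}

theorem kill_comm_of {i : Fin n} {g h : FreeGroup (Fin n)} (hg : kill i g = g) (hh : kill i h = h) :
    kill i ⁅g, h⁆ = ⁅g, h⁆ := by rw [map_commutatorElement, hg, hh]

/-- the class of `K_{i;jl}` -/
noncomputable def k (i j l : Fin n) : Q n := beta i (of j) (of l)

theorem k_swap (i j l : Fin n) : k i l j = (k i j l)⁻¹ := beta_swap _ _ _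

/-- conjugation by `x_c ↦ x_a x_b x_c (x_a x_b)⁻¹` -/
theorem tau_K {a b c : Fin n} (hca : c ≠ a) (hcb : c ≠ b) (hab : a ≠ b) {v : FreeGroup (Fin n)}
    (hv : v ∈ D n) : tau a b (B c (of b) (of b)⁻¹ v) = tau a b v := by
  have h1 := tau_conj a b (K_mem_IA c (of b))
    (B_Fix hca.symm (kill_ne hab.symm) (by rw [map_inv, kill_ne hab.symm])) hv
  have h2 : th a b * B c (of b) (of b)⁻¹ * (th a b)⁻¹ = B c (of a * of b) (of a * of b)⁻¹ := by
    rw [B_conj (th_Fix hca hcb), map_inv, th_self hab]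
  rw [h1, h2, q_K, one_mul, inv_one, mul_one]

/-- commuting of `τ [c,d]` and `τ [x', c']`, `c, d, c' ∈ H` -/
theorem tau_H_comm {a b : Fin n} (hab : a ≠ b) {v w : FreeGroup (Fin n)} (hv : v ∈ D n)
    (ha : kill a v = v) (hb : kill b v = v) (hwa : kill a w = w) (hwb : kill b w = w) :
    Commute (tau a b v) (tau a b ⁅of b, w⁆) := by
  rw [tau_H hab hv ha hb, tau_b hab hwa hwb]
  have c1 : Commute (rho a v) (beta a (of b) w) := rho_comm a hv (comm_mem_D _ _)
  have c2 : Commute (rho b v) (beta b (of a) w) := rho_comm b hv (comm_mem_D _ _)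
  have c3 : Commute (rho a v) (beta b (of a) w) := rho_comm_beta hab.symm hv hb _ _
  have c4 : Commute (rho b v) (beta a (of b) w) := rho_comm_beta hab hv ha _ _
  have d1 : Commute (rho a v) ((beta b (of a) w)⁻¹ * beta a (of b) w) := c3.inv_right.mul_right c1
  have d2 : Commute (rho b v) ((beta b (of a) w)⁻¹ * beta a (of b) w) := c2.inv_right.mul_right c4
  exact d1.mul_left d2.inv_left

theorem tau_triple_mixed {a b c d : Fin n} (hab : a ≠ b) (hca : c ≠ a) (hcb : c ≠ b) (hda : d ≠ a)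
    (hdb : d ≠ b) (hcd : c ≠ d) : tau a b ⁅⁅(of b : FreeGroup (Fin n)), of c⁆, of d⁆ = 1 := by
  have h1 := tau_K hca hcb hab (comm_mem_D (of c) (of d))
  have e : B c (of b) (of b)⁻¹ ⁅of c, of d⁆ =
      ⁅of b, of c⁆ * ⁅of c, of d⁆ * ⁅of b, of c⁆⁻¹ * ⁅⁅of b, of c⁆, of d⁆ := by
    rw [map_commutatorElement, B_self, map_inv, kill_ne hcb.symm, B_ne hcd.symm]
    simp only [commutatorElement_def]; group
  have m1 : ⁅(of b : FreeGroup (Fin n)), of c⁆ ∈ D n := comm_mem_D _ _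
  have m2 : ⁅(of c : FreeGroup (Fin n)), of d⁆ ∈ D n := comm_mem_D _ _
  have m3 : ⁅⁅(of b : FreeGroup (Fin n)), of c⁆, of d⁆ ∈ D n := comm_mem_D _ _
  have hc := tau_H_comm hab m2 (kill_comm_of (kill_ne hca) (kill_ne hda))
    (kill_comm_of (kill_ne hcb) (kill_ne hdb)) (kill_ne hca) (kill_ne hcb)
  rw [e, tau_mul a b (mul_mem (mul_mem m1 m2) (inv_mem m1)) m3,
    tau_mul a b (mul_mem m1 m2) (inv_mem m1), tau_mul a b m1 m2, tau_inv a b m1] at h1
  -- `T * (P⁻¹ * (Z * P)) = Z`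
  rw [hc.eq, inv_mul_cancel_left] at h1
  exact mul_eq_right.mp h1

/-- (R3) -/
theorem R3 {a b c d : Fin n} (hab : a ≠ b) (hca : c ≠ a) (hcb : c ≠ b) (hda : d ≠ a)
    (hdb : d ≠ b) (hcd : c ≠ d) : Commute (k a b d) (k b a c) := by
  have e : ⁅(of b : FreeGroup (Fin n)), of c * of d⁆ =
      ⁅of b, of c⁆ * ⁅of c, ⁅of b, of d⁆⁆ * ⁅of b, of d⁆ := by
    simp only [commutatorElement_def]; group
  have h0 : tau a b ⁅(of c : FreeGroup (Fin n)), ⁅of b, of d⁆⁆ = 1 := by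
    have := tau_triple_mixed hab hda hdb hca hcb hcd.symm
    rw [← commutatorElement_inv, tau_inv a b (comm_mem_D _ _), this, inv_one]
  have h1 := congrArg (tau a b) e
  rw [tau_mul a b (mul_mem (comm_mem_D _ _) (comm_mem_D _ _)) (comm_mem_D _ _),
    tau_mul a b (comm_mem_D _ _) (comm_mem_D _ _), h0, one_mul,
    tau_b hab (by rw [map_mul, kill_ne hca, kill_ne hda]) (by rw [map_mul, kill_ne hcb, kill_ne hdb]),
    tau_b hab (kill_ne hca) (kill_ne hcb), tau_b hab (kill_ne hda) (kill_ne hdb),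
    beta_mul_right, beta_mul_right] at h1
  have hx : beta a (of b) (of c) * beta a (of b) (of d) = beta a (of b) (of d) * beta a (of b) (of c) :=
    (beta_comm a _ _ _ _).eq
  change ((k b a c) * (k b a d))⁻¹ * (k a b c * k a b d) =
    (k b a d)⁻¹ * k a b d * ((k b a c)⁻¹ * k a b c) at h1
  change k a b c * k a b d = k a b d * k a b c at hx
  rw [hx] at h1
  have h2 : (k b a c)⁻¹ * k a b d = k a b d * (k b a c)⁻¹ := by
    have h3 : (k b a d)⁻¹ * ((k b a c)⁻¹ * k a b d) * k a b c =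
        (k b a d)⁻¹ * (k a b d * (k b a c)⁻¹) * k a b c := by
      calc _ = ((k b a c) * (k b a d))⁻¹ * (k a b d * k a b c) := by group
        _ = _ := h1
        _ = _ := by group
    exact mul_left_cancel (mul_right_cancel h3)
  have h4 : Commute (k b a c)⁻¹ (k a b d) := h2
  exact (Commute.inv_left_iff.mp h4).symm

theorem tau_cc {a b c : Fin n} (hab : a ≠ b) (hca : c ≠ a) (hcb : c ≠ b) :
    tau a b ⁅(of c : FreeGroup (Fin n)), ⁅of b, of c⁆⁆ =
      (k a b c)⁻¹ * (k b a c)⁻¹ * k a b c * k b a c := by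
  have e : ⁅(of b : FreeGroup (Fin n)), of c * of c⁆ =
      ⁅of b, of c⁆ * ⁅of c, ⁅of b, of c⁆⁆ * ⁅of b, of c⁆ := by
    simp only [commutatorElement_def]; group
  have h1 := congrArg (tau a b) e
  rw [tau_mul a b (mul_mem (comm_mem_D _ _) (comm_mem_D _ _)) (comm_mem_D _ _),
    tau_mul a b (comm_mem_D _ _) (comm_mem_D _ _),
    tau_b hab (by rw [map_mul, kill_ne hca]) (by rw [map_mul, kill_ne hcb]),
    tau_b hab (kill_ne hca) (kill_ne hcb),
    beta_mul_right, beta_mul_right] at h1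
  change ((k b a c) * (k b a c))⁻¹ * (k a b c * k a b c) =
    (k b a c)⁻¹ * k a b c * (tau a b ⁅(of c : FreeGroup (Fin n)), ⁅of b, of c⁆⁆ *
      ((k b a c)⁻¹ * k a b c)) at h1
  generalize tau a b ⁅(of c : FreeGroup (Fin n)), ⁅of b, of c⁆⁆ = t at h1 ⊢
  calc t = ((k b a c)⁻¹ * k a b c)⁻¹ * ((k b a c)⁻¹ * k a b c * (t * ((k b a c)⁻¹ * k a b c))) *
        ((k b a c)⁻¹ * k a b c)⁻¹ := by group
    _ = _ := by rw [← h1]; group

/-- (R4') -/
theorem R4' {a b c e : Fin n} (hab : a ≠ b) (hca : c ≠ a) (hcb : c ≠ b) (hea : e ≠ a)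
    (heb : e ≠ b) (hec : e ≠ c) :
    ⁅k e a c * k e b c, k a e c * (k b e c)⁻¹⁆ = (k b a c)⁻¹ * (k a b c)⁻¹ * k b a c * k a b c := by
  have hα : B e ⁅of b, of c⁆ 1 ∈ IA n := L_mem_IA e (comm_mem_D _ _)
  have m1 : ⁅(of b : FreeGroup (Fin n)), of c⁆ ∈ D n := comm_mem_D _ _
  have m2 : ⁅(of e : FreeGroup (Fin n)), of c⁆ ∈ D n := comm_mem_D _ _
  have m3 : ⁅⁅(of b : FreeGroup (Fin n)), of c⁆, of c⁆ ∈ D n := comm_mem_D _ _
  have h1 := tau_conj a b hα (B_Fix hea.symm (kill_comm_of (kill_ne hab.symm) (kill_ne hca)) (map_one _)) m2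
  have h2 : th a b * B e ⁅of b, of c⁆ 1 * (th a b)⁻¹ = B e ⁅of a * of b, of c⁆ 1 := by
    rw [B_conj (th_Fix hea heb), map_one, map_commutatorElement, th_self hab, th_ne hcb]
  have h3 : q (B e ⁅(of a * of b : FreeGroup (Fin n)), of c⁆ 1) = k e a c * k e b c := by
    change lam e _ = _
    rw [lam_eq e (comm_mem_D _ _)]
    exact beta_mul_left e _ _ _
  have ee : B e ⁅of b, of c⁆ 1 ⁅of e, of c⁆ =
      ⁅of b, of c⁆ * ⁅of e, of c⁆ * ⁅of b, of c⁆⁻¹ * ⁅⁅of b, of c⁆, of c⁆ := by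
    rw [map_commutatorElement, B_self, map_one, mul_one,
      kill_comm_of (kill_ne heb.symm) (kill_ne hec.symm), B_ne hec.symm]
    simp only [commutatorElement_def]; group
  have hc := tau_H_comm hab m2 (kill_comm_of (kill_ne hea) (kill_ne hca))
    (kill_comm_of (kill_ne heb) (kill_ne hcb)) (kill_ne hca) (kill_ne hcb)
  have h4 : tau a b ⁅⁅(of b : FreeGroup (Fin n)), of c⁆, of c⁆ =
      ((k a b c)⁻¹ * (k b a c)⁻¹ * k a b c * k b a c)⁻¹ := by
    rw [← tau_cc hab hca hcb, ← tau_inv a b (comm_mem_D _ _), commutatorElement_inv]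
  have h5 : tau a b ⁅(of e : FreeGroup (Fin n)), of c⁆ = k a e c * (k b e c)⁻¹ :=
    tau_H hab m2 (kill_comm_of (kill_ne hea) (kill_ne hca)) (kill_comm_of (kill_ne heb) (kill_ne hcb))
  rw [ee, tau_mul a b (mul_mem (mul_mem m1 m2) (inv_mem m1)) m3,
    tau_mul a b (mul_mem m1 m2) (inv_mem m1), tau_mul a b m1 m2, tau_inv a b m1, hc.eq,
    inv_mul_cancel_left, h2, h3, h4, h5] at h1
  rw [commutatorElement_def]
  rw [← h1]
  group

end Pool.Agent.H76.IADet
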