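import Mathlib
import Pool.Agent.H76.IADetR

set_option autoImplicit false

namespace Pool.Agent.H76.IADet

open FreeGroup (of)
open scoped commutatorElement

variable {n : ℕ}

theorem kill_pair {a j l : Fin n} (hj : j ≠ a) (hl : l ≠ a) :
    kill a ⁅(of j : FreeGroup (Fin n)), of l⁆ = ⁅of j, of l⁆ :=
  kill_comm_of (kill_ne hj) (kill_ne hl)

/-- `k_{i;jl}` and `k_{p;rs}` commute if `p ∉ {j,l}` -/
theorem comm1 {i j l p r s : Fin n} (hp : p ≠ j) (hp' : p ≠ l) : Commute (k i j l) (k p r s) := by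
  by_cases h : i = p
  · subst h; exact beta_comm _ _ _ _ _
  · exact rho_comm_beta (Ne.symm h) (comm_mem_D _ _) (kill_pair hp.symm hp'.symm) _ _

/-- mutual pair with different third indices -/
theorem comm2 {i j l s : Fin n} (hij : i ≠ j) (hli : l ≠ i) (hlj : l ≠ j) (hsi : s ≠ i) (hsj : s ≠ j)
    (hls : l ≠ s) : Commute (k i j l) (k j i s) := R3 hij hsi hsj hli hlj hls.symm

theorem inv_comm {i j l : Fin n} {z : Q n} (h : Commute (k i j l) z) : Commute (k i l j) z := by
  rw [k_swap]; exact h.inv_left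

/-- `k_{i;jl}` and `k_{p;rs}` commute if `{p,r,s}` contains an element outside `{i,j,l}`. -/
theorem comm_k {i j l p r s : Fin n} (h1 : i ≠ j) (h2 : i ≠ l) (h3 : j ≠ l) (h4 : p ≠ r) (h5 : p ≠ s)
    (h6 : r ≠ s) (e : Fin n) (he : e = p ∨ e = r ∨ e = s) (hi : e ≠ i) (hj : e ≠ j) (hl : e ≠ l) :
    Commute (k i j l) (k p r s) := by
  by_cases c1 : p = j
  · subst c1
    by_cases c2 : i = r
    · subst c2
      have : e = s := by
        rcases he with h | h | h
        · exact absurd h hj
        · exact absurd h hi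
        · exact h
      subst this
      exact comm2 h1 h2.symm h3.symm hi hj hl.symm
    · by_cases c3 : i = s
      · subst c3
        have : e = r := by
          rcases he with h | h | h
          · exact absurd h hj
          · exact h
          · exact absurd h hi
        subst this
        exact (inv_comm (comm2 h1 h2.symm h3.symm hi hj hl.symm).symm).symm
      · exact (comm1 c2 c3).symm
  · by_cases c1' : p = l
    · subst c1'
      by_cases c2 : i = r
      · subst c2
        have : e = s := by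
          rcases he with h | h | h
          · exact absurd h hl
          · exact absurd h hi
          · exact h
        subst this
        exact inv_comm (comm2 h2 h1.symm h3 hi hl hj.symm)
      · by_cases c3 : i = s
        · subst c3
          have : e = r := by
            rcases he with h | h | h
            · exact absurd h hl
            · exact h
            · exact absurd h hi
          subst this
          exact inv_comm ((inv_comm (comm2 h2 h1.symm h3 hi hl hj.symm).symm).symm)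
        · exact (comm1 c2 c3).symm
    · exact comm1 c1 c1'

/-- `H_c(i,j)` -/
noncomputable def H (c i j : Fin n) : Q n := ⁅k i j c, k j i c⁆

theorem H_swap (c i j : Fin n) : H c j i = (H c i j)⁻¹ := by
  rw [H, H, commutatorElement_inv]

theorem exists_fourth (hn : 4 ≤ n) (a b c : Fin n) : ∃ e : Fin n, e ≠ a ∧ e ≠ b ∧ e ≠ c := by
  have : ∃ e ∈ (Finset.univ : Finset (Fin n)), e ∉ ({a, b, c} : Finset (Fin n)) := by
    apply Finset.exists_mem_notMem_of_card_lt_card
    rw [Finset.card_univ, Fintype.card_fin]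
    exact lt_of_le_of_lt Finset.card_le_three (by omega)
  obtain ⟨e, _, he⟩ := this
  simp only [Finset.mem_insert, Finset.mem_singleton, not_or] at he
  exact ⟨e, he.1, he.2.1, he.2.2⟩

theorem comm_commutator {G : Type*} [Group G] {g x y : G} (h1 : Commute g x) (h2 : Commute g y) :
    Commute g ⁅x, y⁆ := by
  rw [commutatorElement_def]
  exact ((h1.mul_right h2).mul_right h1.inv_right).mul_right h2.inv_right

/-- the element `z = y⁻¹ x⁻¹ y x` commutes with every generator -/
theorem z_central (hn : 4 ≤ n) {a b c : Fin n} (hab : a ≠ b) (hca : c ≠ a) (hcb : c ≠ b)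
    {i j l : Fin n} (h1 : i ≠ j) (h2 : i ≠ l) (h3 : j ≠ l) :
    Commute (k i j l) ((k b a c)⁻¹ * (k a b c)⁻¹ * k b a c * k a b c) := by
  obtain ⟨e, hea, heb, hec⟩ := exists_fourth hn a b c
  by_cases he : e = i ∨ e = j ∨ e = l
  · have c1 : Commute (k a b c) (k i j l) :=
      comm_k hab hca.symm hcb.symm h1 h2 h3 e he hea heb hec
    have c2 : Commute (k b a c) (k i j l) :=
      comm_k hab.symm hcb.symm hca.symm h1 h2 h3 e he heb hea hec
    exact ((c2.symm.inv_right.mul_right c1.symm.inv_right).mul_right c2.symm).mul_right c1.symm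
  · simp only [not_or] at he
    obtain ⟨ei, ej, el⟩ := he
    rw [← R4' hab hca hcb hea heb hec]
    have c1 : Commute (k i j l) (k e a c) :=
      comm_k h1 h2 h3 hea hec hca.symm e (Or.inl rfl) ei ej el
    have c2 : Commute (k i j l) (k e b c) :=
      comm_k h1 h2 h3 heb hec hcb.symm e (Or.inl rfl) ei ej el
    have c3 : Commute (k i j l) (k a e c) :=
      comm_k h1 h2 h3 hea.symm hca.symm hec e (Or.inr (Or.inl rfl)) ei ej el
    have c4 : Commute (k i j l) (k b e c) :=
      comm_k h1 h2 h3 heb.symm hcb.symm hec e (Or.inr (Or.inl rfl)) ei ej el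
    exact comm_commutator (c1.mul_right c2) (c3.mul_right c4.inv_right)

theorem z_eq (hn : 4 ≤ n) {a b c : Fin n} (hab : a ≠ b) (hca : c ≠ a) (hcb : c ≠ b) :
    (k b a c)⁻¹ * (k a b c)⁻¹ * k b a c * k a b c = H c b a := by
  have c1 := z_central hn hab hca hcb (i := a) (j := b) (l := c) hab hca.symm hcb.symm
  have c2 := z_central hn hab hca hcb (i := b) (j := a) (l := c) hab.symm hcb.symm hca.symm
  generalize hz : (k b a c)⁻¹ * (k a b c)⁻¹ * k b a c * k a b c = z at c1 c2 ⊢
  have h : k b a c * k a b c = k a b c * k b a c * z := by rw [← hz]; group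
  rw [H, commutatorElement_def, h, (c1.mul_left c2).eq]
  group

theorem H_central (hn : 4 ≤ n) {a b c : Fin n} (hab : a ≠ b) (hca : c ≠ a) (hcb : c ≠ b)
    {i j l : Fin n} (h1 : i ≠ j) (h2 : i ≠ l) (h3 : j ≠ l) :
    Commute (k i j l) (H c b a) := by
  rw [← z_eq hn hab hca hcb]
  exact z_central hn hab hca hcb h1 h2 h3

theorem commutator_prod {G : Type*} [Group G] {p q r s : G} (hpq : Commute p q) (hps : Commute p s)
    (hqr : Commute q r) (hrs : Commute r s) (h1 : Commute ⁅s, q⁆ q) (h2 : Commute ⁅s, q⁆ s) :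
    ⁅p * q, r * s⁻¹⁆ = ⁅p, r⁆ * ⁅s, q⁆ := by
  have e1 : ⁅q, s⁻¹⁆ = ⁅s, q⁆ := by
    have : ⁅q, s⁻¹⁆ = s⁻¹ * ⁅s, q⁆ * s := by simp only [commutatorElement_def]; group
    rw [this, mul_assoc, h2.eq]; group
  have c1 : Commute r ⁅q, s⁻¹⁆ := comm_commutator hqr.symm hrs.inv_right
  calc ⁅p * q, r * s⁻¹⁆ = p * (q * r) * s⁻¹ * q⁻¹ * p⁻¹ * s * r⁻¹ := by
        simp only [commutatorElement_def]; group
    _ = p * r * (q * s⁻¹ * q⁻¹) * (p⁻¹ * s) * r⁻¹ := by rw [hqr.eq]; group
    _ = p * r * (q * s⁻¹ * q⁻¹) * (s * p⁻¹) * r⁻¹ := by rw [hps.inv_left.eq]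
    _ = p * r * ⁅q, s⁻¹⁆ * p⁻¹ * r⁻¹ := by simp only [commutatorElement_def]; group
    _ = p * r * (⁅q, s⁻¹⁆ * p⁻¹) * r⁻¹ := by group
    _ = p * r * (p⁻¹ * ⁅q, s⁻¹⁆) * r⁻¹ := by
        rw [(comm_commutator hpq hps.inv_right).inv_left.eq]
    _ = p * r * p⁻¹ * (⁅q, s⁻¹⁆ * r⁻¹) := by group
    _ = p * r * p⁻¹ * (r⁻¹ * ⁅q, s⁻¹⁆) := by rw [c1.inv_left.eq]
    _ = ⁅p, r⁆ * ⁅s, q⁆ := by rw [e1]; simp only [commutatorElement_def]; group

/-- (R4) -/
theorem R4 (hn : 4 ≤ n) {a b c e : Fin n} (hab : a ≠ b) (hca : c ≠ a) (hcb : c ≠ b) (hea : e ≠ a)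
    (heb : e ≠ b) (hec : e ≠ c) : H c e a * H c b e = H c b a := by
  rw [← z_eq hn hab hca hcb, ← R4' hab hca hcb hea heb hec]
  have f1 : Commute (k e a c) (k e b c) := beta_comm _ _ _ _ _
  have f2 : Commute (k e a c) (k b e c) := comm1 hab.symm hcb.symm
  have f3 : Commute (k e b c) (k a e c) := comm1 hab hca.symm
  have f4 : Commute (k a e c) (k b e c) := comm1 heb.symm hcb.symm
  have f5 : Commute (k e b c) (H c b e) := H_central hn heb hec.symm hcb heb hec hcb.symm
  have f6 : Commute (k b e c) (H c b e) := H_central hn heb hec.symm hcb heb.symm hcb.symm hec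
  exact (commutator_prod f1 f2 f3 f4 f5.symm f6.symm).symm

end Pool.Agent.H76.IADet
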