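import Mathlib
import Pool.Agent.H76.IADetBase

set_option autoImplicit false

namespace Pool.Agent.H76.IADet

open FreeGroup (of)
open scoped commutatorElement

/-! ### Magnus representation over a commutative ring `R` with a unit `t` -/

/-- affine group -/
@[ext] structure Af (R : Type) [CommRing R] (n : ℕ) where
  u : Rˣ
  v : Fin n → R

namespace Af

variable {R : Type} [CommRing R] {n : ℕ}

instance : Mul (Af R n) := ⟨fun a b => ⟨a.u * b.u, a.v + (a.u : R) • b.v⟩⟩
instance : One (Af R n) := ⟨⟨1, 0⟩⟩
instance : Inv (Af R n) := ⟨fun a => ⟨a.u⁻¹, -((a.u⁻¹ : Rˣ) : R) • a.v⟩⟩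

theorem mul_u (a b : Af R n) : (a * b).u = a.u * b.u := rfl
theorem mul_v (a b : Af R n) : (a * b).v = a.v + (a.u : R) • b.v := rfl
theorem one_u : (1 : Af R n).u = 1 := rfl
theorem one_v : (1 : Af R n).v = 0 := rfl
theorem inv_u (a : Af R n) : (a⁻¹).u = a.u⁻¹ := rfl
theorem inv_v (a : Af R n) : (a⁻¹).v = -((a.u⁻¹ : Rˣ) : R) • a.v := rfl

instance : Group (Af R n) := Group.ofLeftAxioms
  (fun a b c => by
    ext i
    · simp only [mul_u, mul_assoc]
    · simp only [mul_v, mul_u, Units.val_mul, smul_add, mul_smul, Pi.add_apply]; ring)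
  (fun a => by
    ext i
    · simp only [mul_u, one_u, one_mul]
    · simp [mul_v, one_u, one_v])
  (fun a => by
    ext i
    · simp only [mul_u, inv_u, one_u, inv_mul_cancel]
    · simp [mul_v, inv_u, inv_v, one_v])

end Af

section

variable {R : Type} [CommRing R] {n : ℕ} (t : Rˣ) (k : Fin n)

/-- the affine representation of `F(n)` -/
def aff : FreeGroup (Fin n) →* Af R n :=
  FreeGroup.lift (fun m => ⟨if m = k then t else 1, Pi.single m 1⟩)

/-- `x_k ↦ t`, the others `↦ 1` -/
def chi : FreeGroup (Fin n) →* Rˣ := FreeGroup.lift (fun m => if m = k then t else 1)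

/-- Fox derivatives evaluated in `R` -/
def del (w : FreeGroup (Fin n)) : Fin n → R := (aff t k w).v

theorem aff_u (w : FreeGroup (Fin n)) : (aff t k w).u = chi t k w := by
  let f : Af R n →* Rˣ := { toFun := fun a => a.u, map_one' := rfl, map_mul' := fun _ _ => rfl }
  have : f.comp (aff t k) = chi t k := by
    apply FreeGroup.ext_hom
    intro m
    simp [f, aff, chi]
  exact DFunLike.congr_fun this w

theorem del_mul (u v : FreeGroup (Fin n)) :
    del t k (u * v) = del t k u + (chi t k u : R) • del t k v := by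
  rw [del, map_mul, Af.mul_v, aff_u]; rfl

theorem del_one : del t k 1 = 0 := by rw [del, map_one]; rfl

theorem del_inv (u : FreeGroup (Fin n)) :
    del t k u⁻¹ = -(((chi t k u)⁻¹ : Rˣ) : R) • del t k u := by
  rw [del, map_inv, Af.inv_v, aff_u]; rfl

theorem del_of (m : Fin n) : del t k (of m) = Pi.single m 1 := by
  simp [del, aff]

theorem chi_of_self : chi t k (of k) = t := by simp [chi]

theorem chi_of_ne {m : Fin n} (h : m ≠ k) : chi t k (of m) = 1 := by simp [chi, h]

theorem hom_IA {A : Type} [CommGroup A] (f : FreeGroup (Fin n) →* A)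
    {φ : MulAut (FreeGroup (Fin n))} (h : φ ∈ IA n) (w : FreeGroup (Fin n)) : f (φ w) = f w := by
  have h1 := ab_of_mem_IA h w
  have h2 : ∀ v, f v = Abelianization.lift f (Abelianization.of v) := fun v => by
    rw [Abelianization.lift_apply_of]
  rw [h2, h1, ← h2]

/-- the Jacobian -/
def J (φ : MulAut (FreeGroup (Fin n))) : Matrix (Fin n) (Fin n) R :=
  Matrix.of fun j i => del t k (φ (of i)) j

theorem J_apply (φ : MulAut (FreeGroup (Fin n))) (j i : Fin n) :
    J t k φ j i = del t k (φ (of i)) j := rfl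

theorem del_IA {φ : MulAut (FreeGroup (Fin n))} (h : φ ∈ IA n) (w : FreeGroup (Fin n)) :
    del t k (φ w) = (J t k φ).mulVec (del t k w) := by
  let f : Af R n →* Af R n :=
    { toFun := fun a => ⟨a.u, (J t k φ).mulVec a.v⟩
      map_one' := by ext <;> simp [Af.one_u, Af.one_v]
      map_mul' := fun a b => by
        ext
        · simp [Af.mul_u]
        · simp [Af.mul_v, Matrix.mulVec_add, Matrix.mulVec_smul] }
  have : (aff t k).comp (φ : FreeGroup (Fin n) →* FreeGroup (Fin n)) = f.comp (aff t k) := by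
    apply FreeGroup.ext_hom
    intro m
    change aff t k (φ (of m)) = f (aff t k (of m))
    have e1 : (f (aff t k (of m))).u = chi t k (of m) := aff_u t k _
    have e2 : (f (aff t k (of m))).v = (J t k φ).mulVec (del t k (of m)) := rfl
    ext j
    · rw [aff_u, e1, hom_IA (chi t k) h]
    · rw [e2, del_of, Matrix.mulVec_single_one]
      rfl
  have h2 := DFunLike.congr_fun this w
  exact congrArg Af.v h2

theorem J_mul {φ ψ : MulAut (FreeGroup (Fin n))} (h : φ ∈ IA n) :
    J t k (φ * ψ) = J t k φ * J t k ψ := by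
  ext j i
  rw [J_apply, MulAut.mul_apply, del_IA t k h, Matrix.mul_apply]
  rfl

theorem J_one : J t k (1 : MulAut (FreeGroup (Fin n))) = 1 := by
  ext j i
  rw [J_apply, MulAut.one_apply, del_of, Matrix.one_apply, Pi.single_apply]

theorem fundamental (w : FreeGroup (Fin n)) :
    (chi t k w : R) - 1 = ((t : R) - 1) * del t k w k := by
  induction w using FreeGroup.induction_on with
  | C1 => rw [del_one]; simp
  | of m =>
    rw [del_of]
    by_cases h : m = k
    · subst h; simp [chi_of_self]
    · rw [chi_of_ne t k h, Pi.single_eq_of_ne (Ne.symm h)]; simp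
  | inv_of m hm =>
    rw [del_inv, map_inv, Pi.smul_apply, smul_eq_mul]
    have h1 : (((chi t k (of m))⁻¹ : Rˣ) : R) * (chi t k (of m) : R) = 1 := Units.inv_mul _
    have hm' : (chi t k (of m) : R) - 1 = ((t : R) - 1) * del t k (of m) k := hm
    linear_combination (-(((chi t k (of m))⁻¹ : Rˣ) : R)) * hm' + h1
  | mul u v hu hv =>
    rw [del_mul, map_mul, Pi.add_apply, Pi.smul_apply, smul_eq_mul, Units.val_mul]
    linear_combination hu + (chi t k u : R) * hv

theorem J_row {φ : MulAut (FreeGroup (Fin n))} (h : φ ∈ IA n) (ht : (t : R) - 1 ∈ nonZeroDivisors R)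
    {i : Fin n} (hi : i ≠ k) : J t k φ k i = 0 := by
  have h1 := fundamental t k (φ (of i))
  rw [hom_IA (chi t k) h, chi_of_ne t k hi, Units.val_one, sub_self] at h1
  exact (mul_left_mem_nonZeroDivisors_eq_zero_iff ht).mp h1.symm

theorem J_mod {φ : MulAut (FreeGroup (Fin n))} (h : φ ∈ IA n) (j i : Fin n) :
    (t : R) - 1 ∣ J t k φ j i - (if j = i then 1 else 0) := by
  rw [← Ideal.mem_span_singleton, ← Ideal.Quotient.eq_zero_iff_mem]
  set f := Ideal.Quotient.mk (Ideal.span {(t : R) - 1}) with hf
  have ft : f t = 1 := by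
    rw [← sub_eq_zero, ← map_one f, ← map_sub, hf, Ideal.Quotient.eq_zero_iff_mem]
    exact Ideal.mem_span_singleton_self _
  have fchi : ∀ w, f (chi t k w : R) = 1 := by
    intro w
    have h1 := fundamental t k w
    have h2 := congrArg f h1
    rw [map_sub, map_mul, map_sub, ft, map_one, sub_self, zero_mul, sub_eq_zero] at h2
    exact h2
  let g : FreeGroup (Fin n) →* Multiplicative (R ⧸ Ideal.span {(t : R) - 1}) :=
    { toFun := fun w => Multiplicative.ofAdd (f (del t k w j))
      map_one' := by rw [del_one]; simp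
      map_mul' := fun u v => by
        rw [del_mul, Pi.add_apply, Pi.smul_apply, smul_eq_mul, map_add, map_mul, fchi, one_mul,
          ofAdd_add] }
  have h3 : g (φ (of i)) = g (of i) := hom_IA g h _
  have h4 : f (del t k (φ (of i)) j) = f (del t k (of i) j) := Multiplicative.ofAdd.injective h3
  rw [map_sub, J_apply, h4, del_of, Pi.single_apply, sub_self]

theorem del_comm (a b : FreeGroup (Fin n)) :
    del t k ⁅a, b⁆ = (1 - (chi t k b : R)) • del t k a - (1 - (chi t k a : R)) • del t k b := by
  rw [commutatorElement_def, del_mul, del_mul, del_mul, del_inv, del_inv, map_mul, map_mul, map_mul,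
    map_inv]
  ext j
  simp only [Pi.add_apply, Pi.smul_apply, Pi.sub_apply, smul_eq_mul, Units.val_mul]
  have h1 : (((chi t k a)⁻¹ : Rˣ) : R) * (chi t k a : R) = 1 := Units.inv_mul _
  have h2 : (((chi t k b)⁻¹ : Rˣ) : R) * (chi t k b : R) = 1 := Units.inv_mul _
  linear_combination (-(chi t k b : R) * del t k a j -
    (chi t k b : R) * (((chi t k b)⁻¹ : Rˣ) : R) * del t k b j) * h1 - del t k b j * h2

theorem del_conj (a b : FreeGroup (Fin n)) :
    del t k (a * b * a⁻¹) = (1 - (chi t k b : R)) • del t k a + (chi t k a : R) • del t k b := by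
  rw [del_mul, del_mul, del_inv, map_mul]
  ext j
  simp only [Pi.add_apply, Pi.smul_apply, Pi.sub_apply, smul_eq_mul, Units.val_mul]
  have h1 : (((chi t k a)⁻¹ : Rˣ) : R) * (chi t k a : R) = 1 := Units.inv_mul _
  linear_combination (-(chi t k b : R) * del t k a j) * h1

end

end Pool.Agent.H76.IADet
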