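import Mathlib
import Pool.Agent.H76.IADetMag

set_option autoImplicit false

namespace Pool.Agent.H76.IADet

open FreeGroup (of)
open scoped commutatorElement

/-- The class two group of pairs `(x, d)`, `x` an integer matrix, `d` an integer vector, with
`(x, d)(x', d') = (x + x', d + d' + 2 diag(x x'))`. -/
@[ext] structure E (n : ℕ) where
  x : Fin n → Fin n → ℤ
  d : Fin n → ℤ

namespace E

variable {n : ℕ}

instance : Mul (E n) := ⟨fun a b => ⟨fun j i => a.x j i + b.x j i,
  fun j => a.d j + b.d j + 2 * ∑ l, a.x j l * b.x l j⟩⟩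
instance : One (E n) := ⟨⟨fun _ _ => 0, fun _ => 0⟩⟩
instance : Inv (E n) := ⟨fun a => ⟨fun j i => -a.x j i,
  fun j => -a.d j + 2 * ∑ l, a.x j l * a.x l j⟩⟩

theorem mul_x (a b : E n) (j i : Fin n) : (a * b).x j i = a.x j i + b.x j i := rfl
theorem mul_d (a b : E n) (j : Fin n) :
    (a * b).d j = a.d j + b.d j + 2 * ∑ l, a.x j l * b.x l j := rfl
theorem one_x (j i : Fin n) : (1 : E n).x j i = 0 := rfl
theorem one_d (j : Fin n) : (1 : E n).d j = 0 := rfl
theorem inv_x (a : E n) (j i : Fin n) : (a⁻¹).x j i = -a.x j i := rfl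
theorem inv_d (a : E n) (j : Fin n) :
    (a⁻¹).d j = -a.d j + 2 * ∑ l, a.x j l * a.x l j := rfl

instance : Group (E n) := Group.ofLeftAxioms
  (fun a b c => by
    ext i
    · simp only [mul_x]; ring
    · simp only [mul_x, mul_d, add_mul, mul_add, Finset.sum_add_distrib]; ring)
  (fun a => by
    ext i
    · simp only [mul_x, one_x, zero_add]
    · simp [mul_d, one_x, one_d])
  (fun a => by
    ext i
    · simp only [mul_x, inv_x, one_x, neg_add_cancel]
    · simp [mul_d, inv_x, inv_d, one_d])

end E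

open PowerSeries in
/-- the unit `1 - X` -/
noncomputable def tX : (PowerSeries ℤ)ˣ :=
  ⟨1 - X, mk 1, by rw [mul_comm]; exact mk_one_mul_one_sub_eq_one ℤ, mk_one_mul_one_sub_eq_one ℤ⟩

open PowerSeries in
theorem tX_val : (tX : PowerSeries ℤ) = 1 - X := rfl

open PowerSeries in
theorem tX_sub : (tX : PowerSeries ℤ) - 1 = -X := by rw [tX_val]; ring

open PowerSeries in
theorem tX_nzd : (tX : PowerSeries ℤ) - 1 ∈ nonZeroDivisors (PowerSeries ℤ) := by
  rw [tX_sub, mem_nonZeroDivisors_iff_ne_zero, neg_ne_zero]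
  exact X_ne_zero

variable {n : ℕ}

theorem c0 (k : Fin n) {φ : MulAut (FreeGroup (Fin n))} (h : φ ∈ IA n) (j i : Fin n) :
    PowerSeries.coeff 0 (J tX k φ j i) = if j = i then 1 else 0 := by
  have h1 := J_mod tX k h j i
  rw [tX_sub, neg_dvd, PowerSeries.X_dvd_iff, map_sub, sub_eq_zero] at h1
  rw [PowerSeries.coeff_zero_eq_constantCoeff_apply, h1]
  split_ifs <;> simp

theorem coeff_mul_one (a b : PowerSeries ℤ) : PowerSeries.coeff 1 (a * b) =
    PowerSeries.coeff 0 a * PowerSeries.coeff 1 b + PowerSeries.coeff 1 a * PowerSeries.coeff 0 b := by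
  rw [PowerSeries.coeff_mul, Finset.Nat.antidiagonal_succ]
  simp

theorem coeff_mul_two (a b : PowerSeries ℤ) : PowerSeries.coeff 2 (a * b) =
    PowerSeries.coeff 0 a * PowerSeries.coeff 2 b + PowerSeries.coeff 1 a * PowerSeries.coeff 1 b +
      PowerSeries.coeff 2 a * PowerSeries.coeff 0 b := by
  have h : Finset.HasAntidiagonal.antidiagonal (2 : ℕ) = {((0 : ℕ), (2 : ℕ)), (1, 1), (2, 0)} := rfl
  rw [PowerSeries.coeff_mul, h, Finset.sum_insert (by decide), Finset.sum_insert (by decide),
    Finset.sum_singleton, add_assoc]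

/-- first coefficients -/
noncomputable def c1 (k : Fin n) (φ : MulAut (FreeGroup (Fin n))) (j i : Fin n) : ℤ :=
  PowerSeries.coeff 1 (J tX k φ j i)

/-- second coefficients -/
noncomputable def c2 (k : Fin n) (φ : MulAut (FreeGroup (Fin n))) (j i : Fin n) : ℤ :=
  PowerSeries.coeff 2 (J tX k φ j i)

theorem c1_mul (k : Fin n) {φ ψ : MulAut (FreeGroup (Fin n))} (h : φ ∈ IA n) (h' : ψ ∈ IA n)
    (j i : Fin n) : c1 k (φ * ψ) j i = c1 k φ j i + c1 k ψ j i := by
  rw [c1, J_mul tX k h, Matrix.mul_apply, map_sum]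
  simp only [coeff_mul_one, c0 k h, c0 k h', Finset.sum_add_distrib, ite_mul, one_mul, zero_mul,
    mul_ite, mul_one, mul_zero, Finset.sum_ite_eq, Finset.sum_ite_eq', Finset.mem_univ, if_true]
  rw [add_comm]; rfl

theorem c2_mul (k : Fin n) {φ ψ : MulAut (FreeGroup (Fin n))} (h : φ ∈ IA n) (h' : ψ ∈ IA n)
    (j i : Fin n) : c2 k (φ * ψ) j i = c2 k φ j i + c2 k ψ j i + ∑ l, c1 k φ j l * c1 k ψ l i := by
  rw [c2, J_mul tX k h, Matrix.mul_apply, map_sum]
  simp only [coeff_mul_two, c0 k h, c0 k h', Finset.sum_add_distrib, ite_mul, one_mul, zero_mul,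
    mul_ite, mul_one, mul_zero, Finset.sum_ite_eq, Finset.sum_ite_eq', Finset.mem_univ, if_true]
  simp only [c1, c2]; ring

theorem c1_row (k : Fin n) {φ : MulAut (FreeGroup (Fin n))} (h : φ ∈ IA n) {i : Fin n} (hi : i ≠ k) :
    c1 k φ k i = 0 := by rw [c1, J_row tX k h tX_nzd hi, map_zero]

/-- matrix part -/
noncomputable def px (k : Fin n) (φ : MulAut (FreeGroup (Fin n))) (j i : Fin n) : ℤ :=
  if j ≠ k ∧ i ≠ k ∧ i ≠ j then c1 k φ j i else 0

/-- diagonal part -/
noncomputable def pd (k : Fin n) (φ : MulAut (FreeGroup (Fin n))) (j : Fin n) : ℤ :=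
  if j ≠ k then 2 * c2 k φ j j - c1 k φ j j ^ 2 - c1 k φ j j else 0

theorem px_mul (k : Fin n) {φ ψ : MulAut (FreeGroup (Fin n))} (h : φ ∈ IA n) (h' : ψ ∈ IA n)
    (j i : Fin n) : px k (φ * ψ) j i = px k φ j i + px k ψ j i := by
  unfold px
  split_ifs
  · exact c1_mul k h h' j i
  · simp

theorem pd_mul (k : Fin n) {φ ψ : MulAut (FreeGroup (Fin n))} (h : φ ∈ IA n) (h' : ψ ∈ IA n)
    (j : Fin n) : pd k (φ * ψ) j = pd k φ j + pd k ψ j + 2 * ∑ l, px k φ j l * px k ψ l j := by
  by_cases hj : j = k
  · subst hj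
    simp [pd, px]
  · have key : ∑ l, c1 k φ j l * c1 k ψ l j = c1 k φ j j * c1 k ψ j j +
        ∑ l, px k φ j l * px k ψ l j := by
      have : ∀ l, c1 k φ j l * c1 k ψ l j = (if l = j then c1 k φ j j * c1 k ψ j j else 0) +
          px k φ j l * px k ψ l j := by
        intro l
        by_cases hl : l = j
        · subst hl; simp [px]
        · by_cases hlk : l = k
          · subst hlk
            rw [c1_row l h' hj]; simp [px, hl]
          · simp [px, hl, hlk, hj, Ne.symm hl]
      rw [Finset.sum_congr rfl (fun l _ => this l), Finset.sum_add_distrib]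
      simp
    simp only [pd, if_pos hj, ne_eq, hj, not_false_eq_true, if_true]
    rw [c2_mul k h h', c1_mul k h h', key]
    ring

/-- the homomorphisms `Φ_k` -/
noncomputable def Phi (k : Fin n) : IA n →* E n where
  toFun φ := ⟨px k φ.1, pd k φ.1⟩
  map_one' := by
    have h : ((1 : IA n) : MulAut (FreeGroup (Fin n))) = 1 := rfl
    ext
    · simp only [h, px, c1, J_one, E.one_x, Matrix.one_apply]
      split_ifs with h1 h2
      · exact absurd h2.symm h1.2.2
      · simp
      · rfl
    · simp only [h, pd, c1, c2, J_one, E.one_d, Matrix.one_apply_eq]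
      split_ifs
      · simp [PowerSeries.coeff_one]
      · rfl
  map_mul' φ ψ := by
    ext
    · exact px_mul k φ.2 ψ.2 _ _
    · exact pd_mul k φ.2 ψ.2 _

theorem Phi_x (k : Fin n) (φ : IA n) : (Phi k φ).x = px k φ.1 := rfl
theorem Phi_d (k : Fin n) (φ : IA n) : (Phi k φ).d = pd k φ.1 := rfl

/-! ### values on generators -/

theorem chi_tX_coeff1 (k j : Fin n) :
    PowerSeries.coeff 1 (1 - (chi tX k (of j) : PowerSeries ℤ)) = if j = k then 1 else 0 := by
  by_cases h : j = k
  · subst h; rw [chi_of_self, tX_val]; simp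
  · rw [chi_of_ne tX k h]; simp [h]

theorem chi_tX_coeff2 (k j : Fin n) :
    PowerSeries.coeff 2 (chi tX k (of j) : PowerSeries ℤ) = 0 := by
  by_cases h : j = k
  · subst h; rw [chi_of_self, tX_val]; simp [PowerSeries.coeff_one, PowerSeries.coeff_X]
  · rw [chi_of_ne tX k h]; simp [PowerSeries.coeff_one]

theorem J_fixed {R : Type} [CommRing R] (t : Rˣ) (k : Fin n) {φ : MulAut (FreeGroup (Fin n))}
    {i : Fin n} (h : φ (of i) = of i) (j : Fin n) : J t k φ j i = if j = i then 1 else 0 := by
  rw [J_apply, h, del_of, Pi.single_apply]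

theorem Phi_K (k : Fin n) (φ : IA n) {i j : Fin n} (hij : i ≠ j)
    (h1 : φ.1 (of i) = of j * of i * (of j)⁻¹) (h2 : ∀ m, m ≠ i → φ.1 (of m) = of m) :
    Phi k φ = 1 := by
  ext a b
  · rw [Phi_x, E.one_x, px]
    split_ifs with h
    · rw [c1]
      by_cases hb : b = i
      · subst hb
        rw [J_apply, h1, del_conj, chi_of_ne tX k h.2.1, Units.val_one, sub_self, zero_smul, zero_add,
          del_of, Pi.smul_apply, Pi.single_eq_of_ne h.2.2.symm]
        simp
      · rw [J_fixed tX k (h2 b hb), if_neg h.2.2.symm, map_zero]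
    · rfl
  · rw [Phi_d, E.one_d, pd]
    split_ifs with h
    · rw [c1, c2]
      by_cases hb : a = i
      · subst hb
        rw [J_apply, h1, del_conj, chi_of_ne tX k h, Units.val_one, sub_self, zero_smul, zero_add,
          del_of, Pi.smul_apply, Pi.single_eq_same, smul_eq_mul, mul_one, chi_tX_coeff2]
        have h3 := chi_tX_coeff1 k j
        rw [map_sub] at h3
        have h4 : PowerSeries.coeff 1 (1 : PowerSeries ℤ) = 0 := by simp [PowerSeries.coeff_one]
        rw [h4] at h3
        have h5 : PowerSeries.coeff 1 (chi tX k (of j) : PowerSeries ℤ) = -(if j = k then 1 else 0) := by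
          linarith
        rw [h5]
        split_ifs <;> norm_num
      · rw [J_fixed tX k (h2 a hb), if_pos rfl]
        simp [PowerSeries.coeff_one]
    · rfl

/-- value on `K_{ijl}` : the matrix is `[l = k] E_{ji} - [j = k] E_{li}` -/
theorem Phi_T (k : Fin n) (φ : IA n) {i j l : Fin n} (hij : i ≠ j) (hil : i ≠ l) (hjl : j ≠ l)
    (h1 : φ.1 (of i) = of i * (of j * of l * (of j)⁻¹ * (of l)⁻¹))
    (h2 : ∀ m, m ≠ i → φ.1 (of m) = of m) :
    Phi k φ = ⟨fun a b => if b = i ∧ a = j ∧ l = k then 1 else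
      if b = i ∧ a = l ∧ j = k then -1 else 0, fun _ => 0⟩ := by
  have hcol : ∀ a, i ≠ k → J tX k φ.1 a i = (if a = i then 1 else 0) +
      ((1 - (chi tX k (of l) : PowerSeries ℤ)) * (if a = j then 1 else 0) -
        (1 - (chi tX k (of j) : PowerSeries ℤ)) * (if a = l then 1 else 0)) := by
    intro a hik
    have h3 := del_comm tX k (of j) (of l)
    rw [commutatorElement_def] at h3
    rw [J_apply, h1, del_mul, h3, chi_of_ne tX k hik, Units.val_one, one_smul, del_of, del_of, del_of]
    simp only [Pi.add_apply, Pi.sub_apply, Pi.smul_apply, Pi.single_apply, smul_eq_mul]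
  ext a b
  · rw [Phi_x, px]
    change _ = if b = i ∧ a = j ∧ l = k then (1 : ℤ) else if b = i ∧ a = l ∧ j = k then -1 else 0
    by_cases hb : b = i
    · subst hb
      by_cases hik : b = k
      · subst hik
        rw [if_neg (fun h => h.2.1 rfl), if_neg (fun h => hil h.2.2.symm),
          if_neg (fun h => hij h.2.2.symm)]
      · by_cases hak : a = k
        · subst hak
          rw [if_neg (fun h => h.1 rfl), if_neg (fun h => hjl (h.2.1.symm.trans h.2.2.symm)),
            if_neg (fun h => hjl (h.2.2.trans h.2.1))]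
        · by_cases hab : a = b
          · subst hab
            rw [if_neg (fun h => h.2.2 rfl), if_neg (fun h => hij h.2.1), if_neg (fun h => hil h.2.1)]
          · rw [if_pos ⟨hak, hik, Ne.symm hab⟩, c1, hcol a hik, if_neg hab, zero_add]
            simp only [true_and]
            by_cases haj : a = j
            · subst haj
              rw [if_pos rfl, if_neg hjl, mul_one, mul_zero, sub_zero, chi_tX_coeff1]
              simp [hak]
            · by_cases hal : a = l
              · subst hal
                rw [if_neg haj, if_pos rfl, mul_zero, mul_one, zero_sub, map_neg, chi_tX_coeff1]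
                simp only [haj, false_and, if_false, true_and]
                split_ifs <;> rfl
              · rw [if_neg haj, if_neg hal, mul_zero, mul_zero, sub_zero, map_zero]
                simp [haj, hal]
    · have e1 : ¬ (b = i ∧ a = j ∧ l = k) := fun h => hb h.1
      have e2 : ¬ (b = i ∧ a = l ∧ j = k) := fun h => hb h.1
      rw [if_neg e1, if_neg e2]
      split_ifs with h
      · rw [c1, J_fixed tX k (h2 b hb), if_neg h.2.2.symm, map_zero]
      · rfl
  · rw [Phi_d, pd]
    change _ = (0 : ℤ)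
    split_ifs with h
    · have hJ : J tX k φ.1 a a = 1 := by
        by_cases ha : a = i
        · subst ha
          rw [hcol a h, if_pos rfl, if_neg hij, if_neg hil, mul_zero, mul_zero, sub_zero, add_zero]
        · rw [J_fixed tX k (h2 a ha), if_pos rfl]
      rw [c1, c2, hJ]
      simp [PowerSeries.coeff_one]
    · rfl

end Pool.Agent.H76.IADet
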