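import Mathlib
import Pool.Agent.H76.IADetK
import Pool.Agent.H76.IADetPhi

set_option autoImplicit false

namespace Pool.Agent.H76.IADet

open FreeGroup (of)
open scoped commutatorElement

/-! ### a general lemma -/

theorem coords {G ι : Type*} [Group G] [Fintype ι] [DecidableEq ι] (u : ι → G) (f : ι → G → ℤ) (m : ℤ)
    (hm : m ≠ 0)
    (hf : ∀ j, ∀ g ∈ Subgroup.closure (Set.range u), ∀ h ∈ Subgroup.closure (Set.range u),
      f j (g * h) = f j g + f j h)
    (hu : ∀ i j, f j (u i) = if i = j then m else 0) {g : G}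
    (hg : g ∈ Subgroup.closure (Set.range u)) (h0 : ∀ j, f j g = 0) :
    g ∈ ⁅Subgroup.closure (Set.range u), Subgroup.closure (Set.range u)⁆ := by
  set H := Subgroup.closure (Set.range u) with hH
  let u' : ι → H := fun i => ⟨u i, Subgroup.subset_closure ⟨i, rfl⟩⟩
  have key : ∀ g (hg : g ∈ H), ∃ e : ι → ℤ, Abelianization.of (⟨g, hg⟩ : H) =
      ∏ i, (Abelianization.of (u' i)) ^ (e i) := by
    intro g hg
    refine Subgroup.closure_induction (p := fun g hg => ∃ e : ι → ℤ, Abelianization.of (⟨g, hg⟩ : H) =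
      ∏ i, (Abelianization.of (u' i)) ^ (e i)) ?_ ?_ ?_ ?_ hg
    · rintro x ⟨i, rfl⟩
      refine ⟨fun j => if j = i then 1 else 0, ?_⟩
      rw [Finset.prod_eq_single i]
      · change _ = Abelianization.of (u' i) ^ (if i = i then (1 : ℤ) else 0)
        rw [if_pos rfl, zpow_one]
      · intro j _ hj
        change Abelianization.of (u' j) ^ (if j = i then (1 : ℤ) else 0) = 1
        rw [if_neg hj, zpow_zero]
      · intro h; exact absurd (Finset.mem_univ _) h
    · refine ⟨fun _ => 0, ?_⟩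
      simp only [zpow_zero, Finset.prod_const_one]
      exact map_one _
    · rintro x y hx hy ⟨e1, h1⟩ ⟨e2, h2⟩
      refine ⟨fun i => e1 i + e2 i, ?_⟩
      have : (⟨x * y, mul_mem hx hy⟩ : H) = ⟨x, hx⟩ * ⟨y, hy⟩ := rfl
      rw [this, map_mul, h1, h2, ← Finset.prod_mul_distrib]
      exact Finset.prod_congr rfl (fun i _ => (zpow_add _ _ _).symm)
    · rintro x hx ⟨e, h⟩
      refine ⟨fun i => -e i, ?_⟩
      have : (⟨x⁻¹, inv_mem hx⟩ : H) = (⟨x, hx⟩ : H)⁻¹ := rfl
      rw [this, map_inv, h, ← Finset.prod_inv_distrib]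
      exact Finset.prod_congr rfl (fun i _ => (zpow_neg _ _).symm)
  obtain ⟨e, he⟩ := key g hg
  -- the homs
  let F : ι → (H →* Multiplicative ℤ) := fun j =>
    { toFun := fun x => Multiplicative.ofAdd (f j x.1)
      map_one' := by
        have := hf j 1 (one_mem _) 1 (one_mem _)
        rw [mul_one] at this
        have h1 : f j 1 = 0 := by linarith
        change Multiplicative.ofAdd (f j 1) = 1
        rw [h1]; rfl
      map_mul' := fun x y => by
        change Multiplicative.ofAdd (f j (x.1 * y.1)) = _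
        rw [hf j _ x.2 _ y.2]; rfl }
  have he0 : ∀ j, e j = 0 := by
    intro j
    have h1 := congrArg (Abelianization.lift (F j)) he
    rw [Abelianization.lift_apply_of, map_prod] at h1
    have h2 : ∀ i, Abelianization.lift (F j) (Abelianization.of (u' i) ^ e i) =
        Multiplicative.ofAdd (e i * (if i = j then m else 0)) := by
      intro i
      rw [map_zpow, Abelianization.lift_apply_of]
      change (Multiplicative.ofAdd (f j (u i))) ^ e i = _
      rw [hu, ← ofAdd_zsmul, smul_eq_mul]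
    rw [Finset.prod_congr rfl (fun i _ => h2 i), ← ofAdd_sum] at h1
    have h3 : f j g = ∑ i, e i * (if i = j then m else 0) := Multiplicative.ofAdd.injective h1
    rw [h0 j, Finset.sum_eq_single j] at h3
    · rw [if_pos rfl] at h3
      rcases mul_eq_zero.mp h3.symm with h | h
      · exact h
      · exact absurd h hm
    · intro i _ hi; rw [if_neg hi, mul_zero]
    · intro h; exact absurd (Finset.mem_univ _) h
  have h1 : Abelianization.of (⟨g, hg⟩ : H) = 1 := by
    rw [he]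
    exact Finset.prod_eq_one (fun i _ => by rw [he0 i, zpow_zero])
  have h2 : (⟨g, hg⟩ : H) ∈ commutator H := (QuotientGroup.eq_one_iff _).mp h1
  have h3 : (commutator H).map H.subtype = ⁅H, H⁆ := Subgroup.map_subtype_commutator H
  rw [← h3]
  exact ⟨⟨g, hg⟩, h2, rfl⟩

variable {n : ℕ}

/-! ### the homomorphisms on `Q` -/

theorem Phi_C (c : Fin n) : Subgroup.normalClosure (C n : Set (IA n)) ≤ (Phi c).ker := by
  apply Subgroup.normalClosure_le_normal
  intro φ hφ
  have : C n ≤ (Phi c).ker := by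
    rw [C, Subgroup.closure_le]
    rintro φ ⟨i, j, hij, h1, h2⟩
    exact Phi_K c φ hij h1 h2
  exact this hφ

/-- the homomorphisms on the quotient -/
noncomputable def PhiQ (c : Fin n) : Q n →* E n :=
  QuotientGroup.lift _ (Phi c) (fun φ hφ => Phi_C c hφ)

theorem PhiQ_mk (c : Fin n) (φ : IA n) : PhiQ c (QuotientGroup.mk φ) = Phi c φ := rfl

theorem PhiQ_k (c : Fin n) {i j l : Fin n} (hij : i ≠ j) (hil : i ≠ l) (hjl : j ≠ l) :
    PhiQ c (k i j l) = ⟨fun a b => if b = i ∧ a = j ∧ l = c then 1 else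
      if b = i ∧ a = l ∧ j = c then -1 else 0, fun _ => 0⟩ := by
  rw [k, beta, rho, q_of (R_mem_IA i (comm_mem_D _ _)), PhiQ_mk]
  apply Phi_T c _ hij hil hjl
  · change B i 1 ⁅of j, of l⁆ (of i) = _
    rw [B_self, map_one, one_mul, kill_comm_of (kill_ne hij.symm) (kill_ne hil.symm)]
    rfl
  · intro m hm
    exact B_ne hm _ _

theorem E.comm_x (A B : E n) (j i : Fin n) : (⁅A, B⁆).x j i = 0 := by
  rw [commutatorElement_def]
  simp only [E.mul_x, E.inv_x]; ring

theorem E.comm_d (A B : E n) (j : Fin n) : (⁅A, B⁆).d j =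
    2 * ∑ l, A.x j l * B.x l j - 2 * ∑ l, B.x j l * A.x l j := by
  have h : A * B = ⁅A, B⁆ * (B * A) := by rw [commutatorElement_def]; group
  have h1 := congrArg (fun X : E n => X.d j) h
  simp only [E.mul_d, E.comm_x, zero_mul, Finset.sum_const_zero, mul_zero, add_zero] at h1
  linarith

/-- value on `H_c(i,j)` -/
theorem PhiQ_H_self (c : Fin n) {i j : Fin n} (hij : i ≠ j) (hic : i ≠ c) (hjc : j ≠ c) (a : Fin n) :
    (PhiQ c (H c i j)).d a = if a = j then 2 else if a = i then -2 else 0 := by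
  rw [H, map_commutatorElement, E.comm_d, PhiQ_k c hij hic hjc, PhiQ_k c hij.symm hjc hic]
  simp only [and_true, hic, hjc, and_false, if_false]
  have h1 : ∑ l, (if l = i ∧ a = j then (1 : ℤ) else 0) * (if a = j ∧ l = i then (1 : ℤ) else 0) =
      if a = j then 1 else 0 := by
    rw [Finset.sum_eq_single i]
    · by_cases h : a = j <;> simp [h]
    · intro l _ hl; simp [hl]
    · intro h; exact absurd (Finset.mem_univ _) h
  have h2 : ∑ l, (if l = j ∧ a = i then (1 : ℤ) else 0) * (if a = i ∧ l = j then (1 : ℤ) else 0) =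
      if a = i then 1 else 0 := by
    rw [Finset.sum_eq_single j]
    · by_cases h : a = i <;> simp [h]
    · intro l _ hl; simp [hl]
    · intro h; exact absurd (Finset.mem_univ _) h
  rw [h1, h2]
  by_cases h : a = j
  · subst h; simp [hij.symm]
  · simp only [h, if_false]
    split_ifs <;> norm_num

theorem PhiQ_H_ne {c c' : Fin n} (hcc : c ≠ c') {i j : Fin n} (hij : i ≠ j) (hic : i ≠ c')
    (hjc : j ≠ c') (a : Fin n) : (PhiQ c (H c' i j)).d a = 0 := by
  rw [H, map_commutatorElement, E.comm_d, PhiQ_k c hij hic hjc, PhiQ_k c hij.symm hjc hic]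
  have e1 : ¬ (c' = c) := fun h => hcc h.symm
  simp only [e1, and_false, if_false]
  by_cases h1 : j = c
  · have h2 : ¬ (i = c) := fun h => hij (h.trans h1.symm)
    simp [h2]
  · simp [h1]

theorem PhiQ_H_x (c c' : Fin n) (i j a b : Fin n) : (PhiQ c (H c' i j)).x a b = 0 := by
  rw [H, map_commutatorElement, E.comm_x]

/-! ### generators -/

/-- the index set of the generators -/
abbrev Ix (n : ℕ) := {t : Fin n × Fin n × Fin n // t.1 ≠ t.2.1 ∧ t.2.1 < t.2.2 ∧ t.2.2 ≠ t.1}

/-- the generators -/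
noncomputable def ku (t : Ix n) : Q n := k t.1.1 t.1.2.1 t.1.2.2

/-- the subgroup generated by the `k_{i;jl}` -/
noncomputable def KK (n : ℕ) : Subgroup (Q n) := Subgroup.closure (Set.range (ku (n := n)))

theorem k_mem {i j l : Fin n} (hij : i ≠ j) (hil : i ≠ l) (hjl : j ≠ l) : k i j l ∈ KK n := by
  rcases lt_or_gt_of_ne hjl with h | h
  · exact Subgroup.subset_closure ⟨⟨(i, j, l), hij, h, hil.symm⟩, rfl⟩
  · have h1 : k i l j ∈ KK n := Subgroup.subset_closure ⟨⟨(i, l, j), hil, h, hij.symm⟩, rfl⟩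
    rw [k_swap]
    exact inv_mem h1

theorem mk_T {φ : IA n} (hφ : φ ∈ T n) : (QuotientGroup.mk φ : Q n) ∈ KK n := by
  refine Subgroup.closure_induction (p := fun φ _ => (QuotientGroup.mk φ : Q n) ∈ KK n) ?_ ?_ ?_ ?_ hφ
  · rintro φ ⟨i, j, l, hij, hjl, hli, h1, h2⟩
    have : φ = ⟨B i 1 ⁅of j, of l⁆, R_mem_IA i (comm_mem_D _ _)⟩ := by
      apply Subtype.ext
      apply aut_ext
      intro m
      by_cases hm : m = i
      · subst hm
        rw [h1, B_self, map_one, one_mul, kill_comm_of (kill_ne hij.symm) (kill_ne hli)]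
        rfl
      · rw [h2 m hm, B_ne hm]
    rw [this, ← q_of]
    exact k_mem hij hli.symm hjl.ne
  · exact one_mem _
  · intro x y _ _ hx hy
    exact mul_mem hx hy
  · intro x _ hx
    exact inv_mem hx

/-- the commutators -/
noncomputable def ZZ (n : ℕ) : Subgroup (Q n) :=
  Subgroup.closure {z | ∃ c i j : Fin n, i ≠ j ∧ c ≠ i ∧ c ≠ j ∧ z = H c i j}

theorem Z_comm (hn : 4 ≤ n) {z g : Q n} (hz : z ∈ ZZ n) (hg : g ∈ KK n) : Commute g z := by
  have h1 : ∀ g ∈ KK n, ∀ c i j : Fin n, i ≠ j → c ≠ i → c ≠ j → Commute g (H c i j) := by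
    intro g hg c i j hij hci hcj
    refine Subgroup.closure_induction (p := fun g _ => Commute g (H c i j)) ?_ ?_ ?_ ?_ hg
    · rintro x ⟨⟨⟨a, b, d⟩, h1, h2, h3⟩, rfl⟩
      exact H_central hn hij.symm hcj hci h1 (Ne.symm h3) h2.ne
    · exact Commute.one_left _
    · intro x y _ _ hx hy; exact hx.mul_left hy
    · intro x _ hx; exact hx.inv_left
  refine Subgroup.closure_induction (p := fun z _ => Commute g z) ?_ ?_ ?_ ?_ hz
  · rintro z ⟨c, i, j, hij, hci, hcj, rfl⟩
    exact h1 g hg c i j hij hci hcj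
  · exact Commute.one_right _
  · intro x y _ _ hx hy; exact hx.mul_right hy
  · intro x _ hx; exact hx.inv_right

theorem comm_gen {i j l p r s : Fin n} (hn : 4 ≤ n) (h1 : i ≠ j) (h2 : i ≠ l) (h3 : j ≠ l)
    (h4 : p ≠ r) (h5 : p ≠ s) (h6 : r ≠ s) : ⁅k i j l, k p r s⁆ ∈ ZZ n := by
  have key : ∀ {a b c : Fin n}, a ≠ b → c ≠ a → c ≠ b → ⁅k a b c, k b a c⁆ ∈ ZZ n :=
    fun {a b c} hab hca hcb => Subgroup.subset_closure ⟨c, a, b, hab, hca, hcb, rfl⟩
  have key2 : ∀ {a b c : Fin n}, a ≠ b → c ≠ a → c ≠ b → ⁅k a b c, (k b a c)⁻¹⁆ ∈ ZZ n := by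
    intro a b c hab hca hcb
    have h := Z_comm hn (key hab hca hcb) (k_mem hab.symm hcb.symm hca.symm)
    have e : ⁅k a b c, (k b a c)⁻¹⁆ = (k b a c)⁻¹ * ⁅k a b c, k b a c⁆⁻¹ * k b a c := by
      simp only [commutatorElement_def]; group
    rw [e, mul_assoc, h.inv_right.symm.eq, inv_mul_cancel_left]
    exact inv_mem (key hab hca hcb)
  have key3 : ∀ {a b c : Fin n}, a ≠ b → c ≠ a → c ≠ b → ⁅(k a b c)⁻¹, k b a c⁆ ∈ ZZ n := by
    intro a b c hab hca hcb
    have := key2 hab.symm hcb hca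
    rw [← commutatorElement_inv]
    exact inv_mem this
  have key4 : ∀ {a b c : Fin n}, a ≠ b → c ≠ a → c ≠ b → ⁅(k a b c)⁻¹, (k b a c)⁻¹⁆ ∈ ZZ n := by
    intro a b c hab hca hcb
    have h := Z_comm hn (key3 hab hca hcb) (k_mem hab.symm hcb.symm hca.symm)
    have e : ⁅(k a b c)⁻¹, (k b a c)⁻¹⁆ = (k b a c)⁻¹ * ⁅(k a b c)⁻¹, k b a c⁆⁻¹ * k b a c := by
      simp only [commutatorElement_def]; group
    rw [e, mul_assoc, h.inv_right.symm.eq, inv_mul_cancel_left]
    exact inv_mem (key3 hab hca hcb)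
  by_cases he : ∃ e, (e = p ∨ e = r ∨ e = s) ∧ e ≠ i ∧ e ≠ j ∧ e ≠ l
  · obtain ⟨e, he, hi, hj, hl⟩ := he
    rw [commutatorElement_eq_one_iff_commute.mpr (comm_k h1 h2 h3 h4 h5 h6 e he hi hj hl)]
    exact one_mem _
  · push Not at he
    by_cases hip : i = p
    · subst hip
      have hc : Commute (k i j l) (k i r s) := beta_comm _ _ _ _ _
      rw [commutatorElement_eq_one_iff_commute.mpr hc]
      exact one_mem _
    · have hp : p = j ∨ p = l := by
        by_contra hcon
        push Not at hcon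
        exact hcon.2 (he p (Or.inl rfl) (Ne.symm hip) hcon.1)
      have hr : r = i ∨ r = j ∨ r = l := by
        by_contra hcon
        push Not at hcon
        exact hcon.2.2 (he r (Or.inr (Or.inl rfl)) hcon.1 hcon.2.1)
      have hs : s = i ∨ s = j ∨ s = l := by
        by_contra hcon
        push Not at hcon
        exact hcon.2.2 (he s (Or.inr (Or.inr rfl)) hcon.1 hcon.2.1)
      rcases hp with rfl | rfl
      · -- p = j
        rcases hr with rfl | rfl | rfl
        · rcases hs with rfl | rfl | rfl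
          · exact absurd rfl h6
          · exact absurd rfl h5
          · exact key h1 h2.symm h3.symm
        · exact absurd rfl h4
        · rcases hs with rfl | rfl | rfl
          · rw [k_swap p s r]
            exact key2 h1 h2.symm h3.symm
          · exact absurd rfl h5
          · exact absurd rfl h6
      · -- p = l
        rcases hr with rfl | rfl | rfl
        · rcases hs with rfl | rfl | rfl
          · exact absurd rfl h6
          · rw [k_swap r p s]
            exact key3 h2 h1.symm h3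
          · exact absurd rfl h5
        · rcases hs with rfl | rfl | rfl
          · rw [k_swap s p r, k_swap p s r]
            exact key4 h2 h1.symm h3
          · exact absurd rfl h6
          · exact absurd rfl h5
        · exact absurd rfl h4

theorem comm_KK (hn : 4 ≤ n) : ⁅KK n, KK n⁆ ≤ ZZ n := by
  rw [Subgroup.commutator_le]
  intro g hg
  have gen : ∀ x ∈ Set.range (ku (n := n)), ∀ h ∈ KK n, ⁅x, h⁆ ∈ ZZ n := by
    rintro x ⟨⟨⟨a, b, d⟩, h1, h2, h3⟩, rfl⟩ h hh
    refine Subgroup.closure_induction (p := fun h _ => ⁅ku ⟨(a, b, d), h1, h2, h3⟩, h⁆ ∈ ZZ n)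
      ?_ ?_ ?_ ?_ hh
    · rintro y ⟨⟨⟨a', b', d'⟩, h1', h2', h3'⟩, rfl⟩
      exact comm_gen hn h1 (Ne.symm h3) h2.ne h1' (Ne.symm h3') h2'.ne
    · rw [commutatorElement_one_right]; exact one_mem _
    · intro x y hx hy hx' hy'
      have e : ⁅ku ⟨(a, b, d), h1, h2, h3⟩, x * y⁆ = ⁅ku ⟨(a, b, d), h1, h2, h3⟩, x⁆ *
          (x * ⁅ku ⟨(a, b, d), h1, h2, h3⟩, y⁆ * x⁻¹) := by
        simp only [commutatorElement_def]; group
      rw [e, (Z_comm hn hy' hx).eq, mul_inv_cancel_right]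
      exact mul_mem hx' hy'
    · intro x hx hx'
      have e : ⁅ku ⟨(a, b, d), h1, h2, h3⟩, x⁻¹⁆ = x⁻¹ * (⁅ku ⟨(a, b, d), h1, h2, h3⟩, x⁆⁻¹ * x) := by
        simp only [commutatorElement_def]; group
      rw [e, (Z_comm hn hx' hx).inv_right.symm.eq, inv_mul_cancel_left]
      exact inv_mem hx'
  refine Subgroup.closure_induction (p := fun g _ => ∀ h ∈ KK n, ⁅g, h⁆ ∈ ZZ n) ?_ ?_ ?_ ?_ hg
  · exact gen
  · intro h _; rw [commutatorElement_one_left]; exact one_mem _
  · intro x y hx hy hx' hy' h hh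
    have e : ⁅x * y, h⁆ = (x * ⁅y, h⁆ * x⁻¹) * ⁅x, h⁆ := by
      simp only [commutatorElement_def]; group
    rw [e, (Z_comm hn (hy' h hh) hx).eq, mul_inv_cancel_right]
    exact mul_mem (hy' h hh) (hx' h hh)
  · intro x hx hx' h hh
    have e : ⁅x⁻¹, h⁆ = x⁻¹ * (⁅x, h⁆⁻¹ * x) := by
      simp only [commutatorElement_def]; group
    rw [e, (Z_comm hn (hx' h hh) hx).inv_right.symm.eq, inv_mul_cancel_left]
    exact inv_mem (hx' h hh)

/-! ### the centre part -/

/-- base point -/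
def bb (hn : 4 ≤ n) (c : Fin n) : Fin n := if c = ⟨0, by omega⟩ then ⟨1, by omega⟩ else ⟨0, by omega⟩

theorem bb_ne (hn : 4 ≤ n) (c : Fin n) : bb hn c ≠ c := by
  unfold bb
  split_ifs with h
  · subst h; simp [Fin.ext_iff]
  · exact Ne.symm h

/-- index set of the commutators -/
abbrev Jx (hn : 4 ≤ n) := {t : Fin n × Fin n // t.2 ≠ t.1 ∧ t.2 ≠ bb hn t.1}

/-- generators of the commutator subgroup -/
noncomputable def zu (hn : 4 ≤ n) (t : Jx hn) : Q n := H t.1.1 t.1.2 (bb hn t.1.1)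

theorem Z_le (hn : 4 ≤ n) : ZZ n ≤ Subgroup.closure (Set.range (zu hn)) := by
  rw [ZZ, Subgroup.closure_le]
  rintro z ⟨c, i, j, hij, hci, hcj, rfl⟩
  have hg : ∀ i, i ≠ c → i ≠ bb hn c → H c i (bb hn c) ∈ Subgroup.closure (Set.range (zu hn)) :=
    fun i h1 h2 => Subgroup.subset_closure ⟨⟨(c, i), h1, h2⟩, rfl⟩
  by_cases h1 : j = bb hn c
  · rw [h1] at hij ⊢
    exact hg i hci.symm hij
  · by_cases h2 : i = bb hn c
    · rw [h2, H_swap]
      exact inv_mem (hg j hcj.symm h1)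
    · have h3 := R4 hn (a := j) (b := i) (c := c) (e := bb hn c) hij.symm hcj hci (Ne.symm h1) (Ne.symm h2)
        (bb_ne hn c)
      rw [← h3, H_swap c j (bb hn c)]
      exact mul_mem (inv_mem (hg j hcj.symm h1)) (hg i hci.symm h2)

theorem zu_mem (hn : 4 ≤ n) (t : Jx hn) : zu hn t ∈ ZZ n :=
  Subgroup.subset_closure ⟨t.1.1, t.1.2, bb hn t.1.1, t.2.2, Ne.symm t.2.1, Ne.symm (bb_ne hn _), rfl⟩

theorem Z_x {z : Q n} (hz : z ∈ ZZ n) (c a b : Fin n) : (PhiQ c z).x a b = 0 := by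
  refine Subgroup.closure_induction (p := fun z _ => (PhiQ c z).x a b = 0) ?_ ?_ ?_ ?_ hz
  · rintro z ⟨c', i, j, _, _, _, rfl⟩
    exact PhiQ_H_x c c' i j a b
  · rw [map_one]; rfl
  · intro x y _ _ hx hy; rw [map_mul, E.mul_x, hx, hy, add_zero]
  · intro x _ hx; rw [map_inv, E.inv_x, hx, neg_zero]

theorem Z_KK : ZZ n ≤ KK n := by
  rw [ZZ, Subgroup.closure_le]
  rintro z ⟨c, i, j, hij, hci, hcj, rfl⟩
  have h1 := k_mem hij hci.symm hcj.symm
  have h2 := k_mem hij.symm hcj.symm hci.symm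
  rw [H, commutatorElement_def]
  exact mul_mem (mul_mem (mul_mem h1 h2) (inv_mem h1)) (inv_mem h2)

/-- the group generated by the `k_{i;jl}` is detected by the `Φ_c` -/
theorem det_Q (hn : 4 ≤ n) {g : Q n} (hg : g ∈ KK n) (h : ∀ c, PhiQ c g = 1) : g = 1 := by
  -- step 1
  have s1 : g ∈ ZZ n := by
    apply comm_KK hn
    refine coords (ku (n := n)) (fun t g => (PhiQ t.1.2.2 g).x t.1.2.1 t.1.1) 1 one_ne_zero ?_ ?_ hg ?_
    · intro t x _ y _
      change (PhiQ t.1.2.2 (x * y)).x _ _ = _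
      rw [map_mul, E.mul_x]
    · rintro ⟨⟨i, j, l⟩, h1, h2, h3⟩ ⟨⟨a, b, d⟩, h1', h2', h3'⟩
      change (PhiQ d (k i j l)).x b a = _
      simp only at h1 h2 h3 h1' h2' h3'
      rw [PhiQ_k d h1 (Ne.symm h3) h2.ne]
      simp only [Subtype.mk.injEq, Prod.mk.injEq]
      by_cases e : i = a ∧ j = b ∧ l = d
      · obtain ⟨rfl, rfl, rfl⟩ := e
        simp
      · rw [if_neg e]
        have e1 : ¬ (a = i ∧ b = j ∧ l = d) := fun h => e ⟨h.1.symm, h.2.1.symm, h.2.2⟩
        have e2 : ¬ (a = i ∧ b = l ∧ j = d) := by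
          rintro ⟨_, rfl, rfl⟩
          exact absurd h2' (not_lt.mpr h2.le)
        rw [if_neg e1, if_neg e2]
    · intro t
      change (PhiQ t.1.2.2 g).x _ _ = 0
      rw [h]; rfl
  -- step 2
  have s2 : g ∈ ⁅Subgroup.closure (Set.range (zu hn)), Subgroup.closure (Set.range (zu hn))⁆ := by
    have hle : Subgroup.closure (Set.range (zu hn)) ≤ ZZ n := by
      rw [Subgroup.closure_le]
      rintro z ⟨t, rfl⟩
      exact zu_mem hn t
    refine coords (zu hn) (fun t g => (PhiQ t.1.1 g).d t.1.2) (-2) (by norm_num) ?_ ?_ (Z_le hn s1) ?_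
    · intro t x hx y hy
      change (PhiQ t.1.1 (x * y)).d _ = _
      rw [map_mul, E.mul_d]
      simp only [Z_x (hle hx), zero_mul, Finset.sum_const_zero, mul_zero, add_zero]
    · rintro ⟨⟨c, i⟩, h1, h2⟩ ⟨⟨c', i'⟩, h1', h2'⟩
      change (PhiQ c' (H c i (bb hn c))).d i' = _
      simp only at h1 h2 h1' h2'
      simp only [Subtype.mk.injEq, Prod.mk.injEq]
      by_cases hc : c = c'
      · subst hc
        rw [PhiQ_H_self c h2 h1 (bb_ne hn c), if_neg h2']
        by_cases hi : i' = i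
        · subst hi; simp
        · rw [if_neg hi, if_neg (fun h => hi h.2.symm)]
      · rw [PhiQ_H_ne (Ne.symm hc) h2 h1 (bb_ne hn c), if_neg (fun h => hc h.1)]
    · intro t
      change (PhiQ t.1.1 g).d _ = 0
      rw [h]; rfl
  have s3 : ⁅Subgroup.closure (Set.range (zu hn)), Subgroup.closure (Set.range (zu hn))⁆ ≤ ⊥ := by
    have hle : Subgroup.closure (Set.range (zu hn)) ≤ ZZ n := by
      rw [Subgroup.closure_le]
      rintro z ⟨t, rfl⟩
      exact zu_mem hn t
    rw [Subgroup.commutator_le]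
    intro x hx y hy
    rw [Subgroup.mem_bot, commutatorElement_eq_one_iff_commute]
    exact Z_comm hn (hle hy) (Z_KK (hle hx))
  exact Subgroup.mem_bot.mp (s3 s2)

theorem det4 (hn : 4 ≤ n) {φ : IA n} (hφ : φ ∈ T n) :
    φ ∈ Subgroup.normalClosure (C n : Set (IA n)) ↔ ∀ c, Phi c φ = 1 := by
  constructor
  · intro h c
    exact Phi_C c h
  · intro h
    rw [← QuotientGroup.eq_one_iff]
    exact det_Q hn (mk_T hφ) (fun c => by rw [PhiQ_mk]; exact h c)

end Pool.Agent.H76.IADet
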