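import Mathlib
import Pool.Agent.H76.IADetR

set_option autoImplicit false

namespace Pool.Agent.H76.IADet

open FreeGroup (of)
open scoped commutatorElement

variable {n : ℕ}

/-! ### conjugations `κ` -/

/-- `x_a ↦ g x_a g⁻¹`, fixing `x_a x_b` -/
def kap (a b : Fin n) (g : FreeGroup (Fin n)) : MulAut (FreeGroup (Fin n)) :=
  th a b * B a g g⁻¹ * (th a b)⁻¹

/-- `x_a ↦ x_a v` fixing `x_a x_b` -/
def SR (a b : Fin n) (v : FreeGroup (Fin n)) : MulAut (FreeGroup (Fin n)) :=
  th a b * B a 1 v * (th a b)⁻¹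

theorem kap_mem_IA (a b : Fin n) (g : FreeGroup (Fin n)) : kap a b g ∈ IA n :=
  conj_mem_IA (K_mem_IA a g) _

theorem SR_mem_IA (a b : Fin n) {v : FreeGroup (Fin n)} (hv : v ∈ D n) : SR a b v ∈ IA n :=
  conj_mem_IA (R_mem_IA a hv) _

theorem kap_mul (a b : Fin n) (g h : FreeGroup (Fin n)) :
    kap a b (g * h) = kap a b h * kap a b g := by
  have h1 : B a (g * h) (g * h)⁻¹ = B a h h⁻¹ * B a g g⁻¹ := by rw [B_mul, mul_inv_rev]
  rw [kap, kap, kap, h1]; group

theorem kap_S (a b : Fin n) (g v : FreeGroup (Fin n)) :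
    kap a b g * S a b v * (kap a b g)⁻¹ = S a b (g⁻¹ * v * g) := by
  have h1 : B a g g⁻¹ * B a v 1 * (B a g g⁻¹)⁻¹ = B a (g⁻¹ * v * g) 1 := by
    rw [B_inv, B_mul, B_mul]; group
  rw [kap, S, S, ← h1]; group

theorem kap_SR (a b : Fin n) (v : FreeGroup (Fin n)) : kap a b v * SR a b v = S a b v := by
  have h1 : B a v v⁻¹ * B a 1 v = B a v 1 := by rw [B_mul, one_mul, inv_mul_cancel]
  rw [kap, SR, S, ← h1]; group

theorem S_SR (a b : Fin n) (v w : FreeGroup (Fin n)) : S a b v * SR a b w = SR a b w * S a b v := by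
  have h1 : B a v 1 * B a 1 w = B a 1 w * B a v 1 := by
    rw [B_mul, B_mul, one_mul, mul_one, one_mul, mul_one]
  calc S a b v * SR a b w = th a b * (B a v 1 * B a 1 w) * (th a b)⁻¹ := by rw [S, SR]; group
    _ = _ := by rw [h1, S, SR]; group

theorem kap_b {a b : Fin n} (hab : a ≠ b) :
    kap a b (of b) = B b (of a) (of a)⁻¹ * B a (of b) (of b)⁻¹ := by
  apply aut_ext
  intro m
  rw [kap]
  simp only [MulAut.mul_apply]
  by_cases hm : m = b
  · subst hm
    rw [th_inv_self hab]
    simp only [map_mul, map_inv, kill_ne hab, kill_ne hab.symm,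
      th_self hab, th_ne hab, B_ne hab.symm, B_ne hab, B_self]
    group
  · by_cases hma : m = a
    · subst hma
      rw [th_inv_ne hab]
      simp only [map_mul, map_inv, kill_ne hab, kill_ne hab.symm,
        th_self hab, th_ne hab, B_ne hab.symm, B_ne hab, B_self]
      group
    · rw [th_inv_ne hm]
      simp only [B_ne hma, B_ne hm, th_ne hm]

theorem kap_c {a b c : Fin n} (hab : a ≠ b) (hca : c ≠ a) (hcb : c ≠ b) :
    kap a b (of c) = B b ⁅of c, (of a)⁻¹⁆ 1 * B a (of c) (of c)⁻¹ := by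
  apply aut_ext
  intro m
  rw [kap]
  simp only [MulAut.mul_apply]
  by_cases hm : m = b
  · subst hm
    rw [th_inv_self hab]
    simp only [commutatorElement_def, map_mul, map_inv, map_one, kill_ne hab, kill_ne hab.symm,
      kill_ne hca, kill_ne hcb, th_self hab, th_ne hab, th_ne hcb, B_ne hab.symm, B_ne hab,
      B_ne hca, B_ne hcb, B_self]
    group
  · by_cases hma : m = a
    · subst hma
      rw [th_inv_ne hab]
      simp only [map_mul, map_inv, kill_ne hca, kill_ne hcb, th_ne hab, th_ne hcb, B_ne hab,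
        B_ne hcb, B_self]
    · rw [th_inv_ne hm]
      simp only [B_ne hma, B_ne hm, th_ne hm]

theorem beta_self (i : Fin n) (g : FreeGroup (Fin n)) : beta i g (of i) = 1 := by
  have h : B i 1 ⁅g, of i⁆ = 1 := by
    apply aut_ext
    intro m
    by_cases hm : m = i
    · subst hm
      rw [B_self, map_one, map_commutatorElement, kill_self, commutatorElement_one_right, mul_one, one_mul]
      rfl
    · rw [B_ne hm]; rfl
  rw [beta, rho, h, q_one]

theorem beta_same (i : Fin n) (g : FreeGroup (Fin n)) : beta i g g = 1 := by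
  rw [beta, commutatorElement_self, rho_one]

theorem kap_a (a b : Fin n) : kap a b (of a) = 1 := by
  have h : B a (of a) (of a)⁻¹ = 1 := by
    apply aut_ext
    intro m
    by_cases hm : m = a
    · subst hm; rw [B_self, map_inv, kill_self]; simp
    · rw [B_ne hm]; rfl
  rw [kap, h]; group

theorem q_kap {a b : Fin n} (hab : a ≠ b) (g : FreeGroup (Fin n)) :
    q (kap a b g) = beta b (of a) g := by
  induction g using FreeGroup.induction_on with
  | C1 =>
    have : kap a b 1 = 1 := by rw [kap, inv_one, B_one]; group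
    rw [this, q_one, beta, commutatorElement_one_right, rho_one]
  | of m =>
    by_cases hm : m = b
    · subst hm
      rw [kap_b hab, q_mul (K_mem_IA _ _) (K_mem_IA _ _), q_K, q_K, beta_self, one_mul]
    · by_cases hma : m = a
      · subst hma
        rw [kap_a, q_one, beta_same]
      · rw [kap_c hab hma hm, q_mul (L_mem_IA _ (comm_mem_D _ _)) (K_mem_IA _ _), q_K, mul_one]
        change lam b _ = _
        rw [lam_eq b (comm_mem_D _ _)]
        change beta b _ _ = _
        rw [beta_inv_right, ← beta_swap]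
  | inv_of m hm =>
    have h1 : kap a b (of m)⁻¹ = (kap a b (of m))⁻¹ := by
      have h2 : B a (of m)⁻¹ (of m)⁻¹⁻¹ = (B a (of m) (of m)⁻¹)⁻¹ := by rw [B_inv]
      rw [kap, kap, h2]; group
    rw [h1, q_inv (kap_mem_IA _ _ _), hm, beta_inv_right]
  | mul g h hg hh =>
    rw [kap_mul, q_mul (kap_mem_IA _ _ _) (kap_mem_IA _ _ _), hg, hh, beta_mul_right]
    exact (beta_comm b _ _ _ _).eq

theorem tau_kap {a b : Fin n} (hab : a ≠ b) (g : FreeGroup (Fin n)) {v : FreeGroup (Fin n)}
    (hv : v ∈ D n) :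
    tau a b (g⁻¹ * v * g) = beta b (of a) g * tau a b v * (beta b (of a) g)⁻¹ := by
  rw [tau, ← kap_S, q_mul (mul_mem (kap_mem_IA _ _ _) (S_mem_IA a b hv)) (inv_mem (kap_mem_IA _ _ _)),
    q_mul (kap_mem_IA _ _ _) (S_mem_IA a b hv), q_inv (kap_mem_IA _ _ _), q_kap hab]
  rfl

theorem q_SR {a b : Fin n} (hab : a ≠ b) {v : FreeGroup (Fin n)} (hv : v ∈ D n) :
    q (SR a b v) = tau a b v := by
  rw [tau, ← kap_SR, q_mul (kap_mem_IA _ _ _) (SR_mem_IA a b hv), q_kap hab, beta_D_right b hv, one_mul]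

theorem tau_comm {a b : Fin n} (hab : a ≠ b) {v w : FreeGroup (Fin n)} (hv : v ∈ D n) (hw : w ∈ D n) :
    Commute (tau a b v) (tau a b w) := by
  rw [← q_SR hab hw]
  have h1 := congrArg q (S_SR a b v w)
  rw [q_mul (S_mem_IA a b hv) (SR_mem_IA a b hw), q_mul (SR_mem_IA a b hw) (S_mem_IA a b hv)] at h1
  exact h1

theorem beta_zpow (i : Fin n) (g h : FreeGroup (Fin n)) (m : ℤ) :
    beta i g (h ^ m) = beta i g h ^ m := by
  let f : FreeGroup (Fin n) →* Q n :=
    { toFun := fun h => beta i g h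
      map_one' := by rw [beta, commutatorElement_one_right, rho_one]
      map_mul' := fun h h' => beta_mul_right i g h h' }
  exact map_zpow f h m

/-- (L1) -/
theorem L1 {a b c : Fin n} (hab : a ≠ b) (hca : c ≠ a) (hcb : c ≠ b) (m : ℤ) :
    Commute ((k b a c)⁻¹ * k a b c) ((k b a c) ^ m * ((k b a c)⁻¹ * k a b c) * (k b a c) ^ (-m)) := by
  have h1 := tau_kap hab ((of c) ^ m) (comm_mem_D (of b) (of c))
  have h2 : (((of c) ^ m)⁻¹ * ⁅of b, of c⁆ * (of c) ^ m : FreeGroup (Fin n)) ∈ D n := by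
    have := conj_mem_D ((of c) ^ m)⁻¹ (comm_mem_D (of b) (of c))
    rwa [inv_inv] at this
  have h3 := tau_comm hab (comm_mem_D (of b) (of c)) h2
  rw [h1, tau_b hab (kill_ne hca) (kill_ne hcb), beta_zpow] at h3
  rw [zpow_neg]
  exact h3

/-! ### the second transvection -/

/-- `x_a ↦ x_a x_b` -/
def sg (a b : Fin n) : MulAut (FreeGroup (Fin n)) := B a 1 (of b)

theorem sg_self {a b : Fin n} (hab : a ≠ b) : sg a b (of a) = of a * of b := by
  rw [sg, B_self, kill_ne hab.symm, map_one, one_mul]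

theorem sg_ne {a b m : Fin n} (hm : m ≠ a) : sg a b (of m) = of m := by rw [sg, B_ne hm]

theorem sg_inv_self {a b : Fin n} (hab : a ≠ b) : (sg a b)⁻¹ (of a) = of a * (of b)⁻¹ := by
  rw [sg, B_inv, inv_one, B_self, map_inv, kill_ne hab.symm, map_one, one_mul]

theorem sg_inv_ne {a b m : Fin n} (hm : m ≠ a) : (sg a b)⁻¹ (of m) = of m := by
  rw [sg, B_inv, B_ne hm]

/-- explicit form of (F) -/
theorem S_formula {a b : Fin n} (hab : a ≠ b) {w : FreeGroup (Fin n)}
    (ha : kill a w = w) (hb : kill b w = w) :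
    S a b ⁅of b, w⁆ = B b (of a) (of a)⁻¹ * (B b w w⁻¹ * ((B b 1 ⁅of a, w⁆)⁻¹ *
      ((B b (of a) (of a)⁻¹)⁻¹ * (B a 1 ⁅of b, w⁆ * (B a w w⁻¹)⁻¹)))) := by
  have Bw : ∀ u v, B a u v w = w := by
    intro u v
    conv_lhs => rw [← ha]
    rw [B_kill, ha]
  have Bw' : ∀ u v, B b u v w = w := by
    intro u v
    conv_lhs => rw [← hb]
    rw [B_kill, hb]
  apply aut_ext
  intro m
  rw [S, B_inv, B_inv, B_inv]
  simp only [MulAut.mul_apply]
  by_cases hm : m = b
  · subst hm
    rw [th_inv_self hab]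
    simp only [commutatorElement_def, map_mul, map_inv, map_one, ha, hb, kill_ne hab, kill_ne hab.symm,
      th_self hab, th_ne hab, th_kill hb, B_ne hab.symm, B_ne hab, B_self, Bw, Bw', inv_one, inv_inv,
      one_mul, mul_one]
    group
  · by_cases hma : m = a
    · subst hma
      rw [th_inv_ne hab]
      simp only [commutatorElement_def, map_mul, map_inv, map_one, ha, hb, kill_ne hab, kill_ne hab.symm,
        th_self hab, th_ne hab, th_kill hb, B_ne hab.symm, B_ne hab, B_self, Bw, Bw', inv_one, inv_inv,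
        one_mul, mul_one]
      group
    · rw [th_inv_ne hm]
      simp only [B_ne hma, B_ne hm, th_ne hm]

theorem sg_K_ba {a b : Fin n} (hab : a ≠ b) :
    sg a b * B b (of a) (of a)⁻¹ * (sg a b)⁻¹ = kap a b (of b) := by
  rw [kap_b hab]
  apply aut_ext
  intro m
  simp only [MulAut.mul_apply]
  by_cases hm : m = a
  · subst hm
    rw [sg_inv_self hab]
    simp only [map_mul, map_inv, kill_ne hab, kill_ne hab.symm, sg_self hab, sg_ne hab.symm,
      B_ne hab.symm, B_ne hab, B_self]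
    group
  · by_cases hmb : m = b
    · subst hmb
      rw [sg_inv_ne hm]
      simp only [map_mul, map_inv, kill_ne hab, kill_ne hab.symm, sg_self hab, sg_ne hab.symm,
        B_ne hab.symm, B_ne hab, B_self]
      group
    · rw [sg_inv_ne hm]
      simp only [B_ne hmb, B_ne hm, sg_ne hm]

theorem sg_K_ab {a b : Fin n} (hab : a ≠ b) :
    sg a b * B a (of b) (of b)⁻¹ * (sg a b)⁻¹ = B a (of b) (of b)⁻¹ := by
  rw [sg, B_inv, B_mul, B_mul]; group

theorem sg_K_bc {a b c : Fin n} (hab : a ≠ b) (hca : c ≠ a) (hcb : c ≠ b) :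
    sg a b * B b (of c) (of c)⁻¹ * (sg a b)⁻¹ = B a 1 ⁅of b, of c⁆ * B b (of c) (of c)⁻¹ := by
  apply aut_ext
  intro m
  simp only [MulAut.mul_apply]
  by_cases hm : m = a
  · subst hm
    rw [sg_inv_self hab]
    simp only [commutatorElement_def, map_mul, map_inv, map_one, kill_ne hab, kill_ne hab.symm,
      kill_ne hca, kill_ne hcb, sg_self hab, sg_ne hab.symm, sg_ne hca,
      B_ne hab.symm, B_ne hab, B_ne hca, B_ne hcb, B_self]
    group
  · by_cases hmb : m = b
    · subst hmb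
      rw [sg_inv_ne hm]
      simp only [commutatorElement_def, map_mul, map_inv, map_one, kill_ne hab, kill_ne hab.symm,
        kill_ne hca, kill_ne hcb, sg_self hab, sg_ne hab.symm, sg_ne hca,
        B_ne hab.symm, B_ne hab, B_ne hca, B_ne hcb, B_self]
    · rw [sg_inv_ne hm]
      simp only [B_ne hmb, B_ne hm, sg_ne hm]

theorem sg_B_a {a b : Fin n} (u v : FreeGroup (Fin n)) :
    sg a b * B a u v * (sg a b)⁻¹ = B a u (of b * v * (of b)⁻¹) := by
  rw [sg, B_inv, B_mul, B_mul]; group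

theorem sg_Y {a b c : Fin n} (hab : a ≠ b) (hca : c ≠ a) (hcb : c ≠ b) :
    sg a b * B b 1 ⁅of a, of c⁆ * (sg a b)⁻¹ = S a b (of b * ⁅of b, of c⁆⁻¹ * (of b)⁻¹) := by
  apply aut_ext
  intro m
  rw [S]
  simp only [MulAut.mul_apply]
  by_cases hm : m = a
  · subst hm
    rw [sg_inv_self hab, th_inv_ne hab]
    simp only [commutatorElement_def, map_mul, map_inv, map_one, kill_ne hab, kill_ne hab.symm,
      kill_ne hca, kill_ne hcb, sg_self hab, sg_ne hab.symm, sg_ne hca, th_self hab, th_ne hab,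
      th_ne hcb, B_ne hab.symm, B_ne hab, B_ne hca, B_ne hcb, B_self]
    group
  · by_cases hmb : m = b
    · subst hmb
      rw [sg_inv_ne hm, th_inv_self hab]
      simp only [commutatorElement_def, map_mul, map_inv, map_one, kill_ne hab, kill_ne hab.symm,
        kill_ne hca, kill_ne hcb, sg_self hab, sg_ne hab.symm, sg_ne hca, th_self hab, th_ne hab,
        th_ne hcb, B_ne hab.symm, B_ne hab, B_ne hca, B_ne hcb, B_self]
      group
    · rw [sg_inv_ne hm, th_inv_ne hmb]
      simp only [B_ne hmb, B_ne hm, sg_ne hm, th_ne hmb]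

theorem sg_L {a b c : Fin n} (hab : a ≠ b) (hca : c ≠ a) (hcb : c ≠ b) :
    sg a b * B b ⁅of c, (of a)⁻¹⁆ 1 * (sg a b)⁻¹ = SR a b ⁅(of b)⁻¹, of c⁆ := by
  apply aut_ext
  intro m
  rw [SR]
  simp only [MulAut.mul_apply]
  by_cases hm : m = a
  · subst hm
    rw [sg_inv_self hab, th_inv_ne hab]
    simp only [commutatorElement_def, map_mul, map_inv, map_one, kill_ne hab, kill_ne hab.symm,
      kill_ne hca, kill_ne hcb, sg_self hab, sg_ne hab.symm, sg_ne hca, th_self hab, th_ne hab,
      th_ne hcb, B_ne hab.symm, B_ne hab, B_ne hca, B_ne hcb, B_self]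
    group
  · by_cases hmb : m = b
    · subst hmb
      rw [sg_inv_ne hm, th_inv_self hab]
      simp only [commutatorElement_def, map_mul, map_inv, map_one, kill_ne hab, kill_ne hab.symm,
        kill_ne hca, kill_ne hcb, sg_self hab, sg_ne hab.symm, sg_ne hca, th_self hab, th_ne hab,
        th_ne hcb, B_ne hab.symm, B_ne hab, B_ne hca, B_ne hcb, B_self]
      group
    · rw [sg_inv_ne hm, th_inv_ne hmb]
      simp only [B_ne hmb, B_ne hm, sg_ne hm, th_ne hmb]

end Pool.Agent.H76.IADet
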