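import Mathlib
import Pool.Agent.H76.IADetL

set_option autoImplicit false

namespace Pool.Agent.H76.IADet

open FreeGroup (of)
open scoped commutatorElement

variable {n : ℕ}

theorem q_kap_b {a b : Fin n} (hab : a ≠ b) : q (kap a b (of b)) = 1 := by
  rw [q_kap hab, beta_self]

theorem tau_conj_b {a b : Fin n} (hab : a ≠ b) {v : FreeGroup (Fin n)} (hv : v ∈ D n) :
    tau a b (of b * v * (of b)⁻¹) = tau a b v := by
  have h := tau_kap hab (of b)⁻¹ hv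
  rw [inv_inv, beta_inv_right, beta_self, inv_one, inv_one, one_mul, mul_one] at h
  exact h

theorem tau_conj_b' {a b : Fin n} (hab : a ≠ b) {v : FreeGroup (Fin n)} (hv : v ∈ D n) :
    tau a b ((of b)⁻¹ * v * of b) = tau a b v := by
  have h := tau_kap hab (of b) hv
  rw [beta_self, inv_one, one_mul, mul_one] at h
  exact h

theorem tau_bc {a b c : Fin n} (hab : a ≠ b) (hca : c ≠ a) (hcb : c ≠ b) :
    tau a b ⁅of b, of c⁆ = (k b a c)⁻¹ * k a b c := tau_b hab (kill_ne hca) (kill_ne hcb)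

/-- the class `τ'` of `[z, c]` for the basis `(x_a x_b, x_b)` -/
theorem tau2 {a b c : Fin n} (hab : a ≠ b) (hca : c ≠ a) (hcb : c ≠ b) :
    q (sg a b * S a b ⁅of b, of c⁆ * (sg a b)⁻¹) =
      k a b c * ((k b a c)⁻¹ * k a b c) * k a b c * k a b c := by
  have i1 := conj_mem_IA (K_mem_IA b (of a)) (sg a b)
  have i2 := conj_mem_IA (K_mem_IA b (of c)) (sg a b)
  have i3 := conj_mem_IA (R_mem_IA b (comm_mem_D (of a) (of c))) (sg a b)
  have i4 := conj_mem_IA (R_mem_IA a (comm_mem_D (of b) (of c))) (sg a b)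
  have i5 := conj_mem_IA (K_mem_IA a (of c)) (sg a b)
  have e : sg a b * S a b ⁅of b, of c⁆ * (sg a b)⁻¹ =
      (sg a b * B b (of a) (of a)⁻¹ * (sg a b)⁻¹) * ((sg a b * B b (of c) (of c)⁻¹ * (sg a b)⁻¹) *
        ((sg a b * B b 1 ⁅of a, of c⁆ * (sg a b)⁻¹)⁻¹ *
          ((sg a b * B b (of a) (of a)⁻¹ * (sg a b)⁻¹)⁻¹ *
            ((sg a b * B a 1 ⁅of b, of c⁆ * (sg a b)⁻¹) *
              (sg a b * B a (of c) (of c)⁻¹ * (sg a b)⁻¹)⁻¹)))) := by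
    rw [S_formula hab (kill_ne hca) (kill_ne hcb)]; group
  have q1 : q (sg a b * B b (of a) (of a)⁻¹ * (sg a b)⁻¹) = 1 := by
    rw [sg_K_ba hab, q_kap_b hab]
  have q2 : q (sg a b * B b (of c) (of c)⁻¹ * (sg a b)⁻¹) = k a b c := by
    rw [sg_K_bc hab hca hcb, q_mul (R_mem_IA a (comm_mem_D _ _)) (K_mem_IA _ _), q_K, mul_one]
    rfl
  have q3 : q (sg a b * B b 1 ⁅of a, of c⁆ * (sg a b)⁻¹) = ((k b a c)⁻¹ * k a b c)⁻¹ := by
    rw [sg_Y hab hca hcb]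
    change tau a b _ = _
    rw [tau_conj_b hab (inv_mem (comm_mem_D _ _)), tau_inv a b (comm_mem_D _ _), tau_bc hab hca hcb]
  have q4 : q (sg a b * B a 1 ⁅of b, of c⁆ * (sg a b)⁻¹) = k a b c := by
    rw [sg_B_a]
    change rho a _ = _
    rw [rho_conj a _ (comm_mem_D _ _)]
    rfl
  have q5 : q (sg a b * B a (of c) (of c)⁻¹ * (sg a b)⁻¹) = (k a b c)⁻¹ := by
    have h1 : sg a b * B a (of c) (of c)⁻¹ * (sg a b)⁻¹ = B a (of c) (of c)⁻¹ * B a 1 ⁅of c, of b⁆ := by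
      rw [sg_B_a, B_mul, commutatorElement_def]; group
    rw [h1, q_mul (K_mem_IA _ _) (R_mem_IA a (comm_mem_D _ _)), q_K, one_mul]
    change beta a _ _ = _
    rw [beta_swap]
    rfl
  have j5 := mul_mem i4 (inv_mem i5)
  have j4 := mul_mem (inv_mem i1) j5
  have j3 := mul_mem (inv_mem i3) j4
  have j2 := mul_mem i2 j3
  rw [e, q_mul i1 j2, q_mul i2 j3, q_mul (inv_mem i3) j4, q_mul (inv_mem i1) j5,
    q_mul i4 (inv_mem i5), q_inv i1, q_inv i3, q_inv i5, q1, q2, q3, q4, q5]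
  group

/-- the class of `κ'_c` -/
theorem kap2_c {a b c : Fin n} (hab : a ≠ b) (hca : c ≠ a) (hcb : c ≠ b) :
    q (sg a b * kap a b (of c) * (sg a b)⁻¹) = ((k b a c)⁻¹ * k a b c)⁻¹ * (k a b c)⁻¹ := by
  have e : sg a b * kap a b (of c) * (sg a b)⁻¹ = (sg a b * B b ⁅of c, (of a)⁻¹⁆ 1 * (sg a b)⁻¹) *
      (sg a b * B a (of c) (of c)⁻¹ * (sg a b)⁻¹) := by
    rw [kap_c hab hca hcb]; group
  have q5 : q (sg a b * B a (of c) (of c)⁻¹ * (sg a b)⁻¹) = (k a b c)⁻¹ := by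
    have h1 : sg a b * B a (of c) (of c)⁻¹ * (sg a b)⁻¹ = B a (of c) (of c)⁻¹ * B a 1 ⁅of c, of b⁆ := by
      rw [sg_B_a, B_mul, commutatorElement_def]; group
    rw [h1, q_mul (K_mem_IA _ _) (R_mem_IA a (comm_mem_D _ _)), q_K, one_mul]
    change beta a _ _ = _
    rw [beta_swap]
    rfl
  have q6 : q (sg a b * B b ⁅of c, (of a)⁻¹⁆ 1 * (sg a b)⁻¹) = ((k b a c)⁻¹ * k a b c)⁻¹ := by
    rw [sg_L hab hca hcb, q_SR hab (comm_mem_D _ _)]
    have h2 : ⁅(of b : FreeGroup (Fin n))⁻¹, of c⁆ = (of b)⁻¹ * ⁅of b, of c⁆⁻¹ * of b := by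
      simp only [commutatorElement_def]; group
    rw [h2, tau_conj_b' hab (inv_mem (comm_mem_D _ _)), tau_inv a b (comm_mem_D _ _), tau_bc hab hca hcb]
  rw [e, q_mul (conj_mem_IA (L_mem_IA b (comm_mem_D _ _)) _) (conj_mem_IA (K_mem_IA a _) _), q5, q6]

theorem kap2_b {a b : Fin n} (hab : a ≠ b) :
    q (sg a b * kap a b (of b) * (sg a b)⁻¹) = 1 := by
  have e : sg a b * kap a b (of b) * (sg a b)⁻¹ = (sg a b * B b (of a) (of a)⁻¹ * (sg a b)⁻¹) *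
      (sg a b * B a (of b) (of b)⁻¹ * (sg a b)⁻¹) := by
    rw [kap_b hab]; group
  rw [e, q_mul (conj_mem_IA (K_mem_IA b _) _) (conj_mem_IA (K_mem_IA a _) _), sg_K_ba hab, sg_K_ab hab,
    q_kap_b hab, q_K, one_mul]

theorem kap_inv (a b : Fin n) (g : FreeGroup (Fin n)) : kap a b g⁻¹ = (kap a b g)⁻¹ := by
  have h2 : B a g⁻¹ g⁻¹⁻¹ = (B a g g⁻¹)⁻¹ := by rw [B_inv]
  rw [kap, kap, h2]; group

/-- (L2) -/
theorem L2 {a b c : Fin n} (hab : a ≠ b) (hca : c ≠ a) (hcb : c ≠ b) :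
    Commute (k a b c ^ 3 * (k b a c)⁻¹ * k a b c) (k a b c * (k b a c)⁻¹ * k a b c ^ 3) := by
  set σ := sg a b with hσ
  set v : FreeGroup (Fin n) := ⁅of b, of c⁆ with hv
  have hvD : v ∈ D n := comm_mem_D _ _
  have hv'D : (of c)⁻¹ * v * of c ∈ D n := by
    have := conj_mem_D (of c)⁻¹ hvD
    rwa [inv_inv] at this
  have iS := conj_mem_IA (S_mem_IA a b hvD) σ
  have iS' := conj_mem_IA (S_mem_IA a b hv'D) σ
  have iR := conj_mem_IA (SR_mem_IA a b hvD) σ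
  have ic := conj_mem_IA (kap_mem_IA a b (of c)) σ
  have ib := conj_mem_IA (kap_mem_IA a b (of b)) σ
  have iv := conj_mem_IA (kap_mem_IA a b v) σ
  -- κ'(v) = 1
  have e1 : σ * kap a b v * σ⁻¹ = (σ * kap a b (of c) * σ⁻¹)⁻¹ * ((σ * kap a b (of b) * σ⁻¹)⁻¹ *
      ((σ * kap a b (of c) * σ⁻¹) * (σ * kap a b (of b) * σ⁻¹))) := by
    rw [hv, commutatorElement_def, kap_mul, kap_mul, kap_mul, kap_inv, kap_inv]; group
  have q1 : q (σ * kap a b v * σ⁻¹) = 1 := by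
    rw [e1, q_mul (inv_mem ic) (mul_mem (inv_mem ib) (mul_mem ic ib)),
      q_mul (inv_mem ib) (mul_mem ic ib), q_mul ic ib, q_inv ic, q_inv ib, kap2_b hab]
    group
  -- right version
  have e2 : σ * S a b v * σ⁻¹ = (σ * kap a b v * σ⁻¹) * (σ * SR a b v * σ⁻¹) := by
    rw [← kap_SR]; group
  have q2 : q (σ * SR a b v * σ⁻¹) = q (σ * S a b v * σ⁻¹) := by
    rw [e2, q_mul iv iR, q1, one_mul]
  -- conjugate
  have e3 : σ * S a b ((of c)⁻¹ * v * of c) * σ⁻¹ = (σ * kap a b (of c) * σ⁻¹) *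
      ((σ * S a b v * σ⁻¹) * (σ * kap a b (of c) * σ⁻¹)⁻¹) := by
    rw [← kap_S]; group
  have q3 : q (σ * S a b ((of c)⁻¹ * v * of c) * σ⁻¹) = q (σ * kap a b (of c) * σ⁻¹) *
      (q (σ * S a b v * σ⁻¹) * (q (σ * kap a b (of c) * σ⁻¹))⁻¹) := by
    rw [e3, q_mul ic (mul_mem iS (inv_mem ic)), q_mul iS (inv_mem ic), q_inv ic]
  -- commutation
  have e4 : (σ * S a b ((of c)⁻¹ * v * of c) * σ⁻¹) * (σ * SR a b v * σ⁻¹) =
      (σ * SR a b v * σ⁻¹) * (σ * S a b ((of c)⁻¹ * v * of c) * σ⁻¹) := by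
    have h := S_SR a b ((of c)⁻¹ * v * of c) v
    calc _ = σ * (S a b ((of c)⁻¹ * v * of c) * SR a b v) * σ⁻¹ := by group
      _ = _ := by rw [h]; group
  have q4 := congrArg q e4
  rw [q_mul iS' iR, q_mul iR iS', q2, q3, kap2_c hab hca hcb, hv, hσ, tau2 hab hca hcb] at q4
  have f1 : ((k b a c)⁻¹ * k a b c)⁻¹ * (k a b c)⁻¹ *
      (k a b c * ((k b a c)⁻¹ * k a b c) * k a b c * k a b c *
        (((k b a c)⁻¹ * k a b c)⁻¹ * (k a b c)⁻¹)⁻¹) = k a b c ^ 3 * (k b a c)⁻¹ * k a b c := by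
    simp only [pow_succ, pow_zero]; group
  have f2 : k a b c * ((k b a c)⁻¹ * k a b c) * k a b c * k a b c =
      k a b c * (k b a c)⁻¹ * k a b c ^ 3 := by
    simp only [pow_succ, pow_zero]; group
  rw [f1, f2] at q4
  exact q4

/-- (T1) -/
theorem T1 {a b c : Fin n} (hab : a ≠ b) (hca : c ≠ a) (hcb : c ≠ b) :
    Commute ((k c a b)⁻¹ * (k b a c)⁻¹ * k c a b * k b a c)
      ((k c a b)⁻¹ * ((k b a c)⁻¹ * k a b c)⁻¹) := by
  set θ := th a b with hθ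
  set v : FreeGroup (Fin n) := ⁅of c, of b⁆ with hv
  have hvD : v ∈ D n := comm_mem_D _ _
  have hfix : Fix c θ := th_Fix hca hcb
  have iS := conj_mem_IA (S_mem_IA a c hvD) θ
  have ic := conj_mem_IA (kap_mem_IA a c (of c)) θ
  have ib := conj_mem_IA (kap_mem_IA a c (of b)) θ
  have iv := conj_mem_IA (kap_mem_IA a c v) θ
  have qa : q (θ * B a (of b) (of b)⁻¹ * θ⁻¹) = 1 := q_kap_b hab
  have qc : q (θ * B a (of c) (of c)⁻¹ * θ⁻¹) = k b a c := q_kap hab (of c)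
  have θb : θ (of b) = of a * of b := th_self hab
  have θa : θ (of a) = of a := th_ne hab
  -- κ''(c) = y
  have q1 : q (θ * kap a c (of c) * θ⁻¹) = k b a c := by
    have e : θ * kap a c (of c) * θ⁻¹ = (θ * B c (of a) (of a)⁻¹ * θ⁻¹) *
        (θ * B a (of c) (of c)⁻¹ * θ⁻¹) := by
      rw [kap_b hca.symm]; group
    have e2 : θ * B c (of a) (of a)⁻¹ * θ⁻¹ = B c (of a) (of a)⁻¹ := by
      rw [B_conj hfix, map_inv, θa]
    rw [e, q_mul (conj_mem_IA (K_mem_IA _ _) _) (conj_mem_IA (K_mem_IA _ _) _), e2, q_K, one_mul, qc]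
  -- κ''(b) = r
  have q2 : q (θ * kap a c (of b) * θ⁻¹) = k c a b := by
    have e : θ * kap a c (of b) * θ⁻¹ = (θ * B c ⁅of b, (of a)⁻¹⁆ 1 * θ⁻¹) *
        (θ * B a (of b) (of b)⁻¹ * θ⁻¹) := by
      rw [kap_c hca.symm hab.symm hcb.symm]; group
    have e2 : θ * B c ⁅of b, (of a)⁻¹⁆ 1 * θ⁻¹ = B c ⁅of a * of b, (of a)⁻¹⁆ 1 := by
      rw [B_conj hfix, map_one, map_commutatorElement, map_inv, θa, θb]
    have e3 : q (B c ⁅(of a * of b : FreeGroup (Fin n)), (of a)⁻¹⁆ 1) = k c a b := by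
      change lam c _ = _
      rw [lam_eq c (comm_mem_D _ _)]
      change beta c _ _ = _
      rw [beta_inv_right, beta_mul_left, beta_same, one_mul, ← beta_swap]
      rfl
    rw [e, q_mul (conj_mem_IA (L_mem_IA _ (comm_mem_D _ _)) _) (conj_mem_IA (K_mem_IA _ _) _), e2, e3, qa,
      mul_one]
  have q3 : q (θ * kap a c v * θ⁻¹) = (k c a b)⁻¹ * (k b a c)⁻¹ * k c a b * k b a c := by
    have e1 : θ * kap a c v * θ⁻¹ = (θ * kap a c (of b) * θ⁻¹)⁻¹ * ((θ * kap a c (of c) * θ⁻¹)⁻¹ *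
        ((θ * kap a c (of b) * θ⁻¹) * (θ * kap a c (of c) * θ⁻¹))) := by
      rw [hv, commutatorElement_def, kap_mul, kap_mul, kap_mul, kap_inv, kap_inv]; group
    rw [e1, q_mul (inv_mem ib) (mul_mem (inv_mem ic) (mul_mem ib ic)),
      q_mul (inv_mem ic) (mul_mem ib ic), q_mul ib ic, q_inv ic, q_inv ib, q1, q2]
    group
  -- τ''(v)
  have q4 : q (θ * S a c v * θ⁻¹) = (k c a b)⁻¹ * ((k b a c)⁻¹ * k a b c)⁻¹ := by
    have e : θ * S a c v * θ⁻¹ =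
        (θ * B c (of a) (of a)⁻¹ * θ⁻¹) * ((θ * B c (of b) (of b)⁻¹ * θ⁻¹) *
          ((θ * B c 1 ⁅of a, of b⁆ * θ⁻¹)⁻¹ *
            ((θ * B c (of a) (of a)⁻¹ * θ⁻¹)⁻¹ *
              ((θ * B a 1 ⁅of c, of b⁆ * θ⁻¹) *
                (θ * B a (of b) (of b)⁻¹ * θ⁻¹)⁻¹)))) := by
      rw [hv, S_formula hca.symm (kill_ne hab.symm) (kill_ne hcb.symm)]; group
    have i1 := conj_mem_IA (K_mem_IA c (of a)) θ
    have i2 := conj_mem_IA (K_mem_IA c (of b)) θ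
    have i3 := conj_mem_IA (R_mem_IA c (comm_mem_D (of a) (of b))) θ
    have i4 := conj_mem_IA (R_mem_IA a (comm_mem_D (of c) (of b))) θ
    have i5 := conj_mem_IA (K_mem_IA a (of b)) θ
    have p1 : q (θ * B c (of a) (of a)⁻¹ * θ⁻¹) = 1 := by
      rw [B_conj hfix, map_inv, θa, q_K]
    have p2 : q (θ * B c (of b) (of b)⁻¹ * θ⁻¹) = 1 := by
      rw [B_conj hfix, map_inv, q_K]
    have p3 : q (θ * B c 1 ⁅of a, of b⁆ * θ⁻¹) = k c a b := by
      rw [B_conj hfix, map_one, map_commutatorElement, θa, θb]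
      change beta c _ _ = _
      rw [beta_mul_right, beta_same, one_mul]
      rfl
    have p4 : q (θ * B a 1 ⁅of c, of b⁆ * θ⁻¹) = ((k b a c)⁻¹ * k a b c)⁻¹ := by
      change q (SR a b _) = _
      rw [q_SR hab (comm_mem_D _ _), ← commutatorElement_inv, tau_inv a b (comm_mem_D _ _),
        tau_bc hab hca hcb]
    have j5 := mul_mem i4 (inv_mem i5)
    have j4 := mul_mem (inv_mem i1) j5
    have j3 := mul_mem (inv_mem i3) j4
    have j2 := mul_mem i2 j3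
    rw [e, q_mul i1 j2, q_mul i2 j3, q_mul (inv_mem i3) j4, q_mul (inv_mem i1) j5,
      q_mul i4 (inv_mem i5), q_inv i1, q_inv i3, q_inv i5, p1, p2, p3, p4, qa]
    group
  have e5 : (θ * kap a c v * θ⁻¹) * (θ * S a c v * θ⁻¹) = (θ * S a c v * θ⁻¹) * (θ * kap a c v * θ⁻¹) := by
    have h := kap_S a c v v
    have h2 : v⁻¹ * v * v = v := by group
    rw [h2, mul_inv_eq_iff_eq_mul] at h
    calc _ = θ * (kap a c v * S a c v) * θ⁻¹ := by group
      _ = _ := by rw [h]; group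
  have q5 := congrArg q e5
  rw [q_mul iv iS, q_mul iS iv, q3, q4] at q5
  exact q5

end Pool.Agent.H76.IADet
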