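import Mathlib
import Pool.Agent.H76.IADetFin
import Pool.Agent.H78.IADetG
import Pool.Agent.H42.IADetF

set_option autoImplicit false

namespace Pool.Agent.H76.IADet

open FreeGroup (of)
open scoped commutatorElement
open Pool.Agent.H78.IADetG (N normal_form)
open Pool.Agent.H42.IADetF (O ω)

section affine

variable {R : Type*} [CommRing R]

/-- translation -/
def tr (v : R) : Equiv.Perm R := Equiv.addRight v

theorem tr_apply (v z : R) : tr v z = z + v := rfl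

theorem tr_mul (v w : R) : tr v * tr w = tr (v + w) := by
  ext z
  rw [Equiv.Perm.mul_apply, tr_apply, tr_apply, tr_apply]; ring

theorem tr_zero : tr (0 : R) = 1 := by
  ext z
  rw [tr_apply, add_zero]; rfl

theorem tr_inj {v : R} (h : tr v = 1) : v = 0 := by
  have := Equiv.congr_fun h 0
  rw [tr_apply, zero_add] at this
  exact this

theorem tr_zpow (v : R) (m : ℤ) : (tr v) ^ m = tr ((m : R) * v) := by
  let f : Multiplicative ℤ →* Equiv.Perm R :=
    { toFun := fun m => tr (((Multiplicative.toAdd m : ℤ) : R) * v)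
      map_one' := by
        change tr (((0 : ℤ) : R) * v) = 1
        rw [Int.cast_zero, zero_mul, tr_zero]
      map_mul' := fun a b => by
        rw [tr_mul, toAdd_mul, Int.cast_add, add_mul] }
  have h1 : f (Multiplicative.ofAdd 1) = tr v := by
    change tr (((1 : ℤ) : R) * v) = _
    rw [Int.cast_one, one_mul]
  rw [← h1, ← map_zpow, ← ofAdd_zsmul, smul_eq_mul, mul_one]
  rfl

theorem comm_aff {A B : Equiv.Perm R} {e f a b : R} (hA : ∀ z, A z = e * z + a)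
    (hB : ∀ z, B z = f * z + b) : ⁅A, B⁆ = tr ((1 - f) * a - (1 - e) * b) := by
  ext w
  obtain ⟨z, rfl⟩ := (B * A).surjective w
  have h : ⁅A, B⁆ * (B * A) = A * B := by rw [commutatorElement_def]; group
  have h2 : ⁅A, B⁆ ((B * A) z) = (A * B) z := by rw [← h]; rfl
  rw [h2, tr_apply, Equiv.Perm.mul_apply, Equiv.Perm.mul_apply, hA, hB, hB, hA]
  ring

theorem conj_tr {B : Equiv.Perm R} {f b : R} (hB : ∀ z, B z = f * z + b) (v : R) :
    B * tr v * B⁻¹ = tr (f * v) := by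
  rw [mul_inv_eq_iff_eq_mul]
  ext z
  rw [Equiv.Perm.mul_apply, Equiv.Perm.mul_apply, hB, tr_apply, tr_apply, hB]; ring

theorem map_N {G : Type*} [Group G] (ψ : G →* Equiv.Perm R) {P Q : G} {e f a b : R}
    (hA : ∀ z, ψ P z = e * z + a) (hB : ∀ z, ψ Q z = f * z + b) (α : Fin 4 → ℤ) :
    ψ (N P Q α) = tr (((α 0 : R) + (α 1 : R) * f + (α 2 : R) * f ^ 2 + (α 3 : R) * f ^ 3) *
      ((1 - f) * a - (1 - e) * b)) := by
  set τ := (1 - f) * a - (1 - e) * b with hτ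
  have h0 : ψ ⁅P, Q⁆ = tr τ := by rw [map_commutatorElement, comm_aff hA hB]
  have h1 : ψ (Q * ⁅P, Q⁆ * Q⁻¹) = tr (f * τ) := by
    rw [map_mul, map_mul, map_inv, h0, conj_tr hB]
  have h2 : ψ (Q ^ (2 : ℤ) * ⁅P, Q⁆ * Q ^ (-2 : ℤ)) = tr (f * (f * τ)) := by
    have e1 : Q ^ (2 : ℤ) * ⁅P, Q⁆ * Q ^ (-2 : ℤ) = Q * (Q * ⁅P, Q⁆ * Q⁻¹) * Q⁻¹ := by
      rw [zpow_neg, zpow_ofNat, pow_two]; group
    rw [e1, map_mul, map_mul, map_inv, h1, conj_tr hB]
  have h3 : ψ (Q ^ (3 : ℤ) * ⁅P, Q⁆ * Q ^ (-3 : ℤ)) = tr (f * (f * (f * τ))) := by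
    have e1 : Q ^ (3 : ℤ) * ⁅P, Q⁆ * Q ^ (-3 : ℤ) = Q * (Q ^ (2 : ℤ) * ⁅P, Q⁆ * Q ^ (-2 : ℤ)) * Q⁻¹ := by
      group
    rw [e1, map_mul, map_mul, map_inv, h2, conj_tr hB]
  rw [N, map_mul, map_mul, map_mul, map_zpow, map_zpow, map_zpow, map_zpow, h0, h1, h2, h3,
    tr_zpow, tr_zpow, tr_zpow, tr_zpow, tr_mul, tr_mul, tr_mul]
  congr 1
  ring

end affine

section

variable {n : ℕ}

theorem E.central {z : E n} (hz : ∀ a b, z.x a b = 0) (g : E n) : Commute g z := by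
  ext
  · rw [E.mul_x, E.mul_x, hz, add_zero, zero_add]
  · rw [E.mul_d, E.mul_d]
    simp only [hz, mul_zero, zero_mul, Finset.sum_const_zero, add_zero]
    ring

theorem E.zpow_x {z : E n} (hz : ∀ a b, z.x a b = 0) (m : ℤ) (a b : Fin n) : (z ^ m).x a b = 0 := by
  induction m using Int.induction_on with
  | zero => rw [zpow_zero]; rfl
  | succ m hm => rw [zpow_add_one, E.mul_x, hm, hz, add_zero]
  | pred m hm => rw [zpow_sub_one, E.mul_x, hm, E.inv_x, hz, neg_zero, add_zero]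

theorem E.zpow_d {z : E n} (hz : ∀ a b, z.x a b = 0) (m : ℤ) (j : Fin n) :
    (z ^ m).d j = m * z.d j := by
  induction m using Int.induction_on with
  | zero => rw [zpow_zero]; simp [E.one_d]
  | succ m hm =>
    rw [zpow_add_one, E.mul_d, hm]
    simp only [hz, mul_zero, Finset.sum_const_zero, add_zero]; ring
  | pred m hm =>
    rw [zpow_sub_one, E.mul_d, hm, E.inv_d]
    simp only [hz, E.inv_x, neg_zero, mul_zero, Finset.sum_const_zero, add_zero]; ring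

theorem map_N_E {G : Type*} [Group G] (φ : G →* E n) (P Q : G) (α : Fin 4 → ℤ) (j : Fin n) :
    (φ (N P Q α)).d j = (α 0 + α 1 + α 2 + α 3) * (φ ⁅P, Q⁆).d j := by
  set Z := φ ⁅P, Q⁆ with hZ
  have hx : ∀ a b, Z.x a b = 0 := fun a b => by rw [hZ, map_commutatorElement, E.comm_x]
  have hc : ∀ m : ℤ, φ (Q ^ m * ⁅P, Q⁆ * Q ^ (-m)) = Z := by
    intro m
    rw [map_mul, map_mul, ← hZ, (E.central hx _).eq, mul_assoc, ← map_mul, ← zpow_add, add_neg_cancel,
      zpow_zero, map_one, mul_one]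
  have h1 := hc 1
  rw [zpow_one, zpow_neg, zpow_one] at h1
  rw [N, map_mul, map_mul, map_mul, map_zpow, map_zpow, map_zpow, map_zpow, ← hZ, h1, hc 2, hc 3,
    ← zpow_add, ← zpow_add, ← zpow_add, E.zpow_d hx]

end

theorem O_ext_zero {x y : ℤ} (h : (⟨x, y⟩ : O) = 0) : x = 0 ∧ y = 0 :=
  ⟨congrArg QuadraticAlgebra.re h, congrArg QuadraticAlgebra.im h⟩

theorem ω_sq : ω ^ 2 = (⟨-1, -1⟩ : O) := by
  rw [pow_two]
  ext <;> simp [ω, QuadraticAlgebra.re_mul, QuadraticAlgebra.im_mul]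

theorem ω_rel : ω ^ 2 = -1 - ω := by
  rw [ω_sq]
  ext
  · change (-1 : ℤ) = -1 - 0
    norm_num
  · change (-1 : ℤ) = -0 - 1
    norm_num

theorem pair_zero {n : ℕ} {G : Type*} [Group G] {P Q : G} (φ : G →* E n) (ψ : G →* Equiv.Perm ℤ)
    (θ : G →* Equiv.Perm O) (j : Fin n) {a1 b1 : ℤ} {e f a2 b2 : O}
    (hφ : (φ ⁅P, Q⁆).d j ≠ 0)
    (hψP : ∀ z, ψ P z = (-1) * z + a1) (hψQ : ∀ z, ψ Q z = (-1) * z + b1)
    (h2 : (1 - (-1)) * a1 - (1 - (-1)) * b1 ≠ 0)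
    (hθP : ∀ z, θ P z = e * z + a2) (hθQ : ∀ z, θ Q z = f * z + b2) (hf : f = ω ∨ f = ω ^ 2)
    (h3 : (1 - f) * a2 - (1 - e) * b2 ≠ 0) {α : Fin 4 → ℤ}
    (k1 : φ (N P Q α) = 1) (k2 : ψ (N P Q α) = 1) (k3 : θ (N P Q α) = 1) : α = 0 := by
  -- first equation
  have e1 : α 0 + α 1 + α 2 + α 3 = 0 := by
    have := map_N_E φ P Q α j
    rw [k1] at this
    rcases mul_eq_zero.mp this.symm with h | h
    · exact h
    · exact absurd h hφ
  have e2 : α 0 + α 1 * (-1) + α 2 * (-1) ^ 2 + α 3 * (-1) ^ 3 = 0 := by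
    have := map_N ψ hψP hψQ α
    rw [k2] at this
    have h := tr_inj this.symm
    rcases mul_eq_zero.mp h with h | h
    · simpa using h
    · exact absurd h h2
  have e3 : (α 0 : O) + (α 1 : O) * f + (α 2 : O) * f ^ 2 + (α 3 : O) * f ^ 3 = 0 := by
    have := map_N θ hθP hθQ α
    rw [k3] at this
    have h := tr_inj this.symm
    rcases mul_eq_zero.mp h with h | h
    · exact h
    · exact absurd h h3
  have e4 : α 0 + α 3 - α 2 = 0 ∧ α 1 - α 2 = 0 := by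
    have h3' : ω ^ 3 = (1 : O) := by
      have : ω ^ 3 = ω ^ 2 * ω := by ring
      rw [this, ω_rel]
      have h4 := ω_rel
      linear_combination (-1 : O) * h4
    have key : ∀ x y : ℤ, (x : O) + (y : O) * ω = 0 → x = 0 ∧ y = 0 := by
      intro x y h
      have h5 : (x : O) + (y : O) * ω = ⟨x, y⟩ := by
        ext <;> simp [ω, QuadraticAlgebra.re_mul, QuadraticAlgebra.im_mul]
      rw [h5] at h
      exact O_ext_zero h
    rcases hf with rfl | rfl
    · have h6 : ((α 0 + α 3 - α 2 : ℤ) : O) + ((α 1 - α 2 : ℤ) : O) * ω = 0 := by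
        push_cast
        rw [← e3, h3', ω_rel]; ring
      exact key _ _ h6
    · have h6 : ((α 0 + α 3 - α 1 : ℤ) : O) + ((α 2 - α 1 : ℤ) : O) * ω = 0 := by
        push_cast
        rw [← e3]
        have h7 : ω ^ 4 = (ω : O) := by
          have : ω ^ 4 = ω ^ 3 * ω := by ring
          rw [this, h3', one_mul]
        have h8 : ω ^ 6 = (1 : O) := by
          have : ω ^ 6 = ω ^ 3 * ω ^ 3 := by ring
          rw [this, h3', one_mul]
        have h9 : (ω ^ 2) ^ 2 = (ω : O) := by rw [← pow_mul]; exact h7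
        have h10 : (ω ^ 2) ^ 3 = (1 : O) := by rw [← pow_mul]; exact h8
        rw [h9, h10, ω_rel]; ring
      obtain ⟨h11, h12⟩ := key _ _ h6
      constructor <;> linarith
  obtain ⟨e4, e5⟩ := e4
  ring_nf at e2
  funext i
  fin_cases i
  · change α 0 = 0; omega
  · change α 1 = 0; omega
  · change α 2 = 0; omega
  · change α 3 = 0; omega

theorem three_ne : (1 - ω ^ 2) * (1 - ω) - (1 - ω) * 0 ≠ (0 : O) := by
  rw [ω_rel]
  intro h
  have h1 : ((3 : ℤ) : O) = 0 := by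
    push_cast
    linear_combination h + ω_rel
  have hgen : ∀ x : ℤ, (x : O).re = x := fun x => by simp
  have h2 := hgen 3
  rw [h1] at h2
  exact absurd h2 (by decide)

theorem three_ne' : (1 - ω) * (1 - ω ^ 2) - (1 - ω ^ 2) * 0 ≠ (0 : O) := by
  have := three_ne
  intro h
  apply this
  linear_combination h

/-- values of `Φ` -/
def kv {n : ℕ} (c i j l : Fin n) : E n := ⟨fun a b => if b = i ∧ a = j ∧ l = c then 1 else
      if b = i ∧ a = l ∧ j = c then -1 else 0, fun _ => 0⟩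

/-- **Detection lemma for `n = 3`**. -/
theorem detect3 {G : Type*} [Group G] (a b c : G)
    (hab : ∀ m : ℤ, Commute (a * b) (b ^ m * (a * b) * b ^ (-m)))
    (hac : ∀ m : ℤ, Commute (a * c) (c ^ m * (a * c) * c ^ (-m)))
    (hbc : ∀ m : ℤ, Commute (b * c) (c ^ m * (b * c) * c ^ (-m)))
    (pab : ⁅a, b⁆ * (b * ⁅a, b⁆ * b⁻¹) =
      (b ^ (3:ℤ) * ⁅a, b⁆ * b ^ (-3:ℤ)) * (b ^ (4:ℤ) * ⁅a, b⁆ * b ^ (-4:ℤ)))
    (pac : ⁅a, c⁆ * (c * ⁅a, c⁆ * c⁻¹) =
      (c ^ (3:ℤ) * ⁅a, c⁆ * c ^ (-3:ℤ)) * (c ^ (4:ℤ) * ⁅a, c⁆ * c ^ (-4:ℤ)))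
    (pbc : ⁅b, c⁆ * (c * ⁅b, c⁆ * c⁻¹) =
      (c ^ (3:ℤ) * ⁅b, c⁆ * c ^ (-3:ℤ)) * (c ^ (4:ℤ) * ⁅b, c⁆ * c ^ (-4:ℤ)))
    (ta : Commute a ⁅b, c⁆) (tb : Commute b ⁅a, c⁆) (tc : Commute c ⁅a, b⁆)
    (Φ : Fin 3 → G →* E 3) (Ψ : Fin 3 → G →* Equiv.Perm ℤ) (Θ : Fin 3 → G →* Equiv.Perm O)
    (fa : ∀ m, Φ m a = kv m 0 1 2) (fb : ∀ m, Φ m b = kv m 1 2 0) (fc : ∀ m, Φ m c = kv m 2 0 1)
    (g2a : ∀ z, Ψ 2 a z = 2 - z) (g2b : ∀ z, Ψ 2 b z = -z) (g2c : Ψ 2 c = 1)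
    (g1a : ∀ z, Ψ 1 a z = 2 - z) (g1c : ∀ z, Ψ 1 c z = -z) (g1b : Ψ 1 b = 1)
    (g0b : ∀ z, Ψ 0 b z = 2 - z) (g0c : ∀ z, Ψ 0 c z = -z) (g0a : Ψ 0 a = 1)
    (h2a : ∀ z, Θ 2 a z = 1 + ω * (z - 1)) (h2b : ∀ z, Θ 2 b z = ω ^ 2 * z) (h2c : Θ 2 c = 1)
    (h1a : ∀ z, Θ 1 a z = 1 + ω ^ 2 * (z - 1)) (h1c : ∀ z, Θ 1 c z = ω * z) (h1b : Θ 1 b = 1)
    (h0b : ∀ z, Θ 0 b z = 1 + ω * (z - 1)) (h0c : ∀ z, Θ 0 c z = ω ^ 2 * z) (h0a : Θ 0 a = 1)
    {g : G} (hg : g ∈ Subgroup.closure ({a, b, c} : Set G))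
    (k1 : ∀ m, Φ m g = 1) (k2 : ∀ m, Ψ m g = 1) (k3 : ∀ m, Θ m g = 1) : g = 1 := by
  obtain ⟨x, y, z, α, β, γ, rfl⟩ := normal_form a b c hab hac hbc pab pac pbc ta tb tc g hg
  -- additive functions
  have hadd : ∀ (m i j : Fin 3) (x y : G), (Φ m (x * y)).x i j = (Φ m x).x i j + (Φ m y).x i j := by
    intro m i j x y; rw [map_mul, E.mul_x]
  have hinv : ∀ (m i j : Fin 3) (x : G), (Φ m x⁻¹).x i j = -(Φ m x).x i j := by
    intro m i j x; rw [map_inv, E.inv_x]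
  have hzp : ∀ (m i j : Fin 3) (x : G) (r : ℤ), (Φ m (x ^ r)).x i j = r * (Φ m x).x i j := by
    intro m i j x r
    induction r using Int.induction_on with
    | zero => rw [zpow_zero, map_one, E.one_x]; simp
    | succ r hr => rw [zpow_add_one, hadd, hr]; ring
    | pred r hr => rw [zpow_sub_one, hadd, hr, hinv]; ring
  have hN : ∀ (m i j : Fin 3) (P Q : G) (δ : Fin 4 → ℤ), (Φ m (N P Q δ)).x i j = 0 := by
    intro m i j P Q δ
    have hc : (Φ m ⁅P, Q⁆).x i j = 0 := by rw [map_commutatorElement, E.comm_x]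
    rw [N, hadd, hadd, hadd, hzp, hzp, hzp, hzp, hadd, hadd, hadd, hadd, hadd, hadd, hinv, hzp, hzp,
      hzp, hzp, hc]
    ring
  have hx : x = 0 := by
    have h := congrArg (fun X : E 3 => X.x 1 0) (k1 2)
    simp only [hadd, hzp, hN, fa, fb, fc, kv, E.one_x] at h
    simpa using h
  have hy : y = 0 := by
    have h := congrArg (fun X : E 3 => X.x 0 1) (k1 2)
    simp only [hadd, hzp, hN, fa, fb, fc, kv, E.one_x] at h
    simpa using h
  have hz : z = 0 := by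
    have h := congrArg (fun X : E 3 => X.x 0 2) (k1 1)
    simp only [hadd, hzp, hN, fa, fb, fc, kv, E.one_x] at h
    simpa using h
  subst hx hy hz
  have N1l : ∀ {K : Type} [Group K] (χ : G →* K) (P Q : G) (δ : Fin 4 → ℤ), χ P = 1 →
      χ (N P Q δ) = 1 := by
    intro K _ χ P Q δ h
    rw [N]; simp [map_commutatorElement, h]
  have N1r : ∀ {K : Type} [Group K] (χ : G →* K) (P Q : G) (δ : Fin 4 → ℤ), χ Q = 1 →
      χ (N P Q δ) = 1 := by
    intro K _ χ P Q δ h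
    rw [N]; simp [map_commutatorElement, h]
  have f2c : Φ 2 c = 1 := by
    rw [fc]; ext i j
    · simp [kv, E.one_x]
    · rfl
  have f1b : Φ 1 b = 1 := by
    rw [fb]; ext i j
    · simp [kv, E.one_x]
    · rfl
  have f0a : Φ 0 a = 1 := by
    rw [fa]; ext i j
    · simp [kv, E.one_x]
    · rfl
  have hα : α = 0 := by
    refine pair_zero (P := a) (Q := b) (Φ 2) (Ψ 2) (Θ 2) 0 (a1 := 2) (b1 := 0) (e := ω) (f := ω ^ 2)
      (a2 := 1 - ω) (b2 := 0) ?_ (fun z => by rw [g2a]; ring) (fun z => by rw [g2b]; ring) (by norm_num)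
      (fun z => by rw [h2a]; ring) (fun z => by rw [h2b]; ring) (Or.inr rfl) ?_ ?_ ?_ ?_
    · rw [map_commutatorElement, E.comm_d, fa, fb]
      simp [kv, Fin.sum_univ_three]
    · exact three_ne
    · have := k1 2
      rw [zpow_zero, zpow_zero, zpow_zero, one_mul, one_mul, one_mul, map_mul, map_mul,
        N1r (Φ 2) a c β f2c, N1r (Φ 2) b c γ f2c, mul_one, mul_one] at this
      exact this
    · have := k2 2
      rw [zpow_zero, zpow_zero, zpow_zero, one_mul, one_mul, one_mul, map_mul, map_mul,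
        N1r (Ψ 2) a c β g2c, N1r (Ψ 2) b c γ g2c, mul_one, mul_one] at this
      exact this
    · have := k3 2
      rw [zpow_zero, zpow_zero, zpow_zero, one_mul, one_mul, one_mul, map_mul, map_mul,
        N1r (Θ 2) a c β h2c, N1r (Θ 2) b c γ h2c, mul_one, mul_one] at this
      exact this
  have hβ : β = 0 := by
    refine pair_zero (P := a) (Q := c) (Φ 1) (Ψ 1) (Θ 1) 0 (a1 := 2) (b1 := 0) (e := ω ^ 2) (f := ω)
      (a2 := 1 - ω ^ 2) (b2 := 0) ?_ (fun z => by rw [g1a]; ring) (fun z => by rw [g1c]; ring) (by norm_num)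
      (fun z => by rw [h1a]; ring) (fun z => by rw [h1c]; ring) (Or.inl rfl) three_ne' ?_ ?_ ?_
    · rw [map_commutatorElement, E.comm_d, fa, fc]
      simp [kv, Fin.sum_univ_three]
    · have := k1 1
      rw [zpow_zero, zpow_zero, zpow_zero, one_mul, one_mul, one_mul, map_mul, map_mul,
        N1r (Φ 1) a b α f1b, N1l (Φ 1) b c γ f1b, mul_one, one_mul] at this
      exact this
    · have := k2 1
      rw [zpow_zero, zpow_zero, zpow_zero, one_mul, one_mul, one_mul, map_mul, map_mul,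
        N1r (Ψ 1) a b α g1b, N1l (Ψ 1) b c γ g1b, mul_one, one_mul] at this
      exact this
    · have := k3 1
      rw [zpow_zero, zpow_zero, zpow_zero, one_mul, one_mul, one_mul, map_mul, map_mul,
        N1r (Θ 1) a b α h1b, N1l (Θ 1) b c γ h1b, mul_one, one_mul] at this
      exact this
  have hγ : γ = 0 := by
    refine pair_zero (P := b) (Q := c) (Φ 0) (Ψ 0) (Θ 0) 1 (a1 := 2) (b1 := 0) (e := ω) (f := ω ^ 2)
      (a2 := 1 - ω) (b2 := 0) ?_ (fun z => by rw [g0b]; ring) (fun z => by rw [g0c]; ring) (by norm_num)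
      (fun z => by rw [h0b]; ring) (fun z => by rw [h0c]; ring) (Or.inr rfl) three_ne ?_ ?_ ?_
    · rw [map_commutatorElement, E.comm_d, fb, fc]
      simp [kv, Fin.sum_univ_three]
    · have := k1 0
      rw [zpow_zero, zpow_zero, zpow_zero, one_mul, one_mul, one_mul, map_mul, map_mul,
        N1l (Φ 0) a b α f0a, N1l (Φ 0) a c β f0a, one_mul, one_mul] at this
      exact this
    · have := k2 0
      rw [zpow_zero, zpow_zero, zpow_zero, one_mul, one_mul, one_mul, map_mul, map_mul,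
        N1l (Ψ 0) a b α g0a, N1l (Ψ 0) a c β g0a, one_mul, one_mul] at this
      exact this
    · have := k3 0
      rw [zpow_zero, zpow_zero, zpow_zero, one_mul, one_mul, one_mul, map_mul, map_mul,
        N1l (Θ 0) a b α h0a, N1l (Θ 0) a c β h0a, one_mul, one_mul] at this
      exact this
  subst hα hβ hγ
  simp [N]

end Pool.Agent.H76.IADet
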