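import Mathlib
import Pool.Agent.H76.IADetN3
import Pool.Agent.H76.IADetL2

set_option autoImplicit false

namespace Pool.Agent.H76.IADet

open FreeGroup (of)
open scoped commutatorElement
open Pool.Agent.H78.IADetG (N normal_form)
open Pool.Agent.H42.IADetF (O ω)

/-- the smaller index different from `c` -/
def p1 (c : Fin 3) : Fin 3 := if c = 0 then 1 else 0

/-- the larger index different from `c` -/
def p2 (c : Fin 3) : Fin 3 := if c = 2 then 1 else 2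

theorem p1_ne (c : Fin 3) : p1 c ≠ c := by revert c; decide
theorem p2_ne (c : Fin 3) : p2 c ≠ c := by revert c; decide
theorem p12_ne (c : Fin 3) : p1 c ≠ p2 c := by revert c; decide

theorem sum3 {A : Type*} [AddCommMonoid A] (f : Fin 3 → A) (c : Fin 3) :
    ∑ l, f l = f (p1 c) + f (p2 c) + f c := by
  fin_cases c
  · simp only [Fin.sum_univ_three, p1, p2]
    simp only [Fin.zero_eta, Fin.isValue, if_true, Fin.reduceEq, if_false]
    abel
  · simp only [Fin.sum_univ_three, p1, p2]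
    simp only [Fin.mk_one, Fin.isValue, Fin.reduceEq, if_false]
    abel
  · simp only [Fin.sum_univ_three, p1, p2]
    simp only [Fin.reduceFinMk, Fin.isValue, Fin.reduceEq, if_true, if_false]

section

variable {R : Type} [CommRing R] [IsDomain R] (t : Rˣ) (ht : (t : R) - 1 ≠ 0) (c : Fin 3)

/-- the `2 × 2` block -/
def Mt (φ : MulAut (FreeGroup (Fin 3))) : Matrix (Fin 2) (Fin 2) R :=
  !![J t c φ (p1 c) (p1 c), J t c φ (p1 c) (p2 c); J t c φ (p2 c) (p1 c), J t c φ (p2 c) (p2 c)]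

include ht in
theorem Mt_mul {φ ψ : MulAut (FreeGroup (Fin 3))} (h : φ ∈ IA 3) (h' : ψ ∈ IA 3) :
    Mt t c (φ * ψ) = Mt t c φ * Mt t c ψ := by
  have hz : ∀ i, i ≠ c → J t c ψ c i = 0 := fun i hi =>
    J_row t c h' (mem_nonZeroDivisors_of_ne_zero ht) hi
  rw [Mt, Mt, Mt, Matrix.mul_fin_two, J_mul t c h]
  simp only [Matrix.mul_apply, sum3 _ c, hz _ (p1_ne c), hz _ (p2_ne c), mul_zero, add_zero]

theorem Mt_one : Mt t c 1 = (1 : Matrix (Fin 2) (Fin 2) R) := by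
  rw [Mt, J_one, Matrix.one_fin_two]
  simp only [Matrix.one_apply_eq, Matrix.one_apply_ne (p12_ne c), Matrix.one_apply_ne (p12_ne c).symm]

include ht in
theorem Mt_unit {φ : MulAut (FreeGroup (Fin 3))} (h : φ ∈ IA 3) : IsUnit (Mt t c φ).det := by
  have h1 : Mt t c φ * Mt t c φ⁻¹ = 1 := by
    rw [← Mt_mul t ht c h (inv_mem h), mul_inv_cancel, Mt_one]
  have h2 := congrArg Matrix.det h1
  rw [Matrix.det_mul, Matrix.det_one] at h2
  exact IsUnit.of_mul_eq_one _ h2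

theorem Mt_mod {φ : MulAut (FreeGroup (Fin 3))} (h : φ ∈ IA 3) (i j : Fin 2) :
    (t : R) - 1 ∣ Mt t c φ i j - (1 : Matrix (Fin 2) (Fin 2) R) i j := by
  have h11 := J_mod t c h (p1 c) (p1 c)
  have h12 := J_mod t c h (p1 c) (p2 c)
  have h21 := J_mod t c h (p2 c) (p1 c)
  have h22 := J_mod t c h (p2 c) (p2 c)
  rw [if_pos rfl] at h11 h22
  rw [if_neg (p12_ne c)] at h12
  rw [if_neg (p12_ne c).symm] at h21
  rw [Matrix.one_fin_two]
  fin_cases i <;> fin_cases j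
  · exact h11
  · exact h12
  · exact h21
  · exact h22

/-- value on `K_{ij}` -/
theorem Mt_K (φ : MulAut (FreeGroup (Fin 3))) {i j : Fin 3} (hij : i ≠ j)
    (h1 : φ (of i) = of j * of i * (of j)⁻¹) (h2 : ∀ m, m ≠ i → φ (of m) = of m) :
    ∃ a b : ℕ, Mt t c φ = !![(t : R) ^ a, 0; 0, (t : R) ^ b] := by
  have hcol : ∀ a, i ≠ c → J t c φ a i = (chi t c (of j) : R) * (if a = i then 1 else 0) := by
    intro a hic
    rw [J_apply, h1, del_conj, chi_of_ne t c hic, Units.val_one, sub_self, zero_smul, zero_add, del_of]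
    simp only [Pi.smul_apply, Pi.single_apply, smul_eq_mul]
  have hchi : ∃ a : ℕ, (chi t c (of j) : R) = (t : R) ^ a := by
    by_cases hj : j = c
    · exact ⟨1, by rw [hj, chi_of_self, pow_one]⟩
    · exact ⟨0, by rw [chi_of_ne t c hj, pow_zero, Units.val_one]⟩
  obtain ⟨r, hr⟩ := hchi
  have hfix : ∀ a m, m ≠ i → J t c φ a m = if a = m then 1 else 0 := fun a m hm =>
    J_fixed t c (h2 m hm) a
  by_cases e1 : i = p1 c
  · refine ⟨r, 0, ?_⟩
    have h3 : p2 c ≠ i := by rw [e1]; exact (p12_ne c).symm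
    have h4 : i ≠ c := by rw [e1]; exact p1_ne c
    rw [Mt, hfix _ _ h3, hfix _ _ h3, ← e1, hcol _ h4, hcol _ h4, if_pos rfl, if_neg h3, if_neg h3.symm,
      if_pos rfl, mul_one, mul_zero, hr, pow_zero]
  · by_cases e2 : i = p2 c
    · refine ⟨0, r, ?_⟩
      have h3 : p1 c ≠ i := Ne.symm e1
      have h4 : i ≠ c := by rw [e2]; exact p2_ne c
      rw [Mt, hfix _ _ h3, hfix _ _ h3, ← e2, hcol _ h4, hcol _ h4, if_pos rfl, if_neg h3, if_neg h3.symm,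
        if_pos rfl, mul_one, mul_zero, hr, pow_zero]
    · refine ⟨0, 0, ?_⟩
      rw [Mt, hfix _ _ (Ne.symm e1), hfix _ _ (Ne.symm e2), hfix _ _ (Ne.symm e1), hfix _ _ (Ne.symm e2),
        if_pos rfl, if_pos rfl, if_neg (p12_ne c), if_neg (p12_ne c).symm, pow_zero]

/-- value on `K_{i;jc}`, `j < i` -/
theorem Mt_T1 (φ : MulAut (FreeGroup (Fin 3)))
    (h1 : φ (of (p2 c)) = of (p2 c) * (of (p1 c) * of c * (of (p1 c))⁻¹ * (of c)⁻¹))
    (h2 : ∀ m, m ≠ p2 c → φ (of m) = of m) :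
    Mt t c φ = !![1, 1 - (t : R); 0, 1] := by
  have h3 := del_comm t c (of (p1 c)) (of c)
  rw [commutatorElement_def] at h3
  have hcol : ∀ a, J t c φ a (p2 c) = (if a = p2 c then 1 else 0) +
      (1 - (t : R)) * (if a = p1 c then 1 else 0) := by
    intro a
    rw [J_apply, h1, del_mul, h3, chi_of_ne t c (p2_ne c), Units.val_one, one_smul, chi_of_self,
      chi_of_ne t c (p1_ne c), del_of, del_of, Units.val_one, sub_self, zero_smul, sub_zero]
    simp only [Pi.add_apply, Pi.smul_apply, Pi.single_apply, smul_eq_mul]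
  rw [Mt, hcol, hcol, J_fixed t c (h2 _ (p12_ne c)), J_fixed t c (h2 _ (p12_ne c)),
    if_pos rfl, if_neg (p12_ne c), if_neg (p12_ne c).symm, if_pos rfl]
  simp

/-- value on `K_{i;jc}`, `i < j` -/
theorem Mt_T2 (φ : MulAut (FreeGroup (Fin 3)))
    (h1 : φ (of (p1 c)) = of (p1 c) * (of (p2 c) * of c * (of (p2 c))⁻¹ * (of c)⁻¹))
    (h2 : ∀ m, m ≠ p1 c → φ (of m) = of m) :
    Mt t c φ = !![1, 0; 1 - (t : R), 1] := by
  have h3 := del_comm t c (of (p2 c)) (of c)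
  rw [commutatorElement_def] at h3
  have hcol : ∀ a, J t c φ a (p1 c) = (if a = p1 c then 1 else 0) +
      (1 - (t : R)) * (if a = p2 c then 1 else 0) := by
    intro a
    rw [J_apply, h1, del_mul, h3, chi_of_ne t c (p1_ne c), Units.val_one, one_smul, chi_of_self,
      chi_of_ne t c (p2_ne c), del_of, del_of, Units.val_one, sub_self, zero_smul, sub_zero]
    simp only [Pi.add_apply, Pi.smul_apply, Pi.single_apply, smul_eq_mul]
  rw [Mt, hcol, hcol, J_fixed t c (h2 _ (p12_ne c).symm), J_fixed t c (h2 _ (p12_ne c).symm),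
    if_pos rfl, if_neg (p12_ne c), if_neg (p12_ne c).symm, if_pos rfl]
  simp

/-- automorphisms moving only `x_c` -/
theorem Mt_c (φ : MulAut (FreeGroup (Fin 3))) (h2 : ∀ m, m ≠ c → φ (of m) = of m) :
    Mt t c φ = 1 := by
  rw [Mt, J_fixed t c (h2 _ (p1_ne c)), J_fixed t c (h2 _ (p2_ne c)), J_fixed t c (h2 _ (p1_ne c)),
    J_fixed t c (h2 _ (p2_ne c)), if_pos rfl, if_pos rfl, if_neg (p12_ne c), if_neg (p12_ne c).symm,
    Matrix.one_fin_two]

end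

/-! ### the homomorphisms `Ψ` (to `Perm ℤ`) and `Θ` (to `Perm ℤ[ω]`) -/

open Pool.Agent.H42.IADetF (exists_psi exists_psiZ Good GoodZ s)

/-- the chosen map over `ℤ` -/
noncomputable def psiZ : Matrix (Fin 2) (Fin 2) ℤ → Equiv.Perm ℤ := exists_psiZ.choose

theorem psiZ_mul (M N : Matrix (Fin 2) (Fin 2) ℤ) (hM : GoodZ M) (hN : GoodZ N) :
    psiZ (M * N) = psiZ M * psiZ N := exists_psiZ.choose_spec.1 M N hM hN
theorem psiZ_diag (i j : ℕ) : psiZ !![(-1) ^ i, 0; 0, (-1) ^ j] = 1 := exists_psiZ.choose_spec.2.1 i j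
theorem psiZ_X (z : ℤ) : psiZ !![1, 2; 0, 1] z = -z := exists_psiZ.choose_spec.2.2.1 z
theorem psiZ_Y (z : ℤ) : psiZ !![1, 0; 2, 1] z = 2 - z := exists_psiZ.choose_spec.2.2.2 z

/-- the chosen map over `ℤ[ω]` -/
noncomputable def psiO : Matrix (Fin 2) (Fin 2) O → Equiv.Perm O := exists_psi.choose

theorem psiO_mul (M N : Matrix (Fin 2) (Fin 2) O) (hM : Good M) (hN : Good N) :
    psiO (M * N) = psiO M * psiO N := exists_psi.choose_spec.1 M N hM hN
theorem psiO_diag (i j : ℕ) : psiO !![ω ^ i, 0; 0, ω ^ j] = 1 := exists_psi.choose_spec.2.1 i j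
theorem psiO_X (z : O) : psiO !![1, s; 0, 1] z = ω * z := exists_psi.choose_spec.2.2.1 z
theorem psiO_Y (z : O) : psiO !![1, 0; s, 1] z = 1 + ω * (z - 1) := exists_psi.choose_spec.2.2.2 z

/-- `-1` -/
def tZ : ℤˣ := -1

theorem tZ_ne : (tZ : ℤ) - 1 ≠ 0 := by decide

theorem tZ_val : (tZ : ℤ) = -1 := rfl

theorem ω_cube : ω * ω ^ 2 = (1 : O) := by
  rw [ω_rel]
  linear_combination (-1 : O) * ω_rel

/-- `ω` as a unit -/
def tO : Oˣ := ⟨ω, ω ^ 2, ω_cube, by rw [mul_comm]; exact ω_cube⟩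

theorem tO_val : (tO : O) = ω := rfl

theorem tO_sub : (tO : O) - 1 = -s := by
  rw [tO_val]
  change ω - 1 = -(1 - ω)
  ring

theorem tO_ne : (tO : O) - 1 ≠ 0 := by
  rw [tO_sub, neg_ne_zero]
  exact Pool.Agent.H42.IADetF.s_ne_zero

theorem goodZ (c : Fin 3) {φ : MulAut (FreeGroup (Fin 3))} (h : φ ∈ IA 3) : GoodZ (Mt tZ c φ) :=
  ⟨Mt_unit tZ tZ_ne c h, fun i j => by
    have h1 := Mt_mod tZ c h i j
    have h2 : (tZ : ℤ) - 1 = -2 := rfl
    rw [h2, neg_dvd] at h1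
    exact h1⟩

theorem goodO (c : Fin 3) {φ : MulAut (FreeGroup (Fin 3))} (h : φ ∈ IA 3) : Good (Mt tO c φ) :=
  ⟨Mt_unit tO tO_ne c h, fun i j => by
    have h1 := Mt_mod tO c h i j
    rw [tO_sub, neg_dvd] at h1
    exact h1⟩

/-- `Ψ_c` -/
noncomputable def Psi (c : Fin 3) : IA 3 →* Equiv.Perm ℤ where
  toFun φ := psiZ (Mt tZ c φ.1)
  map_one' := by
    have h : ((1 : IA 3) : MulAut (FreeGroup (Fin 3))) = 1 := rfl
    rw [h, Mt_one, Matrix.one_fin_two]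
    have := psiZ_diag 0 0
    rwa [pow_zero] at this
  map_mul' φ ψ := by
    have h : ((φ * ψ : IA 3) : MulAut (FreeGroup (Fin 3))) = φ.1 * ψ.1 := rfl
    rw [h, Mt_mul tZ tZ_ne c φ.2 ψ.2, psiZ_mul _ _ (goodZ c φ.2) (goodZ c ψ.2)]

/-- `Θ_c` -/
noncomputable def Theta (c : Fin 3) : IA 3 →* Equiv.Perm O where
  toFun φ := psiO (Mt tO c φ.1)
  map_one' := by
    have h : ((1 : IA 3) : MulAut (FreeGroup (Fin 3))) = 1 := rfl
    rw [h, Mt_one, Matrix.one_fin_two]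
    have := psiO_diag 0 0
    rwa [pow_zero] at this
  map_mul' φ ψ := by
    have h : ((φ * ψ : IA 3) : MulAut (FreeGroup (Fin 3))) = φ.1 * ψ.1 := rfl
    rw [h, Mt_mul tO tO_ne c φ.2 ψ.2, psiO_mul _ _ (goodO c φ.2) (goodO c ψ.2)]

/-- `φ` is `K_{ij}` -/
def IsK {n : ℕ} (i j : Fin n) (φ : IA n) : Prop :=
  φ.1 (of i) = of j * of i * (of j)⁻¹ ∧ ∀ m, m ≠ i → φ.1 (of m) = of m

/-- `φ` is `K_{ijl}` -/
def IsT {n : ℕ} (i j l : Fin n) (φ : IA n) : Prop :=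
  φ.1 (of i) = of i * (of j * of l * (of j)⁻¹ * (of l)⁻¹) ∧ ∀ m, m ≠ i → φ.1 (of m) = of m

theorem Psi_K (c : Fin 3) {φ : IA 3} {i j : Fin 3} (hij : i ≠ j) (h : IsK i j φ) : Psi c φ = 1 := by
  obtain ⟨a, b, hab⟩ := Mt_K tZ c φ.1 hij h.1 h.2
  change psiZ (Mt tZ c φ.1) = 1
  rw [hab, tZ_val]
  exact psiZ_diag a b

theorem Theta_K (c : Fin 3) {φ : IA 3} {i j : Fin 3} (hij : i ≠ j) (h : IsK i j φ) : Theta c φ = 1 := by
  obtain ⟨a, b, hab⟩ := Mt_K tO c φ.1 hij h.1 h.2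
  change psiO (Mt tO c φ.1) = 1
  rw [hab, tO_val]
  exact psiO_diag a b

theorem p_of {i j c : Fin 3} (hji : j < i) (hjc : j ≠ c) (hic : i ≠ c) : i = p2 c ∧ j = p1 c := by
  revert i j c; decide

/-- `j < i` -/
theorem Psi_T1 {φ : IA 3} {i j c : Fin 3} (hji : j < i) (hjc : j ≠ c) (hic : i ≠ c)
    (h : IsT i j c φ) (z : ℤ) : Psi c φ z = -z := by
  obtain ⟨rfl, rfl⟩ := p_of hji hjc hic
  change psiZ (Mt tZ c φ.1) z = -z
  rw [Mt_T1 tZ c φ.1 h.1 h.2, tZ_val]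
  exact psiZ_X z

/-- `i < j` -/
theorem Psi_T2 {φ : IA 3} {i j c : Fin 3} (hij : i < j) (hjc : j ≠ c) (hic : i ≠ c)
    (h : IsT i j c φ) (z : ℤ) : Psi c φ z = 2 - z := by
  obtain ⟨rfl, rfl⟩ := p_of hij hic hjc
  change psiZ (Mt tZ c φ.1) z = 2 - z
  rw [Mt_T2 tZ c φ.1 h.1 h.2, tZ_val]
  exact psiZ_Y z

theorem Psi_T0 {φ : IA 3} {i j l : Fin 3} (h : IsT i j l φ) : Psi i φ = 1 := by
  change psiZ (Mt tZ i φ.1) = 1
  rw [Mt_c tZ i φ.1 h.2, Matrix.one_fin_two]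
  have := psiZ_diag 0 0
  rwa [pow_zero] at this

theorem Theta_T1 {φ : IA 3} {i j c : Fin 3} (hji : j < i) (hjc : j ≠ c) (hic : i ≠ c)
    (h : IsT i j c φ) (z : O) : Theta c φ z = ω * z := by
  obtain ⟨rfl, rfl⟩ := p_of hji hjc hic
  change psiO (Mt tO c φ.1) z = ω * z
  rw [Mt_T1 tO c φ.1 h.1 h.2, tO_val]
  exact psiO_X z

theorem Theta_T2 {φ : IA 3} {i j c : Fin 3} (hij : i < j) (hjc : j ≠ c) (hic : i ≠ c)
    (h : IsT i j c φ) (z : O) : Theta c φ z = 1 + ω * (z - 1) := by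
  obtain ⟨rfl, rfl⟩ := p_of hij hic hjc
  change psiO (Mt tO c φ.1) z = 1 + ω * (z - 1)
  rw [Mt_T2 tO c φ.1 h.1 h.2, tO_val]
  exact psiO_Y z

theorem Theta_T0 {φ : IA 3} {i j l : Fin 3} (h : IsT i j l φ) : Theta i φ = 1 := by
  change psiO (Mt tO i φ.1) = 1
  rw [Mt_c tO i φ.1 h.2, Matrix.one_fin_two]
  have := psiO_diag 0 0
  rwa [pow_zero] at this

/-! ### the automorphisms `K_{ijl}` -/

/-- `K_{ijl}` as an element of `IA(n)` -/
def KT {n : ℕ} (i j l : Fin n) : IA n := ⟨B i 1 ⁅of j, of l⁆, R_mem_IA i (comm_mem_D _ _)⟩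

theorem KT_isT {n : ℕ} {i j l : Fin n} (hij : i ≠ j) (hil : i ≠ l) : IsT i j l (KT i j l) := by
  refine ⟨?_, fun m hm => B_ne hm _ _⟩
  change B i 1 ⁅of j, of l⁆ (of i) = _
  rw [B_self, map_one, one_mul, kill_comm_of (kill_ne hij.symm) (kill_ne hil.symm)]
  rfl

theorem KT_swap {n : ℕ} (i j l : Fin n) : KT i l j = (KT i j l)⁻¹ := by
  apply Subtype.ext
  change B i 1 ⁅of l, of j⁆ = (B i 1 ⁅of j, of l⁆)⁻¹
  rw [B_inv, commutatorElement_inv, inv_one]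

theorem mk_KT {n : ℕ} (i j l : Fin n) : (QuotientGroup.mk (KT i j l) : Q n) = k i j l := by
  rw [k, beta, rho, q_of (R_mem_IA i (comm_mem_D _ _))]
  rfl

/-- values of the three families on `a = K_{0;12}`, `b = K_{1;20}`, `c = K_{2;01}` -/
theorem vals : (∀ z, Psi 2 (KT 0 1 2) z = 2 - z) ∧ (∀ z, Psi 2 (KT 1 2 0) z = -z) ∧
    Psi 2 (KT 2 0 1) = 1 ∧ (∀ z, Psi 1 (KT 0 1 2) z = 2 - z) ∧ (∀ z, Psi 1 (KT 2 0 1) z = -z) ∧
    Psi 1 (KT 1 2 0) = 1 ∧ (∀ z, Psi 0 (KT 1 2 0) z = 2 - z) ∧ (∀ z, Psi 0 (KT 2 0 1) z = -z) ∧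
    Psi 0 (KT 0 1 2) = 1 := by
  have inv1 : ∀ (A : Equiv.Perm ℤ), (∀ z, A z = -z) → ∀ z, A⁻¹ z = -z := by
    intro A hA z
    rw [Equiv.Perm.inv_eq_iff_eq, hA]; ring
  have inv2 : ∀ (A : Equiv.Perm ℤ), (∀ z, A z = 2 - z) → ∀ z, A⁻¹ z = 2 - z := by
    intro A hA z
    rw [Equiv.Perm.inv_eq_iff_eq, hA]; ring
  refine ⟨?_, ?_, ?_, ?_, ?_, ?_, ?_, ?_, ?_⟩
  · exact Psi_T2 (by decide) (by decide) (by decide) (KT_isT (by decide) (by decide))
  · rw [KT_swap 1 0 2, map_inv]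
    exact inv1 _ (Psi_T1 (by decide) (by decide) (by decide) (KT_isT (by decide) (by decide)))
  · exact Psi_T0 (KT_isT (by decide) (by decide))
  · rw [KT_swap 0 2 1, map_inv]
    exact inv2 _ (Psi_T2 (by decide) (by decide) (by decide) (KT_isT (by decide) (by decide)))
  · exact Psi_T1 (by decide) (by decide) (by decide) (KT_isT (by decide) (by decide))
  · exact Psi_T0 (KT_isT (by decide) (by decide))
  · exact Psi_T2 (by decide) (by decide) (by decide) (KT_isT (by decide) (by decide))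
  · rw [KT_swap 2 1 0, map_inv]
    exact inv1 _ (Psi_T1 (by decide) (by decide) (by decide) (KT_isT (by decide) (by decide)))
  · exact Psi_T0 (KT_isT (by decide) (by decide))

theorem valsO : (∀ z, Theta 2 (KT 0 1 2) z = 1 + ω * (z - 1)) ∧
    (∀ z, Theta 2 (KT 1 2 0) z = ω ^ 2 * z) ∧
    Theta 2 (KT 2 0 1) = 1 ∧ (∀ z, Theta 1 (KT 0 1 2) z = 1 + ω ^ 2 * (z - 1)) ∧
    (∀ z, Theta 1 (KT 2 0 1) z = ω * z) ∧
    Theta 1 (KT 1 2 0) = 1 ∧ (∀ z, Theta 0 (KT 1 2 0) z = 1 + ω * (z - 1)) ∧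
    (∀ z, Theta 0 (KT 2 0 1) z = ω ^ 2 * z) ∧ Theta 0 (KT 0 1 2) = 1 := by
  have inv1 : ∀ (A : Equiv.Perm O), (∀ z, A z = ω * z) → ∀ z, A⁻¹ z = ω ^ 2 * z := by
    intro A hA z
    rw [Equiv.Perm.inv_eq_iff_eq, hA, ← mul_assoc, ω_cube, one_mul]
  have inv2 : ∀ (A : Equiv.Perm O), (∀ z, A z = 1 + ω * (z - 1)) →
      ∀ z, A⁻¹ z = 1 + ω ^ 2 * (z - 1) := by
    intro A hA z
    rw [Equiv.Perm.inv_eq_iff_eq, hA]
    linear_combination (-(z - 1)) * ω_cube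
  refine ⟨?_, ?_, ?_, ?_, ?_, ?_, ?_, ?_, ?_⟩
  · exact Theta_T2 (by decide) (by decide) (by decide) (KT_isT (by decide) (by decide))
  · rw [KT_swap 1 0 2, map_inv]
    exact inv1 _ (Theta_T1 (by decide) (by decide) (by decide) (KT_isT (by decide) (by decide)))
  · exact Theta_T0 (KT_isT (by decide) (by decide))
  · rw [KT_swap 0 2 1, map_inv]
    exact inv2 _ (Theta_T2 (by decide) (by decide) (by decide) (KT_isT (by decide) (by decide)))
  · exact Theta_T1 (by decide) (by decide) (by decide) (KT_isT (by decide) (by decide))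
  · exact Theta_T0 (KT_isT (by decide) (by decide))
  · exact Theta_T2 (by decide) (by decide) (by decide) (KT_isT (by decide) (by decide))
  · rw [KT_swap 2 1 0, map_inv]
    exact inv1 _ (Theta_T1 (by decide) (by decide) (by decide) (KT_isT (by decide) (by decide)))
  · exact Theta_T0 (KT_isT (by decide) (by decide))

end Pool.Agent.H76.IADet
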