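import Mathlib

set_option autoImplicit false

namespace Pool.Agent.H76.IAbase

open FreeGroup (of)

variable {α : Type*} [DecidableEq α]

/-- endomorphism with prescribed images of two generators -/
def E (a b : α) (g h : FreeGroup α) : FreeGroup α →* FreeGroup α :=
  FreeGroup.lift (fun m => if m = a then g else if m = b then h else of m)

theorem E_a (a b : α) (g h : FreeGroup α) : E a b g h (of a) = g := by simp [E]

theorem E_b {a b : α} (hab : b ≠ a) (g h : FreeGroup α) : E a b g h (of b) = h := by simp [E, hab]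

theorem E_m {a b m : α} (h1 : m ≠ a) (h2 : m ≠ b) (g h : FreeGroup α) : E a b g h (of m) = of m := by
  simp [E, h1, h2]

theorem E_comp_eq_id {a b : α} (hab : b ≠ a) {g h g' h' : FreeGroup α}
    (h1 : E a b g h g' = of a) (h2 : E a b g h h' = of b) :
    (E a b g h).comp (E a b g' h') = MonoidHom.id _ := by
  apply FreeGroup.ext_hom
  intro m
  rw [MonoidHom.comp_apply, MonoidHom.id_apply]
  by_cases hma : m = a
  · subst hma; rw [E_a, h1]
  · by_cases hmb : m = b
    · subst hmb; rw [E_b hma, h2]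
    · rw [E_m hma hmb, E_m hma hmb]

/-- automorphism with prescribed images of two generators -/
def mk {a b : α} (hab : b ≠ a) (g h g' h' : FreeGroup α)
    (h1 : E a b g h g' = of a) (h2 : E a b g h h' = of b)
    (h3 : E a b g' h' g = of a) (h4 : E a b g' h' h = of b) : MulAut (FreeGroup α) :=
  MonoidHom.toMulEquiv (E a b g h) (E a b g' h') (E_comp_eq_id hab h3 h4) (E_comp_eq_id hab h1 h2)

theorem mk_apply {a b : α} (hab : b ≠ a) (g h g' h' : FreeGroup α)
    (h1 : E a b g h g' = of a) (h2 : E a b g h h' = of b)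
    (h3 : E a b g' h' g = of a) (h4 : E a b g' h' h = of b) (w : FreeGroup α) :
    mk hab g h g' h' h1 h2 h3 h4 w = E a b g h w := rfl

omit [DecidableEq α] in
/-- two automorphisms agreeing on generators are equal -/
theorem aut_ext {φ ψ : MulAut (FreeGroup α)} (h : ∀ m, φ (of m) = ψ (of m)) : φ = ψ := by
  apply MulEquiv.ext
  intro w
  have : (φ : FreeGroup α →* FreeGroup α) = (ψ : FreeGroup α →* FreeGroup α) :=
    FreeGroup.ext_hom _ _ h
  exact DFunLike.congr_fun this w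

/-- `φ` acts as `g, h` on the two generators `a, b` and fixes the others. -/
def Acts (a b : α) (φ : MulAut (FreeGroup α)) (g h : FreeGroup α) : Prop :=
  φ (of a) = g ∧ φ (of b) = h ∧ ∀ m, m ≠ a → m ≠ b → φ (of m) = of m

theorem Acts.ext {a b : α} {φ ψ : MulAut (FreeGroup α)} {g h : FreeGroup α}
    (h1 : Acts a b φ g h) (h2 : Acts a b ψ g h) : φ = ψ := by
  apply aut_ext
  intro m
  by_cases hma : m = a
  · subst hma; rw [h1.1, h2.1]
  · by_cases hmb : m = b
    · subst hmb; rw [h1.2.1, h2.2.1]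
    · rw [h1.2.2 m hma hmb, h2.2.2 m hma hmb]

omit [DecidableEq α] in
theorem Acts.mul {a b : α} {φ ψ : MulAut (FreeGroup α)} {g h g' h' : FreeGroup α}
    (h1 : Acts a b φ g h) (h2 : Acts a b ψ g' h') : Acts a b (φ * ψ) (φ g') (φ h') := by
  refine ⟨?_, ?_, ?_⟩
  · rw [MulAut.mul_apply, h2.1]
  · rw [MulAut.mul_apply, h2.2.1]
  · intro m hma hmb
    rw [MulAut.mul_apply, h2.2.2 m hma hmb, h1.2.2 m hma hmb]

omit [DecidableEq α] in
theorem Acts.inv {a b : α} {φ : MulAut (FreeGroup α)} {g h g' h' : FreeGroup α}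
    (h1 : Acts a b φ g h) (h2 : φ g' = of a) (h3 : φ h' = of b) : Acts a b φ⁻¹ g' h' := by
  refine ⟨?_, ?_, ?_⟩
  · rw [← h2, MulAut.inv_apply_self]
  · rw [← h3, MulAut.inv_apply_self]
  · intro m hma hmb
    conv_lhs => rw [← h1.2.2 m hma hmb]
    rw [MulAut.inv_apply_self]

theorem mk_acts {a b : α} (hab : b ≠ a) (g h g' h' : FreeGroup α)
    (h1 : E a b g h g' = of a) (h2 : E a b g h h' = of b)
    (h3 : E a b g' h' g = of a) (h4 : E a b g' h' h = of b) :
    Acts a b (mk hab g h g' h' h1 h2 h3 h4) g h :=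
  ⟨by rw [mk_apply, E_a], by rw [mk_apply, E_b hab], fun m hma hmb => by
    rw [mk_apply, E_m hma hmb]⟩

section core

variable {a b c : α} (A B K01 K10 K02 K12 : MulAut (FreeGroup α))

/-- The core identity. `x, z, t` are the three generators. -/
theorem core (hab : b ≠ a) (hca : c ≠ a) (hcb : c ≠ b)
    (hA : Acts a b A (of a * (of b * of c * (of b)⁻¹ * (of c)⁻¹)) (of b))
    (hB : Acts a b B (of a) (of b * (of a * of c * (of a)⁻¹ * (of c)⁻¹)))
    (h01 : Acts a b K01 (of b * of a * (of b)⁻¹) (of b))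
    (h10 : Acts a b K10 (of a) (of a * of b * (of a)⁻¹))
    (h02 : Acts a b K02 (of c * of a * (of c)⁻¹) (of b))
    (h12 : Acts a b K12 (of a) (of c * of b * (of c)⁻¹)) :
    ∃ u R P Q S : MulAut (FreeGroup α),
      u = K10 * K12 * B⁻¹ * K10⁻¹ * A * K02⁻¹ ∧
      R = K10 * B * K12⁻¹ * K10⁻¹ * K02 * A⁻¹ ∧
      P = K12 * K02 * A * K02⁻¹ ∧ Q = K10 * K01 ∧ S = P⁻¹ * Q * P * Q⁻¹ ∧
      (u * S) * R = R * (u * S) := by
  set x : FreeGroup α := of a with hx
  set z : FreeGroup α := of b with hz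
  set t : FreeGroup α := of c with ht
  -- values
  have A1 : A x = x * (z * t * z⁻¹ * t⁻¹) := hA.1
  have A2 : A z = z := hA.2.1
  have A3 : A t = t := hA.2.2 c hca hcb
  have B1 : B x = x := hB.1
  have B2 : B z = z * (x * t * x⁻¹ * t⁻¹) := hB.2.1
  have B3 : B t = t := hB.2.2 c hca hcb
  have k01a : K01 x = z * x * z⁻¹ := h01.1
  have k01b : K01 z = z := h01.2.1
  have k01c : K01 t = t := h01.2.2 c hca hcb
  have k10a : K10 x = x := h10.1
  have k10b : K10 z = x * z * x⁻¹ := h10.2.1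
  have k10c : K10 t = t := h10.2.2 c hca hcb
  have k02a : K02 x = t * x * t⁻¹ := h02.1
  have k02b : K02 z = z := h02.2.1
  have k02c : K02 t = t := h02.2.2 c hca hcb
  have k12a : K12 x = x := h12.1
  have k12b : K12 z = t * z * t⁻¹ := h12.2.1
  have k12c : K12 t = t := h12.2.2 c hca hcb
  -- inverses
  have iA : Acts a b A⁻¹ (x * (z * t * z⁻¹ * t⁻¹)⁻¹) z :=
    hA.inv (by change _ = x; simp only [map_mul, map_inv, A1, A2, A3]; group) A2
  have iB : Acts a b B⁻¹ x (z * (x * t * x⁻¹ * t⁻¹)⁻¹) :=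
    hB.inv B1 (by change _ = z; simp only [map_mul, map_inv, B1, B2, B3]; group)
  have i10 : Acts a b K10⁻¹ x (x⁻¹ * z * x) :=
    h10.inv k10a (by change _ = z; simp only [map_mul, map_inv, k10a, k10b, k10c]; group)
  have i01 : Acts a b K01⁻¹ (z⁻¹ * x * z) z :=
    h01.inv (by change _ = x; simp only [map_mul, map_inv, k01a, k01b, k01c]; group) k01b
  have i02 : Acts a b K02⁻¹ (t⁻¹ * x * t) z :=
    h02.inv (by change _ = x; simp only [map_mul, map_inv, k02a, k02b, k02c]; group) k02b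
  have i12 : Acts a b K12⁻¹ x (t⁻¹ * z * t) :=
    h12.inv k12a (by change _ = z; simp only [map_mul, map_inv, k12a, k12b, k12c]; group)
  have iA1 : A⁻¹ x = x * (z * t * z⁻¹ * t⁻¹)⁻¹ := iA.1
  have iA2 : A⁻¹ z = z := iA.2.1
  have iA3 : A⁻¹ t = t := iA.2.2 c hca hcb
  have iB1 : B⁻¹ x = x := iB.1
  have iB2 : B⁻¹ z = z * (x * t * x⁻¹ * t⁻¹)⁻¹ := iB.2.1
  have iB3 : B⁻¹ t = t := iB.2.2 c hca hcb
  have j10a : K10⁻¹ x = x := i10.1
  have j10b : K10⁻¹ z = x⁻¹ * z * x := i10.2.1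
  have j10c : K10⁻¹ t = t := i10.2.2 c hca hcb
  have j02a : K02⁻¹ x = t⁻¹ * x * t := i02.1
  have j02b : K02⁻¹ z = z := i02.2.1
  have j02c : K02⁻¹ t = t := i02.2.2 c hca hcb
  have j12a : K12⁻¹ x = x := i12.1
  have j12b : K12⁻¹ z = t⁻¹ * z * t := i12.2.1
  have j12c : K12⁻¹ t = t := i12.2.2 c hca hcb
  -- u = d' d⁻¹, d = K02 A⁻¹, d' = K10 K12 B⁻¹ K10⁻¹
  set w : FreeGroup α := (x * z)⁻¹ * t * (x * z) * t⁻¹ with hw
  set v : FreeGroup α := (x * z)⁻¹ * t⁻¹ * (x * z) * t with hv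
  have hd' : Acts a b (K10 * K12 * B⁻¹ * K10⁻¹) x (x⁻¹ * t * x * z * t⁻¹) := by
    have := ((h10.mul h12).mul iB).mul i10
    convert this using 1
    · simp only [MulAut.mul_apply, map_mul, map_inv, iB1, k12a, k10a]
    · simp only [MulAut.mul_apply, map_mul, map_inv, iB1, iB2, iB3, k12a, k12b, k12c, k10a, k10b, k10c]
      group
  have hdi : Acts a b (A * K02⁻¹) (t⁻¹ * x * z * t * z⁻¹) z := by
    have := hA.mul i02
    convert this using 1
    · simp only [map_mul, map_inv, A1, A2, A3]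
      group
    · rw [A2]
  have hd'c : (K10 * K12 * B⁻¹ * K10⁻¹) t = t := hd'.2.2 c hca hcb
  have hu : Acts a b (K10 * K12 * B⁻¹ * K10⁻¹ * A * K02⁻¹) (x * z * w⁻¹ * z⁻¹) (z * w) := by
    have := hd'.mul hdi
    rw [← mul_assoc] at this
    have e1 := hd'.1
    have e2 := hd'.2.1
    generalize K10 * K12 * B⁻¹ * K10⁻¹ = d' at this e1 e2 hd'c ⊢
    convert this using 1
    · simp only [map_mul, map_inv, hd'c]
      rw [e1, e2, hw]
      group
    · rw [e2, hw]; group
  have hd'i : Acts a b (K10 * B * K12⁻¹ * K10⁻¹) x (x⁻¹ * t⁻¹ * x * z * t) := by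
    have := ((h10.mul hB).mul i12).mul i10
    convert this using 1
    · simp only [MulAut.mul_apply, map_mul, map_inv, B1, j12a, k10a]
    · simp only [MulAut.mul_apply, map_mul, map_inv, B1, B2, B3, j12a, j12b, j12c, k10a, k10b, k10c]
      group
  have hd'ic : (K10 * B * K12⁻¹ * K10⁻¹) t = t := hd'i.2.2 c hca hcb
  have hd : Acts a b (K02 * A⁻¹) (t * x * z * t⁻¹ * z⁻¹) z := by
    have := h02.mul iA
    convert this using 1
    · simp only [map_mul, map_inv, k02a, k02b, k02c]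
      group
    · rw [k02b]
  have hR : Acts a b (K10 * B * K12⁻¹ * K10⁻¹ * K02 * A⁻¹) (x * z * v⁻¹ * z⁻¹) (z * v) := by
    have := hd'i.mul hd
    rw [← mul_assoc] at this
    have e1 := hd'i.1
    have e2 := hd'i.2.1
    generalize K10 * B * K12⁻¹ * K10⁻¹ = d' at this e1 e2 hd'ic ⊢
    convert this using 1
    · simp only [map_mul, map_inv, hd'ic]
      rw [e1, e2, hv]
      group
    · rw [e2, hv]; group
  -- P, Q, S
  have hP : Acts a b (K12 * K02 * A * K02⁻¹) (x * (z * t * z⁻¹ * t⁻¹)) (t * z * t⁻¹) := by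
    have := (h12.mul h02).mul hdi
    rw [← mul_assoc] at this
    convert this using 1
    · simp only [MulAut.mul_apply, map_mul, map_inv, k02a, k02b, k02c, k12a, k12b, k12c]
      group
    · simp only [MulAut.mul_apply, map_mul, map_inv, k02a, k02b, k02c, k12a, k12b, k12c]
  have hQ : Acts a b (K10 * K01) (x * z * x * (x * z)⁻¹) (x * z * x⁻¹) := by
    have := h10.mul h01
    convert this using 1
    · simp only [map_mul, map_inv, k10a, k10b, k10c]
      group
    · rw [k10b]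
  set P := K12 * K02 * A * K02⁻¹ with hPdef
  set Q := K10 * K01 with hQdef
  have P1 : P x = x * (z * t * z⁻¹ * t⁻¹) := hP.1
  have P2 : P z = t * z * t⁻¹ := hP.2.1
  have P3 : P t = t := hP.2.2 c hca hcb
  have Q1 : Q x = x * z * x * (x * z)⁻¹ := hQ.1
  have Q2 : Q z = x * z * x⁻¹ := hQ.2.1
  have Q3 : Q t = t := hQ.2.2 c hca hcb
  have iP : Acts a b P⁻¹ (x * z * t⁻¹ * z⁻¹ * t) (t⁻¹ * z * t) := by
    apply hP.inv
    · change _ = x; simp only [map_mul, map_inv, P1, P2, P3]; group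
    · change _ = z; simp only [map_mul, map_inv, P1, P2, P3]; group
  have iQ : Acts a b Q⁻¹ ((x * z)⁻¹ * x * (x * z)) ((x * z)⁻¹ * z * (x * z)) := by
    apply hQ.inv
    · change _ = x; simp only [map_mul, map_inv, Q1, Q2, Q3]; group
    · change _ = z; simp only [map_mul, map_inv, Q1, Q2, Q3]; group
  have iP1 : P⁻¹ x = x * z * t⁻¹ * z⁻¹ * t := iP.1
  have iP2 : P⁻¹ z = t⁻¹ * z * t := iP.2.1
  have iP3 : P⁻¹ t = t := iP.2.2 c hca hcb
  have hS : Acts a b (P⁻¹ * Q * P * Q⁻¹) (x * z * w * z⁻¹ * w⁻¹) (w * z * w⁻¹) := by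
    have := ((iP.mul hQ).mul hP).mul iQ
    convert this using 1
    · simp only [MulAut.mul_apply, map_mul, map_inv, P1, P2, P3, Q1, Q2, Q3, iP1, iP2, iP3, hw]
      group
    · simp only [MulAut.mul_apply, map_mul, map_inv, P1, P2, P3, Q1, Q2, Q3, iP1, iP2, iP3, hw]
      group
  set u := K10 * K12 * B⁻¹ * K10⁻¹ * A * K02⁻¹ with hudef
  set S := P⁻¹ * Q * P * Q⁻¹ with hSdef
  set R := K10 * B * K12⁻¹ * K10⁻¹ * K02 * A⁻¹ with hRdef
  refine ⟨u, R, P, Q, S, rfl, rfl, rfl, rfl, rfl, ?_⟩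
  have u1 : u x = x * z * w⁻¹ * z⁻¹ := hu.1
  have u2 : u z = z * w := hu.2.1
  have u3 : u t = t := hu.2.2 c hca hcb
  have uw : u w = w := by
    rw [hw]; simp only [map_mul, map_inv, u1, u2, u3]; group
  have hL : Acts a b (u * S) (x * w⁻¹) (w * z) := by
    have := hu.mul hS
    convert this using 1
    · simp only [map_mul, map_inv, u1, u2, uw]; group
    · simp only [map_mul, map_inv, u2, uw]; group
  have R1 : R x = x * z * v⁻¹ * z⁻¹ := hR.1
  have R2 : R z = z * v := hR.2.1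
  have R3 : R t = t := hR.2.2 c hca hcb
  have L1 : (u * S) x = x * w⁻¹ := hL.1
  have L2 : (u * S) z = w * z := hL.2.1
  have L3 : (u * S) t = t := hL.2.2 c hca hcb
  have Lv : (u * S) v = v := by
    rw [hv]; simp only [map_mul (u * S), map_inv (u * S), L1, L2, L3]; group
  have Rw : R w = w := by
    rw [hw]; simp only [map_mul, map_inv, R1, R2, R3]; group
  have e1 := hL.mul hR
  have e2 := hR.mul hL
  have e3 : (u * S) (x * z * v⁻¹ * z⁻¹) = R (x * w⁻¹) := by
    simp only [map_mul (u * S), map_inv (u * S), L1, L2, Lv, map_mul, map_inv, R1, Rw]; group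
  have e4 : (u * S) (z * v) = R (w * z) := by
    simp only [map_mul (u * S), map_inv (u * S), L1, L2, Lv, map_mul, map_inv, R2, Rw]; group
  rw [e3, e4] at e1
  exact e1.ext e2

end core

end Pool.Agent.H76.IAbase
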