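import Mathlib
import Pool.Agent.H76.IAbase

set_option autoImplicit false

namespace Pool.Agent.H76.IAmain

open FreeGroup (of)
open Pool.Agent.H76.IAbase

variable {α : Type*} [DecidableEq α]

/-- affine representation: `x ↦ translation by p`, `z ↦ translation by q`, `t ↦ -1` -/
def aff (a b c : α) (v : ℤ × ℤ) : FreeGroup α →* Equiv.Perm ℤ :=
  FreeGroup.lift (fun m => if m = a then Equiv.addRight v.1 else if m = b then Equiv.addRight v.2
    else if m = c then Equiv.neg ℤ else 1)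

theorem aff_a (a b c : α) (v : ℤ × ℤ) : aff a b c v (of a) = Equiv.addRight v.1 := by simp [aff]
theorem aff_b {a b : α} (hab : b ≠ a) (c : α) (v : ℤ × ℤ) :
    aff a b c v (of b) = Equiv.addRight v.2 := by simp [aff, hab]
theorem aff_c {a b c : α} (hca : c ≠ a) (hcb : c ≠ b) (v : ℤ × ℤ) :
    aff a b c v (of c) = Equiv.neg ℤ := by simp [aff, hca, hcb]

/-- commutator of a translation and the reflection -/
theorem comm_neg (p : ℤ) : (Equiv.addRight p : Equiv.Perm ℤ) * Equiv.neg ℤ * (Equiv.addRight p)⁻¹ *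
    (Equiv.neg ℤ)⁻¹ = Equiv.addRight (2 * p) := by
  apply Equiv.ext
  intro n
  simp only [Equiv.Perm.mul_apply]
  have h1 : ((Equiv.neg ℤ)⁻¹ : Equiv.Perm ℤ) n = -n := rfl
  have h2 : ∀ m, ((Equiv.addRight p)⁻¹ : Equiv.Perm ℤ) m = m - p := fun m => by
    have : ((Equiv.addRight p)⁻¹ : Equiv.Perm ℤ) m = m + -p := rfl
    rw [this]; ring
  rw [h1, h2]
  simp only [Equiv.coe_addRight, Equiv.neg_apply]
  ring

theorem add_mul (p q : ℤ) : (Equiv.addRight p : Equiv.Perm ℤ) * Equiv.addRight q = Equiv.addRight (p + q) := by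
  apply Equiv.ext
  intro n
  simp only [Equiv.Perm.mul_apply, Equiv.coe_addRight]
  ring

variable {a b c : α}

/-- `aff v ∘ φ = aff (m v)` -/
def Rep (a b c : α) (φ : MulAut (FreeGroup α)) (m : ℤ × ℤ → ℤ × ℤ) : Prop :=
  ∀ v w, aff a b c v (φ w) = aff a b c (m v) w

theorem Rep.mul {φ ψ : MulAut (FreeGroup α)} {m m' : ℤ × ℤ → ℤ × ℤ} (h1 : Rep a b c φ m)
    (h2 : Rep a b c ψ m') : Rep a b c (φ * ψ) (fun v => m' (m v)) := by
  intro v w
  rw [MulAut.mul_apply, h1, h2]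

theorem Rep.inv {φ : MulAut (FreeGroup α)} {m m' : ℤ × ℤ → ℤ × ℤ} (h1 : Rep a b c φ m)
    (h2 : ∀ v, m (m' v) = v) : Rep a b c φ⁻¹ m' := by
  intro v w
  have := h1 (m' v) (φ⁻¹ w)
  rw [MulAut.apply_inv_self, h2] at this
  exact this.symm

theorem rep_A (hab : b ≠ a) (hca : c ≠ a) (hcb : c ≠ b) {A : MulAut (FreeGroup α)}
    (hA : Acts a b A (of a * (of b * of c * (of b)⁻¹ * (of c)⁻¹)) (of b)) :
    Rep a b c A (fun v => (v.1 + 2 * v.2, v.2)) := by
  intro v w
  have : (aff a b c v).comp (A : FreeGroup α →* FreeGroup α) = aff a b c (v.1 + 2 * v.2, v.2) := by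
    apply FreeGroup.ext_hom
    intro m
    change aff a b c v (A (of m)) = _
    by_cases hma : m = a
    · subst hma
      rw [hA.1, aff_a, map_mul, map_mul, map_mul, map_mul, map_inv, map_inv, aff_a, aff_b hab, aff_c hca hcb,
        comm_neg, add_mul]
    · by_cases hmb : m = b
      · subst hmb
        rw [hA.2.1, aff_b hab, aff_b hab]
      · rw [hA.2.2 m hma hmb]
        simp [aff, hma, hmb]
  exact DFunLike.congr_fun this w

theorem rep_B (hab : b ≠ a) (hca : c ≠ a) (hcb : c ≠ b) {B : MulAut (FreeGroup α)}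
    (hB : Acts a b B (of a) (of b * (of a * of c * (of a)⁻¹ * (of c)⁻¹))) :
    Rep a b c B (fun v => (v.1, v.2 + 2 * v.1)) := by
  intro v w
  have : (aff a b c v).comp (B : FreeGroup α →* FreeGroup α) = aff a b c (v.1, v.2 + 2 * v.1) := by
    apply FreeGroup.ext_hom
    intro m
    change aff a b c v (B (of m)) = _
    by_cases hma : m = a
    · subst hma
      rw [hB.1, aff_a, aff_a]
    · by_cases hmb : m = b
      · subst hmb
        rw [hB.2.1, aff_b hab, map_mul, map_mul, map_mul, map_mul, map_inv, map_inv, aff_a, aff_b hab, aff_c hca hcb,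
        comm_neg, add_mul]
      · rw [hB.2.2 m hma hmb]
        simp [aff, hma, hmb]
  exact DFunLike.congr_fun this w

/-- the commutator is nontrivial -/
theorem nontriv (hab : b ≠ a) (hca : c ≠ a) (hcb : c ≠ b) {A B : MulAut (FreeGroup α)}
    (hA : Acts a b A (of a * (of b * of c * (of b)⁻¹ * (of c)⁻¹)) (of b))
    (hB : Acts a b B (of a) (of b * (of a * of c * (of a)⁻¹ * (of c)⁻¹))) :
    (B⁻¹ * A) * (B * A⁻¹) * (B⁻¹ * A)⁻¹ * (B * A⁻¹)⁻¹ ≠ 1 := by
  intro hcon
  have hrA := rep_A hab hca hcb hA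
  have hrB := rep_B hab hca hcb hB
  have hrA' : Rep a b c A⁻¹ (fun v => (v.1 - 2 * v.2, v.2)) := hrA.inv (fun v => by simp)
  have hrB' : Rep a b c B⁻¹ (fun v => (v.1, v.2 - 2 * v.1)) := hrB.inv (fun v => by simp)
  have h : (B⁻¹ * A) * (B * A⁻¹) * (B⁻¹ * A)⁻¹ * (B * A⁻¹)⁻¹ = B⁻¹ * A * B * A⁻¹ * A⁻¹ * B * A * B⁻¹ := by
    group
  rw [h] at hcon
  have hr := (((((((hrB'.mul hrA).mul hrB).mul hrA').mul hrA').mul hrB).mul hrA).mul hrB')
  rw [hcon] at hr
  have h1 := hr (1, 0) (of a)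
  rw [MulAut.one_apply, aff_a, aff_a] at h1
  have h2 := Equiv.congr_fun h1 0
  simp at h2

end Pool.Agent.H76.IAmain
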