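import Mathlib
import Pool.Agent.H76.IADetHom

set_option autoImplicit false

namespace Pool.Agent.H76.IADet

open FreeGroup (of)
open scoped commutatorElement
open Pool.Agent.H42.IADetF (O ω)

section group

variable {G : Type*} [Group G]

theorem conv1 {P Q : G} (h : ∀ m : ℤ, Commute (Q * P) (Q ^ m * (Q * P) * Q ^ (-m))) (m : ℤ) :
    Commute (P * Q) (Q ^ m * (P * Q) * Q ^ (-m)) := by
  have h1 := (h m).eq
  have e : ∀ x y : G, x * y = y * x → (Q⁻¹ * x * Q) * (Q⁻¹ * y * Q) = (Q⁻¹ * y * Q) * (Q⁻¹ * x * Q) := by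
    intro x y hxy
    calc (Q⁻¹ * x * Q) * (Q⁻¹ * y * Q) = Q⁻¹ * (x * y) * Q := by group
      _ = _ := by rw [hxy]; group
  have h2 := e _ _ h1
  have e1 : Q⁻¹ * (Q * P) * Q = P * Q := by group
  have e2 : Q⁻¹ * (Q ^ m * (Q * P) * Q ^ (-m)) * Q = Q ^ m * (P * Q) * Q ^ (-m) := by
    group
  rw [e1, e2] at h2
  exact h2

theorem conv2 {P Q : G} (h : ∀ m : ℤ, Commute (Q⁻¹ * P) (Q ^ m * (Q⁻¹ * P) * Q ^ (-m))) (m : ℤ) :
    Commute (P⁻¹ * Q) (Q ^ m * (P⁻¹ * Q) * Q ^ (-m)) := by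
  have h1 := (h m).inv_left.inv_right
  have e1 : (Q⁻¹ * P)⁻¹ = P⁻¹ * Q := by group
  have e2 : (Q ^ m * (Q⁻¹ * P) * Q ^ (-m))⁻¹ = Q ^ m * (P⁻¹ * Q) * Q ^ (-m) := by
    rw [zpow_neg]
    group
  rw [e1, e2] at h1
  exact h1

theorem poly_of {P Q : G} (h : ∀ m : ℤ, Commute (P * Q) (Q ^ m * (P * Q) * Q ^ (-m)))
    (h2 : Commute (P ^ 3 * Q * P) (P * Q * P ^ 3)) :
    ⁅P, Q⁆ * (Q * ⁅P, Q⁆ * Q⁻¹) =
      (Q ^ (3:ℤ) * ⁅P, Q⁆ * Q ^ (-3:ℤ)) * (Q ^ (4:ℤ) * ⁅P, Q⁆ * Q ^ (-4:ℤ)) := by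
  set d : ℤ → G := fun i => Q ^ i * (P * Q) * Q ^ (-i) with hd
  have dc : ∀ i j, Commute (d i) (d j) := fun i j => Pool.Agent.H78.IADetG.w_comm h i j
  have dQ : ∀ i, Q * d i * Q⁻¹ = d (i + 1) := by
    intro i; simp only [hd]; group
  have d0 : d 0 = P * Q := by simp [hd]
  have hP : P = d 0 * Q⁻¹ := by rw [d0]; group
  have dP : ∀ i, P * d i * P⁻¹ = d (i - 1) := by
    intro i
    have e1 : Q⁻¹ * d i * Q = d (i - 1) := by simp only [hd]; group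
    have e2 : P * d i * P⁻¹ = d 0 * (Q⁻¹ * d i * Q) * (d 0)⁻¹ := by
      rw [hP]; group
    rw [e2, e1, (dc 0 (i - 1)).eq, mul_inv_cancel_right]
  -- the relation
  have dP2 : ∀ i, P * d i = d (i - 1) * P := by
    intro i; rw [← dP i]; group
  have r1 : (P ^ 3 * Q * P) * (P * Q * P ^ 3) = d (-2) * d (-3) * P ^ 6 := by
    have e1 : (P ^ 3 * Q * P) * (P * Q * P ^ 3) = P * P * (P * Q) * P * (P * Q) * P ^ 3 := by
      simp only [pow_succ, pow_zero]; group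
    rw [e1, ← d0]
    calc P * P * d 0 * P * d 0 * P ^ 3 = P * (P * d 0) * (P * d 0) * P ^ 3 := by group
      _ = P * (d (0 - 1) * P) * (d (0 - 1) * P) * P ^ 3 := by rw [dP2]
      _ = (P * d (0 - 1)) * (P * d (0 - 1)) * P * P ^ 3 := by group
      _ = (d (0 - 1 - 1) * P) * (d (0 - 1 - 1) * P) * P * P ^ 3 := by rw [dP2]
      _ = d (0 - 1 - 1) * (P * d (0 - 1 - 1)) * P * P * P ^ 3 := by group
      _ = d (0 - 1 - 1) * (d (0 - 1 - 1 - 1) * P) * P * P * P ^ 3 := by rw [dP2]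
      _ = d (-2) * d (-3) * P ^ 6 := by
        norm_num
        simp only [pow_succ, pow_zero]; group
  have r2 : (P * Q * P ^ 3) * (P ^ 3 * Q * P) = d 0 * d (-5) * P ^ 6 := by
    have e1 : (P * Q * P ^ 3) * (P ^ 3 * Q * P) = (P * Q) * P * P * P * P * P * (P * Q) * P := by
      simp only [pow_succ, pow_zero]; group
    rw [e1, ← d0]
    calc d 0 * P * P * P * P * P * d 0 * P = d 0 * P * P * P * P * (P * d 0) * P := by group
      _ = d 0 * P * P * P * P * (d (0 - 1) * P) * P := by rw [dP2]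
      _ = d 0 * P * P * P * (P * d (0 - 1)) * P * P := by group
      _ = d 0 * P * P * P * (d (0 - 1 - 1) * P) * P * P := by rw [dP2]
      _ = d 0 * P * P * (P * d (0 - 1 - 1)) * P * P * P := by group
      _ = d 0 * P * P * (d (0 - 1 - 1 - 1) * P) * P * P * P := by rw [dP2]
      _ = d 0 * P * (P * d (0 - 1 - 1 - 1)) * P * P * P * P := by group
      _ = d 0 * P * (d (0 - 1 - 1 - 1 - 1) * P) * P * P * P * P := by rw [dP2]
      _ = d 0 * (P * d (0 - 1 - 1 - 1 - 1)) * P * P * P * P * P := by group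
      _ = d 0 * (d (0 - 1 - 1 - 1 - 1 - 1) * P) * P * P * P * P * P := by rw [dP2]
      _ = d 0 * d (-5) * P ^ 6 := by
        norm_num
        simp only [pow_succ, pow_zero]; group
  have r3 : d (-2) * d (-3) = d 0 * d (-5) := by
    have := h2.eq
    rw [r1, r2] at this
    exact mul_right_cancel this
  have sft : ∀ i, Q ^ (5 : ℤ) * d i * Q ^ (-5 : ℤ) = d (i + 5) := by
    intro i; simp only [hd]; group
  have r4 : d 3 * d 2 = d 5 * d 0 := by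
    have e1 : Q ^ (5 : ℤ) * (d (-2) * d (-3)) * Q ^ (-5 : ℤ) =
        (Q ^ (5 : ℤ) * d (-2) * Q ^ (-5 : ℤ)) * (Q ^ (5 : ℤ) * d (-3) * Q ^ (-5 : ℤ)) := by group
    have e2 : Q ^ (5 : ℤ) * (d 0 * d (-5)) * Q ^ (-5 : ℤ) =
        (Q ^ (5 : ℤ) * d 0 * Q ^ (-5 : ℤ)) * (Q ^ (5 : ℤ) * d (-5) * Q ^ (-5 : ℤ)) := by group
    rw [sft, sft] at e1 e2
    rw [r3] at e1
    rw [e1] at e2
    norm_num at e2
    exact e2
  -- translate
  have s0 : ∀ i : ℤ, Q ^ i * ⁅P, Q⁆ * Q ^ (-i) = d i * (d (i + 1))⁻¹ := by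
    intro i
    simp only [hd, commutatorElement_def]; group
  have t0 := s0 0
  have t1 := s0 1
  have t3 := s0 3
  have t4 := s0 4
  rw [zpow_zero, neg_zero, zpow_zero, one_mul, mul_one] at t0
  rw [zpow_one, zpow_neg, zpow_one] at t1
  rw [t1, t3, t4, t0]
  norm_num
  rw [mul_inv_eq_iff_eq_mul, mul_assoc, (dc 5 2).inv_left.eq, ← mul_assoc, r4, (dc 5 0).eq,
    mul_inv_cancel_right]

theorem lemT {a b c : G} (h : Commute (b * c) (c⁻¹ * (b * c) * c))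
    (h1 : Commute (c⁻¹ * b * c * b⁻¹) (c⁻¹ * (b * a)⁻¹)) : Commute a ⁅b, c⁆ := by
  have h2 : Commute (c * b) (b * c) := by
    have e : ∀ x y : G, x * y = y * x → (c * x * c⁻¹) * (c * y * c⁻¹) = (c * y * c⁻¹) * (c * x * c⁻¹) := by
      intro x y hxy
      calc (c * x * c⁻¹) * (c * y * c⁻¹) = c * (x * y) * c⁻¹ := by group
        _ = _ := by rw [hxy]; group
    have h3 := e _ _ h.eq
    have e1 : c * (b * c) * c⁻¹ = c * b := by group
    have e2 : c * (c⁻¹ * (b * c) * c) * c⁻¹ = b * c := by group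
    rw [e1, e2] at h3
    exact h3
  -- `⁅b,c⁆ = (c b)⁻¹ (b c)`
  have h4 : b⁻¹ * c⁻¹ * b * c = ⁅b, c⁆ := by
    have := h2.inv_left.eq
    calc b⁻¹ * c⁻¹ * b * c = (c * b)⁻¹ * (b * c) := by group
      _ = (b * c) * (c * b)⁻¹ := this
      _ = ⁅b, c⁆ := by rw [commutatorElement_def]; group
  have h5 := h1.eq
  -- a⁻¹ (b⁻¹ v b) a = c v c⁻¹
  have h6 : a⁻¹ * (b⁻¹ * (c⁻¹ * b * c * b⁻¹) * b) * a = c * (c⁻¹ * b * c * b⁻¹) * c⁻¹ := by
    have e1 : a⁻¹ * (b⁻¹ * (c⁻¹ * b * c * b⁻¹) * b) * a =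
        c * ((c⁻¹ * (b * a)⁻¹) * (c⁻¹ * b * c * b⁻¹)) * (b * a) := by group
    rw [e1, ← h5]; group
  have e2 : b⁻¹ * (c⁻¹ * b * c * b⁻¹) * b = b⁻¹ * c⁻¹ * b * c := by group
  have e3 : c * (c⁻¹ * b * c * b⁻¹) * c⁻¹ = ⁅b, c⁆ := by rw [commutatorElement_def]; group
  rw [e2, e3, h4] at h6
  have h7 : a * ⁅b, c⁆ = ⁅b, c⁆ * a := by
    calc a * ⁅b, c⁆ = a * (a⁻¹ * ⁅b, c⁆ * a) := by rw [h6]
      _ = _ := by group
  exact h7

end group

/-! ### relations in `Q(3)` -/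

/-- class of `K_{0;12}` -/
noncomputable abbrev ka : Q 3 := k 0 1 2
/-- class of `K_{1;20}` -/
noncomputable abbrev kb : Q 3 := k 1 2 0
/-- class of `K_{2;01}` -/
noncomputable abbrev kc : Q 3 := k 2 0 1


theorem hab3 (m : ℤ) : Commute (ka * kb : Q 3) (kb ^ m * (ka * kb) * kb ^ (-m)) := by
  apply conv1
  intro m
  have h := L1 (n := 3) (a := 0) (b := 1) (c := 2) (by decide) (by decide) (by decide) (-m)
  have e : (k 1 0 2 : Q 3) = kb⁻¹ := k_swap 1 2 0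
  rw [e, inv_inv, neg_neg, inv_zpow, inv_zpow, ← zpow_neg, ← zpow_neg, neg_neg] at h
  exact h

theorem hac3 (m : ℤ) : Commute (ka * kc : Q 3) (kc ^ m * (ka * kc) * kc ^ (-m)) := by
  have h := conv2 (fun m => L1 (n := 3) (a := 0) (b := 2) (c := 1) (by decide) (by decide) (by decide) m) m
  have e : (k 0 2 1 : Q 3) = ka⁻¹ := k_swap 0 1 2
  rw [e, inv_inv] at h
  exact h

theorem hbc3 (m : ℤ) : Commute (kb * kc : Q 3) (kc ^ m * (kb * kc) * kc ^ (-m)) := by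
  apply conv1
  intro m
  have h := L1 (n := 3) (a := 1) (b := 2) (c := 0) (by decide) (by decide) (by decide) (-m)
  have e : (k 2 1 0 : Q 3) = kc⁻¹ := k_swap 2 0 1
  rw [e, inv_inv, neg_neg, inv_zpow, inv_zpow, ← zpow_neg, ← zpow_neg, neg_neg] at h
  exact h

theorem pab3 : ⁅ka, kb⁆ * (kb * ⁅ka, kb⁆ * kb⁻¹) =
      (kb ^ (3:ℤ) * ⁅ka, kb⁆ * kb ^ (-3:ℤ)) *
        (kb ^ (4:ℤ) * ⁅ka, kb⁆ * kb ^ (-4:ℤ)) := by
  apply poly_of hab3
  have h := L2 (n := 3) (a := 0) (b := 1) (c := 2) (by decide) (by decide) (by decide)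
  have e : (k 1 0 2 : Q 3) = kb⁻¹ := k_swap 1 2 0
  rw [e, inv_inv] at h
  exact h

theorem pac3 : ⁅ka, kc⁆ * (kc * ⁅ka, kc⁆ * kc⁻¹) =
      (kc ^ (3:ℤ) * ⁅ka, kc⁆ * kc ^ (-3:ℤ)) *
        (kc ^ (4:ℤ) * ⁅ka, kc⁆ * kc ^ (-4:ℤ)) := by
  apply poly_of hac3
  have h := L2 (n := 3) (a := 0) (b := 2) (c := 1) (by decide) (by decide) (by decide)
  have e : (k 0 2 1 : Q 3) = ka⁻¹ := k_swap 0 1 2
  have h1 := h.inv_left.inv_right
  have e1 : ((k 0 2 1 : Q 3) ^ 3 * kc⁻¹ * k 0 2 1)⁻¹ = ka * kc * ka ^ 3 := by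
    rw [e]; group
  have e2 : ((k 0 2 1 : Q 3) * kc⁻¹ * k 0 2 1 ^ 3)⁻¹ = ka ^ 3 * kc * ka := by
    rw [e]; group
  rw [e1, e2] at h1
  exact h1.symm

theorem pbc3 : ⁅kb, kc⁆ * (kc * ⁅kb, kc⁆ * kc⁻¹) =
      (kc ^ (3:ℤ) * ⁅kb, kc⁆ * kc ^ (-3:ℤ)) *
        (kc ^ (4:ℤ) * ⁅kb, kc⁆ * kc ^ (-4:ℤ)) := by
  apply poly_of hbc3
  have h := L2 (n := 3) (a := 1) (b := 2) (c := 0) (by decide) (by decide) (by decide)
  have e : (k 2 1 0 : Q 3) = kc⁻¹ := k_swap 2 0 1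
  rw [e, inv_inv] at h
  exact h

theorem cl {G : Type*} [Group G] {P Q : G}
    (h : ∀ m : ℤ, Commute (P * Q) (Q ^ m * (P * Q) * Q ^ (-m))) :
    Commute (P * Q) (Q⁻¹ * (P * Q) * Q) := by
  have := h (-1)
  rwa [zpow_neg, zpow_one, neg_neg, zpow_one] at this

theorem ta3 : Commute ka ⁅kb, kc⁆ := by
  apply lemT (cl hbc3)
  have h := T1 (n := 3) (a := 0) (b := 1) (c := 2) (by decide) (by decide) (by decide)
  have e : (k 1 0 2 : Q 3) = kb⁻¹ := k_swap 1 2 0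
  rw [e, inv_inv] at h
  exact h

theorem tb3 : Commute kb ⁅ka, kc⁆ := by
  have h0 : Commute (kc * ka : Q 3) (ka⁻¹ * (kc * ka) * ka) := by
    have h := cl hac3
    -- `(ac)` commutes with `c⁻¹(ac)c`; conjugate by `c`
    have e : ∀ x y g : Q 3, x * y = y * x → (g * x * g⁻¹) * (g * y * g⁻¹) = (g * y * g⁻¹) * (g * x * g⁻¹) := by
      intro x y g hxy
      calc (g * x * g⁻¹) * (g * y * g⁻¹) = g * (x * y) * g⁻¹ := by group
        _ = _ := by rw [hxy]; group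
    have h3 := e _ _ (kc) h.eq
    have e1 : kc * (ka * kc) * kc⁻¹ = kc * ka := by group
    have e2 : kc * (kc⁻¹ * (ka * kc) * kc) * kc⁻¹ =
        ka * kc := by group
    rw [e1, e2] at h3
    -- conjugate by a⁻¹
    have h4 := e _ _ ka⁻¹ h3
    have e3 : (ka⁻¹ : Q 3) * (ka * kc) * ka⁻¹⁻¹ = kc * ka := by group
    rw [e3, inv_inv] at h4
    exact h4.symm
  have h := T1 (n := 3) (a := 1) (b := 2) (c := 0) (by decide) (by decide) (by decide)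
  have e : (k 2 1 0 : Q 3) = kc⁻¹ := k_swap 2 0 1
  rw [e, inv_inv] at h
  have h1 := lemT (a := kb) h0 h
  rw [← commutatorElement_inv]
  exact h1.inv_right

theorem tc3 : Commute kc ⁅ka, kb⁆ := by
  apply lemT (cl hab3)
  have h := T1 (n := 3) (a := 2) (b := 0) (c := 1) (by decide) (by decide) (by decide)
  have e : (k 0 2 1 : Q 3) = ka⁻¹ := k_swap 0 1 2
  rw [e, inv_inv] at h
  exact h

/-! ### the determination for `n = 3` -/

theorem Psi_C (c : Fin 3) : Subgroup.normalClosure (C 3 : Set (IA 3)) ≤ (Psi c).ker := by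
  apply Subgroup.normalClosure_le_normal
  intro φ hφ
  have : C 3 ≤ (Psi c).ker := by
    rw [C, Subgroup.closure_le]
    rintro φ ⟨i, j, hij, h1, h2⟩
    exact Psi_K c hij ⟨h1, h2⟩
  exact this hφ

theorem Theta_C (c : Fin 3) : Subgroup.normalClosure (C 3 : Set (IA 3)) ≤ (Theta c).ker := by
  apply Subgroup.normalClosure_le_normal
  intro φ hφ
  have : C 3 ≤ (Theta c).ker := by
    rw [C, Subgroup.closure_le]
    rintro φ ⟨i, j, hij, h1, h2⟩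
    exact Theta_K c hij ⟨h1, h2⟩
  exact this hφ

/-- `Ψ_c` on the quotient -/
noncomputable def PsiQ (c : Fin 3) : Q 3 →* Equiv.Perm ℤ :=
  QuotientGroup.lift _ (Psi c) (fun _ hφ => Psi_C c hφ)

/-- `Θ_c` on the quotient -/
noncomputable def ThetaQ (c : Fin 3) : Q 3 →* Equiv.Perm O :=
  QuotientGroup.lift _ (Theta c) (fun _ hφ => Theta_C c hφ)

theorem PsiQ_k (c i j l : Fin 3) : PsiQ c (k i j l) = Psi c (KT i j l) := by
  rw [← mk_KT]; rfl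

theorem ThetaQ_k (c i j l : Fin 3) : ThetaQ c (k i j l) = Theta c (KT i j l) := by
  rw [← mk_KT]; rfl

theorem KK3 : KK 3 ≤ Subgroup.closure ({k 0 1 2, k 1 2 0, k 2 0 1} : Set (Q 3)) := by
  rw [KK, Subgroup.closure_le]
  rintro _ ⟨⟨⟨i, j, l⟩, h1, h2, h3⟩, rfl⟩
  have cases : (i = 0 ∧ j = 1 ∧ l = 2) ∨ (i = 1 ∧ j = 0 ∧ l = 2) ∨ (i = 2 ∧ j = 0 ∧ l = 1) := by
    simp only at h1 h2 h3
    revert i j l; decide
  change k i j l ∈ _
  rcases cases with ⟨rfl, rfl, rfl⟩ | ⟨rfl, rfl, rfl⟩ | ⟨rfl, rfl, rfl⟩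
  · exact Subgroup.subset_closure (by simp)
  · rw [k_swap 1 2 0]
    exact inv_mem (Subgroup.subset_closure (by simp))
  · exact Subgroup.subset_closure (by simp)

theorem det_Q3 {g : Q 3} (hg : g ∈ KK 3) (h1 : ∀ c, PhiQ c g = 1) (h2 : ∀ c, PsiQ c g = 1)
    (h3 : ∀ c, ThetaQ c g = 1) : g = 1 := by
  obtain ⟨v1, v2, v3, v4, v5, v6, v7, v8, v9⟩ := vals
  obtain ⟨w1, w2, w3, w4, w5, w6, w7, w8, w9⟩ := valsO
  exact detect3 (k 0 1 2) (k 1 2 0) (k 2 0 1) hab3 hac3 hbc3 pab3 pac3 pbc3 ta3 tb3 tc3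
    PhiQ PsiQ ThetaQ
    (fun m => PhiQ_k m (by decide) (by decide) (by decide))
    (fun m => PhiQ_k m (by decide) (by decide) (by decide))
    (fun m => PhiQ_k m (by decide) (by decide) (by decide))
    (fun z => by rw [PsiQ_k]; exact v1 z) (fun z => by rw [PsiQ_k]; exact v2 z)
    (by rw [PsiQ_k]; exact v3) (fun z => by rw [PsiQ_k]; exact v4 z)
    (fun z => by rw [PsiQ_k]; exact v5 z) (by rw [PsiQ_k]; exact v6)
    (fun z => by rw [PsiQ_k]; exact v7 z) (fun z => by rw [PsiQ_k]; exact v8 z)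
    (by rw [PsiQ_k]; exact v9)
    (fun z => by rw [ThetaQ_k]; exact w1 z) (fun z => by rw [ThetaQ_k]; exact w2 z)
    (by rw [ThetaQ_k]; exact w3) (fun z => by rw [ThetaQ_k]; exact w4 z)
    (fun z => by rw [ThetaQ_k]; exact w5 z) (by rw [ThetaQ_k]; exact w6)
    (fun z => by rw [ThetaQ_k]; exact w7 z) (fun z => by rw [ThetaQ_k]; exact w8 z)
    (by rw [ThetaQ_k]; exact w9)
    (KK3 hg) h1 h2 h3

theorem det3 {φ : IA 3} (hφ : φ ∈ T 3) :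
    φ ∈ Subgroup.normalClosure (C 3 : Set (IA 3)) ↔
      ∀ c, Phi c φ = 1 ∧ Psi c φ = 1 ∧ Theta c φ = 1 := by
  constructor
  · intro h c
    exact ⟨Phi_C c h, Psi_C c h, Theta_C c h⟩
  · intro h
    rw [← QuotientGroup.eq_one_iff]
    exact det_Q3 (mk_T hφ) (fun c => by rw [PhiQ_mk]; exact (h c).1) (fun c => (h c).2.1)
      (fun c => (h c).2.2)

end Pool.Agent.H76.IADet
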