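import Mathlib
import Pool.Agent.H76.IADetRel3
import Pool.Agent.H42.IADetPres3

set_option autoImplicit false

/-! Explicit normal generators for `n = 3`. -/

namespace Pool.Agent.H76.IADet

open FreeGroup (of)
open scoped commutatorElement
open Pool.Agent.H42.IADetF

/-- the relators for `n = 3` -/
def RelP : Set (IA 3) :=
  {r | (∃ P Q : IA 3, ((P = @KT 3 0 1 2 ∧ Q = @KT 3 1 2 0) ∨ (P = @KT 3 0 1 2 ∧ Q = @KT 3 2 0 1) ∨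
        (P = @KT 3 1 2 0 ∧ Q = @KT 3 2 0 1)) ∧
      ((∃ m : ℕ, 1 ≤ m ∧ m ≤ 4 ∧ r = ⁅P * Q, Q ^ m * (P * Q) * (Q ^ m)⁻¹⁆) ∨
        r = ⁅P, Q⁆ * (Q * ⁅P, Q⁆ * Q⁻¹) *
          ((Q ^ 3 * ⁅P, Q⁆ * (Q ^ 3)⁻¹) * (Q ^ 4 * ⁅P, Q⁆ * (Q ^ 4)⁻¹))⁻¹)) ∨
    r = ⁅@KT 3 0 1 2, ⁅@KT 3 1 2 0, @KT 3 2 0 1⁆⁆ ∨ r = ⁅@KT 3 1 2 0, ⁅@KT 3 0 1 2, @KT 3 2 0 1⁆⁆ ∨
    r = ⁅@KT 3 2 0 1, ⁅@KT 3 0 1 2, @KT 3 1 2 0⁆⁆}

theorem mem_RelP {r : IA 3} : r ∈ RelP ↔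
  ((∃ P Q : IA 3, ((P = @KT 3 0 1 2 ∧ Q = @KT 3 1 2 0) ∨ (P = @KT 3 0 1 2 ∧ Q = @KT 3 2 0 1) ∨
        (P = @KT 3 1 2 0 ∧ Q = @KT 3 2 0 1)) ∧
      ((∃ m : ℕ, 1 ≤ m ∧ m ≤ 4 ∧ r = ⁅P * Q, Q ^ m * (P * Q) * (Q ^ m)⁻¹⁆) ∨
        r = ⁅P, Q⁆ * (Q * ⁅P, Q⁆ * Q⁻¹) *
          ((Q ^ 3 * ⁅P, Q⁆ * (Q ^ 3)⁻¹) * (Q ^ 4 * ⁅P, Q⁆ * (Q ^ 4)⁻¹))⁻¹)) ∨
    r = ⁅@KT 3 0 1 2, ⁅@KT 3 1 2 0, @KT 3 2 0 1⁆⁆ ∨ r = ⁅@KT 3 1 2 0, ⁅@KT 3 0 1 2, @KT 3 2 0 1⁆⁆ ∨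
    r = ⁅@KT 3 2 0 1, ⁅@KT 3 0 1 2, @KT 3 1 2 0⁆⁆) := Iff.rfl

section gen

variable {G : Type*} [Group G]

theorem zpow_cast4 (Q : G) : Q ^ (3:ℤ) = Q ^ 3 ∧ Q ^ (-3:ℤ) = (Q ^ 3)⁻¹ ∧ Q ^ (4:ℤ) = Q ^ 4 ∧
    Q ^ (-4:ℤ) = (Q ^ 4)⁻¹ := by
  have h3 : Q ^ (3:ℤ) = Q ^ 3 := by exact_mod_cast zpow_natCast Q 3
  have h4 : Q ^ (4:ℤ) = Q ^ 4 := by exact_mod_cast zpow_natCast Q 4
  exact ⟨h3, by rw [zpow_neg, h3], h4, by rw [zpow_neg, h4]⟩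

theorem nat_rel {P Q : G} (h : ∀ m : ℤ, Commute (P * Q) (Q ^ m * (P * Q) * Q ^ (-m))) (m : ℕ) :
    ⁅P * Q, Q ^ m * (P * Q) * (Q ^ m)⁻¹⁆ = 1 := by
  rw [commutatorElement_eq_one_iff_commute]
  have := h m
  rwa [zpow_neg, zpow_natCast] at this

theorem poly_rel {P Q : G} (h : ⁅P, Q⁆ * (Q * ⁅P, Q⁆ * Q⁻¹) =
      (Q ^ (3:ℤ) * ⁅P, Q⁆ * Q ^ (-3:ℤ)) * (Q ^ (4:ℤ) * ⁅P, Q⁆ * Q ^ (-4:ℤ))) :
    ⁅P, Q⁆ * (Q * ⁅P, Q⁆ * Q⁻¹) *
          ((Q ^ 3 * ⁅P, Q⁆ * (Q ^ 3)⁻¹) * (Q ^ 4 * ⁅P, Q⁆ * (Q ^ 4)⁻¹))⁻¹ = 1 := by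
  rw [h, mul_inv_eq_one, (zpow_cast4 Q).1, (zpow_cast4 Q).2.1, (zpow_cast4 Q).2.2.1, (zpow_cast4 Q).2.2.2]

theorem poly_rel' {P Q : G} (h : ⁅P, Q⁆ * (Q * ⁅P, Q⁆ * Q⁻¹) *
          ((Q ^ 3 * ⁅P, Q⁆ * (Q ^ 3)⁻¹) * (Q ^ 4 * ⁅P, Q⁆ * (Q ^ 4)⁻¹))⁻¹ = 1) :
    ⁅P, Q⁆ * (Q * ⁅P, Q⁆ * Q⁻¹) =
      (Q ^ (3:ℤ) * ⁅P, Q⁆ * Q ^ (-3:ℤ)) * (Q ^ (4:ℤ) * ⁅P, Q⁆ * Q ^ (-4:ℤ)) := by
  rw [mul_inv_eq_one] at h
  rw [h, (zpow_cast4 Q).1, (zpow_cast4 Q).2.1, (zpow_cast4 Q).2.2.1, (zpow_cast4 Q).2.2.2]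

end gen

theorem mem_of_mk {r : IA 3} (h : (QuotientGroup.mk r : Q 3) = 1) :
    r ∈ Subgroup.normalClosure (C 3 : Set (IA 3)) := (QuotientGroup.eq_one_iff r).1 h

theorem RelP_C {r : IA 3} (hr : r ∈ RelP) : r ∈ Subgroup.normalClosure (C 3 : Set (IA 3)) := by
  let π : IA 3 →* Q 3 := QuotientGroup.mk' _
  have pa : π (KT 0 1 2) = ka := mk_KT 0 1 2
  have pb : π (KT 1 2 0) = kb := mk_KT 1 2 0
  have pc : π (KT 2 0 1) = kc := mk_KT 2 0 1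
  apply mem_of_mk
  change π r = 1
  rcases mem_RelP.1 hr with ⟨P, Q, hPQ, h⟩ | rfl | rfl | rfl
  · have key : (∀ m : ℤ, Commute (π P * π Q) ((π Q) ^ m * (π P * π Q) * (π Q) ^ (-m))) ∧
        ⁅π P, π Q⁆ * (π Q * ⁅π P, π Q⁆ * (π Q)⁻¹) =
      ((π Q) ^ (3:ℤ) * ⁅π P, π Q⁆ * (π Q) ^ (-3:ℤ)) * ((π Q) ^ (4:ℤ) * ⁅π P, π Q⁆ * (π Q) ^ (-4:ℤ)) := by
      rcases hPQ with ⟨rfl, rfl⟩ | ⟨rfl, rfl⟩ | ⟨rfl, rfl⟩
      · rw [pa, pb]; exact ⟨hab3, pab3⟩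
      · rw [pa, pc]; exact ⟨hac3, pac3⟩
      · rw [pb, pc]; exact ⟨hbc3, pbc3⟩
    rcases h with ⟨m, -, -, rfl⟩ | rfl
    · rw [map_commutatorElement]
      simp only [map_mul, map_inv, map_pow]
      exact nat_rel key.1 m
    · simp only [map_mul, map_inv, map_pow, map_commutatorElement]
      exact poly_rel key.2
  · rw [map_commutatorElement, map_commutatorElement, pa, pb, pc, commutatorElement_eq_one_iff_commute]
    exact ta3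
  · rw [map_commutatorElement, map_commutatorElement, pa, pb, pc, commutatorElement_eq_one_iff_commute]
    exact tb3
  · rw [map_commutatorElement, map_commutatorElement, pa, pb, pc, commutatorElement_eq_one_iff_commute]
    exact tc3

/-- the generators as elements of `T(3)` -/
theorem KT_mem_T {i j l : Fin 3} (hij : i ≠ j) (hil : i ≠ l) (hjl : j ≠ l) : KT i j l ∈ T 3 := by
  rcases lt_or_gt_of_ne hjl with h | h
  · exact Subgroup.subset_closure ⟨i, j, l, hij, h, hil.symm, (KT_isT hij hil).1, (KT_isT hij hil).2⟩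
  · rw [KT_swap]
    exact inv_mem (Subgroup.subset_closure
      ⟨i, l, j, hil, h, hij.symm, (KT_isT hil hij).1, (KT_isT hil hij).2⟩)

theorem presP : Subgroup.map (T 3).subtype (Subgroup.normalClosure {t : T 3 | (t : IA 3) ∈ RelP}) =
    Subgroup.normalClosure (C 3 : Set (IA 3)) ⊓ T 3 := by
  set M : Subgroup (T 3) := Subgroup.normalClosure {t : T 3 | (t : IA 3) ∈ RelP} with hM
  have hMC : ∀ t : T 3, t ∈ M → (t : IA 3) ∈ Subgroup.normalClosure (C 3 : Set (IA 3)) := by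
    intro t ht
    have : M ≤ (Subgroup.normalClosure (C 3 : Set (IA 3))).subgroupOf (T 3) := by
      apply Subgroup.normalClosure_le_normal
      intro t ht
      rw [SetLike.mem_coe, Subgroup.mem_subgroupOf]
      exact RelP_C ht
    exact Subgroup.mem_subgroupOf.1 (this ht)
  apply le_antisymm
  · rintro _ ⟨t, ht, rfl⟩
    exact ⟨hMC t ht, t.2⟩
  · rintro φ ⟨hφ, hT⟩
    refine ⟨⟨φ, hT⟩, ?_, rfl⟩
    let π : T 3 →* T 3 ⧸ M := QuotientGroup.mk' M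
    let a : T 3 := ⟨KT 0 1 2, KT_mem_T (by decide) (by decide) (by decide)⟩
    let b : T 3 := ⟨KT 1 2 0, KT_mem_T (by decide) (by decide) (by decide)⟩
    let c : T 3 := ⟨KT 2 0 1, KT_mem_T (by decide) (by decide) (by decide)⟩
    have hπ : ∀ t : T 3, (t : IA 3) ∈ RelP → π t = 1 := fun t ht =>
      (QuotientGroup.eq_one_iff t).2 (Subgroup.subset_normalClosure ht)
    have cc : ∀ X Y : T 3, ((⁅X, Y⁆ : T 3) : IA 3) = ⁅(X : IA 3), (Y : IA 3)⁆ := fun _ _ => rfl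
    have pair : ∀ P Q : T 3, ((P : IA 3) = KT 0 1 2 ∧ (Q : IA 3) = KT 1 2 0) ∨
        ((P : IA 3) = KT 0 1 2 ∧ (Q : IA 3) = KT 2 0 1) ∨
        ((P : IA 3) = KT 1 2 0 ∧ (Q : IA 3) = KT 2 0 1) →
        (∀ m : ℤ, Commute (π P * π Q) ((π Q) ^ m * (π P * π Q) * (π Q) ^ (-m))) ∧
        ⁅π P, π Q⁆ * (π Q * ⁅π P, π Q⁆ * (π Q)⁻¹) =
      ((π Q) ^ (3:ℤ) * ⁅π P, π Q⁆ * (π Q) ^ (-3:ℤ)) * ((π Q) ^ (4:ℤ) * ⁅π P, π Q⁆ * (π Q) ^ (-4:ℤ)) := by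
      intro P Q hPQ
      have h1 : ∀ m : ℕ, 1 ≤ m → m ≤ 4 → Commute (π P * π Q) ((π Q) ^ m * (π P * π Q) * ((π Q) ^ m)⁻¹) := by
        intro m hm1 hm2
        have := hπ ⁅P * Q, Q ^ m * (P * Q) * (Q ^ m)⁻¹⁆
          (mem_RelP.2 (Or.inl ⟨(P : IA 3), (Q : IA 3), hPQ, Or.inl ⟨m, hm1, hm2, by
            simp only [Subgroup.coe_mul, Subgroup.coe_inv, Subgroup.coe_pow, cc]⟩⟩))
        rw [map_commutatorElement] at this
        simp only [map_mul, map_inv, map_pow] at this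
        exact (commutatorElement_eq_one_iff_commute).1 this
      have h2 := hπ (⁅P, Q⁆ * (Q * ⁅P, Q⁆ * Q⁻¹) *
          ((Q ^ 3 * ⁅P, Q⁆ * (Q ^ 3)⁻¹) * (Q ^ 4 * ⁅P, Q⁆ * (Q ^ 4)⁻¹))⁻¹)
          (mem_RelP.2 (Or.inl ⟨(P : IA 3), (Q : IA 3), hPQ, Or.inr (by
            simp only [Subgroup.coe_mul, Subgroup.coe_inv, Subgroup.coe_pow, cc])⟩))
      simp only [map_mul, map_inv, map_pow, map_commutatorElement] at h2
      refine ⟨Pool.Agent.H42.IADetPres3.comm_all h1 (mul_inv_eq_one.1 h2), poly_rel' h2⟩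
    have t1 : Commute (π a) ⁅π b, π c⁆ := by
      have := hπ ⁅a, ⁅b, c⁆⁆ (mem_RelP.2 (Or.inr (Or.inl rfl)))
      rw [map_commutatorElement, map_commutatorElement] at this
      exact (commutatorElement_eq_one_iff_commute).1 this
    have t2 : Commute (π b) ⁅π a, π c⁆ := by
      have := hπ ⁅b, ⁅a, c⁆⁆ (mem_RelP.2 (Or.inr (Or.inr (Or.inl rfl))))
      rw [map_commutatorElement, map_commutatorElement] at this
      exact (commutatorElement_eq_one_iff_commute).1 this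
    have t3 : Commute (π c) ⁅π a, π b⁆ := by
      have := hπ ⁅c, ⁅a, b⁆⁆ (mem_RelP.2 (Or.inr (Or.inr (Or.inr rfl))))
      rw [map_commutatorElement, map_commutatorElement] at this
      exact (commutatorElement_eq_one_iff_commute).1 this
    have hab := pair a b (Or.inl ⟨rfl, rfl⟩)
    have hac := pair a c (Or.inr (Or.inl ⟨rfl, rfl⟩))
    have hbc := pair b c (Or.inr (Or.inr ⟨rfl, rfl⟩))
    let PhiG : Fin 3 → T 3 ⧸ M →* E 3 := fun m => QuotientGroup.lift M ((Phi m).comp (T 3).subtype)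
      (fun t ht => Phi_C m (hMC t ht))
    let PsiG : Fin 3 → T 3 ⧸ M →* Equiv.Perm ℤ := fun m => QuotientGroup.lift M
      ((Psi m).comp (T 3).subtype) (fun t ht => Psi_C m (hMC t ht))
    let ThetaG : Fin 3 → T 3 ⧸ M →* Equiv.Perm O := fun m => QuotientGroup.lift M
      ((Theta m).comp (T 3).subtype) (fun t ht => Theta_C m (hMC t ht))
    have phik : ∀ (m : Fin 3) {i j l : Fin 3}, i ≠ j → i ≠ l → j ≠ l → Phi m (KT i j l) = kv m i j l :=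
      fun m {i j l} hij hil hjl =>
        Phi_T m _ hij hil hjl (KT_isT hij hil).1 (KT_isT hij hil).2
    obtain ⟨v1, v2, v3, v4, v5, v6, v7, v8, v9⟩ := vals
    obtain ⟨w1, w2, w3, w4, w5, w6, w7, w8, w9⟩ := valsO
    have hgen : π ⟨φ, hT⟩ ∈ Subgroup.closure ({π a, π b, π c} : Set (T 3 ⧸ M)) := by
      have h1 : ∀ ψ : IA 3, ∀ h : ψ ∈ T 3, (⟨ψ, h⟩ : T 3) ∈ Subgroup.closure ({a, b, c} : Set (T 3)) := by
        intro ψ h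
        have h2 : T 3 ≤ (Subgroup.closure ({a, b, c} : Set (T 3))).map (T 3).subtype := by
          rw [MonoidHom.map_closure]
          conv_lhs => rw [T]
          rw [Subgroup.closure_le]
          rintro φ ⟨i, j, k, h1, h2, h3, h4, h5⟩
          have hk : φ = KT i j k := by
            apply Subtype.ext
            apply aut_ext
            intro m
            by_cases hm : m = i
            · subst hm
              rw [h4, (KT_isT h1 h3.symm).1]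
            · rw [h5 m hm, (KT_isT h1 h3.symm).2 m hm]
          have cases : (i = 0 ∧ j = 1 ∧ k = 2) ∨ (i = 1 ∧ j = 0 ∧ k = 2) ∨ (i = 2 ∧ j = 0 ∧ k = 1) := by
            clear h4 h5 hk
            revert i j k; decide
          rw [SetLike.mem_coe, hk]
          rcases cases with ⟨rfl, rfl, rfl⟩ | ⟨rfl, rfl, rfl⟩ | ⟨rfl, rfl, rfl⟩
          · exact Subgroup.subset_closure ⟨a, by simp, rfl⟩
          · rw [KT_swap 1 2 0]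
            exact inv_mem (Subgroup.subset_closure ⟨b, by simp, rfl⟩)
          · exact Subgroup.subset_closure ⟨c, by simp, rfl⟩
        obtain ⟨x, hx, hx'⟩ := h2 h
        have : x = ⟨ψ, h⟩ := Subtype.ext hx'
        rwa [← this]
      have h3 := h1 φ hT
      have h4 := Subgroup.mem_map_of_mem π h3
      rw [MonoidHom.map_closure, Set.image_insert_eq, Set.image_insert_eq, Set.image_singleton] at h4
      exact h4
    have h0 : π ⟨φ, hT⟩ = 1 :=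
      detect3 (π a) (π b) (π c) hab.1 hac.1 hbc.1 hab.2 hac.2 hbc.2 t1 t2 t3 PhiG PsiG ThetaG
        (fun m => phik m (by decide) (by decide) (by decide))
        (fun m => phik m (by decide) (by decide) (by decide))
        (fun m => phik m (by decide) (by decide) (by decide))
        v1 v2 v3 v4 v5 v6 v7 v8 v9 w1 w2 w3 w4 w5 w6 w7 w8 w9
        hgen (fun m => Phi_C m hφ) (fun m => Psi_C m hφ) (fun m => Theta_C m hφ)
    exact (QuotientGroup.eq_one_iff _).1 h0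

end Pool.Agent.H76.IADet
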