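import Mathlib
import Pool.Agent.H76.Gen

set_option autoImplicit false

namespace Pool.Agent.H76.Hyp

open Filter

variable {G X : Type*} [Group G] [MetricSpace X] [MulAction G X]

/-- the sequence `u` converges at infinity (Gromov products tend to infinity) -/
def ConvInf (x : X) (u : ℕ → X) : Prop :=
  Tendsto (fun p : ℕ × ℕ => gp (u p.1) (u p.2) x) atTop atTop

/-- the sequences `u`, `v` define the same point of the Gromov boundary -/
def SameEnd (x : X) (u v : ℕ → X) : Prop :=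
  Tendsto (fun p : ℕ × ℕ => gp (u p.1) (v p.2) x) atTop atTop

theorem tendsto_pair {f : ℕ × ℕ → ℝ} : Tendsto f atTop atTop ↔ ∀ M : ℝ, ∃ N : ℕ, ∀ n m : ℕ, N ≤ n → N ≤ m → M ≤ f (n, m) := by
  rw [tendsto_atTop]
  constructor
  · intro h M
    have := h M
    rw [eventually_atTop] at this
    obtain ⟨⟨a, b⟩, hab⟩ := this
    exact ⟨max a b, fun n m hn hm => hab (n, m) ⟨(le_max_left _ _).trans hn, (le_max_right _ _).trans hm⟩⟩
  · intro h M
    obtain ⟨N, hN⟩ := h M
    rw [eventually_atTop]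
    exact ⟨(N, N), fun p hp => hN p.1 p.2 hp.1 hp.2⟩

/-- inequivalent sequences have bounded Gromov products from some point on -/
theorem bounded_of_not_sameEnd {δ : ℝ} (h : FourPt X δ) (hδ : 0 ≤ δ) {x : X} {u v : ℕ → X}
    (hu : ConvInf x u) (hv : ConvInf x v) (huv : ¬ SameEnd x u v) :
    ∃ (M : ℝ) (N : ℕ), ∀ n m, N ≤ n → N ≤ m → gp (u n) (v m) x < M := by
  unfold SameEnd at huv
  rw [tendsto_pair] at huv
  push Not at huv
  obtain ⟨M, hM⟩ := huv
  obtain ⟨N1, hN1⟩ := (tendsto_pair.mp hu) (M + 2 * δ + 1)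
  obtain ⟨N2, hN2⟩ := (tendsto_pair.mp hv) (M + 2 * δ + 1)
  obtain ⟨n0, m0, hn0, hm0, h0⟩ := hM (max N1 N2)
  refine ⟨M + 2 * δ + 1, max N1 N2, fun n m hn hm => ?_⟩
  by_contra hcon
  push Not at hcon
  have e1 := hN1 n0 n ((le_max_left _ _).trans hn0) ((le_max_left _ _).trans hn)
  have e2 := hN2 m m0 ((le_max_right _ _).trans hm) ((le_max_right _ _).trans hm0)
  have e3 := gp_ineq h (u n0) (u n) (v m) x
  have e4 : M + 2 * δ + 1 ≤ min (gp (u n0) (u n) x) (gp (u n) (v m) x) := le_min e1 hcon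
  have e5 := gp_ineq h (u n0) (v m) (v m0) x
  have e6 : M + δ + 1 ≤ min (gp (u n0) (v m) x) (gp (v m) (v m0) x) := le_min (by linarith) (by simp only at e2; linarith)
  simp only at h0
  linarith

/-- criterion for being loxodromic -/
theorem lox_of_large (hi : IsoAct G X) {δ : ℝ} (h : FourPt X δ) (hδ : 0 ≤ δ) {f : G} {x : X} {C0 : ℝ}
    (hC : 0 ≤ C0) (h1 : gp (f⁻¹ • x) (f • x) x ≤ C0) (h2 : 2 * C0 + (2 * δ + 1) ≤ dist x (f • x)) :
    Lox f x := by
  refine ⟨1, one_pos, fun k => ?_⟩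
  have hd1 : ∀ i : ℕ, dist (f ^ i • x) (f ^ (i+1) • x) = dist x (f • x) := by
    intro i
    rw [pow_succ, mul_smul, hi]
  have hg1 : ∀ i : ℕ, gp (f ^ i • x) (f ^ (i+2) • x) (f ^ (i+1) • x) ≤ C0 := by
    intro i
    have e1 : gp (f ^ i • x) (f ^ (i+2) • x) (f ^ (i+1) • x) = gp (f⁻¹ • x) (f • x) x := by
      have := gp_smul hi (f ^ (i+1)) (f⁻¹ • x) (f • x) x
      rw [← this, smul_smul, smul_smul, ← pow_succ, pow_succ f i, mul_assoc, mul_inv_cancel, mul_one]
    rw [e1]; exact h1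
  have := chain_dist h hδ (fun i : ℕ => f ^ i • x) C0 (2 * δ + 1) (by linarith) hC
    (fun i => hg1 i) (fun i => by rw [hd1 i]; exact h2) k
  simp only [pow_zero, one_smul] at this
  linarith

/-- two distinct limit points give a loxodromic element -/
theorem exists_lox (hi : IsoAct G X) {δ : ℝ} (h : FourPt X δ) (hδ : 0 ≤ δ) {x : X} {a b : ℕ → G}
    (ha : ConvInf x (fun n => a n • x)) (hb : ConvInf x (fun n => b n • x))
    (hab : ¬ SameEnd x (fun n => a n • x) (fun n => b n • x)) : ∃ g : G, Lox g x := by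
  obtain ⟨M, N, hMN⟩ := bounded_of_not_sameEnd h hδ ha hb hab
  -- enlarge M
  obtain ⟨M', hM'0, hM'⟩ : ∃ M' : ℝ, 0 ≤ M' ∧ M ≤ M' := ⟨max M 0, le_max_right _ _, le_max_left _ _⟩
  set L := 4 * M' + 20 * δ + 10 with hL
  obtain ⟨N1, hN1⟩ := (tendsto_pair.mp ha) L
  obtain ⟨N2, hN2⟩ := (tendsto_pair.mp hb) L
  set n := max N (max N1 N2) with hn
  have n1 : N ≤ n := le_max_left _ _
  have n2 : N1 ≤ n := (le_max_left _ _).trans (le_max_right _ _)
  have n3 : N2 ≤ n := (le_max_right _ _).trans (le_max_right _ _)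
  set g := a n with hg
  set k := b n with hk
  have lg : L ≤ dist x (g • x) := by
    have := hN1 n n n2 n2
    simp only at this
    have e := gp_le_left (g • x) (g • x) x
    rw [dist_comm] at e
    linarith
  have lk : L ≤ dist x (k • x) := by
    have := hN2 n n n3 n3
    simp only at this
    have e := gp_le_left (k • x) (k • x) x
    rw [dist_comm] at e
    linarith
  have hgk : gp (g • x) (k • x) x < M' := lt_of_lt_of_le (hMN n n n1 n1) hM'
  by_cases hlg : Lox g x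
  · exact ⟨g, hlg⟩
  by_cases hlk : Lox k x
  · exact ⟨k, hlk⟩
  -- nonloxodromic elements have large gp
  have key : ∀ f : G, ¬ Lox f x → dist x (f • x) < 2 * gp (f⁻¹ • x) (f • x) x + (2 * δ + 1) := by
    intro f hf
    by_contra hcon
    push Not at hcon
    exact hf (lox_of_large hi h hδ (gp_nonneg _ _ _) le_rfl hcon)
  have kg := key g hlg
  have kk := key k hlk
  have dinv : ∀ f : G, dist x (f⁻¹ • x) = dist x (f • x) := by
    intro f
    rw [← hi f x (f⁻¹ • x), smul_smul, mul_inv_cancel, one_smul, dist_comm]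
  -- (g⁻¹ x | k x) small
  have s1 : gp (g⁻¹ • x) (k • x) x ≤ M' + δ := by
    by_contra hcon
    push Not at hcon
    have e1 := gp_ineq h (g • x) (g⁻¹ • x) (k • x) x
    have e2 : M' + δ < min (gp (g • x) (g⁻¹ • x) x) (gp (g⁻¹ • x) (k • x) x) := by
      apply lt_min _ hcon
      rw [gp_comm]; linarith
    linarith
  have s2 : gp (g • x) (k⁻¹ • x) x ≤ M' + δ := by
    by_contra hcon
    push Not at hcon
    have e1 := gp_ineq h (g • x) (k⁻¹ • x) (k • x) x
    have e2 : M' + δ < min (gp (g • x) (k⁻¹ • x) x) (gp (k⁻¹ • x) (k • x) x) := by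
      apply lt_min hcon
      linarith
    linarith
  -- the product
  set f := g * k with hf
  have d1 : dist x (f • x) = dist x (g • x) + dist x (k • x) - 2 * gp (g⁻¹ • x) (k • x) x := by
    have e1 : dist x (f • x) = dist (g⁻¹ • x) (k • x) := by
      rw [← hi g (g⁻¹ • x) (k • x), smul_smul, smul_smul, mul_inv_cancel, one_smul]
    rw [e1, dist_eq_gp (g⁻¹ • x) (k • x) x, dist_comm (g⁻¹ • x) x, dinv, dist_comm (k • x) x]
  have p1 : dist x (g • x) - M' - δ ≤ gp (g • x) (f • x) x := by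
    have e1 := gp_add (g • x) (f • x) x
    have e2 : gp x (f • x) (g • x) = gp (g⁻¹ • x) (k • x) x := by
      rw [← gp_smul hi g (g⁻¹ • x) (k • x) x, smul_smul, smul_smul, mul_inv_cancel, one_smul]
    rw [e2, dist_comm (g • x) x] at e1
    linarith
  have p2 : dist x (k • x) - M' - δ ≤ gp (f⁻¹ • x) (k⁻¹ • x) x := by
    have e1 := gp_add (k⁻¹ • x) (f⁻¹ • x) x
    have e2 : gp x (f⁻¹ • x) (k⁻¹ • x) = gp (g⁻¹ • x) (k • x) x := by
      rw [← gp_smul hi k x (f⁻¹ • x) (k⁻¹ • x), smul_smul, smul_smul, mul_inv_cancel, one_smul, hf,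
        mul_inv_rev, ← mul_assoc, mul_inv_cancel, one_mul, gp_comm]
    rw [e2, dist_comm (k⁻¹ • x) x, dinv, gp_comm] at e1
    linarith
  have p3 : gp (f⁻¹ • x) (f • x) x ≤ M' + 3 * δ := by
    by_contra hcon
    push Not at hcon
    have e1 := gp_ineq h (g • x) (f • x) (f⁻¹ • x) x
    have e2 : M' + 3 * δ < min (gp (g • x) (f • x) x) (gp (f • x) (f⁻¹ • x) x) := by
      apply lt_min
      · linarith
      · rw [gp_comm]; exact hcon
    have e3 := gp_ineq h (g • x) (f⁻¹ • x) (k⁻¹ • x) x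
    have e4 : M' + 2 * δ < min (gp (g • x) (f⁻¹ • x) x) (gp (f⁻¹ • x) (k⁻¹ • x) x) := by
      apply lt_min
      · linarith
      · linarith
    linarith
  refine ⟨f, lox_of_large hi h hδ (C0 := M' + 3 * δ) (by positivity) p3 ?_⟩
  linarith

/-- coset description of `EE g` when it is everything -/
theorem cosets_of_EE (hi : IsoAct G X) {δ : ℝ} (h : FourPt X δ) (hδ : 0 ≤ δ) (ha : Acyl G X)
    {g : G} {x : X} (hg : Lox g x) (htop : ∀ y : G, y ∈ EE g) :
    ∃ F' : Set G, F'.Finite ∧ ∀ y : G, ∃ m : ℤ, g ^ m * y ∈ F' := by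
  obtain ⟨F, hF, hFy⟩ := finite_core hi h hδ ha hg
  have key : ∀ y : G, (∃ k : ℕ, 0 < k ∧ y * g ^ k = g ^ k * y) ∨
      (∃ k : ℕ, 0 < k ∧ y * g ^ k = (g ^ k)⁻¹ * y) := by
    intro y
    obtain ⟨k, hk, e, he, h1⟩ := htop y
    obtain ⟨k', rfl⟩ : ∃ k' : ℕ, k = k' := ⟨k.toNat, by omega⟩
    rcases he with rfl | rfl
    · left
      refine ⟨k', by omega, ?_⟩
      rw [one_mul, zpow_natCast] at h1
      rw [mul_inv_eq_iff_eq_mul] at h1
      exact h1
    · right
      refine ⟨k', by omega, ?_⟩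
      rw [neg_one_mul, zpow_neg, zpow_natCast] at h1
      rw [mul_inv_eq_iff_eq_mul] at h1
      exact h1
  by_cases hex : ∃ e0 : G, ∃ k : ℕ, 0 < k ∧ e0 * g ^ k = (g ^ k)⁻¹ * e0
  · obtain ⟨e0, k0, hk0, he0⟩ := hex
    refine ⟨F ∪ (fun u => u * e0⁻¹) '' F, hF.union (hF.image _), fun y => ?_⟩
    rcases key y with hy | ⟨k, hk, hy⟩
    · obtain ⟨m, hm⟩ := hFy y hy
      exact ⟨m, Or.inl hm⟩
    · have : ∃ k' : ℕ, 0 < k' ∧ (y * e0) * g ^ k' = g ^ k' * (y * e0) := by
        refine ⟨k * k0, by positivity, ?_⟩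
        have e1 : e0 * g ^ (k * k0) = (g ^ (k * k0))⁻¹ * e0 := by
          have s1 : SemiconjBy e0 (g ^ k0) (g ^ k0)⁻¹ := he0
          have s2 := s1.pow_right k
          rw [inv_pow, ← pow_mul, mul_comm] at s2
          exact s2
        have e2 : y * (g ^ (k * k0))⁻¹ = g ^ (k * k0) * y := by
          have s1 : SemiconjBy y (g ^ k) (g ^ k)⁻¹ := hy
          have s2 := s1.pow_right k0
          rw [inv_pow, ← pow_mul] at s2
          have s3 := s2.inv_right
          rw [inv_inv] at s3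
          exact s3
        rw [mul_assoc, e1, ← mul_assoc, e2, mul_assoc]
      obtain ⟨m, hm⟩ := hFy _ this
      refine ⟨m, Or.inr ⟨_, hm, ?_⟩⟩
      group
  · refine ⟨F, hF, fun y => ?_⟩
    rcases key y with hy | hy
    · exact hFy y hy
    · exact absurd ⟨y, hy⟩ hex

/-- three distinct limit points exclude `EE g = G` -/
theorem not_EE_top (hi : IsoAct G X) {δ : ℝ} (h : FourPt X δ) (hδ : 0 ≤ δ) (ha : Acyl G X)
    {g : G} {x : X} (hg : Lox g x) (a : Fin 3 → ℕ → G)
    (hconv : ∀ i, ConvInf x (fun n => a i n • x))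
    (hne : ∀ i j, i ≠ j → ¬ SameEnd x (fun n => a i n • x) (fun n => a j n • x)) :
    ∃ y : G, y ∉ EE g := by
  by_contra hcon
  push Not at hcon
  obtain ⟨F, hF, hFy⟩ := cosets_of_EE hi h hδ ha hg hcon
  obtain ⟨C, hC⟩ := hg.gp_bdd hi h hδ
  have hC' : MorseC g x C := hC
  -- bound on F
  obtain ⟨B, hB⟩ : ∃ B : ℝ, ∀ f ∈ F, dist x (f • x) ≤ B := by
    obtain ⟨B, hB⟩ := (hF.image (fun f => dist x (f • x))).bddAbove
    exact ⟨B, fun f hf => hB ⟨f, hf, rfl⟩⟩
  have hclose : ∀ y : G, ∃ m : ℤ, dist (y • x) (g ^ m • x) ≤ B := by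
    intro y
    obtain ⟨m, hm⟩ := hFy y
    refine ⟨-m, ?_⟩
    have := hB _ hm
    have e : dist (y • x) (g ^ (-m) • x) = dist x ((g ^ m * y) • x) := by
      rw [← hi (g ^ m) (y • x) (g ^ (-m) • x), smul_smul, smul_smul, ← zpow_add, add_neg_cancel, zpow_zero,
        one_smul, dist_comm]
    rw [e]; exact this
  choose m hm using fun i n => hclose (a i n)
  -- sign pattern
  have hsign : ∀ i : Fin 3, (∃ᶠ n in atTop, 0 ≤ m i n) ∨ (∃ᶠ n in atTop, m i n ≤ 0) := by
    intro i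
    rw [← frequently_or_distrib]
    exact (Eventually.of_forall (fun n => le_total 0 (m i n))).frequently
  obtain ⟨i, j, hij, hsame⟩ : ∃ i j : Fin 3, i ≠ j ∧
      (((∃ᶠ n in atTop, 0 ≤ m i n) ∧ (∃ᶠ n in atTop, 0 ≤ m j n)) ∨
       ((∃ᶠ n in atTop, m i n ≤ 0) ∧ (∃ᶠ n in atTop, m j n ≤ 0))) := by
    rcases hsign 0 with h0 | h0 <;> rcases hsign 1 with h1 | h1 <;> rcases hsign 2 with h2 | h2
    · exact ⟨0, 1, by decide, Or.inl ⟨h0, h1⟩⟩
    · exact ⟨0, 1, by decide, Or.inl ⟨h0, h1⟩⟩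
    · exact ⟨0, 2, by decide, Or.inl ⟨h0, h2⟩⟩
    · exact ⟨1, 2, by decide, Or.inr ⟨h1, h2⟩⟩
    · exact ⟨1, 2, by decide, Or.inl ⟨h1, h2⟩⟩
    · exact ⟨0, 2, by decide, Or.inr ⟨h0, h2⟩⟩
    · exact ⟨0, 1, by decide, Or.inr ⟨h0, h1⟩⟩
    · exact ⟨0, 1, by decide, Or.inr ⟨h0, h1⟩⟩
  obtain ⟨M, N, hMN⟩ := bounded_of_not_sameEnd h hδ (hconv i) (hconv j) (hne i j hij)
  -- large displacement
  set L := M + 2 * B + C + 1 with hL
  obtain ⟨N1, hN1⟩ := (tendsto_pair.mp (hconv i)) (L + B)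
  obtain ⟨N2, hN2⟩ := (tendsto_pair.mp (hconv j)) (L + B)
  set N' := max N (max N1 N2) with hN'
  have q1 : N ≤ N' := le_max_left _ _
  have q2 : N1 ≤ N' := (le_max_left _ _).trans (le_max_right _ _)
  have q3 : N2 ≤ N' := (le_max_right _ _).trans (le_max_right _ _)
  have hgp : ∀ p q : ℤ, ((0 ≤ p ∧ 0 ≤ q) ∨ (p ≤ 0 ∧ q ≤ 0)) →
      min (dist x (g ^ p • x)) (dist x (g ^ q • x)) - C ≤ gp (g ^ p • x) (g ^ q • x) x := by
    intro p q hpq
    -- base computation
    have base : ∀ p q : ℤ, ((0 ≤ p ∧ p ≤ q) ∨ (q ≤ p ∧ p ≤ 0)) →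
        dist x (g ^ p • x) - C ≤ gp (g ^ p • x) (g ^ q • x) x := by
      intro p q hpq
      have e1 := gp_add (g ^ p • x) (g ^ q • x) x
      have e2 : gp x (g ^ q • x) (g ^ p • x) ≤ C := by
        rcases hpq with ⟨h1, h2⟩ | ⟨h1, h2⟩
        · have := hC'.2 0 p q h1 h2
          rwa [zpow_zero, one_smul] at this
        · have := hC'.rev 0 p q h1 h2
          rwa [zpow_zero, one_smul] at this
      rw [dist_comm (g ^ p • x) x] at e1
      linarith
    rcases hpq with ⟨h1, h2⟩ | ⟨h1, h2⟩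
    · rcases le_total p q with h3 | h3
      · have := base p q (Or.inl ⟨h1, h3⟩)
        have := min_le_left (dist x (g ^ p • x)) (dist x (g ^ q • x))
        linarith
      · have := base q p (Or.inl ⟨h2, h3⟩)
        rw [gp_comm] at this
        have := min_le_right (dist x (g ^ p • x)) (dist x (g ^ q • x))
        linarith
    · rcases le_total p q with h3 | h3
      · have := base q p (Or.inr ⟨h3, h2⟩)
        rw [gp_comm] at this
        have := min_le_right (dist x (g ^ p • x)) (dist x (g ^ q • x))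
        linarith
      · have := base p q (Or.inr ⟨h3, h1⟩)
        have := min_le_left (dist x (g ^ p • x)) (dist x (g ^ q • x))
        linarith
  have hfin : ∀ n k : ℕ, N' ≤ n → N' ≤ k → ((0 ≤ m i n ∧ 0 ≤ m j k) ∨ (m i n ≤ 0 ∧ m j k ≤ 0)) → False := by
    intro n k hn hk hs
    have e1 := hMN n k (q1.trans hn) (q1.trans hk)
    have e2 : L + B ≤ dist x (a i n • x) := by
      have f1 := hN1 n n (q2.trans hn) (q2.trans hn)
      have f2 := gp_le_left (a i n • x) (a i n • x) x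
      rw [dist_comm] at f2
      simp only at f1
      linarith
    have e3 : L + B ≤ dist x (a j k • x) := by
      have f1 := hN2 k k (q3.trans hk) (q3.trans hk)
      have f2 := gp_le_left (a j k • x) (a j k • x) x
      rw [dist_comm] at f2
      simp only at f1
      linarith
    have e4 : L ≤ dist x (g ^ m i n • x) := by
      have := dist_triangle x (g ^ m i n • x) (a i n • x)
      have f := hm i n
      rw [dist_comm] at f
      linarith
    have e5 : L ≤ dist x (g ^ m j k • x) := by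
      have := dist_triangle x (g ^ m j k • x) (a j k • x)
      have f := hm j k
      rw [dist_comm] at f
      linarith
    have e6 := hgp _ _ hs
    have e7 : L ≤ min (dist x (g ^ m i n • x)) (dist x (g ^ m j k • x)) := le_min e4 e5
    have e8 := gp_lip_left (g ^ m i n • x) (a i n • x) (g ^ m j k • x) x
    have e9 := gp_lip_right (a i n • x) (g ^ m j k • x) (a j k • x) x
    have f1 := hm i n
    have f2 := hm j k
    rw [dist_comm] at f1 f2
    linarith
  rcases hsame with ⟨h1, h2⟩ | ⟨h1, h2⟩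
  · obtain ⟨n, hn, hn'⟩ := (frequently_atTop.mp h1) N'
    obtain ⟨k, hk, hk'⟩ := (frequently_atTop.mp h2) N'
    exact hfin n k hn hk (Or.inl ⟨hn', hk'⟩)
  · obtain ⟨n, hn, hn'⟩ := (frequently_atTop.mp h1) N'
    obtain ⟨k, hk, hk'⟩ := (frequently_atTop.mp h2) N'
    exact hfin n k hn hk (Or.inr ⟨hn', hk'⟩)

end Pool.Agent.H76.Hyp
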